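import Pool.Agent.Lib.MP_1707ab_an.N2.SpecH

/-!
# H-CHAIN
-/

set_option autoImplicit false

open scoped Topology BigOperators Classical

namespace MP1707
namespace H
namespace ChainM

lemma co_add (u x y : ℂ) : co u (x + y) = co u x + co u y := by
  simp [co, mul_add]

lemma co_sub (u x y : ℂ) : co u (x - y) = co u x - co u y := by
  simp [co, mul_sub]

lemma conj_mul_self {u : ℂ} (hu : ‖u‖ = 1) : (starRingEnd ℂ u) * u = 1 := by
  have := Complex.conj_mul' u
  rw [this, hu]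
  norm_num

lemma co_mul {u : ℂ} (hu : ‖u‖ = 1) (t : ℝ) : co u (u * (t : ℂ)) = t := by
  rw [co, ← mul_assoc, conj_mul_self hu, one_mul, Complex.ofReal_re]

lemma co_mulI {u : ℂ} (hu : ‖u‖ = 1) (t : ℝ) : co u (u * Complex.I * (t : ℂ)) = 0 := by
  rw [co, mul_assoc, ← mul_assoc, conj_mul_self hu, one_mul]
  simp

/-- gadget node -/
noncomputable def g (u h : ℂ) (M : ℕ) (d ρ : ℝ) (i : ℕ) : ℂ :=
  h + u * ((((i : ℝ) - 2 - M) * d : ℝ) : ℂ) + u * Complex.I * (((-1 : ℝ) ^ i * ρ : ℝ) : ℂ)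

variable (u v a h b v' : ℂ) (M : ℕ) (d ρ : ℝ)

lemma cn0 : cn u v a h b v' M d ρ 0 = v := by simp [cn]
lemma cn1 : cn u v a h b v' M d ρ 1 = a := by simp [cn]
lemma cng (i : ℕ) (h1 : 2 ≤ i) (h2 : i ≤ 2 * M + 2) :
    cn u v a h b v' M d ρ i = g u h M d ρ i := by
  rw [cn, if_neg (by omega), if_neg (by omega), if_pos h2, g]
lemma cn3 : cn u v a h b v' M d ρ (2 * M + 3) = b := by
  rw [cn, if_neg (by omega), if_neg (by omega), if_neg (by omega), if_pos rfl]
lemma cn4 : cn u v a h b v' M d ρ (2 * M + 4) = v' := by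
  rw [cn, if_neg (by omega), if_neg (by omega), if_neg (by omega), if_neg (by omega)]

variable {u v a h b v' M d ρ}

lemma norm_combo (hu : ‖u‖ = 1) (x y : ℝ) :
    ‖u * (x : ℂ) + u * Complex.I * (y : ℂ)‖ ≤ |x| + |y| := by
  refine (norm_add_le _ _).trans ?_
  rw [norm_mul, norm_mul, norm_mul, hu, Complex.norm_I, Complex.norm_real, Complex.norm_real]
  simp

lemma le_norm_combo (hu : ‖u‖ = 1) (x y : ℝ) :
    |y| ≤ ‖u * (x : ℂ) + u * Complex.I * (y : ℂ)‖ := by
  have e : u * (x : ℂ) + u * Complex.I * (y : ℂ) = u * ((x : ℂ) + Complex.I * y) := by ring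
  rw [e, norm_mul, hu, one_mul]
  have := Complex.abs_im_le_norm ((x : ℂ) + Complex.I * y)
  simpa using this

lemma g_sub (i : ℕ) : g u h M d ρ i - h =
    u * ((((i : ℝ) - 2 - M) * d : ℝ) : ℂ) + u * Complex.I * (((-1 : ℝ) ^ i * ρ : ℝ) : ℂ) := by
  rw [g]; ring

lemma abs_pow_mul (i : ℕ) (t : ℝ) : |(-1 : ℝ) ^ i * t| = |t| := by
  rw [abs_mul, abs_pow, abs_neg, abs_one, one_pow, one_mul]

lemma g_step (i : ℕ) : g u h M d ρ (i + 1) - g u h M d ρ i =
    u * ((d : ℝ) : ℂ) + u * Complex.I * (((-1 : ℝ) ^ (i + 1) * (2 * ρ) : ℝ) : ℂ) := by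
  rw [g, g, pow_succ]
  push_cast
  ring

/-- positions, when `ρ = r` or `ρ = 0` -/
lemma g_near {r : ℝ} (hu : ‖u‖ = 1) (hr : 0 < r) (hM : 1 ≤ M) (hρ0 : 0 ≤ ρ) (hρ : ρ ≤ r)
    (i : ℕ) (h1 : 2 ≤ i) (h2 : i ≤ 2 * M + 2) : ‖g u h M (r / M) ρ i - h‖ ≤ 2 * r := by
  rw [g_sub]
  refine (norm_combo hu _ _).trans ?_
  rw [abs_pow_mul, abs_of_nonneg hρ0]
  have hM' : (0 : ℝ) < M := by exact_mod_cast hM
  have h1' : (2 : ℝ) ≤ i := by exact_mod_cast h1
  have h2' : (i : ℝ) ≤ 2 * M + 2 := by exact_mod_cast h2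
  have h3 : |((i : ℝ) - 2 - M) * (r / M)| ≤ r := by
    rw [abs_mul, abs_of_pos (show 0 < r / M by positivity)]
    have : |(i : ℝ) - 2 - M| ≤ M := abs_le.2 ⟨by linarith, by linarith⟩
    calc |(i : ℝ) - 2 - M| * (r / M) ≤ M * (r / M) := by gcongr
      _ = r := by field_simp
  linarith

lemma cb0 (β β' : ℂ) : cb β β' M 0 = β := by simp [cb]
lemma cb1 (β β' : ℂ) : cb β β' M 1 = β := by simp [cb]
lemma cbg (β β' : ℂ) (i : ℕ) (h1 : 2 ≤ i) (h2 : i ≤ 2 * M + 2) :
    cb β β' M i = β + ((((i : ℝ) - 2) / (2 * M) : ℝ) : ℂ) * (β' - β) := by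
  rw [cb, if_neg (by omega), if_pos h2]
lemma cb2 (β β' : ℂ) : cb β β' M 2 = β := by
  rw [cbg β β' 2 le_rfl (by omega)]
  simp
lemma cbM (hM : 1 ≤ M) (β β' : ℂ) : cb β β' M (2 * M + 2) = β' := by
  rw [cbg β β' (2 * M + 2) (by omega) le_rfl]
  have hM' : (0 : ℝ) < M := by exact_mod_cast hM
  have : (((2 * M + 2 : ℕ) : ℝ) - 2) / (2 * M) = 1 := by
    push_cast
    field_simp
    ring
  rw [this]
  simp
lemma cbl (β β' : ℂ) (i : ℕ) (h1 : 2 * M + 3 ≤ i) : cb β β' M i = β' := by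
  rw [cb, if_neg (by omega), if_neg (by omega)]

lemma cb_bound (hM : 1 ≤ M) {β β' : ℂ} {c : ℝ} (h1 : ‖β‖ ≤ c) (h2 : ‖β'‖ ≤ c) (i : ℕ) :
    ‖cb β β' M i‖ ≤ c := by
  rcases le_or_gt i 1 with hi | hi
  · rw [cb, if_pos hi]; exact h1
  rcases le_or_gt i (2 * M + 2) with hi' | hi'
  · rw [cbg β β' i hi hi']
    have hM' : (0 : ℝ) < M := by exact_mod_cast hM
    have h1' : (2 : ℝ) ≤ i := by exact_mod_cast hi
    have h2' : (i : ℝ) ≤ 2 * M + 2 := by exact_mod_cast hi'
    set t : ℝ := ((i : ℝ) - 2) / (2 * M) with ht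
    have t0 : 0 ≤ t := div_nonneg (by linarith) (by positivity)
    have t1 : t ≤ 1 := by
      rw [ht, div_le_one (by positivity)]
      linarith
    have e : β + (t : ℂ) * (β' - β) = ((1 - t : ℝ) : ℂ) * β + (t : ℂ) * β' := by
      push_cast; ring
    rw [e]
    refine (norm_add_le _ _).trans ?_
    rw [norm_mul, norm_mul, Complex.norm_real, Complex.norm_real, Real.norm_of_nonneg t0,
      Real.norm_of_nonneg (by linarith)]
    nlinarith [norm_nonneg β, norm_nonneg β']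
  · rw [cbl β β' i hi']; exact h2

lemma cb_step (hM : 1 ≤ M) (β β' : ℂ) (i : ℕ) (h1 : 2 ≤ i) (h2 : i < 2 * M + 2) :
    cb β β' M (i + 1) - cb β β' M i = ((1 / (2 * M) : ℝ) : ℂ) * (β' - β) := by
  rw [cbg β β' (i + 1) (by omega) (by omega), cbg β β' i h1 h2.le]
  have hM' : (0 : ℝ) < M := by exact_mod_cast hM
  have : (((i + 1 : ℕ) : ℝ) - 2) / (2 * M) = ((i : ℝ) - 2) / (2 * M) + 1 / (2 * M) := by
    push_cast
    field_simp
    ring
  rw [this]
  push_cast
  ring

/-- the step index is either special (equal slopes) or a gadget step -/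
lemma cb_eq (hM : 1 ≤ M) (β β' : ℂ) (i : ℕ) (h2 : ¬ (2 ≤ i ∧ i < 2 * M + 2)) :
    cb β β' M (i + 1) = cb β β' M i := by
  rcases Nat.lt_or_ge i 2 with hi | hi
  · interval_cases i
    · rw [cb0, cb1]
    · rw [cb1, cb2]
  · have hi2 : 2 * M + 2 ≤ i := by
      by_contra hc
      exact h2 ⟨hi, by omega⟩
    rcases hi2.eq_or_lt with hi3 | hi3
    · rw [← hi3, cbM hM, cbl β β' _ (by omega)]
    · rw [cbl β β' i hi3, cbl β β' (i + 1) (by omega)]

end ChainM

open ChainM

theorem specChain : SpecChain := by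
  intro u v a h b v' f β β' M r ρ H z j1 j0
  obtain ⟨hu, hr, hr1, hM, hMr, hMr', hρ, o1, o2, o3, o4, d1, d2, d3, d4, hf, hβ, hβ'⟩ := H
  have hM' : (0 : ℝ) < M := by exact_mod_cast hM
  have hM1 : (1 : ℝ) ≤ M := by exact_mod_cast hM
  have hd : 0 < r / M := by positivity
  have hdr : r / M ≤ r := div_le_self hr.le hM1
  have hρ0 : 0 ≤ ρ := by rcases hρ with h | ⟨h, _, _⟩ <;> rw [h]; exact hr.le
  have hρr : ρ ≤ r := by rcases hρ with h | ⟨h, _, _⟩ <;> rw [h]; exact hr.le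
  have z0 : z 0 = v := cn0 ..
  have z1 : z 1 = a := cn1 ..
  have zg : ∀ i, 2 ≤ i → i ≤ 2 * M + 2 → z i = g u h M (r / M) ρ i := fun i h1 h2 => cng _ _ _ _ _ _ _ _ _ i h1 h2
  have z3 : z (2 * M + 3) = b := cn3 ..
  have z4 : z (2 * M + 4) = v' := cn4 ..
  have near : ∀ i, 2 ≤ i → i ≤ 2 * M + 2 → ‖z i - h‖ ≤ 2 * r := fun i h1 h2 => by
    rw [zg i h1 h2]; exact g_near hu hr hM hρ0 hρr i h1 h2
  have nearA : ∀ i, i ≤ 2 * M + 4 → ‖z i - h‖ ≤ 1 / 10 := by
    intro i hi
    rcases Nat.lt_or_ge i 2 with h1 | h1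
    · interval_cases i
      · rw [z0]; exact d1
      · rw [z1]; exact d2
    rcases Nat.lt_or_ge (2 * M + 2) i with h2 | h2
    · obtain rfl | rfl : i = 2 * M + 3 ∨ i = 2 * M + 4 := by omega
      · rw [z3]; exact d3
      · rw [z4]; exact d4
    · exact (near i h1 h2).trans (by linarith)
  have coG : ∀ i, co u (g u h M (r / M) ρ i) = co u h + ((i : ℝ) - 2 - M) * (r / M) := by
    intro i
    rw [g, co_add, co_add, co_mul hu, co_mulI hu, add_zero]
  have j1b : ∀ i, ‖j1 i‖ ≤ 3 / 8 := fun i => cb_bound hM hβ hβ' i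
  refine ⟨z0, z4, cb0 _ _, cbl _ _ _ (by omega), ?_, ?_, ?_, ?_, ?_⟩
  · -- increasing
    intro i hi
    rcases Nat.lt_or_ge i 2 with h1 | h1
    · interval_cases i
      · rw [z0, z1]; exact o1
      · rw [z1, zg 2 le_rfl (by omega), coG]
        refine o2.trans_le (le_of_eq ?_)
        push_cast
        field_simp
        ring
    rcases Nat.lt_or_ge i (2 * M + 2) with h2 | h2
    · rw [zg i h1 h2.le, zg (i + 1) (by omega) (by omega), coG, coG]
      push_cast
      nlinarith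
    · obtain rfl | rfl : i = 2 * M + 2 ∨ i = 2 * M + 3 := by omega
      · rw [z3, zg (2 * M + 2) (by omega) le_rfl, coG]
        refine lt_of_eq_of_lt ?_ o3
        push_cast
        field_simp
        ring
      · rw [z3, z4]; exact o4
  · intro i hi
    have h1 := nearA i hi.le
    have h2 := nearA (i + 1) hi
    have e : z (i + 1) - z i = (z (i + 1) - h) - (z i - h) := by ring
    rw [e]
    refine (norm_sub_le _ _).trans ?_
    linarith
  · intro i hi
    have h1 := j1b i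
    refine ⟨?_, h1.trans (by norm_num)⟩
    change ‖f + j1 i * (z i - h)‖ ≤ 1 / 2
    refine (norm_add_le _ _).trans ?_
    rw [norm_mul]
    have h2 := nearA i hi
    have h3 : ‖j1 i‖ * ‖z i - h‖ ≤ 3 / 8 * (1 / 10) := by gcongr
    linarith
  · intro i hi
    have e1 : j0 (i + 1) - j0 i - j1 i * (z (i + 1) - z i) = (j1 (i + 1) - j1 i) * (z (i + 1) - h) := by
      change f + j1 (i + 1) * (z (i + 1) - h) - (f + j1 i * (z i - h)) - _ = _
      ring
    have e2 : j0 i - j0 (i + 1) - j1 (i + 1) * (z i - z (i + 1)) = (j1 i - j1 (i + 1)) * (z i - h) := by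
      change f + j1 i * (z i - h) - (f + j1 (i + 1) * (z (i + 1) - h)) - _ = _
      ring
    rw [e1, e2]
    by_cases hc : 2 ≤ i ∧ i < 2 * M + 2
    · have hs : j1 (i + 1) - j1 i = ((1 / (2 * M) : ℝ) : ℂ) * (β' - β) := cb_step hM β β' i hc.1 hc.2
      have hs' : j1 i - j1 (i + 1) = -(((1 / (2 * M) : ℝ) : ℂ) * (β' - β)) := by rw [← hs]; ring
      rcases hρ with h0 | ⟨h0, hb, hb'⟩
      · have n1 := near i hc.1 hc.2.le
        have n2 := near (i + 1) (by omega) (by omega)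
        have len : 2 * r ≤ ‖z (i + 1) - z i‖ := by
          rw [zg i hc.1 hc.2.le, zg (i + 1) (by omega) (by omega), g_step]
          refine le_trans (le_of_eq ?_) (le_norm_combo hu _ _)
          rw [abs_pow_mul, h0, abs_of_pos (by linarith)]
        have hn : ‖((1 / (2 * M) : ℝ) : ℂ) * (β' - β)‖ ≤ 3 / (8 * M) := by
          rw [norm_mul, Complex.norm_real, Real.norm_of_nonneg (by positivity)]
          have : ‖β' - β‖ ≤ 3 / 4 := (norm_sub_le _ _).trans (by linarith)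
          calc 1 / (2 * (M : ℝ)) * ‖β' - β‖ ≤ 1 / (2 * (M : ℝ)) * (3 / 4) := by gcongr
            _ = 3 / (8 * M) := by field_simp; norm_num
        have key : 3 / (8 * (M : ℝ)) * (2 * r) ≤ 1 / 100 * (2 * r) ^ 2 := by
          rw [div_mul_eq_mul_div, div_le_iff₀ (by positivity)]
          nlinarith
        have key2 : 1 / 100 * (2 * r) ^ 2 ≤ 1 / 100 * ‖z (i + 1) - z i‖ ^ 2 := by gcongr
        constructor
        · rw [hs, norm_mul]
          refine le_trans ?_ (key.trans key2)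
          gcongr
        · rw [hs', norm_mul, norm_neg]
          refine le_trans ?_ (key.trans key2)
          gcongr
      · rw [hs, hs', hb, hb']
        simp only [sub_self, mul_zero, neg_zero, zero_mul, norm_zero]
        constructor <;> positivity
    · have hs : j1 (i + 1) = j1 i := cb_eq hM β β' i hc
      rw [hs]
      simp only [sub_self, zero_mul, norm_zero]
      constructor <;> positivity
  · intro A B S hS h0
    have S0 : 0 ≤ S := (norm_nonneg _).trans (hS 0 (by omega))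
    have hmax : ∀ i, i < 2 * M + 4 → max ‖A * z i + B‖ ‖A * z (i + 1) + B‖ ≤ S := fun i hi =>
      max_le (hS i hi.le) (hS (i + 1) hi)
    have hsum : ∑ i ∈ Finset.range (2 * M + 4),
        ‖z (i + 1) - z i‖ * max ‖A * z i + B‖ ‖A * z (i + 1) + B‖ =
        (∑ i ∈ Finset.range (2 * M), ‖z (i + 2 + 1) - z (i + 2)‖ *
          max ‖A * z (i + 2) + B‖ ‖A * z (i + 2 + 1) + B‖) +
        ‖z 2 - z 1‖ * max ‖A * z 1 + B‖ ‖A * z 2 + B‖ + ‖z 1 - z 0‖ * max ‖A * z 0 + B‖ ‖A * z 1 + B‖ +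
        ‖z (2 * M + 3) - z (2 * M + 2)‖ * max ‖A * z (2 * M + 2) + B‖ ‖A * z (2 * M + 3) + B‖ +
        ‖z (2 * M + 4) - z (2 * M + 3)‖ * max ‖A * z (2 * M + 3) + B‖ ‖A * z (2 * M + 4) + B‖ := by
      rw [show 2 * M + 4 = (2 * M + 3) + 1 from rfl, Finset.sum_range_succ,
        show 2 * M + 3 = (2 * M + 2) + 1 from rfl, Finset.sum_range_succ,
        show 2 * M + 2 = (2 * M + 1) + 1 from rfl, Finset.sum_range_succ',
        show 2 * M + 1 = (2 * M) + 1 from rfl, Finset.sum_range_succ']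
    rw [hsum]
    have t0 : ‖z 1 - z 0‖ * max ‖A * z 0 + B‖ ‖A * z 1 + B‖ ≤ ‖a - v‖ * S := by
      have h1 := hmax 0 (by omega)
      have h2 : ‖z 1 - z 0‖ ≤ ‖a - v‖ := by rw [z1, z0]
      gcongr
    have t1 : ‖z 2 - z 1‖ * max ‖A * z 1 + B‖ ‖A * z 2 + B‖ ≤ (‖h - a‖ + 2 * r) * S := by
      have h1 := hmax 1 (by omega)
      have h2 : ‖z 2 - z 1‖ ≤ ‖h - a‖ + 2 * r := by
        rw [z1, show z 2 - a = (z 2 - h) + (h - a) by ring]
        refine (norm_add_le _ _).trans ?_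
        linarith [near 2 le_rfl (by omega)]
      gcongr
    have t2 : ‖z (2 * M + 3) - z (2 * M + 2)‖ * max ‖A * z (2 * M + 2) + B‖ ‖A * z (2 * M + 3) + B‖ ≤
        (‖b - h‖ + 2 * r) * S := by
      have h1 := hmax (2 * M + 2) (by omega)
      have h2 : ‖z (2 * M + 3) - z (2 * M + 2)‖ ≤ ‖b - h‖ + 2 * r := by
        rw [z3, show b - z (2 * M + 2) = (b - h) - (z (2 * M + 2) - h) by ring]
        refine (norm_sub_le _ _).trans ?_
        linarith [near (2 * M + 2) (by omega) le_rfl]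
      gcongr
    have t3 : ‖z (2 * M + 4) - z (2 * M + 3)‖ *
        max ‖A * z (2 * M + 3) + B‖ ‖A * z (2 * M + 4) + B‖ ≤ ‖v' - b‖ * S := by
      have h1 := hmax (2 * M + 3) (by omega)
      have h2 : ‖z (2 * M + 4) - z (2 * M + 3)‖ ≤ ‖v' - b‖ := by rw [z3, z4]
      gcongr
    have tm : (∑ i ∈ Finset.range (2 * M), ‖z (i + 2 + 1) - z (i + 2)‖ *
          max ‖A * z (i + 2) + B‖ ‖A * z (i + 2 + 1) + B‖) ≤ 2 * r * S + 252 * r * ‖A‖ := by
      rcases hρ with h' | ⟨h', _, _⟩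
      · have h0' := h0 h'
        have hb : ∀ i ∈ Finset.range (2 * M), ‖z (i + 2 + 1) - z (i + 2)‖ *
            max ‖A * z (i + 2) + B‖ ‖A * z (i + 2 + 1) + B‖ ≤ 3 * r * (2 * r * ‖A‖) := by
          intro i hi
          rw [Finset.mem_range] at hi
          have l1 : ‖z (i + 2 + 1) - z (i + 2)‖ ≤ 3 * r := by
            rw [zg (i + 2) (by omega) (by omega), zg (i + 2 + 1) (by omega) (by omega), g_step]
            refine (norm_combo hu _ _).trans ?_
            rw [abs_pow_mul, abs_of_pos hd, abs_of_nonneg (by linarith)]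
            linarith
          have l2 : ∀ j, 2 ≤ j → j ≤ 2 * M + 2 → ‖A * z j + B‖ ≤ 2 * r * ‖A‖ := by
            intro j hj hj'
            have : A * z j + B = A * (z j - h) := by linear_combination h0'
            rw [this, norm_mul, mul_comm]
            have := near j hj hj'
            gcongr
          gcongr
          exact max_le (l2 _ (by omega) (by omega)) (l2 _ (by omega) (by omega))
        refine (Finset.sum_le_sum hb).trans ?_
        rw [Finset.sum_const, Finset.card_range, nsmul_eq_mul]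
        push_cast
        have : 2 * (M : ℝ) * (3 * r * (2 * r * ‖A‖)) = 12 * (M * r) * (r * ‖A‖) := by ring
        rw [this]
        have h5 : 0 ≤ r * ‖A‖ := by positivity
        nlinarith [mul_nonneg (mul_nonneg (by norm_num : (0:ℝ) ≤ 2) hr.le) S0]
      · have hb : ∀ i ∈ Finset.range (2 * M), ‖z (i + 2 + 1) - z (i + 2)‖ *
            max ‖A * z (i + 2) + B‖ ‖A * z (i + 2 + 1) + B‖ ≤ r / M * S := by
          intro i hi
          rw [Finset.mem_range] at hi
          have l1 : ‖z (i + 2 + 1) - z (i + 2)‖ ≤ r / M := by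
            rw [zg (i + 2) (by omega) (by omega), zg (i + 2 + 1) (by omega) (by omega), g_step]
            refine (norm_combo hu _ _).trans ?_
            rw [abs_pow_mul, abs_of_pos hd, h']
            simp
          have l2 := hmax (i + 2) (by omega)
          gcongr
        refine (Finset.sum_le_sum hb).trans ?_
        rw [Finset.sum_const, Finset.card_range, nsmul_eq_mul]
        push_cast
        have : 2 * (M : ℝ) * (r / M * S) = 2 * r * S := by field_simp
        rw [this]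
        have h5 : 0 ≤ 252 * r * ‖A‖ := by positivity
        linarith
    nlinarith

end H
end MP1707
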