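import Pool.Agent.Lib.MP_1707ab_an.N2.SpecH
import Pool.Agent.Lib.MP_1707ab_an.N2.H.Chain

set_option autoImplicit false

open scoped Topology BigOperators Classical

namespace MP1707
namespace H
namespace CutM

variable {Em σ τ δ : ℝ} {K N : ℤ}

theorem vtx_top (σ : ℝ) (eta : ℤ → ℤ → ℝ) (k n : ℤ) (h : (k + n) % 2 = 1) :
    vtx σ eta (k + 1) n = vtx σ eta k n + (⟨0, σ / 2⟩ : ℂ) := by
  have h1 : ¬ (k + n) % 2 = 0 := by omega
  have h2 : (k + 1 + n) % 2 = 0 := by omega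
  apply Complex.ext
  · simp [vtx]
  · simp only [vtx, h1, h2, if_true, if_false, add_sub_cancel_right, Complex.add_im]
    push_cast; ring

theorem hrC_eq (σ : ℝ) (eta : ℤ → ℤ → ℝ) (k n : ℤ) (h : (k + n) % 2 = 1) :
    hrC σ eta k n = vtx σ eta k n + (⟨0, σ / 4⟩ : ℂ) := by
  have h1 : ¬ (k + n) % 2 = 0 := by omega
  rcases Int.emod_two_eq_zero_or_one n with hn | hn
  · have h3 : ¬ (n + 1) % 2 = 0 := by omega
    apply Complex.ext
    · simp [hrC, vtx, zt, en, h3]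
    · simp [hrC, vtx, zt, en, h3, hn, h1]; ring
  · have h3 : (n + 1) % 2 = 0 := by omega
    have h4 : ¬ n % 2 = 0 := by omega
    apply Complex.ext
    · simp [hrC, vtx, zt, en, h3]
    · simp [hrC, vtx, zt, en, h3, h4]

theorem co_I (z : ℂ) : co Complex.I z = z.im := by simp [co]

/-- the data of one cut -/
structure Q (σ τ r : ℝ) (v h : ℂ) : Prop where
  hσ : 0 < σ
  hτ : 0 < τ
  hτ1 : τ ≤ 1 / 30000
  hr : 0 < r
  hrτ : r ≤ τ * σ
  hh : ‖h - (v + (⟨0, σ / 4⟩ : ℂ))‖ ≤ τ * σ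

variable {r : ℝ} {v h : ℂ}

theorem Q.re (q : Q σ τ r v h) : |h.re - v.re| ≤ τ * σ := by
  have := (Complex.abs_re_le_norm _).trans q.hh
  simpa using this

theorem Q.im (q : Q σ τ r v h) : |h.im - v.im - σ / 4| ≤ τ * σ := by
  have := (Complex.abs_im_le_norm _).trans q.hh
  have e : (h - (v + (⟨0, σ / 4⟩ : ℂ))).im = h.im - v.im - σ / 4 := by
    simp only [Complex.sub_im, Complex.add_im]; ring
  rwa [e] at this

/-- property of a node -/
def Nd (σ τ : ℝ) (v z : ℂ) : Prop :=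
  |z.re - v.re| ≤ 30 * τ * (z.im - v.im) ∧ |z.re - v.re| ≤ 30 * τ * (v.im + σ / 2 - z.im) ∧
    ‖z - v‖ ≤ σ

theorem Q.τσ (q : Q σ τ r v h) : τ * σ ≤ σ / 30000 := by
  have := q.hτ1; have := q.hσ; nlinarith

theorem nd_v (q : Q σ τ r v h) : Nd σ τ v v := by
  have := q.hσ; have := q.hτ
  refine ⟨?_, ?_, ?_⟩
  · simp
  · simp only [sub_self, abs_zero]
    have : v.im + σ / 2 - v.im = σ / 2 := by ring
    rw [this]; positivity
  · simp [q.hσ.le]

theorem nd_top (q : Q σ τ r v h) : Nd σ τ v (v + (⟨0, σ / 2⟩ : ℂ)) := by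
  have h1 := q.hσ; have h2 := q.hτ
  refine ⟨?_, ?_, ?_⟩
  · simp only [Complex.add_re, add_zero, sub_self, abs_zero, Complex.add_im]
    have : v.im + σ / 2 - v.im = σ / 2 := by ring
    rw [this]; positivity
  · simp
  · rw [add_sub_cancel_left]
    refine (Complex.norm_le_abs_re_add_abs_im _).trans ?_
    simp only [abs_zero, zero_add]
    rw [abs_of_pos (by positivity)]; linarith

theorem nd_of (q : Q σ τ r v h) {z : ℂ} (h1 : |z.re - v.re| ≤ 3 * τ * σ)
    (h2 : σ / 10 ≤ z.im - v.im) (h3 : z.im - v.im ≤ σ / 2 - σ / 10) : Nd σ τ v z := by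
  have a1 := q.hσ; have a2 := q.hτ; have a3 := q.τσ
  have b : 3 * τ * σ = 30 * τ * (σ / 10) := by ring
  refine ⟨h1.trans ?_, h1.trans ?_, ?_⟩
  · rw [b]; gcongr
  · rw [b]; gcongr; linarith
  · refine (Complex.norm_le_abs_re_add_abs_im _).trans ?_
    rw [Complex.sub_re, Complex.sub_im, abs_of_pos (show 0 < z.im - v.im by linarith)]
    linarith

theorem nd_a (q : Q σ τ r v h) : Nd σ τ v ((v + h) / 2) := by
  have h1 := abs_le.mp q.re
  have h2 := abs_le.mp q.im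
  have a1 := q.hσ; have a2 := q.hτ; have a3 := q.τσ
  have e1 : ((v + h) / 2).re = (v.re + h.re) / 2 := by simp
  have e2 : ((v + h) / 2).im = (v.im + h.im) / 2 := by simp
  refine nd_of q ?_ ?_ ?_
  · rw [e1, abs_le]; constructor <;> nlinarith
  · rw [e2]; linarith
  · rw [e2]; linarith

theorem nd_b (q : Q σ τ r v h) : Nd σ τ v ((h + (v + (⟨0, σ / 2⟩ : ℂ))) / 2) := by
  have h1 := abs_le.mp q.re
  have h2 := abs_le.mp q.im
  have a1 := q.hσ; have a2 := q.hτ; have a3 := q.τσ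
  have e1 : ((h + (v + (⟨0, σ / 2⟩ : ℂ))) / 2).re = (v.re + h.re) / 2 := by simp; ring
  have e2 : ((h + (v + (⟨0, σ / 2⟩ : ℂ))) / 2).im = (v.im + h.im + σ / 2) / 2 := by simp; ring
  refine nd_of q ?_ ?_ ?_
  · rw [e1, abs_le]; constructor <;> nlinarith
  · rw [e2]; linarith
  · rw [e2]; linarith

theorem nd_g (q : Q σ τ r v h) {z : ℂ} (hz : ‖z - h‖ ≤ 2 * r) : Nd σ τ v z := by
  have h1 := abs_le.mp q.re
  have h2 := abs_le.mp q.im
  have h3 := abs_le.mp ((Complex.abs_re_le_norm _).trans hz)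
  have h4 := abs_le.mp ((Complex.abs_im_le_norm _).trans hz)
  rw [Complex.sub_re] at h3
  rw [Complex.sub_im] at h4
  have a1 := q.hσ; have a2 := q.hτ; have a3 := q.τσ; have a4 := q.hrτ
  refine nd_of q ?_ ?_ ?_
  · rw [abs_le]; constructor <;> nlinarith
  · linarith
  · linarith

/-- all nodes -/
theorem nd_all (q : Q σ τ r v h) {M : ℕ} (hM : 1 ≤ M) {ρ : ℝ} (hρ : ρ = r ∨ ρ = 0) (i : ℕ)
    (hi : i ≤ 2 * M + 4) :
    Nd σ τ v (cn Complex.I v ((v + h) / 2) h ((h + (v + (⟨0, σ / 2⟩ : ℂ))) / 2)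
      (v + (⟨0, σ / 2⟩ : ℂ)) M (r / M) ρ i) := by
  have h0 : 0 ≤ ρ := by rcases hρ with rfl | rfl; exacts [q.hr.le, le_rfl]
  have h1 : ρ ≤ r := by rcases hρ with rfl | rfl; exacts [le_rfl, q.hr.le]
  rcases Nat.lt_or_ge i 1 with h | h
  · have : i = 0 := by omega
    subst this; rw [ChainM.cn0]; exact nd_v q
  rcases Nat.lt_or_ge i 2 with h' | h'
  · have : i = 1 := by omega
    subst this; rw [ChainM.cn1]; exact nd_a q
  rcases Nat.lt_or_ge i (2 * M + 3) with h'' | h''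
  · rw [ChainM.cng _ _ _ _ _ _ _ _ _ i h' (by omega)]
    exact nd_g q (ChainM.g_near Complex.norm_I q.hr hM h0 h1 i h' (by omega))
  rcases Nat.lt_or_ge i (2 * M + 4) with h3 | h3
  · have : i = 2 * M + 3 := by omega
    subst this; rw [ChainM.cn3]; exact nd_b q
  · have : i = 2 * M + 4 := by omega
    subst this; rw [ChainM.cn4]; exact nd_top q

theorem nd_seg {z w x : ℂ} (hz : Nd σ τ v z) (hw : Nd σ τ v w) (hx : x ∈ segment ℝ z w) :
    |x.re - v.re| ≤ 30 * τ * (x.im - v.im) ∧ |x.re - v.re| ≤ 30 * τ * (v.im + σ / 2 - x.im) := by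
  obtain ⟨s, t, hs, ht, hst, rfl⟩ := hx
  obtain ⟨a1, a2, -⟩ := hz
  obtain ⟨b1, b2, -⟩ := hw
  have e1 : (s • z + t • w).re = s * z.re + t * w.re := by simp
  have e2 : (s • z + t • w).im = s * z.im + t * w.im := by simp
  rw [abs_le] at a1 a2 b1 b2
  rw [e1, e2, abs_le, abs_le]
  have hs' : s = 1 - t := by linarith
  have m : ∀ (a b : ℝ), a ≤ b → t * a ≤ t * b := fun a b h => mul_le_mul_of_nonneg_left h ht
  have m' : ∀ (a b : ℝ), a ≤ b → s * a ≤ s * b := fun a b h => mul_le_mul_of_nonneg_left h hs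
  have c1 := m' _ _ a1.1; have c2 := m' _ _ a1.2; have c3 := m' _ _ a2.1; have c4 := m' _ _ a2.2
  have d1 := m _ _ b1.1; have d2 := m _ _ b1.2; have d3 := m _ _ b2.1; have d4 := m _ _ b2.2
  subst hs'
  refine ⟨⟨?_, ?_⟩, ⟨?_, ?_⟩⟩
  · nlinarith
  · nlinarith
  · nlinarith
  · nlinarith

theorem vtx_im_bd (D : Disc Em σ τ δ K N) (hσ : 0 < σ)
    (hσE : σ * Em ≤ 1 / 1000) (hEm : 3 ≤ Em) (hσK : σ * K ≤ 15 / 8) {k n : ℤ}
    (hk : 0 ≤ k) (hk' : k < K) (h1 : -N < n) (h2 : n < N) (hp : (k + n) % 2 = 1) :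
    1 / 100 ≤ (vtx σ D.eta k n).im ∧ (vtx σ D.eta k n).im ≤ 98 / 100 ∧
      ‖vtx σ D.eta k n - zt σ k n‖ ≤ (D.eta k n + 1) * σ := by
  have e3 := D.eta_ge k n (by omega) (by omega) (by omega) (by omega)
  have eE := D.eta_le k n (by omega) (by omega) (by omega) (by omega)
  have hp' : ¬ (k + n) % 2 = 0 := by omega
  have k0 : (0 : ℝ) ≤ k := by exact_mod_cast hk
  have kK : (k : ℝ) ≤ K := by exact_mod_cast hk'.le
  have c1 : 0 ≤ σ * k := by positivity
  have c2 : σ * k ≤ 15 / 8 := (mul_le_mul_of_nonneg_left kK hσ.le).trans hσK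
  have c3 : σ * D.eta k n ≤ 1 / 1000 := (mul_le_mul_of_nonneg_left eE hσ.le).trans hσE
  have c4 : 0 ≤ σ * D.eta k n := by positivity
  have c5 : σ ≤ 1 / 1000 := by nlinarith
  set x : ℝ := (if n % 2 = 0 then σ * D.eta (if (k + n) % 2 = 0 then k - 1 else k) n else 0) with hx
  have hx1 : 0 ≤ x ∧ x ≤ σ * D.eta k n := by
    rw [hx, if_neg hp']
    split_ifs
    · exact ⟨c4, le_rfl⟩
    · exact ⟨le_rfl, c4⟩
  have him : (vtx σ D.eta k n).im = σ * k / 2 + 1 / 32 - σ / 4 + x := rfl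
  refine ⟨by rw [him]; linarith, by rw [him]; linarith, ?_⟩
  refine (Complex.norm_le_abs_re_add_abs_im _).trans ?_
  have r1 : (vtx σ D.eta k n - zt σ k n).re = 0 := by simp [vtx, zt]
  have r2 : (vtx σ D.eta k n - zt σ k n).im = - (σ / 4) + x := by
    rw [Complex.sub_im, him]; simp only [zt]; ring
  rw [r1, r2, abs_zero, zero_add, abs_le]
  constructor <;> nlinarith

end CutM

open CutM in
theorem specCut : SpecCut := by
  intro Em σ τ δ K N r M hn D k n hk hk' h1 h2 hp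
  obtain ⟨hEm, hσ, hτ, hδ, hτE, hσE, hK, hσK, hN, hr, hrτ, hM, hMr, hMr'⟩ := hn
  have hτ1 : τ ≤ 1 / 30000 := by nlinarith
  have q : Q σ τ r (vtx σ D.eta k n) (D.hC k n) :=
    ⟨hσ, hτ, hτ1, hr, hrτ, by rw [← hrC_eq σ D.eta k n hp]; exact D.hC_near k n hk hk' h1 h2 hp⟩
  obtain ⟨i1, i2, i3⟩ := vtx_im_bd D hσ hσE hEm hσK hk hk' h1 h2 hp
  have hτσ := q.τσ
  have hσ1 : σ ≤ 1 / 3000 := by nlinarith
  have e3 := D.eta_ge k n (by omega) (by omega) (by omega) (by omega)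
  set v := vtx σ D.eta k n with hv
  set h := D.hC k n with hh
  have htop : vtx σ D.eta (k + 1) n = v + (⟨0, σ / 2⟩ : ℂ) := vtx_top σ D.eta k n hp
  have hρ : (if D.gC k n then r else 0) = r ∨ (if D.gC k n then r else 0) = 0 := by
    split_ifs <;> simp
  have q1 := abs_le.mp q.re
  have q2 := abs_le.mp q.im
  have hvh : ‖v - h‖ ≤ σ / 4 + 2 * (τ * σ) := by
    refine (Complex.norm_le_abs_re_add_abs_im _).trans ?_
    rw [Complex.sub_re, Complex.sub_im]
    have : |v.re - h.re| ≤ τ * σ := by rw [abs_sub_comm]; exact q.re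
    have : |v.im - h.im| ≤ σ / 4 + τ * σ := by rw [abs_le]; constructor <;> linarith
    linarith
  have hvh' : ‖v + (⟨0, σ / 2⟩ : ℂ) - h‖ ≤ σ / 4 + 2 * (τ * σ) := by
    refine (Complex.norm_le_abs_re_add_abs_im _).trans ?_
    simp only [Complex.sub_re, Complex.sub_im, Complex.add_re, Complex.add_im, add_zero]
    have : |v.re - h.re| ≤ τ * σ := by rw [abs_sub_comm]; exact q.re
    have : |v.im + σ / 2 - h.im| ≤ σ / 4 + τ * σ := by rw [abs_le]; constructor <;> linarith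
    linarith
  have nd : ∀ i, i ≤ 2 * M + 4 → Nd σ τ v (nC D r M k n i) := by
    intro i hi
    rw [nC, htop]
    exact nd_all q hM hρ i hi
  have hvre : v.re = σ * n := rfl
  rw [htop]
  refine ⟨⟨Complex.norm_I, hr, by linarith, hM, hMr, hMr', ?_, ?_, ?_, ?_, ?_, ?_, ?_, ?_, ?_, ?_,
    D.j1b k n hk hk'.le h1.le h2.le, D.j1b (k + 1) n (by omega) (by omega) h1.le h2.le⟩, ?_, ?_, ?_⟩
  · by_cases hg : D.gC k n
    · left; rw [if_pos hg]
    · right; rw [if_neg hg]; exact ⟨rfl, D.badC k n hk hk' h1 h2 hp hg⟩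
  · rw [co_I, co_I]
    have : ((v + h) / 2).im = (v.im + h.im) / 2 := by simp
    rw [this]; linarith
  · rw [co_I, co_I]
    have : ((v + h) / 2).im = (v.im + h.im) / 2 := by simp
    rw [this]; linarith
  · rw [co_I, co_I]
    have : ((h + (v + (⟨0, σ / 2⟩ : ℂ))) / 2).im = (v.im + h.im + σ / 2) / 2 := by simp; ring
    rw [this]; linarith
  · rw [co_I, co_I]
    have : ((h + (v + (⟨0, σ / 2⟩ : ℂ))) / 2).im = (v.im + h.im + σ / 2) / 2 := by simp; ring
    rw [this, Complex.add_im]; linarith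
  · linarith
  · have : (v + h) / 2 - h = (v - h) / 2 := by ring
    rw [this, norm_div, Complex.norm_ofNat]; linarith [norm_nonneg (v - h)]
  · have : (h + (v + (⟨0, σ / 2⟩ : ℂ))) / 2 - h = (v + (⟨0, σ / 2⟩ : ℂ) - h) / 2 := by ring
    rw [this, norm_div, Complex.norm_ofNat]
    linarith [norm_nonneg (v + (⟨0, σ / 2⟩ : ℂ) - h)]
  · linarith
  · have e := D.relC k n hk hk' h1 h2 hp
    have e' : D.fC k n = D.j0 k n - D.j1 k n * (v - h) := by rw [e]; ring
    rw [e']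
    have a1 := D.j0b k n hk hk'.le h1.le h2.le
    have a2 := D.j1b k n hk hk'.le h1.le h2.le
    calc ‖D.j0 k n - D.j1 k n * (v - h)‖ ≤ ‖D.j0 k n‖ + ‖D.j1 k n‖ * ‖v - h‖ := by
          rw [← norm_mul]; exact norm_sub_le _ _
      _ ≤ 3 / 8 + 3 / 8 * (1 / 10) := by gcongr; linarith
      _ ≤ 7 / 16 := by norm_num
  · have f1 : (v + h) / 2 - v = (h - v) / 2 := by ring
    have f2 : h - (v + h) / 2 = (h - v) / 2 := by ring
    have f3 : (h + (v + (⟨0, σ / 2⟩ : ℂ))) / 2 - h = (v + (⟨0, σ / 2⟩ : ℂ) - h) / 2 := by ring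
    have f4 : v + (⟨0, σ / 2⟩ : ℂ) - (h + (v + (⟨0, σ / 2⟩ : ℂ))) / 2 =
      (v + (⟨0, σ / 2⟩ : ℂ) - h) / 2 := by ring
    rw [f1, f2, f3, f4, norm_div, norm_div, Complex.norm_ofNat, norm_sub_rev h v]
    linarith
  · intro i hi
    obtain ⟨n1, n2, n3⟩ := nd i hi
    refine ⟨?_, ?_, ?_⟩
    · have : nC D r M k n i - zt σ k n = (nC D r M k n i - v) + (v - zt σ k n) := by ring
      rw [this]
      refine (norm_add_le _ _).trans ?_
      nlinarith
    · have := (Complex.abs_im_le_norm _).trans n3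
      rw [Complex.sub_im, abs_le] at this
      linarith
    · have := (Complex.abs_im_le_norm _).trans n3
      rw [Complex.sub_im, abs_le] at this
      linarith
  · intro i hi x hx
    have := nd_seg (nd i hi.le) (nd (i + 1) (by omega)) hx
    rw [hvre] at this
    simpa only [Complex.add_im] using this

end H
end MP1707
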