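import Pool.Agent.Lib.MP_1707ab_an.N2.H.DiscA

section
/-!
# MP_1707ab_an, n = 2, Part H: DISC (macroscopic fields give discrete data), final assembly
-/
set_option autoImplicit false
set_option linter.unusedSectionVars false

open scoped Topology BigOperators Classical
open MeasureTheory

namespace MP1707
namespace H
namespace DiscM
namespace Ctx

variable {L δ : ℝ} {Φ : Fields L δ} {Em p0 ρ ε σ τ : ℝ} {Q N : ℤ} (X : Ctx Φ Em p0 ρ ε σ τ Q N)

include X

theorem τpos : 0 < τ := lt_of_lt_of_le (by have := X.hε; have := X.hEm; positivity) X.hετ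

/-- bound of a wall face -/
theorem wall_bd {hModel : SpecModel} {k n k' m : ℤ} (hk : 0 ≤ k) (hk' : k ≤ Q) (hn : -N ≤ n)
    (hn' : n ≤ N) (h1 : k' ≤ k + 1) (h2 : k - 1 ≤ k') (h3 : m ≤ n + 1) (h4 : n - 1 ≤ m)
    (hV : Φ.V (zt σ k' m) = 0) (hV' : dz Φ.V (zt σ k' m) = 0) (x : ℂ)
    (hx : ‖x - zt σ k n‖ ≤ 3 * et Φ σ k n * σ) :
    ‖ta Φ p0 (zt σ k' m) m * x + tb Φ p0 σ (zt σ k' m) m‖ ≤
      σ * (2 * ‖dzb Φ.V (zt σ k n)‖ + 10 * ppF Φ p0 (zt σ k n) * et Φ σ k n) := by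
  have hσ := X.hσ
  have hE := X.hEm
  have hε := X.hε
  have hε1 := X.hε1
  have hρ := X.hσρ
  have hp0 := X.hp0
  have h0 := X.et_ge k n
  have hp := pp_ge Φ p0 (zt σ k n)
  have hz := X.zt_mem (k := k) (n := n) (by omega) (by omega) (by omega) (by omega)
  have hz' := X.zt_mem (k := k') (n := m) (by omega) (by omega) (by omega) (by omega)
  have a1 : |(m : ℝ) - n| ≤ 1 := by
    have b1 : (m : ℝ) ≤ n + 1 := by exact_mod_cast h3
    have b2 : (n : ℝ) - 1 ≤ m := by exact_mod_cast h4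
    rw [abs_le]; constructor <;> linarith
  have a2 : |(k' : ℝ) - k| ≤ 1 := by
    have b1 : (k' : ℝ) ≤ k + 1 := by exact_mod_cast h1
    have b2 : (k : ℝ) - 1 ≤ k' := by exact_mod_cast h2
    rw [abs_le]; constructor <;> linarith
  have hd : ‖zt σ k' m - zt σ k n‖ ≤ 2 * σ := by
    have := X.zt_dist k n k' m
    nlinarith
  have hd' : ‖zt σ k' m - zt σ k n‖ ≤ ρ := hd.trans (by nlinarith)
  have e1 := X.loc.eta _ hz _ hz' hd'
  have e2 := X.loc.p _ hz _ hz' hd'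
  rw [abs_le] at e1 e2
  refine (X.tile_bd (hModel := hModel) _ _ _).trans ?_
  rw [hV, hV', norm_zero, zero_mul, zero_add, zero_add]
  have t1 : ‖x - zt σ k' m‖ ≤ 3 * et Φ σ k n * σ + 2 * σ := by
    have : x - zt σ k' m = (x - zt σ k n) - (zt σ k' m - zt σ k n) := by ring
    rw [this]
    exact (norm_sub_le _ _).trans (add_le_add hx hd)
  have t2 : etaF Φ (zt σ k' m) ≤ et Φ σ k n + 1 := by unfold et; linarith [e1.2]
  have t3 : ppF Φ p0 (zt σ k' m) ≤ 2 * ppF Φ p0 (zt σ k n) := by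
    have : ε * p0 ≤ p0 := by nlinarith
    linarith [e2.2]
  have hpp : 0 ≤ ppF Φ p0 (zt σ k' m) := hp0.le.trans (pp_ge Φ p0 _)
  have t4 : ppF Φ p0 (zt σ k' m) ≤ (1 + 1 / 4000) * ppF Φ p0 (zt σ k n) := by
    have : ε * p0 ≤ 1 / 4000 * ppF Φ p0 (zt σ k n) := by gcongr
    linarith [e2.2]
  have t5 : ‖x - zt σ k' m‖ + σ * etaF Φ (zt σ k' m) ≤ σ * (4 * et Φ σ k n + 3) := by
    have : σ * etaF Φ (zt σ k' m) ≤ σ * (et Φ σ k n + 1) := by gcongr
    nlinarith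
  have t6 : ppF Φ p0 (zt σ k' m) * (‖x - zt σ k' m‖ + σ * etaF Φ (zt σ k' m)) ≤
      ((1 + 1 / 4000) * ppF Φ p0 (zt σ k n)) * (σ * (4 * et Φ σ k n + 3)) := by
    have g1 : 0 ≤ etaF Φ (zt σ k' m) := by have := eta_ge Φ (zt σ k' m); linarith
    have g2 : 0 ≤ ppF Φ p0 (zt σ k n) := hp0.le.trans hp
    exact mul_le_mul t4 t5 (by positivity) (by positivity)
  refine t6.trans ?_
  have t7 : (1 + 1 / 4000) * (4 * et Φ σ k n + 3) ≤ 10 * et Φ σ k n := by nlinarith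
  have t8 : 0 ≤ ppF Φ p0 (zt σ k n) := hp0.le.trans hp
  have t9 : 0 ≤ 2 * ‖dzb Φ.V (zt σ k n)‖ := by positivity
  calc ((1 + 1 / 4000) * ppF Φ p0 (zt σ k n)) * (σ * (4 * et Φ σ k n + 3))
      = σ * (ppF Φ p0 (zt σ k n) * ((1 + 1 / 4000) * (4 * et Φ σ k n + 3))) := by ring
    _ ≤ σ * (ppF Φ p0 (zt σ k n) * (10 * et Φ σ k n)) := by gcongr
    _ ≤ _ := by
      apply mul_le_mul_of_nonneg_left _ hσ.le
      linarith

theorem V_bot {m : ℤ} (hn : -N - 1 ≤ m) (hn' : m ≤ N + 1) :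
    Φ.V (zt σ 0 m) = 0 ∧ dz Φ.V (zt σ 0 m) = 0 := by
  have hQ := X.hQ
  have h := X.zt_vv (k := 0) (n := m) (k' := 0) (n' := m) le_rfl (by omega) hn hn' (by omega)
    (by omega) (by omega) (by omega)
  exact ⟨(X.bot_c hn hn' h).1, X.open_zero Metric.isOpen_ball (fun z hz => (X.bot_c hn hn' hz).1) h⟩

theorem V_top {m : ℤ} (hn : -N - 1 ≤ m) (hn' : m ≤ N + 1) :
    Φ.V (zt σ (Q - 1) m) = 0 ∧ dz Φ.V (zt σ (Q - 1) m) = 0 := by
  have hQ := X.hQ
  have h := X.zt_vv (k := Q) (n := m) (k' := Q - 1) (n' := m) (by omega) (by omega) hn hn' (by omega)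
    (by omega) (by omega) (by omega)
  exact ⟨(X.top_c hn hn' h).1, X.open_zero Metric.isOpen_ball (fun z hz => (X.top_c hn hn' hz).1) h⟩

theorem SL {hModel : SpecModel} {hEdge : SpecEdge} {k n : ℤ} (hk : 0 ≤ k) (hk' : k ≤ Q)
    (hn : -N ≤ n) (hn' : n < N) (x : ℂ) (hx : ‖x - zt σ k n‖ ≤ 3 * et Φ σ k n * σ) :
    ‖(aa Φ p0 σ Q k n - aa Φ p0 σ Q (k - 1) n) * x + (bb Φ p0 σ Q k n - bb Φ p0 σ Q (k - 1) n)‖ ≤
      σ * (2 * ‖dzb Φ.V (zt σ k n)‖ + 10 * ppF Φ p0 (zt σ k n) * et Φ σ k n) := by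
  have hQ := X.hQ
  by_cases k0 : k = 0
  · subst k0
    have q1 : ¬ (0 : ℤ) < 0 := by omega
    have q2 : ¬ Q ≤ 0 := by omega
    have q3 : (0 : ℤ) - 1 < 0 := by omega
    have hm := mm_bd 0 n
    obtain ⟨v1, v2⟩ := X.V_bot (m := mm 0 n) (by omega) (by omega)
    have := X.wall_bd (hModel := hModel) (k := 0) (n := n) (k' := 0) (m := mm 0 n) le_rfl (by omega)
      (by omega) (by omega) (by omega) (by omega) (by omega) (by omega) v1 v2 x hx
    simpa only [aa, bb, if_neg q1, if_neg q2, if_pos q3, sub_zero] using this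
  · by_cases kQ : k = Q
    · subst kQ
      have q1 : ¬ k < 0 := by omega
      have q2 : ¬ k - 1 < 0 := by omega
      have q3 : ¬ k ≤ k - 1 := by omega
      have hm := mm_bd (k - 1) n
      obtain ⟨v1, v2⟩ := X.V_top (m := mm (k - 1) n) (by omega) (by omega)
      have := X.wall_bd (hModel := hModel) (k := k) (n := n) (k' := k - 1) (m := mm (k - 1) n) hk
        (by omega) (by omega) (by omega) (by omega) (by omega) (by omega) (by omega) v1 v2 x hx
      simp only [aa, bb, if_neg q1, if_neg q2, if_neg q3, if_pos le_rfl, zero_sub]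
      rw [show ∀ a b : ℂ, -a * x + -b = -(a * x + b) by intros; ring, norm_neg]
      exact this
    · exact (X.edgeL hModel hEdge (k := k) (n := n) (by omega) (by omega) (by omega) (by omega)).bd x hx

theorem near_L {hModel : SpecModel} {hEdge : SpecEdge} {k n : ℤ} (hk : 0 ≤ k) (hk' : k ≤ Q)
    (hn : -N ≤ n) (hn' : n < N) : ‖hL Φ p0 ρ σ Q k n - hrL σ (et Φ σ) k n‖ ≤ τ * σ := by
  have hσ := X.hσ
  by_cases h : gL Φ ρ σ k n
  · obtain ⟨-, -, -, a4, -, -⟩ := X.goodL (hModel := hModel) (hEdge := hEdge) hk hk'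
      (n := n) (by omega) (by omega) h
    have := X.et_le (k := k) (n := n) (by omega) (by omega) (by omega) (by omega)
    have h1 := X.hετ
    have hε := X.hε
    calc _ ≤ 40 * ε * et Φ σ k n * σ := a4
      _ ≤ 40 * ε * Em * σ := by gcongr
      _ ≤ τ * σ := by gcongr
  · rw [hL, if_neg h, sub_self, norm_zero]
    have := X.τpos
    positivity

theorem near_C {hModel : SpecModel} {hEdge : SpecEdge} {k n : ℤ} (hk : 0 ≤ k) (hk' : k < Q)
    (hn : -N < n) (hn' : n < N) (hp : (k + n) % 2 = 1) :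
    ‖hC Φ p0 ρ σ Q k n - hrC σ (et Φ σ) k n‖ ≤ τ * σ := by
  have hσ := X.hσ
  by_cases h : gC Φ ρ σ k n
  · obtain ⟨-, -, -, a4⟩ := X.goodC (hModel := hModel) (hEdge := hEdge) hk hk'
      (n := n) (by omega) (by omega) hp h
    have := X.et_le (k := k) (n := n) (by omega) (by omega) (by omega) (by omega)
    have h1 := X.hετ
    have hε := X.hε
    calc _ ≤ 40 * ε * et Φ σ k n * σ := a4
      _ ≤ 40 * ε * Em * σ := by gcongr
      _ ≤ τ * σ := by gcongr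
  · rw [hC, if_neg h, sub_self, norm_zero]
    have := X.τpos
    positivity

theorem side {k n m : ℤ} (hk : 0 ≤ k) (hk' : k < Q) (hn : -N ≤ n) (hn' : n ≤ N)
    (h1 : m ≤ n + 1) (h2 : n - 1 ≤ m) (x : ℂ) (hx : x.re = σ * n)
    (h3 : (vv Φ σ k n).im ≤ x.im) (h4 : x.im ≤ (vv Φ σ (k + 1) n).im) :
    ‖x - zt σ k m‖ ≤ 3 * Em * σ := by
  have hσ := X.hσ
  have hE := X.hEm
  have b1 := X.vv_im_bd (k := k) (n := n) hk hk'.le (by omega) (by omega)
  have b2 := X.vv_im_bd (k := k + 1) (n := n) (by omega) (by omega) (by omega) (by omega)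
  push_cast at b2
  have a1 : |(n : ℝ) - m| ≤ 1 := by
    have b1 : (m : ℝ) ≤ n + 1 := by exact_mod_cast h1
    have b2 : (n : ℝ) - 1 ≤ m := by exact_mod_cast h2
    rw [abs_le]; constructor <;> linarith
  have c1 : |(x - zt σ k m).re| ≤ σ := by
    rw [Complex.sub_re, hx, X.zt_re, ← mul_sub, abs_mul, abs_of_pos hσ]
    nlinarith
  have c2 : |(x - zt σ k m).im| ≤ σ * (Em + 1) := by
    rw [Complex.sub_im, X.zt_im, abs_le]
    constructor <;> nlinarith [b1.1, b2.2]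
  have := norm_le_re_im _ c1 c2
  nlinarith

/-- the discrete data -/
noncomputable def disc (hModel : SpecModel) (hEdge : SpecEdge)
    (hcost : ∑ k ∈ Finset.Icc 0 Q, ∑ n ∈ Finset.Icc (-N) N, 10 * et Φ σ k n * σ *
      (σ * (2 * ‖dzb Φ.V (zt σ k n)‖ + 10 * ppF Φ p0 (zt σ k n) * et Φ σ k n)) ≤ 10 ^ 7 * δ) :
    Disc Em σ τ (10 ^ 7 * δ) Q N where
  eta := et Φ σ
  a := aa Φ p0 σ Q
  b := bb Φ p0 σ Q
  c := cc Φ p0 σ Q
  hL := hL Φ p0 ρ σ Q
  fL := fL Φ p0 ρ σ Q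
  hC := hC Φ p0 ρ σ Q
  fC := fC Φ p0 ρ σ Q
  j0 := j0 Φ p0 ρ σ Q
  j1 := j1 Φ p0 ρ σ Q
  gL := gL Φ ρ σ
  gC := gC Φ ρ σ
  S := fun k n => σ * (2 * ‖dzb Φ.V (zt σ k n)‖ + 10 * ppF Φ p0 (zt σ k n) * et Φ σ k n)
  eta_ge := fun k n _ _ _ _ => X.et_ge k n
  eta_le := fun k n h1 h2 h3 h4 => X.et_le h1 h2 h3 h4
  eta_close := fun k n k' n' h1 h2 h3 h4 h5 h6 h7 h8 h9 h10 => by
    refine (X.et_close h1 h2 h3 h4 h5 h6 h7 h8 h9 h10).trans ?_
    have h1 := X.hετ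
    have hε := X.hε
    have hE := X.hEm
    nlinarith
  para := fun k n h => (X.par k n h).1
  parb := fun k n h => (X.par k n h).2.1
  parc := fun k n h => (X.par k n h).2.2
  nega := fun k n h => by rw [aa, if_pos h]
  negb := fun k n h => by rw [bb, if_pos h]
  negc := fun k n h => by rw [cc, if_pos h]
  topa := fun k n h => by rw [aa, if_pos h]; simp
  topb := fun k n h => by rw [bb, if_pos h]; simp
  topc := fun k n h => by
    have := X.hQ
    rw [cc, if_pos h, if_neg (by omega)]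
  hL_near := fun k n h1 h2 h3 h4 => X.near_L (hModel := hModel) (hEdge := hEdge) h1 h2 h3 h4
  hC_near := fun k n h1 h2 h3 h4 h5 => X.near_C (hModel := hModel) (hEdge := hEdge) h1 h2 h3 h4 h5
  relL := fun k n h1 h2 h3 h4 => (X.relL1 (hModel := hModel) (hEdge := hEdge) h1 h2 h3 h4).1
  relL' := fun k n h1 h2 h3 h4 => (X.relL1 (hModel := hModel) (hEdge := hEdge) h1 h2 h3 h4).2
  relC := fun k n h1 h2 h3 h4 h5 => (X.relCC (hModel := hModel) (hEdge := hEdge) h1 h2 h3 h4 h5).1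
  relC' := fun k n h1 h2 h3 h4 h5 => (X.relCC (hModel := hModel) (hEdge := hEdge) h1 h2 h3 h4 h5).2
  goodL := fun k n h1 h2 h3 h4 h => (X.goodL (hModel := hModel) (hEdge := hEdge) h1 h2
    (by omega) (by omega) h).2.1
  badL := fun k n h1 h2 h3 h4 h => by
    have h' : TN Φ ρ (vv Φ σ k n) ∧ TN Φ ρ (vv Φ σ k (n + 1)) := not_not.mp h
    exact ⟨(X.bad_j h'.1).2, (X.bad_j h'.2).2⟩
  goodC := fun k n h1 h2 h3 h4 h5 h => (X.goodC (hModel := hModel) (hEdge := hEdge) h1 h2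
    (by omega) (by omega) h5 h).2.1
  badC := fun k n h1 h2 h3 h4 h5 h => by
    have h' : TN Φ ρ (vv Φ σ k n) ∧ TN Φ ρ (vv Φ σ (k + 1) n) := not_not.mp h
    exact ⟨(X.bad_j h'.1).2, (X.bad_j h'.2).2⟩
  j0b := fun k n h1 h2 h3 h4 => X.j0_bd (hModel := hModel) (hEdge := hEdge) h1 h2 h3 h4
  j1b := fun k n h1 h2 h3 h4 => (X.j1_bd (hModel := hModel) (hEdge := hEdge) h1 h2 h3 h4).trans
    (by norm_num)
  left := fun k h1 h2 => by
    have hN := X.hN
    have := (X.rel (hModel := hModel) (hEdge := hEdge) h1 h2 (n := -N) le_rfl (by omega)).1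
    unfold dLa dLb dLc at this
    have e : vtx σ (et Φ σ) k (-N) = vv Φ σ k (-N) := rfl
    rw [e]
    linear_combination -this
  bdl := fun k h1 h2 t h3 h4 => by
    have hN := X.hN
    have hδ := X.hδ
    have hm := mm_bd k (-N)
    refine (X.face_bd (hModel := hModel) h1 h2 (n := -N) (by omega) (by omega) _
      (X.side h1 h2 (n := -N) (m := mm k (-N)) (by omega) (by omega) (by omega) (by omega)
        (⟨-(σ * N), t⟩ : ℂ) ?_ h3 h4)).trans (by linarith)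
    show -(σ * (N : ℝ)) = σ * ((-N : ℤ) : ℝ)
    push_cast; ring
  bdr := fun k h1 h2 t h3 h4 => by
    have hN := X.hN
    have hδ := X.hδ
    have hm := mm_bd k (N - 1)
    exact (X.face_bd (hModel := hModel) h1 h2 (n := N - 1) (by omega) (by omega) _
      (X.side h1 h2 (n := N) (m := mm k (N - 1)) (by omega) (by omega) (by omega) (by omega)
        (⟨σ * N, t⟩ : ℂ) rfl h3 h4)).trans (by linarith)
  SL := fun k n h1 h2 h3 h4 x hx => X.SL (hModel := hModel) (hEdge := hEdge) h1 h2 h3 h4 x hx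
  SC := fun k n h1 h2 h3 h4 h5 x hx =>
    (X.edgeC hModel hEdge (k := k) (n := n) h1 h2 h3.le h4.le h5).bd x hx
  S_nonneg := fun k n => by
    have hσ := X.hσ
    have h0 := X.et_ge k n
    have hp := X.hp0.le.trans (pp_ge Φ p0 (zt σ k n))
    positivity
  cost := hcost

end Ctx

end DiscM

/-- DISC -/
theorem specDisc (hChoice : DiscM.SpecChoice) (hModel : SpecModel) (hEdge : SpecEdge) : SpecDisc := by
  refine ⟨10 ^ 7, by norm_num, fun L δ hL hδ hδ1 hF => ?_⟩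
  obtain ⟨Φ⟩ := hF
  obtain ⟨Em, p0, h⟩ := hChoice L δ Φ hL hδ hδ1
  obtain ⟨ρ1, ε1, σ1, Q1, N1, X1, -⟩ := h 1 one_pos
  refine ⟨Em, X1.hEm, fun τ hτ => ?_⟩
  obtain ⟨ρ, ε, σ, Q, N, X, hc⟩ := h τ hτ
  exact ⟨σ, Q, N, X.hσ, X.hσE, X.hQ, X.hσQ, X.hN, X.hLN, X.hNL, ⟨X.disc hModel hEdge hc⟩⟩

end H
end MP1707
end

section
/-!
# MP_1707ab_an, n = 2, Part H: CHOICE (choice of the parameters, cost sum)
-/
set_option autoImplicit false

open scoped Topology BigOperators Classical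
open MeasureTheory

namespace MP1707
namespace H
namespace DiscM

namespace ChoiceM

theorem isCompact_K (L : ℝ) : IsCompact (K L) := by
  have hc : IsClosed (K L) := by
    have h1 : IsClosed {z : ℂ | |z.re| ≤ L + 2} :=
      isClosed_le (continuous_abs.comp Complex.continuous_re) continuous_const
    have h2 : IsClosed {z : ℂ | 0 ≤ z.im} := isClosed_le continuous_const Complex.continuous_im
    have h3 : IsClosed {z : ℂ | z.im ≤ 1} := isClosed_le Complex.continuous_im continuous_const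
    exact h1.inter (h2.inter h3)
  refine Metric.isCompact_of_isClosed_isBounded hc ?_
  refine (Metric.isBounded_closedBall (x := (0 : ℂ)) (r := |L + 2| + 1)).subset ?_
  intro z hz
  rw [mem_closedBall_zero_iff]
  have h1 : |z.re| ≤ |L + 2| := hz.1.trans (le_abs_self _)
  have h2 : |z.im| ≤ 1 := abs_le.2 ⟨by linarith [hz.2.1], hz.2.2⟩
  exact (Complex.norm_le_abs_re_add_abs_im z).trans (by linarith)

theorem exists_bd {L : ℝ} {g : ℂ → ℝ} (hg : Continuous g) : ∃ B, ∀ z ∈ K L, g z ≤ B := by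
  obtain ⟨B, hB⟩ := (isCompact_K L).bddAbove_image hg.continuousOn
  exact ⟨B, fun z hz => hB ⟨z, hz, rfl⟩⟩

variable {L δ : ℝ}

theorem loc_mono {Φ : Fields L δ} {p0 ρ ρ' ε : ℝ} (h : Loc Φ p0 ρ ε) (hρ : ρ' ≤ ρ) :
    Loc Φ p0 ρ' ε :=
  ⟨fun z hz z' hz' hd => h.eta z hz z' hz' (hd.trans hρ),
    fun z hz z' hz' hd => h.p z hz z' hz' (hd.trans hρ),
    fun z hz z' hz' hd => h.dV z hz z' hz' (hd.trans hρ),
    fun z hz z' hz' hd => h.dbV z hz z' hz' (hd.trans hρ),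
    fun z hz z' hz' hd => h.F z hz z' hz' (hd.trans hρ),
    fun z hz z' hz' hd => h.c z hz z' hz' (hd.trans hρ),
    fun z hz z' hz' hd => h.V z hz z' hz' (hd.trans hρ)⟩

/-- the cost density -/
noncomputable def gg (Φ : Fields L δ) (p0 : ℝ) (z : ℂ) : ℝ :=
  20 * etaF Φ z * (2 * ‖dzb Φ.V z‖ + 10 * ppF Φ p0 z * etaF Φ z)

theorem gg_le (Φ : Fields L δ) {p0 Em : ℝ} (hp0 : 0 < p0) {z : ℂ} (hE : etaF Φ z ≤ Em) :
    gg Φ p0 z ≤ 8 * 10 ^ 6 * ((‖om Φ.V Φ.c Φ.F z‖ + ‖dzb Φ.V z‖) * (1 + ‖fderiv ℝ Φ.F z‖)) +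
      200 * p0 * Em ^ 2 := by
  have h3 := eta_ge Φ z
  have hpos : 0 < etaF Φ z := by linarith
  have e1 : ppF Φ p0 z * etaF Φ z = p0 * etaF Φ z + 200 * ‖om Φ.V Φ.c Φ.F z‖ := by
    unfold ppF
    rw [add_mul, div_mul_cancel₀ _ hpos.ne']
  have e2 : gg Φ p0 z = 40 * ‖dzb Φ.V z‖ * etaF Φ z + 200 * p0 * etaF Φ z ^ 2 +
      40000 * ‖om Φ.V Φ.c Φ.F z‖ * etaF Φ z := by
    unfold gg
    linear_combination 200 * etaF Φ z * e1
  have h4 : etaF Φ z ≤ 200 * (1 + ‖fderiv ℝ Φ.F z‖) := by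
    unfold etaF
    linarith
  have h5 : etaF Φ z ^ 2 ≤ Em ^ 2 := by gcongr
  have h6 := norm_nonneg (om Φ.V Φ.c Φ.F z)
  have h7 := norm_nonneg (dzb Φ.V z)
  have h8 := norm_nonneg (fderiv ℝ Φ.F z)
  have h9 : ‖dzb Φ.V z‖ * etaF Φ z ≤ ‖dzb Φ.V z‖ * (200 * (1 + ‖fderiv ℝ Φ.F z‖)) :=
    mul_le_mul_of_nonneg_left h4 h7
  have h10 : ‖om Φ.V Φ.c Φ.F z‖ * etaF Φ z ≤
      ‖om Φ.V Φ.c Φ.F z‖ * (200 * (1 + ‖fderiv ℝ Φ.F z‖)) := mul_le_mul_of_nonneg_left h4 h6
  have h11 : 200 * p0 * etaF Φ z ^ 2 ≤ 200 * p0 * Em ^ 2 :=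
    mul_le_mul_of_nonneg_left h5 (by positivity)
  have h12 : 0 ≤ ‖dzb Φ.V z‖ * (1 + ‖fderiv ℝ Φ.F z‖) := by positivity
  rw [e2]
  nlinarith

end ChoiceM

open ChoiceM

/-- CHOICE -/
theorem specChoice (hLoc : SpecLoc) (hRiem : SpecRiem) : SpecChoice := by
  intro L δ Φ hL hδ hδ1
  obtain ⟨hloc, ⟨cEta, cdz, cdzb, com⟩, hty⟩ := hLoc L δ Φ
  obtain ⟨E0, hE0⟩ := exists_bd (L := L) cEta
  set Em := max E0 3 with hEm_def
  have hEm3 : 3 ≤ Em := le_max_right _ _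
  have hE : ∀ z ∈ K L, etaF Φ z ≤ Em := fun z hz => (hE0 z hz).trans (le_max_left _ _)
  have hKc := isCompact_K L
  set m := volume.real (K L) with hm
  have hm0 : 0 ≤ m := measureReal_nonneg
  set p0 := δ / (200 * Em ^ 2 * (m + 1)) with hp0_def
  have hp0 : 0 < p0 := by positivity
  have hp0m : 200 * p0 * Em ^ 2 * m ≤ δ := by
    have e1 : 200 * p0 * Em ^ 2 * m = δ * (m / (m + 1)) := by
      rw [hp0_def]
      field_simp
    rw [e1]
    have : m / (m + 1) ≤ 1 := by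
      rw [div_le_one (by positivity)]
      linarith
    nlinarith
  have cpp : Continuous (ppF Φ p0) := by
    have h1 : Continuous (fun z => 200 * ‖om Φ.V Φ.c Φ.F z‖ / etaF Φ z) :=
      (continuous_const.mul com.norm).div cEta
        (fun z => by have := eta_ge Φ z; positivity)
    exact continuous_const.add h1
  have cgg : Continuous (gg Φ p0) :=
    (continuous_const.mul cEta).mul
      ((continuous_const.mul cdzb.norm).add ((continuous_const.mul cpp).mul cEta))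
  have hgg0 : ∀ z, 0 ≤ gg Φ p0 z := by
    intro z
    have h1 := eta_ge Φ z
    have h2 := pp_ge Φ p0 z
    have h3 : 0 ≤ etaF Φ z := by linarith
    have h4 : 0 ≤ ppF Φ p0 z := by linarith
    unfold gg
    positivity
  obtain ⟨σ0, hσ0, hR⟩ := hRiem L (gg Φ p0) (by linarith) cgg hgg0 δ hδ
  obtain ⟨B0, hB0⟩ := exists_bd (L := L) (g := fun z => ‖dz Φ.V z‖ + ppF Φ p0 z)
    (cdz.norm.add cpp)
  set B := max B0 1 with hB_def
  have hB1 : 1 ≤ B := le_max_right _ _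
  have hB : ∀ z ∈ K L, ‖dz Φ.V z‖ + ppF Φ p0 z ≤ B := fun z hz =>
    (hB0 z hz).trans (le_max_left _ _)
  -- the integral of the cost density
  have hint : ∫ z in K L, gg Φ p0 z ≤ 8 * 10 ^ 6 * δ + δ := by
    have ccost : Continuous (fun z => (‖om Φ.V Φ.c Φ.F z‖ + ‖dzb Φ.V z‖) *
        (1 + ‖fderiv ℝ Φ.F z‖)) := by
      have cF : Continuous (fderiv ℝ Φ.F) := Φ.hF.continuous_fderiv one_ne_zero
      exact (com.norm.add cdzb.norm).mul (continuous_const.add cF.norm)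
    have i1 : IntegrableOn (fun z => 8 * 10 ^ 6 * ((‖om Φ.V Φ.c Φ.F z‖ + ‖dzb Φ.V z‖) *
        (1 + ‖fderiv ℝ Φ.F z‖))) (K L) :=
      (continuous_const.mul ccost).continuousOn.integrableOn_compact hKc
    have i2 : IntegrableOn (fun _ : ℂ => 200 * p0 * Em ^ 2) (K L) :=
      integrableOn_const hKc.measure_lt_top.ne
    have h1 : ∫ z in K L, gg Φ p0 z ≤ ∫ z in K L, (8 * 10 ^ 6 *
        ((‖om Φ.V Φ.c Φ.F z‖ + ‖dzb Φ.V z‖) * (1 + ‖fderiv ℝ Φ.F z‖)) +
          200 * p0 * Em ^ 2) := by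
      refine setIntegral_mono_on (cgg.continuousOn.integrableOn_compact hKc) (i1.add i2)
        hKc.measurableSet ?_
      intro z hz
      exact gg_le Φ hp0 (hE z hz)
    rw [integral_add i1 i2, integral_const_mul, setIntegral_const, smul_eq_mul] at h1
    have h2 := Φ.cost
    have h3 : m * (200 * p0 * Em ^ 2) ≤ δ := by
      rw [mul_comm]
      exact hp0m
    linarith
  refine ⟨Em, p0, fun τ hτ => ?_⟩
  set ε := min (1 / 4000) (τ / (40 * Em)) with hε_def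
  have hε : 0 < ε := by positivity
  have hε1 : ε ≤ 1 / 4000 := min_le_left _ _
  have hετ : 40 * ε * Em ≤ τ := by
    have h1 : ε ≤ τ / (40 * Em) := min_le_right _ _
    rw [le_div_iff₀ (by positivity)] at h1
    linarith
  obtain ⟨ρ1, hρ1, hl1⟩ := hloc p0 ε hp0 hε
  obtain ⟨ρ2, hρ2, hl2⟩ := hty
  set ρ := min (min ρ1 ρ2) (1 / 100) with hρ_def
  have hρ : 0 < ρ := by positivity
  have hρρ1 : ρ ≤ ρ1 := (min_le_left _ _).trans (min_le_left _ _)
  have hρρ2 : ρ ≤ ρ2 := (min_le_left _ _).trans (min_le_right _ _)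
  set σ := min (min (1 / (1000 * Em)) (ρ / (100 * Em))) (min (δ / (4 * Em * B)) (min σ0 1))
    with hσ_def
  have hσ : 0 < σ := by positivity
  have hs1 : σ ≤ 1 / (1000 * Em) := (min_le_left _ _).trans (min_le_left _ _)
  have hs2 : σ ≤ ρ / (100 * Em) := (min_le_left _ _).trans (min_le_right _ _)
  have hs3 : σ ≤ δ / (4 * Em * B) := (min_le_right _ _).trans (min_le_left _ _)
  have hs4 : σ ≤ σ0 := (min_le_right _ _).trans ((min_le_right _ _).trans (min_le_left _ _))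
  have hs5 : σ ≤ 1 := (min_le_right _ _).trans ((min_le_right _ _).trans (min_le_right _ _))
  rw [le_div_iff₀ (by positivity)] at hs1 hs2 hs3
  set N : ℤ := ⌈L / σ⌉ with hN_def
  set Q : ℤ := ⌊15 / (8 * σ)⌋ with hQ_def
  have hN1 : L ≤ σ * N := by
    have := Int.le_ceil (L / σ)
    rw [div_le_iff₀ hσ] at this
    linarith
  have hN2 : σ * N ≤ L + σ := by
    have := (Int.ceil_lt_add_one (L / σ)).le
    have h2 : σ * (⌈L / σ⌉ : ℝ) ≤ σ * (L / σ + 1) := mul_le_mul_of_nonneg_left this hσ.le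
    rw [mul_add, mul_div_cancel₀ _ hσ.ne', mul_one] at h2
    exact h2
  have hQ1 : σ * Q ≤ 15 / 8 := by
    have := Int.floor_le (15 / (8 * σ))
    rw [le_div_iff₀ (by positivity)] at this
    linarith
  have hQ2 : 15 / 8 - σ ≤ σ * Q := by
    have := (Int.lt_floor_add_one (15 / (8 * σ))).le
    rw [div_le_iff₀ (by positivity)] at this
    linarith
  have hN0 : 1 ≤ N := by
    have h1 : (0 : ℝ) < N := by
      by_contra h
      push Not at h
      have : σ * N ≤ 0 := mul_nonpos_of_nonneg_of_nonpos hσ.le h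
      linarith
    have h2 : 0 < N := by exact_mod_cast h1
    omega
  have hQ0 : 1 ≤ Q := by
    have h1 : (0 : ℝ) < Q := by
      by_contra h
      push Not at h
      have : σ * Q ≤ 0 := mul_nonpos_of_nonneg_of_nonpos hσ.le h
      linarith
    have h2 : 0 < Q := by exact_mod_cast h1
    omega
  have hC : Ctx Φ Em p0 ρ ε σ τ Q N :=
    { hL1 := hL
      hδ := hδ
      hδ1 := hδ1
      hEm := hEm3
      hE := hE
      hp0 := hp0
      hε := hε
      hε1 := hε1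
      hετ := hετ
      hσ := hσ
      hσE := by linarith
      hσρ := by nlinarith
      hρ := min_le_right _ _
      loc := loc_mono hl1 hρρ1
      ty := by
        intro z hz
        rcases hl2 z hz with h | ⟨f0, k0, h⟩
        · exact Or.inl (h.mono (Metric.ball_subset_ball hρρ2))
        · exact Or.inr ⟨f0, k0, fun ζ hζ => h ζ (Metric.ball_subset_ball hρρ2 hζ)⟩
      hQ := hQ0
      hσQ := hQ1
      hσQ' := hQ2
      hN := hN0
      hLN := hN1
      hNL := by linarith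
      hbd := by
        intro z hz
        have h1 := hB z hz
        calc (‖dz Φ.V z‖ + ppF Φ p0 z) * (4 * Em * σ) ≤ B * (4 * Em * σ) := by gcongr
          _ = σ * (4 * Em * B) := by ring
          _ ≤ δ := hs3 }
  refine ⟨ρ, ε, σ, Q, N, hC, ?_⟩
  have h1 := hR σ Q N hσ hs4 (by omega) hQ1 (by omega) (by linarith)
  have h2 : ∑ k ∈ Finset.Icc 0 Q, ∑ n ∈ Finset.Icc (-N) N, 10 * et Φ σ k n * σ *
      (σ * (2 * ‖dzb Φ.V (zt σ k n)‖ + 10 * ppF Φ p0 (zt σ k n) * et Φ σ k n)) =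
      ∑ k ∈ Finset.Icc 0 Q, ∑ n ∈ Finset.Icc (-N) N, σ ^ 2 / 2 * gg Φ p0 (zt σ k n) := by
    refine Finset.sum_congr rfl fun k _ => Finset.sum_congr rfl fun n _ => ?_
    unfold gg et
    ring
  rw [h2]
  linarith

end DiscM
end H
end MP1707
end
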