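import Pool.Agent.Lib.MP_1707ab_an.N2.SpecH

section
/-!
# H-EDGE: one edge between two tiles
-/
set_option autoImplicit false

open scoped Topology BigOperators Classical
open MeasureTheory

namespace MP1707.H.EdgeM

open MP1707.H

theorem E1 {p q σ W E π α κ : ℝ} {a a0 e e0 w : ℂ} (ha : ‖a‖ ≤ 1) (ha0 : ‖a0‖ ≤ 1)
    (hda : ‖a - a0‖ ≤ α) (he : ‖e‖ ≤ E) (hde : ‖e - e0‖ ≤ κ) (hp : |p - q| ≤ π) (hq : 0 ≤ q)
    (hσ : 0 ≤ σ) (hw : ‖w‖ ≤ W) :
    ‖(p : ℂ) * a * (w - σ * e) - q * a0 * (w - σ * e0)‖ ≤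
      (π + q * α) * (W + σ * E) + q * σ * κ := by
  have hid : (p : ℂ) * a * (w - σ * e) - q * a0 * (w - σ * e0) =
      ((p - q : ℝ) : ℂ) * a * (w - σ * e) + (q : ℂ) * (a - a0) * (w - σ * e) -
        (q : ℂ) * a0 * (σ * (e - e0)) := by
    push_cast; ring
  have h1 : ‖w - σ * e‖ ≤ W + σ * E := by
    refine (norm_sub_le _ _).trans ?_
    rw [norm_mul, Complex.norm_real, Real.norm_of_nonneg hσ]
    gcongr
  have hWE : 0 ≤ W + σ * E := (norm_nonneg _).trans h1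
  have hπ : 0 ≤ π := (abs_nonneg _).trans hp
  have hα : 0 ≤ α := (norm_nonneg _).trans hda
  rw [hid]
  have t1 : ‖((p - q : ℝ) : ℂ) * a * (w - σ * e)‖ ≤ π * (W + σ * E) := by
    rw [norm_mul, norm_mul, Complex.norm_real, Real.norm_eq_abs]
    calc |p - q| * ‖a‖ * ‖w - σ * e‖ ≤ π * 1 * (W + σ * E) := by gcongr
      _ = _ := by ring
  have t2 : ‖(q : ℂ) * (a - a0) * (w - σ * e)‖ ≤ q * α * (W + σ * E) := by
    rw [norm_mul, norm_mul, Complex.norm_real, Real.norm_of_nonneg hq]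
    gcongr
  have t3 : ‖(q : ℂ) * a0 * (σ * (e - e0))‖ ≤ q * σ * κ := by
    rw [norm_mul, norm_mul, norm_mul, Complex.norm_real, Real.norm_of_nonneg hq,
      Complex.norm_real, Real.norm_of_nonneg hσ]
    calc q * ‖a0‖ * (σ * ‖e - e0‖) ≤ q * 1 * (σ * κ) := by gcongr
      _ = _ := by ring
  calc _ ≤ ‖((p - q : ℝ) : ℂ) * a * (w - σ * e) + (q : ℂ) * (a - a0) * (w - σ * e)‖ +
        ‖(q : ℂ) * a0 * (σ * (e - e0))‖ := norm_sub_le _ _
    _ ≤ (‖((p - q : ℝ) : ℂ) * a * (w - σ * e)‖ + ‖(q : ℂ) * (a - a0) * (w - σ * e)‖) +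
        ‖(q : ℂ) * a0 * (σ * (e - e0))‖ := by gcongr; exact norm_add_le _ _
    _ ≤ π * (W + σ * E) + q * α * (W + σ * E) + q * σ * κ := by gcongr
    _ = _ := by ring

theorem E0 {p q π α : ℝ} {a a0 : ℂ} (ha : ‖a‖ ≤ 1)
    (hda : ‖a - a0‖ ≤ α) (hp : |p - q| ≤ π) (hq : 0 ≤ q) :
    ‖(p : ℂ) * a - q * a0‖ ≤ π + q * α := by
  have hid : (p : ℂ) * a - q * a0 = ((p - q : ℝ) : ℂ) * a + (q : ℂ) * (a - a0) := by
    push_cast; ring
  rw [hid]
  have hπ : 0 ≤ π := (abs_nonneg _).trans hp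
  refine (norm_add_le _ _).trans ?_
  rw [norm_mul, norm_mul, Complex.norm_real, Real.norm_eq_abs, Complex.norm_real,
    Real.norm_of_nonneg hq]
  calc |p - q| * ‖a‖ + q * ‖a - a0‖ ≤ π * 1 + q * α := by gcongr
    _ = _ := by ring

theorem eta_ge {L δ : ℝ} (Φ : Fields L δ) (z : ℂ) : 3 ≤ etaF Φ z := by
  unfold etaF; nlinarith [norm_nonneg (fderiv ℝ Φ.F z)]

theorem pp_ge {L δ : ℝ} (Φ : Fields L δ) (p0 : ℝ) (z : ℂ) : p0 ≤ ppF Φ p0 z := by
  unfold ppF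
  have := eta_ge Φ z
  have : 0 ≤ 200 * ‖om Φ.V Φ.c Φ.F z‖ / etaF Φ z := by positivity
  linarith

section main

variable {L δ p0 ρ ε σ : ℝ} {Φ : Fields L δ}

/-- data of one edge -/
structure Dat (Φ : Fields L δ) (p0 ρ ε σ : ℝ) (z0 z1 z2 hr Dl : ℂ) (m1 m2 : ℤ) : Prop where
  hp0 : 0 < p0
  hε : 0 < ε
  hε1 : ε ≤ 1 / 400
  hσ : 0 < σ
  hσρ : 4 * σ ≤ ρ
  loc : Loc Φ p0 ρ ε
  k0 : z0 ∈ K L
  k1 : z1 ∈ K L
  k2 : z2 ∈ K L
  d1 : ‖z1 - z0‖ ≤ 2 * σ
  d2 : ‖z2 - z0‖ ≤ 2 * σ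
  d3 : ‖z1 - z2‖ ≤ 2 * σ
  hid : ∀ z : ℂ, al (etaF Φ z0) m1 * (z - z1 - σ * en (etaF Φ z0) m1) -
      al (etaF Φ z0) m2 * (z - z2 - σ * en (etaF Φ z0) m2) = Dl * (z - hr)
  D1 : 1 / 2 ≤ ‖Dl‖
  D2 : ‖Dl‖ ≤ 2
  hh : ‖hr - z0‖ ≤ etaF Φ z0 * σ

variable {z0 z1 z2 hr Dl : ℂ} {m1 m2 : ℤ}

theorem Dl_eq (D : Dat Φ p0 ρ ε σ z0 z1 z2 hr Dl m1 m2) :
    al (etaF Φ z0) m1 - al (etaF Φ z0) m2 = Dl := by
  have h1 := D.hid 1
  have h0 := D.hid 0
  have : al (etaF Φ z0) m1 - al (etaF Φ z0) m2 =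
      (al (etaF Φ z0) m1 * (1 - z1 - σ * en (etaF Φ z0) m1) -
      al (etaF Φ z0) m2 * (1 - z2 - σ * en (etaF Φ z0) m2)) -
      (al (etaF Φ z0) m1 * (0 - z1 - σ * en (etaF Φ z0) m1) -
      al (etaF Φ z0) m2 * (0 - z2 - σ * en (etaF Φ z0) m2)) := by ring
  rw [this, h1, h0]; ring

/-- replacement of the parameters of one tile by those at `z0` -/
theorem rep (hM : SpecModel) (hp0 : 0 < p0) (hε : 0 < ε) (hε1 : ε ≤ 1 / 400) (hσ : 0 < σ)
    (hσρ : 4 * σ ≤ ρ) (loc : Loc Φ p0 ρ ε) (k0 : z0 ∈ K L) (k1 : z1 ∈ K L)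
    (d1 : ‖z1 - z0‖ ≤ 2 * σ) (m : ℤ) :
    (∀ x : ℂ, ‖x - z0‖ ≤ 3 * etaF Φ z0 * σ →
      ‖(ppF Φ p0 z1 : ℂ) * al (etaF Φ z1) m * (x - z1 - σ * en (etaF Φ z1) m) -
        ppF Φ p0 z0 * al (etaF Φ z0) m * (x - z1 - σ * en (etaF Φ z0) m)‖ ≤
        6 * ε * ppF Φ p0 z0 * etaF Φ z0 * σ) ∧
    ‖(ppF Φ p0 z1 : ℂ) * al (etaF Φ z1) m - ppF Φ p0 z0 * al (etaF Φ z0) m‖ ≤
      11 / 10 * ε * ppF Φ p0 z0 := by
  have hρ : ‖z1 - z0‖ ≤ ρ := by linarith
  have g1 := eta_ge Φ z1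
  have g0 := eta_ge Φ z0
  have q0 := pp_ge Φ p0 z0
  obtain ⟨m1, m2, m3, m4, -⟩ := hM.1 (etaF Φ z0) (etaF Φ z1) g0 g1 m
  obtain ⟨n1, -, n3, -, -⟩ := hM.1 (etaF Φ z1) (etaF Φ z0) g1 g0 m
  have e1 := loc.eta z0 k0 z1 k1 hρ
  have e2 := loc.p z0 k0 z1 k1 hρ
  have e3 : etaF Φ z1 ≤ etaF Φ z0 + ε := by linarith [(abs_le.1 e1).2]
  have hq : 0 ≤ ppF Φ p0 z0 := by linarith
  constructor
  · intro x hx
    have hw : ‖x - z1‖ ≤ 3 * etaF Φ z0 * σ + 2 * σ := by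
      calc ‖x - z1‖ = ‖(x - z0) - (z1 - z0)‖ := by congr 1; ring
        _ ≤ ‖x - z0‖ + ‖z1 - z0‖ := norm_sub_le _ _
        _ ≤ _ := by linarith
    refine (E1 (π := ε * p0) (α := ε / 18) (κ := ε) (E := etaF Φ z0 + ε)
      (W := 3 * etaF Φ z0 * σ + 2 * σ) n1 m1 (m2.trans (by linarith)) (n3.trans e3)
      (m4.trans e1) e2 hq hσ.le hw).trans ?_
    have h1 : 3 * etaF Φ z0 * σ + 2 * σ + σ * (etaF Φ z0 + ε) ≤ 47 / 10 * (etaF Φ z0 * σ) := by
      nlinarith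
    have h2 : ε * p0 + ppF Φ p0 z0 * (ε / 18) ≤ 19 / 18 * (ε * ppF Φ p0 z0) := by
      nlinarith
    have h3 : 0 ≤ etaF Φ z0 * σ := by positivity
    have h4 : 0 ≤ ε * ppF Φ p0 z0 := by positivity
    have h5 : (ε * p0 + ppF Φ p0 z0 * (ε / 18)) *
        (3 * etaF Φ z0 * σ + 2 * σ + σ * (etaF Φ z0 + ε)) ≤
        (19 / 18 * (ε * ppF Φ p0 z0)) * (47 / 10 * (etaF Φ z0 * σ)) := by
      apply mul_le_mul h2 h1 (by positivity) (by positivity)
    have h6 : ppF Φ p0 z0 * σ * ε ≤ 1 / 3 * ((ε * ppF Φ p0 z0) * (etaF Φ z0 * σ)) := by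
      have : 0 ≤ (ε * ppF Φ p0 z0) * ((etaF Φ z0 - 3) * σ) :=
        mul_nonneg h4 (mul_nonneg (by linarith) hσ.le)
      nlinarith
    nlinarith [mul_nonneg h4 h3]
  · refine (E0 (π := ε * p0) (α := ε / 18) n1 (m2.trans (by linarith)) e2 hq).trans ?_
    nlinarith

theorem main (hM : SpecModel) (D : Dat Φ p0 ρ ε σ z0 z1 z2 hr Dl m1 m2) :
    (∀ x : ℂ, ‖x - z0‖ ≤ 3 * etaF Φ z0 * σ →
      ‖((ta Φ p0 z1 m1 - ta Φ p0 z2 m2) * x + (tb Φ p0 σ z1 m1 - tb Φ p0 σ z2 m2)) -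
        ppF Φ p0 z0 * Dl * (x - hr)‖ ≤
        2 * σ * ‖dzb Φ.V z0‖ + 18 * ε * ppF Φ p0 z0 * etaF Φ z0 * σ) ∧
    ‖(ta Φ p0 z1 m1 - ta Φ p0 z2 m2) - ppF Φ p0 z0 * Dl‖ ≤ 32 / 10 * ε * ppF Φ p0 z0 := by
  have r1 := rep hM D.hp0 D.hε D.hε1 D.hσ D.hσρ D.loc D.k0 D.k1 D.d1 m1
  have r2 := rep hM D.hp0 D.hε D.hε1 D.hσ D.hσρ D.loc D.k0 D.k2 D.d2 m2
  have g0 := eta_ge Φ z0
  have q0 := pp_ge Φ p0 z0
  have hσ := D.hσ
  have hε := D.hε
  have hp0 := D.hp0
  have hρ12 : ‖z1 - z2‖ ≤ ρ := by linarith [D.d3, D.hσρ]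
  have v1 := D.loc.V z2 D.k2 z1 D.k1 hρ12
  have v2 := D.loc.dbV z0 D.k0 z2 D.k2 (by linarith [D.d2, D.hσρ])
  have v3 := D.loc.dV z2 D.k2 z1 D.k1 hρ12
  constructor
  · intro x hx
    have hid : ((ta Φ p0 z1 m1 - ta Φ p0 z2 m2) * x + (tb Φ p0 σ z1 m1 - tb Φ p0 σ z2 m2)) -
        ppF Φ p0 z0 * Dl * (x - hr) =
        (Φ.V z1 - Φ.V z2 - dz Φ.V z2 * (z1 - z2)) + (dz Φ.V z1 - dz Φ.V z2) * (x - z1) +
        ((ppF Φ p0 z1 : ℂ) * al (etaF Φ z1) m1 * (x - z1 - σ * en (etaF Φ z1) m1) -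
          ppF Φ p0 z0 * al (etaF Φ z0) m1 * (x - z1 - σ * en (etaF Φ z0) m1)) -
        ((ppF Φ p0 z2 : ℂ) * al (etaF Φ z2) m2 * (x - z2 - σ * en (etaF Φ z2) m2) -
          ppF Φ p0 z0 * al (etaF Φ z0) m2 * (x - z2 - σ * en (etaF Φ z0) m2)) := by
      have h := D.hid x
      unfold ta tb
      linear_combination (ppF Φ p0 z0 : ℂ) * h
    rw [hid]
    have hw : ‖x - z1‖ ≤ 3 * etaF Φ z0 * σ + 2 * σ := by
      calc ‖x - z1‖ = ‖(x - z0) - (z1 - z0)‖ := by congr 1; ring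
        _ ≤ ‖x - z0‖ + ‖z1 - z0‖ := norm_sub_le _ _
        _ ≤ _ := by linarith [D.d1]
    have t1 : ‖Φ.V z1 - Φ.V z2 - dz Φ.V z2 * (z1 - z2)‖ ≤
        (‖dzb Φ.V z0‖ + 2 * (ε * p0)) * (2 * σ) := by
      refine v1.trans ?_
      apply mul_le_mul (by linarith) D.d3 (norm_nonneg _) (by positivity)
    have t2 : ‖(dz Φ.V z1 - dz Φ.V z2) * (x - z1)‖ ≤ (ε * p0) * (3 * etaF Φ z0 * σ + 2 * σ) := by
      rw [norm_mul]
      apply mul_le_mul v3 hw (norm_nonneg _) (by positivity)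
    have t3 := r1.1 x hx
    have t4 := r2.1 x hx
    have h1 : (‖dzb Φ.V z0‖ + 2 * (ε * p0)) * (2 * σ) + (ε * p0) * (3 * etaF Φ z0 * σ + 2 * σ) ≤
        2 * σ * ‖dzb Φ.V z0‖ + 6 * ε * ppF Φ p0 z0 * etaF Φ z0 * σ := by
      have a1 : 0 ≤ ε * σ * (ppF Φ p0 z0 - p0) := by
        apply mul_nonneg (by positivity); linarith
      have a2 : 0 ≤ ε * σ * (ppF Φ p0 z0 - p0) * etaF Φ z0 := by positivity
      have a3 : 0 ≤ ε * σ * p0 * (etaF Φ z0 - 3) := by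
        apply mul_nonneg (by positivity); linarith
      have e1 : ε * σ * (ppF Φ p0 z0 - p0) * etaF Φ z0 =
          ε * ppF Φ p0 z0 * etaF Φ z0 * σ - ε * p0 * etaF Φ z0 * σ := by ring
      have e2 : ε * σ * p0 * (etaF Φ z0 - 3) =
          ε * p0 * etaF Φ z0 * σ - 3 * (ε * p0 * σ) := by ring
      have e3 : (‖dzb Φ.V z0‖ + 2 * (ε * p0)) * (2 * σ) +
          (ε * p0) * (3 * etaF Φ z0 * σ + 2 * σ) =
          2 * σ * ‖dzb Φ.V z0‖ + (3 * (ε * p0 * etaF Φ z0 * σ) + 6 * (ε * p0 * σ)) := by ring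
      have e4 : 6 * ε * ppF Φ p0 z0 * etaF Φ z0 * σ =
          6 * (ε * ppF Φ p0 z0 * etaF Φ z0 * σ) := by ring
      rw [e1] at a2
      rw [e2] at a3
      rw [e3, e4]
      have a4 : 0 ≤ ε * p0 * σ := by positivity
      linarith
    calc _ ≤ ‖Φ.V z1 - Φ.V z2 - dz Φ.V z2 * (z1 - z2)‖ + ‖(dz Φ.V z1 - dz Φ.V z2) * (x - z1)‖ +
          ‖(ppF Φ p0 z1 : ℂ) * al (etaF Φ z1) m1 * (x - z1 - σ * en (etaF Φ z1) m1) -
          ppF Φ p0 z0 * al (etaF Φ z0) m1 * (x - z1 - σ * en (etaF Φ z0) m1)‖ +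
          ‖(ppF Φ p0 z2 : ℂ) * al (etaF Φ z2) m2 * (x - z2 - σ * en (etaF Φ z2) m2) -
          ppF Φ p0 z0 * al (etaF Φ z0) m2 * (x - z2 - σ * en (etaF Φ z0) m2)‖ := by
          refine (norm_sub_le _ _).trans ?_
          gcongr
          refine (norm_add_le _ _).trans ?_
          gcongr
          exact norm_add_le _ _
      _ ≤ _ := by linarith
  · have hid : (ta Φ p0 z1 m1 - ta Φ p0 z2 m2) - ppF Φ p0 z0 * Dl =
        (dz Φ.V z1 - dz Φ.V z2) +
        ((ppF Φ p0 z1 : ℂ) * al (etaF Φ z1) m1 - ppF Φ p0 z0 * al (etaF Φ z0) m1) -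
        ((ppF Φ p0 z2 : ℂ) * al (etaF Φ z2) m2 - ppF Φ p0 z0 * al (etaF Φ z0) m2) := by
      rw [← Dl_eq D]; unfold ta; ring
    rw [hid]
    calc _ ≤ ‖dz Φ.V z1 - dz Φ.V z2‖ +
        ‖(ppF Φ p0 z1 : ℂ) * al (etaF Φ z1) m1 - ppF Φ p0 z0 * al (etaF Φ z0) m1‖ +
        ‖(ppF Φ p0 z2 : ℂ) * al (etaF Φ z2) m2 - ppF Φ p0 z0 * al (etaF Φ z0) m2‖ := by
          refine (norm_sub_le _ _).trans ?_
          gcongr
          exact norm_add_le _ _
      _ ≤ ε * p0 + 11 / 10 * ε * ppF Φ p0 z0 + 11 / 10 * ε * ppF Φ p0 z0 := by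
          linarith [r1.2, r2.2]
      _ ≤ _ := by nlinarith

theorem Da_ge (hM : SpecModel) (D : Dat Φ p0 ρ ε σ z0 z1 z2 hr Dl m1 m2) :
    49 / 100 * ppF Φ p0 z0 ≤ ‖ta Φ p0 z1 m1 - ta Φ p0 z2 m2‖ := by
  have h := (main hM D).2
  have q0 := pp_ge Φ p0 z0
  have hp0 := D.hp0
  have hε := D.hε
  have hq : 0 ≤ ppF Φ p0 z0 := by linarith
  have h2 : ‖(ppF Φ p0 z0 : ℂ) * Dl‖ = ppF Φ p0 z0 * ‖Dl‖ := by
    rw [norm_mul, Complex.norm_real, Real.norm_of_nonneg hq]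
  have h3 : ‖(ppF Φ p0 z0 : ℂ) * Dl‖ - ‖ta Φ p0 z1 m1 - ta Φ p0 z2 m2‖ ≤
      ‖(ta Φ p0 z1 m1 - ta Φ p0 z2 m2) - ppF Φ p0 z0 * Dl‖ := by
    rw [norm_sub_rev (ta Φ p0 z1 m1 - ta Φ p0 z2 m2)]
    exact norm_sub_norm_le ((ppF Φ p0 z0 : ℂ) * Dl) (ta Φ p0 z1 m1 - ta Φ p0 z2 m2)
  have h4 : ppF Φ p0 z0 * (1 / 2) ≤ ppF Φ p0 z0 * ‖Dl‖ :=
    mul_le_mul_of_nonneg_left D.D1 hq
  have h5 : 32 / 10 * ε * ppF Φ p0 z0 ≤ 32 / 10 * (1 / 400) * ppF Φ p0 z0 := by
    gcongr; exact D.hε1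
  rw [h2] at h3
  linarith


theorem fF {Da f F1 X : ℂ} {q b : ℝ} (hDa : 49 / 100 * q ≤ ‖Da‖) (hq : 0 < q) (hf : f * Da = X)
    (hX : ‖X - F1 * Da‖ ≤ q * (49 / 100 * b)) : ‖f - F1‖ ≤ b := by
  have h1 : ‖f - F1‖ * ‖Da‖ ≤ q * (49 / 100 * b) := by
    rw [← norm_mul, sub_mul, hf]; exact hX
  have h2 : ‖f - F1‖ * (49 / 100 * q) ≤ ‖f - F1‖ * ‖Da‖ :=
    mul_le_mul_of_nonneg_left hDa (norm_nonneg _)
  have h3 : (49 / 100 * q) * ‖f - F1‖ ≤ (49 / 100 * q) * b := by linarith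
  exact le_of_mul_le_mul_left h3 (by positivity)

/-- numerical bound -/
theorem num {q p0 p1 p2 η0 η1 ε d : ℝ} (hη0 : 3 ≤ η0) (hη1 : 3 ≤ η1) (he : η1 ≤ η0 + ε)
    (hε : 0 < ε) (hε1 : ε ≤ 1 / 400) (hp0 : 0 < p0) (hq : p0 ≤ q) (h1 : p1 ≤ q + ε * p0)
    (h2 : p2 ≤ q + ε * p0) (h2' : 0 ≤ p2) (h1' : 0 ≤ p1) (hd : 0 ≤ d) :
    (p1 * η1 / 200 + ε * p0) * d + p2 * ((η1 / 200 + ε) * d) ≤ q * (49 / 100 * (η0 / 40 * d)) := by
  have hq0 : 0 < q := by linarith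
  have a1 : p1 ≤ q * (401 / 400) := by nlinarith
  have a2 : p2 ≤ q * (401 / 400) := by nlinarith
  have a3 : η1 ≤ η0 * (1201 / 1200) := by nlinarith
  have b1 : p1 * η1 ≤ q * (401 / 400) * (η0 * (1201 / 1200)) := by
    apply mul_le_mul a1 a3 (by linarith) (by positivity)
  have b2 : p2 * (η1 / 200 + ε) ≤ q * (401 / 400) * (η0 * (1201 / 1200) / 200 + η0 / 1200) := by
    apply mul_le_mul a2 _ (by positivity) (by positivity)
    nlinarith
  have b3 : ε * p0 ≤ q * (η0 / 1200) := by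
    have : ε * p0 ≤ 1 / 400 * q := by
      apply mul_le_mul hε1 hq hp0.le (by norm_num)
    nlinarith
  have key : p1 * η1 / 200 + ε * p0 + p2 * (η1 / 200 + ε) ≤ q * (49 / 100 * (η0 / 40)) := by
    have hqη : 0 ≤ q * η0 := by positivity
    nlinarith
  calc (p1 * η1 / 200 + ε * p0) * d + p2 * ((η1 / 200 + ε) * d) =
      (p1 * η1 / 200 + ε * p0 + p2 * (η1 / 200 + ε)) * d := by ring
    _ ≤ (q * (49 / 100 * (η0 / 40))) * d := by gcongr
    _ = _ := by ring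

theorem edge3 (hM : SpecModel) (D : Dat Φ p0 ρ ε σ z0 z1 z2 hr Dl m1 m2) (f : ℂ)
    (hf : f * (ta Φ p0 z1 m1 - ta Φ p0 z2 m2) = tc Φ p0 z1 m1 - tc Φ p0 z2 m2) :
    ‖f - Φ.F z1‖ ≤ etaF Φ z0 / 40 * ‖z1 - z2‖ ∧ ‖f - Φ.F z2‖ ≤ etaF Φ z0 / 40 * ‖z1 - z2‖ := by
  have hρ12 : ‖z1 - z2‖ ≤ ρ := by linarith [D.d3, D.hσρ, D.hσ]
  have hρ21 : ‖z2 - z1‖ ≤ ρ := by rw [norm_sub_rev]; exact hρ12
  have hρ1 : ‖z1 - z0‖ ≤ ρ := by linarith [D.d1, D.hσρ, D.hσ]
  have hρ2 : ‖z2 - z0‖ ≤ ρ := by linarith [D.d2, D.hσρ, D.hσ]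
  have g0 := eta_ge Φ z0
  have g1 := eta_ge Φ z1
  have g2 := eta_ge Φ z2
  have q0 := pp_ge Φ p0 z0
  have q1 := pp_ge Φ p0 z1
  have q2 := pp_ge Φ p0 z2
  have hp0 := D.hp0
  have e1 := (abs_le.1 (D.loc.eta z0 D.k0 z1 D.k1 hρ1)).2
  have e2 := (abs_le.1 (D.loc.eta z0 D.k0 z2 D.k2 hρ2)).2
  have f1 := (abs_le.1 (D.loc.p z0 D.k0 z1 D.k1 hρ1)).2
  have f2 := (abs_le.1 (D.loc.p z0 D.k0 z2 D.k2 hρ2)).2
  have al1 : ‖al (etaF Φ z1) m1‖ ≤ 1 := (hM.1 _ _ g1 g1 m1).1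
  have al2 : ‖al (etaF Φ z2) m2‖ ≤ 1 := (hM.1 _ _ g2 g2 m2).1
  have hDa := Da_ge hM D
  constructor
  · apply fF hDa (by linarith) hf
    have hid : tc Φ p0 z1 m1 - tc Φ p0 z2 m2 - Φ.F z1 * (ta Φ p0 z1 m1 - ta Φ p0 z2 m2) =
        -(Φ.c z2 - Φ.c z1 - Φ.F z1 * (dz Φ.V z2 - dz Φ.V z1)) -
          ppF Φ p0 z2 * (al (etaF Φ z2) m2 * (Φ.F z2 - Φ.F z1)) := by
      unfold tc ta; ring
    rw [hid]
    have c1 := D.loc.c z1 D.k1 z2 D.k2 hρ21
    have c2 := D.loc.F z1 D.k1 z2 D.k2 hρ21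
    have c3 : ‖(ppF Φ p0 z2 : ℂ) * (al (etaF Φ z2) m2 * (Φ.F z2 - Φ.F z1))‖ ≤
        ppF Φ p0 z2 * ((etaF Φ z1 / 200 + ε) * ‖z2 - z1‖) := by
      rw [norm_mul, norm_mul, Complex.norm_real, Real.norm_of_nonneg (by linarith)]
      apply mul_le_mul_of_nonneg_left _ (by linarith)
      calc ‖al (etaF Φ z2) m2‖ * ‖Φ.F z2 - Φ.F z1‖ ≤ 1 * ‖Φ.F z2 - Φ.F z1‖ := by gcongr
        _ ≤ _ := by linarith
    calc _ ≤ ‖Φ.c z2 - Φ.c z1 - Φ.F z1 * (dz Φ.V z2 - dz Φ.V z1)‖ +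
        ‖(ppF Φ p0 z2 : ℂ) * (al (etaF Φ z2) m2 * (Φ.F z2 - Φ.F z1))‖ := by
          refine (norm_sub_le _ _).trans ?_
          rw [norm_neg]
      _ ≤ (ppF Φ p0 z1 * etaF Φ z1 / 200 + ε * p0) * ‖z2 - z1‖ +
          ppF Φ p0 z2 * ((etaF Φ z1 / 200 + ε) * ‖z2 - z1‖) := add_le_add c1 c3
      _ ≤ _ := by
          rw [norm_sub_rev z1 z2]
          exact num g0 g1 (by linarith) D.hε D.hε1 hp0 q0 (by linarith) (by linarith)
            (by linarith) (by linarith) (norm_nonneg _)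
  · apply fF hDa (by linarith) hf
    have hid : tc Φ p0 z1 m1 - tc Φ p0 z2 m2 - Φ.F z2 * (ta Φ p0 z1 m1 - ta Φ p0 z2 m2) =
        (Φ.c z1 - Φ.c z2 - Φ.F z2 * (dz Φ.V z1 - dz Φ.V z2)) +
          ppF Φ p0 z1 * (al (etaF Φ z1) m1 * (Φ.F z1 - Φ.F z2)) := by
      unfold tc ta; ring
    rw [hid]
    have c1 := D.loc.c z2 D.k2 z1 D.k1 hρ12
    have c2 := D.loc.F z2 D.k2 z1 D.k1 hρ12
    have c3 : ‖(ppF Φ p0 z1 : ℂ) * (al (etaF Φ z1) m1 * (Φ.F z1 - Φ.F z2))‖ ≤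
        ppF Φ p0 z1 * ((etaF Φ z2 / 200 + ε) * ‖z1 - z2‖) := by
      rw [norm_mul, norm_mul, Complex.norm_real, Real.norm_of_nonneg (by linarith)]
      apply mul_le_mul_of_nonneg_left _ (by linarith)
      calc ‖al (etaF Φ z1) m1‖ * ‖Φ.F z1 - Φ.F z2‖ ≤ 1 * ‖Φ.F z1 - Φ.F z2‖ := by gcongr
        _ ≤ _ := by linarith
    calc _ ≤ ‖Φ.c z1 - Φ.c z2 - Φ.F z2 * (dz Φ.V z1 - dz Φ.V z2)‖ +
        ‖(ppF Φ p0 z1 : ℂ) * (al (etaF Φ z1) m1 * (Φ.F z1 - Φ.F z2))‖ := norm_add_le _ _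
      _ ≤ (ppF Φ p0 z2 * etaF Φ z2 / 200 + ε * p0) * ‖z1 - z2‖ +
          ppF Φ p0 z1 * ((etaF Φ z2 / 200 + ε) * ‖z1 - z2‖) := add_le_add c1 c3
      _ ≤ _ := num g0 g2 (by linarith) D.hε D.hε1 hp0 q0 (by linarith) (by linarith)
            (by linarith) (by linarith) (norm_nonneg _)

end main

end MP1707.H.EdgeM

namespace MP1707.H

open EdgeM

theorem specEdge (hM : SpecModel) : SpecEdge := by
  intro L δ Φ p0 ρ ε σ hp0 hε hε1 hσ hσρ loc z0 z1 z2 hr Dl m1 m2 k0 k1 k2 d1 d2 d3 hid D1 D2 hh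
  have D : Dat Φ p0 ρ ε σ z0 z1 z2 hr Dl m1 m2 :=
    ⟨hp0, hε, hε1, hσ, hσρ, loc, k0, k1, k2, d1, d2, d3, hid, D1, D2, hh⟩
  have g0 := eta_ge Φ z0
  have q0 := pp_ge Φ p0 z0
  have hq : 0 < ppF Φ p0 z0 := by linarith
  have hm := (main hM D).1
  have hDa := Da_ge hM D
  refine ⟨fun x hx => ?_, fun hdb => ⟨?_, fun h hh0 => ?_, fun f hf => edge3 hM D f hf⟩⟩
  · have h1 := hm x hx
    have h2 : ‖(ppF Φ p0 z0 : ℂ) * Dl * (x - hr)‖ ≤ ppF Φ p0 z0 * 2 * (4 * etaF Φ z0 * σ) := by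
      rw [norm_mul, norm_mul, Complex.norm_real, Real.norm_of_nonneg hq.le]
      apply mul_le_mul (mul_le_mul_of_nonneg_left D2 hq.le) _ (norm_nonneg _) (by positivity)
      calc ‖x - hr‖ = ‖(x - z0) - (hr - z0)‖ := by congr 1; ring
        _ ≤ ‖x - z0‖ + ‖hr - z0‖ := norm_sub_le _ _
        _ ≤ _ := by linarith
    have h3 : ‖(ta Φ p0 z1 m1 - ta Φ p0 z2 m2) * x + (tb Φ p0 σ z1 m1 - tb Φ p0 σ z2 m2)‖ ≤
        ‖((ta Φ p0 z1 m1 - ta Φ p0 z2 m2) * x + (tb Φ p0 σ z1 m1 - tb Φ p0 σ z2 m2)) -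
          ppF Φ p0 z0 * Dl * (x - hr)‖ + ‖(ppF Φ p0 z0 : ℂ) * Dl * (x - hr)‖ := by
      have := norm_add_le (((ta Φ p0 z1 m1 - ta Φ p0 z2 m2) * x +
        (tb Φ p0 σ z1 m1 - tb Φ p0 σ z2 m2)) - ppF Φ p0 z0 * Dl * (x - hr))
        ((ppF Φ p0 z0 : ℂ) * Dl * (x - hr))
      rwa [sub_add_cancel] at this
    have h4 : 18 * ε * ppF Φ p0 z0 * etaF Φ z0 * σ ≤
        18 * (1 / 400) * ppF Φ p0 z0 * etaF Φ z0 * σ := by gcongr
    have h5 : 0 ≤ ppF Φ p0 z0 * etaF Φ z0 * σ := by positivity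
    nlinarith
  · intro h0
    rw [h0, norm_zero] at hDa
    linarith
  · have h1 := hm hr (by nlinarith [mul_nonneg (show 0 ≤ etaF Φ z0 by linarith) hσ.le])
    rw [hdb, norm_zero, mul_zero, zero_add, sub_self, mul_zero, sub_zero] at h1
    have h2 : (ta Φ p0 z1 m1 - ta Φ p0 z2 m2) * hr + (tb Φ p0 σ z1 m1 - tb Φ p0 σ z2 m2) =
        (ta Φ p0 z1 m1 - ta Φ p0 z2 m2) * (hr - h) := by
      linear_combination hh0
    rw [h2, norm_mul, norm_sub_rev hr h] at h1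
    have h3 : (49 / 100 * ppF Φ p0 z0) * ‖h - hr‖ ≤
        18 * ε * ppF Φ p0 z0 * etaF Φ z0 * σ :=
      (mul_le_mul_of_nonneg_right hDa (norm_nonneg _)).trans h1
    have h4 : (49 / 100 * ppF Φ p0 z0) * ‖h - hr‖ ≤
        (49 / 100 * ppF Φ p0 z0) * (40 * ε * etaF Φ z0 * σ) := by
      have : 0 ≤ ε * ppF Φ p0 z0 * etaF Φ z0 * σ := by positivity
      nlinarith
    exact le_of_mul_le_mul_left h4 (by positivity)

end MP1707.H
end

section
/-!
# MP_1707ab_an, n = 2, PART H: common lemmas for the chains `cn` (helper40)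
-/
set_option autoImplicit false

open scoped Topology BigOperators Classical

namespace MP1707
namespace H
namespace CnM

theorem co_one (z : ℂ) : co 1 z = z.re := by simp [co]

theorem co_I (z : ℂ) : co Complex.I z = z.im := by simp [co]

/-- the gadget ball -/
def G (u h : ℂ) (r : ℝ) : Set ℂ :=
  {z | ∃ t e : ℝ, |t| ≤ r ∧ |e| ≤ r ∧ z = h + u * (t : ℂ) + u * Complex.I * (e : ℂ)}

theorem norm_G {u h : ℂ} {r : ℝ} (hu : ‖u‖ = 1) {z : ℂ} (hz : z ∈ G u h r) : ‖z - h‖ ≤ 2 * r := by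
  obtain ⟨t, e, ht, he, rfl⟩ := hz
  have h1 : h + u * (t : ℂ) + u * Complex.I * (e : ℂ) - h = u * (t : ℂ) + u * Complex.I * (e : ℂ) := by
    ring
  rw [h1]
  have h2 : ‖u * (t : ℂ)‖ = |t| := by rw [norm_mul, hu, one_mul, Complex.norm_real, Real.norm_eq_abs]
  have h3 : ‖u * Complex.I * (e : ℂ)‖ = |e| := by
    rw [norm_mul, norm_mul, hu, Complex.norm_I, Complex.norm_real, Real.norm_eq_abs]; ring
  calc ‖u * (t : ℂ) + u * Complex.I * (e : ℂ)‖ ≤ ‖u * (t : ℂ)‖ + ‖u * Complex.I * (e : ℂ)‖ :=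
        norm_add_le _ _
    _ ≤ 2 * r := by rw [h2, h3]; linarith

/-- gadget nodes lie in `G` -/
theorem cn_gadget {u v a h b v' : ℂ} {M : ℕ} {r ρ : ℝ} (hr : 0 < r) (hM : 1 ≤ M)
    (hρ : ρ = r ∨ ρ = 0) {i : ℕ} (h2 : 2 ≤ i) (hi : i ≤ 2 * M + 2) :
    cn u v a h b v' M (r / M) ρ i ∈ G u h r := by
  have hM' : (0 : ℝ) < M := by exact_mod_cast (show 0 < M by omega)
  have e1 : cn u v a h b v' M (r / M) ρ i =
      h + u * ((((i : ℝ) - 2 - M) * (r / M) : ℝ) : ℂ) + u * Complex.I * (((-1 : ℝ) ^ i * ρ : ℝ) : ℂ) := by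
    unfold cn
    rw [if_neg (by omega), if_neg (by omega), if_pos hi]
  refine ⟨((i : ℝ) - 2 - M) * (r / M), (-1 : ℝ) ^ i * ρ, ?_, ?_, e1⟩
  · have h2' : (2 : ℝ) ≤ i := by exact_mod_cast h2
    have hi' : (i : ℝ) ≤ 2 * M + 2 := by exact_mod_cast hi
    rw [abs_mul, abs_of_pos (div_pos hr hM')]
    have h3 : |(i : ℝ) - 2 - M| ≤ M := abs_le.2 ⟨by linarith, by linarith⟩
    calc |(i : ℝ) - 2 - M| * (r / M) ≤ M * (r / M) := by
          gcongr
      _ = r := by field_simp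
  · rw [abs_mul, abs_pow, abs_neg, abs_one, one_pow, one_mul]
    rcases hρ with h | h
    · rw [h, abs_of_pos hr]
    · rw [h, abs_zero]; exact hr.le

/-- a property of all nodes -/
theorem cn_all {u v a h b v' : ℂ} {M : ℕ} {r ρ : ℝ} (hr : 0 < r) (hM : 1 ≤ M)
    (hρ : ρ = r ∨ ρ = 0) (Pr : ℂ → Prop) (pv : Pr v) (pa : Pr a) (pg : ∀ z ∈ G u h r, Pr z)
    (pb : Pr b) (pv' : Pr v') (i : ℕ) : Pr (cn u v a h b v' M (r / M) ρ i) := by
  by_cases h0 : i = 0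
  · unfold cn; rw [if_pos h0]; exact pv
  by_cases h1 : i = 1
  · unfold cn; rw [if_neg h0, if_pos h1]; exact pa
  by_cases h2 : i ≤ 2 * M + 2
  · exact pg _ (cn_gadget hr hM hρ (by omega) h2)
  by_cases h3 : i = 2 * M + 3
  · unfold cn; rw [if_neg h0, if_neg h1, if_neg h2, if_pos h3]; exact pb
  · unfold cn; rw [if_neg h0, if_neg h1, if_neg h2, if_neg h3]; exact pv'

theorem cn_zero {u v a h b v' : ℂ} {M : ℕ} {d ρ : ℝ} : cn u v a h b v' M d ρ 0 = v := by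
  unfold cn; simp

theorem cn_one {u v a h b v' : ℂ} {M : ℕ} {d ρ : ℝ} : cn u v a h b v' M d ρ 1 = a := by
  unfold cn; simp

theorem cn_b {u v a h b v' : ℂ} {M : ℕ} {d ρ : ℝ} : cn u v a h b v' M d ρ (2 * M + 3) = b := by
  unfold cn; rw [if_neg (by omega), if_neg (by omega), if_neg (by omega), if_pos rfl]

theorem cn_last {u v a h b v' : ℂ} {M : ℕ} {d ρ : ℝ} : cn u v a h b v' M d ρ (2 * M + 4) = v' := by
  unfold cn; rw [if_neg (by omega), if_neg (by omega), if_neg (by omega), if_neg (by omega)]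

/-- a property of all consecutive pairs of nodes -/
theorem cn_pairs {u v a h b v' : ℂ} {M : ℕ} {r ρ : ℝ} (hr : 0 < r) (hM : 1 ≤ M)
    (hρ : ρ = r ∨ ρ = 0) (R : ℂ → ℂ → Prop) (p0 : R v a) (p1 : ∀ g ∈ G u h r, R a g)
    (p2 : ∀ g ∈ G u h r, ∀ g' ∈ G u h r, R g g') (p3 : ∀ g ∈ G u h r, R g b) (p4 : R b v')
    (i : ℕ) (hi : i < 2 * M + 4) :
    R (cn u v a h b v' M (r / M) ρ i) (cn u v a h b v' M (r / M) ρ (i + 1)) := by
  by_cases h0 : i = 0
  · subst h0; rw [cn_zero, zero_add, cn_one]; exact p0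
  by_cases h1 : i = 1
  · subst h1; rw [cn_one]; exact p1 _ (cn_gadget hr hM hρ (by omega) (by omega))
  by_cases h2 : i < 2 * M + 2
  · exact p2 _ (cn_gadget hr hM hρ (by omega) (by omega)) _ (cn_gadget hr hM hρ (by omega) (by omega))
  by_cases h3 : i = 2 * M + 2
  · subst h3
    rw [show 2 * M + 2 + 1 = 2 * M + 3 from rfl, cn_b]
    exact p3 _ (cn_gadget hr hM hρ (by omega) (by omega))
  · have h4 : i = 2 * M + 3 := by omega
    subst h4
    rw [show 2 * M + 3 + 1 = 2 * M + 4 from rfl, cn_b, cn_last]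
    exact p4

/-- a linear inequality passes to segments -/
theorem seg_le {p q x : ℂ} (hx : x ∈ segment ℝ p q) (c1 c2 c0 : ℝ)
    (hp : c1 * p.re + c2 * p.im ≤ c0) (hq : c1 * q.re + c2 * q.im ≤ c0) :
    c1 * x.re + c2 * x.im ≤ c0 := by
  obtain ⟨s, t, hs, ht, hst, rfl⟩ := hx
  have e1 : (s • p + t • q).re = s * p.re + t * q.re := by simp
  have e2 : (s • p + t • q).im = s * p.im + t * q.im := by simp
  rw [e1, e2]
  have h1 := mul_le_mul_of_nonneg_left hp hs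
  have h2 := mul_le_mul_of_nonneg_left hq ht
  have h3 : s * c0 + t * c0 = c0 := by rw [← add_mul, hst, one_mul]
  linarith

/-- `|Re x - A| ≤ c (Im x - B)` passes to segments -/
theorem seg_abs {p q x : ℂ} (hx : x ∈ segment ℝ p q) (A B c : ℝ)
    (hp : |p.re - A| ≤ c * (p.im - B)) (hq : |q.re - A| ≤ c * (q.im - B)) :
    |x.re - A| ≤ c * (x.im - B) := by
  rw [abs_le] at hp hq ⊢
  constructor
  · have := seg_le hx (-1) (-c) (-A - c * B) (by linarith [hp.1]) (by linarith [hq.1])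
    linarith
  · have := seg_le hx 1 (-c) (A - c * B) (by linarith [hp.2]) (by linarith [hq.2])
    linarith

/-- first and last piece: points of a chain with small coordinate lie on the first segment -/
theorem re_lt_seg {p q x : ℂ} (hx : x ∈ segment ℝ p q) {A : ℝ} (hp : A ≤ p.re) (hq : A ≤ q.re) :
    A ≤ x.re := by
  have := seg_le hx (-1) 0 (-A) (by linarith) (by linarith)
  linarith

theorem re_gt_seg {p q x : ℂ} (hx : x ∈ segment ℝ p q) {A : ℝ} (hp : p.re ≤ A) (hq : q.re ≤ A) :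
    x.re ≤ A := by
  have := seg_le hx 1 0 A (by linarith) (by linarith)
  linarith

theorem re_le_norm (z : ℂ) : |z.re| ≤ ‖z‖ := Complex.abs_re_le_norm z
theorem im_le_norm (z : ℂ) : |z.im| ≤ ‖z‖ := Complex.abs_im_le_norm z
theorem norm_le_re_im (z : ℂ) : ‖z‖ ≤ |z.re| + |z.im| := Complex.norm_le_abs_re_add_abs_im z

end CnM
end H
end MP1707
end

section
/-!
# H-MODEL: algebra of the medium
-/
set_option autoImplicit false

open scoped Topology BigOperators Classical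
open MeasureTheory

namespace MP1707.H.ModelM

open MP1707.H

theorem norm_le_of {z : ℂ} {r : ℝ} (hr : 0 ≤ r) (h : z.re ^ 2 + z.im ^ 2 ≤ r ^ 2) : ‖z‖ ≤ r := by
  have h1 : ‖z‖ ^ 2 ≤ r ^ 2 := by
    rw [Complex.sq_norm, Complex.normSq_apply]; nlinarith
  exact (sq_le_sq₀ (norm_nonneg z) hr).1 h1

theorem le_norm_of {z : ℂ} {r : ℝ} (h : r ^ 2 ≤ z.re ^ 2 + z.im ^ 2) : r ≤ ‖z‖ := by
  have h1 : r ^ 2 ≤ ‖z‖ ^ 2 := by
    rw [Complex.sq_norm, Complex.normSq_apply]; nlinarith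
  exact (le_abs_self r).trans (abs_le_of_sq_le_sq h1 (norm_nonneg z))

theorem al0 {η : ℝ} {n : ℤ} (h : n % 4 = 0) : al η n = ⟨3 / 4, 1 / (2 * η)⟩ := by
  simp [al, h]
theorem al1 {η : ℝ} {n : ℤ} (h : n % 4 = 1) : al η n = ⟨1 / 4, 1 / (2 * η)⟩ := by
  simp [al, h]
theorem al2 {η : ℝ} {n : ℤ} (h : n % 4 = 2) : al η n = ⟨-(3 / 4), -(1 / (2 * η))⟩ := by
  simp [al, h]
theorem al3 {η : ℝ} {n : ℤ} (h : n % 4 = 3) : al η n = ⟨-(1 / 4), -(1 / (2 * η))⟩ := by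
  simp [al, h]
theorem en0 {η : ℝ} {n : ℤ} (h : n % 2 = 0) : en η n = 0 := by simp [en, h]
theorem en1 {η : ℝ} {n : ℤ} (h : n % 2 = 1) : en η n = ⟨0, η⟩ := by simp [en, h]
theorem P10 {η : ℝ} {n : ℤ} (h : n % 2 = 0) :
    P1 η n = ⟨1 / 2 - 1 / (2 * η), -(η / 2) - 1 / η + 1 / 4⟩ := by simp [P1, h]
theorem P11 {η : ℝ} {n : ℤ} (h : n % 2 = 1) :
    P1 η n = ⟨1 / 2 - η / (8 * (η ^ 2 + 1)), η / 4 - (3 * η ^ 2 + 2) / (8 * (η ^ 2 + 1))⟩ := by
  simp [P1, h]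
theorem P20 {η : ℝ} {n : ℤ} (h : n % 2 = 0) :
    P2 η n = ⟨1 / 2 + 1 / (2 * η), -(η / 2) - 1 / η - 3 / 4⟩ := by simp [P2, h]
theorem P21 {η : ℝ} {n : ℤ} (h : n % 2 = 1) :
    P2 η n = ⟨1 / 2 + η / (8 * (η ^ 2 + 1)), η / 4 - (η ^ 2 + 2) / (8 * (η ^ 2 + 1))⟩ := by
  simp [P2, h]

theorem inv_bd {η : ℝ} (h : 3 ≤ η) : 0 < 1 / η ∧ 1 / η ≤ 1 / 3 :=
  ⟨by positivity, by
    rw [div_le_div_iff₀ (by linarith) (by norm_num)]; linarith⟩

theorem inv_lip {η η' : ℝ} (h : 3 ≤ η) (h' : 3 ≤ η') : |1 / η' - 1 / η| ≤ |η' - η| / 9 := by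
  have e : 1 / η' - 1 / η = -((η' - η) / (η' * η)) := by
    field_simp; ring
  rw [e, abs_neg, abs_div, abs_of_pos (show 0 < η' * η by positivity)]
  apply div_le_div_of_nonneg_left (abs_nonneg _) (by norm_num)
  nlinarith

theorem norm_le_add (z : ℂ) : ‖z‖ ≤ |z.re| + |z.im| := Complex.norm_le_abs_re_add_abs_im z

theorem al_norm {η : ℝ} (h : 3 ≤ η) (n : ℤ) : ‖al η n‖ ≤ 1 ∧ 1 / 2 ≤ ‖2 * al η n‖ ∧
    ‖2 * al η n‖ ≤ 2 := by
  obtain ⟨p1, p2⟩ := inv_bd h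
  have e : 1 / (2 * η) = 1 / η / 2 := by field_simp
  have key : ‖al η n‖ ≤ 1 ∧ 1 / 4 ≤ ‖al η n‖ := by
    have h4 : n % 4 = 0 ∨ n % 4 = 1 ∨ n % 4 = 2 ∨ n % 4 = 3 := by omega
    rcases h4 with h4 | h4 | h4 | h4
    · rw [al0 h4, e]
      exact ⟨norm_le_of (by norm_num) (by simp only; nlinarith),
        le_norm_of (by simp only; nlinarith)⟩
    · rw [al1 h4, e]
      exact ⟨norm_le_of (by norm_num) (by simp only; nlinarith),
        le_norm_of (by simp only; nlinarith)⟩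
    · rw [al2 h4, e]
      exact ⟨norm_le_of (by norm_num) (by simp only; nlinarith),
        le_norm_of (by simp only; nlinarith)⟩
    · rw [al3 h4, e]
      exact ⟨norm_le_of (by norm_num) (by simp only; nlinarith),
        le_norm_of (by simp only; nlinarith)⟩
  have e2 : ‖2 * al η n‖ = 2 * ‖al η n‖ := by rw [norm_mul]; norm_num
  rw [e2]
  exact ⟨key.1, by linarith [key.2], by linarith [key.1]⟩

theorem al_lip {η η' : ℝ} (h : 3 ≤ η) (h' : 3 ≤ η') (n : ℤ) :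
    ‖al η' n - al η n‖ ≤ |η' - η| / 18 := by
  have hl := inv_lip h h'
  have e : ∀ x : ℝ, 1 / (2 * x) = 1 / x / 2 := fun x => by rw [mul_comm, div_mul_eq_div_div]
  have key : ∀ s : ℝ, |s| ≤ |1 / η' - 1 / η| / 2 → |s| ≤ |η' - η| / 18 := fun s hs => by linarith
  have h4 : n % 4 = 0 ∨ n % 4 = 1 ∨ n % 4 = 2 ∨ n % 4 = 3 := by omega
  refine (norm_le_add _).trans ?_
  rcases h4 with h4 | h4 | h4 | h4
  · rw [al0 h4, al0 h4]
    simp only [Complex.sub_re, Complex.sub_im, sub_self, abs_zero, zero_add]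
    apply key; rw [e, e, ← sub_div, abs_div]; norm_num
  · rw [al1 h4, al1 h4]
    simp only [Complex.sub_re, Complex.sub_im, sub_self, abs_zero, zero_add]
    apply key; rw [e, e, ← sub_div, abs_div]; norm_num
  · rw [al2 h4, al2 h4]
    simp only [Complex.sub_re, Complex.sub_im, sub_self, abs_zero, zero_add]
    apply key
    rw [e, e, show -(1 / η' / 2) - -(1 / η / 2) = -((1 / η' - 1 / η) / 2) by ring, abs_neg, abs_div]
    norm_num
  · rw [al3 h4, al3 h4]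
    simp only [Complex.sub_re, Complex.sub_im, sub_self, abs_zero, zero_add]
    apply key
    rw [e, e, show -(1 / η' / 2) - -(1 / η / 2) = -((1 / η' - 1 / η) / 2) by ring, abs_neg, abs_div]
    norm_num

theorem al_step {η : ℝ} (h : 3 ≤ η) (n : ℤ) :
    1 / 2 ≤ ‖al η n - al η (n + 1)‖ ∧ ‖al η n - al η (n + 1)‖ ≤ 2 := by
  obtain ⟨p1, p2⟩ := inv_bd h
  have e : 1 / (2 * η) = 1 / η / 2 := by field_simp
  have h4 : n % 4 = 0 ∨ n % 4 = 1 ∨ n % 4 = 2 ∨ n % 4 = 3 := by omega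
  rcases h4 with h4 | h4 | h4 | h4
  · rw [al0 h4, al1 (by omega), e]
    exact ⟨le_norm_of (by simp only [Complex.sub_re, Complex.sub_im]; nlinarith),
      norm_le_of (by norm_num) (by simp only [Complex.sub_re, Complex.sub_im]; nlinarith)⟩
  · rw [al1 h4, al2 (by omega), e]
    exact ⟨le_norm_of (by simp only [Complex.sub_re, Complex.sub_im]; nlinarith),
      norm_le_of (by norm_num) (by simp only [Complex.sub_re, Complex.sub_im]; nlinarith)⟩
  · rw [al2 h4, al3 (by omega), e]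
    exact ⟨le_norm_of (by simp only [Complex.sub_re, Complex.sub_im]; nlinarith),
      norm_le_of (by norm_num) (by simp only [Complex.sub_re, Complex.sub_im]; nlinarith)⟩
  · rw [al3 h4, al0 (by omega), e]
    exact ⟨le_norm_of (by simp only [Complex.sub_re, Complex.sub_im]; nlinarith),
      norm_le_of (by norm_num) (by simp only [Complex.sub_re, Complex.sub_im]; nlinarith)⟩

theorem en_bd {η η' : ℝ} (h : 3 ≤ η) (n : ℤ) :
    ‖en η n‖ ≤ η ∧ ‖en η' n - en η n‖ ≤ |η' - η| := by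
  rcases (show n % 2 = 0 ∨ n % 2 = 1 by omega) with h2 | h2
  · rw [en0 h2, en0 h2]; simp; linarith
  · rw [en1 h2, en1 h2]
    constructor
    · refine (norm_le_add _).trans ?_
      simp only [abs_zero, zero_add]; rw [abs_of_pos (by linarith)]
    · refine (norm_le_add _).trans ?_
      simp

/-- the two functions of the odd columns -/
theorem odd_bd {η : ℝ} (h : 3 ≤ η) : 0 ≤ η / (8 * (η ^ 2 + 1)) ∧ η / (8 * (η ^ 2 + 1)) ≤ 1 / 24 ∧
    0 < 1 / (8 * (η ^ 2 + 1)) ∧ 1 / (8 * (η ^ 2 + 1)) ≤ 1 / 80 := by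
  refine ⟨by positivity, ?_, by positivity, ?_⟩
  · rw [div_le_div_iff₀ (by positivity) (by norm_num)]; nlinarith
  · rw [div_le_div_iff₀ (by positivity) (by norm_num)]; nlinarith

theorem odd_lip {η η' : ℝ} (h : 3 ≤ η) (h' : 3 ≤ η') :
    |η' / (8 * (η' ^ 2 + 1)) - η / (8 * (η ^ 2 + 1))| ≤ |η' - η| / 8 ∧
    |1 / (8 * (η' ^ 2 + 1)) - 1 / (8 * (η ^ 2 + 1))| ≤ |η' - η| / 8 := by
  have hp : 0 < 8 * (η' ^ 2 + 1) * (η ^ 2 + 1) := by positivity
  constructor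
  · have e : η' / (8 * (η' ^ 2 + 1)) - η / (8 * (η ^ 2 + 1)) =
        (η' - η) * ((1 - η' * η) / (8 * (η' ^ 2 + 1) * (η ^ 2 + 1))) := by
      field_simp; ring
    rw [e, abs_mul]
    have : |(1 - η' * η) / (8 * (η' ^ 2 + 1) * (η ^ 2 + 1))| ≤ 1 / 8 := by
      rw [abs_div, abs_of_pos hp, div_le_div_iff₀ hp (by norm_num), abs_of_nonpos (by nlinarith)]
      nlinarith [mul_nonneg (show 0 ≤ η' - 3 by linarith) (show 0 ≤ η - 3 by linarith),
        mul_nonneg (sq_nonneg η') (sq_nonneg η), sq_nonneg (η' - η)]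
    nlinarith [abs_nonneg (η' - η)]
  · have e : 1 / (8 * (η' ^ 2 + 1)) - 1 / (8 * (η ^ 2 + 1)) =
        (η' - η) * (-(η' + η) / (8 * (η' ^ 2 + 1) * (η ^ 2 + 1))) := by
      field_simp; ring
    rw [e, abs_mul]
    have : |(-(η' + η)) / (8 * (η' ^ 2 + 1) * (η ^ 2 + 1))| ≤ 1 / 8 := by
      rw [abs_div, abs_of_pos hp, div_le_div_iff₀ hp (by norm_num), abs_of_nonpos (by linarith)]
      nlinarith [mul_nonneg (sq_nonneg η') (sq_nonneg η)]
    nlinarith [abs_nonneg (η' - η)]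

theorem im1 {η : ℝ} : (3 * η ^ 2 + 2) / (8 * (η ^ 2 + 1)) = 3 / 8 - 1 / (8 * (η ^ 2 + 1)) := by
  have : (η ^ 2 + 1) ≠ 0 := by positivity
  field_simp; ring

theorem im2 {η : ℝ} : (η ^ 2 + 2) / (8 * (η ^ 2 + 1)) = 1 / 8 + 1 / (8 * (η ^ 2 + 1)) := by
  have : (η ^ 2 + 1) ≠ 0 := by positivity
  field_simp; ring

theorem P_bd {η : ℝ} (h : 3 ≤ η) (n : ℤ) : ‖P1 η n‖ ≤ η ∧ ‖P2 η n‖ ≤ η := by
  obtain ⟨p1, p2⟩ := inv_bd h
  obtain ⟨q1, q2, q3, q4⟩ := odd_bd h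
  have e : 1 / (2 * η) = 1 / η / 2 := by field_simp
  rcases (show n % 2 = 0 ∨ n % 2 = 1 by omega) with h2 | h2
  · rw [P10 h2, P20 h2, e]
    constructor
    · refine norm_le_of (by linarith) ?_
      simp only
      nlinarith
    · refine norm_le_of (by linarith) ?_
      simp only
      have a1 : (1 / 2 + 1 / η / 2) ^ 2 ≤ 4 / 9 := by nlinarith
      have a2 : (-(η / 2) - 1 / η - 3 / 4) ^ 2 ≤ (η / 2 + 13 / 12) ^ 2 := by
        rw [show (-(η / 2) - 1 / η - 3 / 4) ^ 2 = (η / 2 + 1 / η + 3 / 4) ^ 2 by ring]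
        apply pow_le_pow_left₀ (by positivity); linarith
      nlinarith
  · rw [P11 h2, P21 h2, im1, im2]
    constructor
    · refine (norm_le_add _).trans ?_
      simp only
      rw [abs_of_nonneg (by linarith), abs_of_nonneg (by linarith)]; linarith
    · refine (norm_le_add _).trans ?_
      simp only
      rw [abs_of_nonneg (by linarith), abs_of_nonneg (by linarith)]; linarith

theorem P_lip {η η' : ℝ} (h : 3 ≤ η) (h' : 3 ≤ η') (n : ℤ) :
    ‖P1 η' n - P1 η n‖ ≤ |η' - η| ∧ ‖P2 η' n - P2 η n‖ ≤ |η' - η| := by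
  have hl := inv_lip h h'
  obtain ⟨l1, l2⟩ := odd_lip h h'
  have e : ∀ x : ℝ, 1 / (2 * x) = 1 / x / 2 := fun x => by rw [mul_comm, div_mul_eq_div_div]
  rcases (show n % 2 = 0 ∨ n % 2 = 1 by omega) with h2 | h2
  · rw [P10 h2, P20 h2, P10 h2, P20 h2, e, e]
    constructor
    · refine (norm_le_add _).trans ?_
      simp only [Complex.sub_re, Complex.sub_im]
      rw [show 1 / 2 - 1 / η' / 2 - (1 / 2 - 1 / η / 2) = -((1 / η' - 1 / η) / 2) by ring,
        show -(η' / 2) - 1 / η' + 1 / 4 - (-(η / 2) - 1 / η + 1 / 4) =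
          -((η' - η) / 2 + (1 / η' - 1 / η)) by ring, abs_neg, abs_neg, abs_div]
      have := abs_add_le ((η' - η) / 2) (1 / η' - 1 / η)
      rw [abs_div] at this
      norm_num at this ⊢
      norm_num at hl
      linarith [abs_nonneg (η' - η)]
    · refine (norm_le_add _).trans ?_
      simp only [Complex.sub_re, Complex.sub_im]
      rw [show 1 / 2 + 1 / η' / 2 - (1 / 2 + 1 / η / 2) = ((1 / η' - 1 / η) / 2) by ring,
        show -(η' / 2) - 1 / η' - 3 / 4 - (-(η / 2) - 1 / η - 3 / 4) =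
          -((η' - η) / 2 + (1 / η' - 1 / η)) by ring, abs_neg, abs_div]
      have := abs_add_le ((η' - η) / 2) (1 / η' - 1 / η)
      rw [abs_div] at this
      norm_num at this ⊢
      norm_num at hl
      linarith [abs_nonneg (η' - η)]
  · rw [P11 h2, P21 h2, P11 h2, P21 h2, im1, im2, im1, im2]
    constructor
    · refine (norm_le_add _).trans ?_
      simp only [Complex.sub_re, Complex.sub_im]
      rw [show 1 / 2 - η' / (8 * (η' ^ 2 + 1)) - (1 / 2 - η / (8 * (η ^ 2 + 1))) =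
          -(η' / (8 * (η' ^ 2 + 1)) - η / (8 * (η ^ 2 + 1))) by ring,
        show η' / 4 - (3 / 8 - 1 / (8 * (η' ^ 2 + 1))) - (η / 4 - (3 / 8 - 1 / (8 * (η ^ 2 + 1)))) =
          (η' - η) / 4 + (1 / (8 * (η' ^ 2 + 1)) - 1 / (8 * (η ^ 2 + 1))) by ring, abs_neg]
      have := abs_add_le ((η' - η) / 4) (1 / (8 * (η' ^ 2 + 1)) - 1 / (8 * (η ^ 2 + 1)))
      rw [abs_div, abs_of_pos (show (0 : ℝ) < 4 by norm_num)] at this
      linarith [abs_nonneg (η' - η)]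
    · refine (norm_le_add _).trans ?_
      simp only [Complex.sub_re, Complex.sub_im]
      rw [show 1 / 2 + η' / (8 * (η' ^ 2 + 1)) - (1 / 2 + η / (8 * (η ^ 2 + 1))) =
          (η' / (8 * (η' ^ 2 + 1)) - η / (8 * (η ^ 2 + 1))) by ring,
        show η' / 4 - (1 / 8 + 1 / (8 * (η' ^ 2 + 1))) - (η / 4 - (1 / 8 + 1 / (8 * (η ^ 2 + 1)))) =
          (η' - η) / 4 + -(1 / (8 * (η' ^ 2 + 1)) - 1 / (8 * (η ^ 2 + 1))) by ring]
      have := abs_add_le ((η' - η) / 4) (-(1 / (8 * (η' ^ 2 + 1)) - 1 / (8 * (η ^ 2 + 1))))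
      rw [abs_div, abs_of_pos (show (0 : ℝ) < 4 by norm_num), abs_neg] at this
      linarith [abs_nonneg (η' - η)]

theorem id1 {η σ : ℝ} (h : 3 ≤ η) (k n : ℤ) (z : ℂ) :
    al η n * (z - zt σ k n - σ * en η n) -
        al η (n + 1) * (z - zt σ (k - 1) (n + 1) - σ * en η (n + 1)) =
      (al η n - al η (n + 1)) * (z - (zt σ k n + σ * P1 η n)) := by
  have h0 : η ≠ 0 := by linarith
  have h1 : η ^ 2 + 1 ≠ 0 := by positivity
  have h4 : n % 4 = 0 ∨ n % 4 = 1 ∨ n % 4 = 2 ∨ n % 4 = 3 := by omega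
  rcases h4 with h4 | h4 | h4 | h4
  · rw [al0 h4, al1 (n := n + 1) (by omega), en0 (n := n) (by omega), en1 (n := n + 1) (by omega),
      P10 (by omega)]
    apply Complex.ext <;> simp [zt] <;> field_simp <;> ring
  · rw [al1 h4, al2 (n := n + 1) (by omega), en1 (n := n) (by omega), en0 (n := n + 1) (by omega),
      P11 (by omega)]
    apply Complex.ext <;> simp [zt] <;> field_simp <;> ring
  · rw [al2 h4, al3 (n := n + 1) (by omega), en0 (n := n) (by omega), en1 (n := n + 1) (by omega),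
      P10 (by omega)]
    apply Complex.ext <;> simp [zt] <;> field_simp <;> ring
  · rw [al3 h4, al0 (n := n + 1) (by omega), en1 (n := n) (by omega), en0 (n := n + 1) (by omega),
      P11 (by omega)]
    apply Complex.ext <;> simp [zt] <;> field_simp <;> ring

theorem id2 {η σ : ℝ} (h : 3 ≤ η) (k n : ℤ) (z : ℂ) :
    al η (n + 1) * (z - zt σ k (n + 1) - σ * en η (n + 1)) -
        al η n * (z - zt σ (k - 1) n - σ * en η n) =
      (al η (n + 1) - al η n) * (z - (zt σ k n + σ * P2 η n)) := by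
  have h0 : η ≠ 0 := by linarith
  have h1 : η ^ 2 + 1 ≠ 0 := by positivity
  have h4 : n % 4 = 0 ∨ n % 4 = 1 ∨ n % 4 = 2 ∨ n % 4 = 3 := by omega
  rcases h4 with h4 | h4 | h4 | h4
  · rw [al0 h4, al1 (n := n + 1) (by omega), en0 (n := n) (by omega), en1 (n := n + 1) (by omega),
      P20 (by omega)]
    apply Complex.ext <;> simp [zt] <;> field_simp <;> ring
  · rw [al1 h4, al2 (n := n + 1) (by omega), en1 (n := n) (by omega), en0 (n := n + 1) (by omega),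
      P21 (by omega)]
    apply Complex.ext <;> simp [zt] <;> field_simp <;> ring
  · rw [al2 h4, al3 (n := n + 1) (by omega), en0 (n := n) (by omega), en1 (n := n + 1) (by omega),
      P20 (by omega)]
    apply Complex.ext <;> simp [zt] <;> field_simp <;> ring
  · rw [al3 h4, al0 (n := n + 1) (by omega), en1 (n := n) (by omega), en0 (n := n + 1) (by omega),
      P21 (by omega)]
    apply Complex.ext <;> simp [zt] <;> field_simp <;> ring

theorem al_neg {η : ℝ} (n : ℤ) : al η (n + 1) = -al η (n - 1) := by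
  have h4 : n % 4 = 0 ∨ n % 4 = 1 ∨ n % 4 = 2 ∨ n % 4 = 3 := by omega
  rcases h4 with h4 | h4 | h4 | h4
  · rw [al1 (n := n + 1) (by omega), al3 (n := n - 1) (by omega)]
    apply Complex.ext <;> simp
  · rw [al2 (n := n + 1) (by omega), al0 (n := n - 1) (by omega)]
    apply Complex.ext <;> simp
  · rw [al3 (n := n + 1) (by omega), al1 (n := n - 1) (by omega)]
    apply Complex.ext <;> simp
  · rw [al0 (n := n + 1) (by omega), al2 (n := n - 1) (by omega)]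
    apply Complex.ext <;> simp

theorem en_same {η : ℝ} (n : ℤ) : en η (n - 1) = en η (n + 1) := by
  unfold en
  rw [show (n - 1) % 2 = (n + 1) % 2 by omega]

theorem id3 {η σ : ℝ} (k n : ℤ) (z : ℂ) :
    al η (n - 1) * (z - zt σ k (n - 1) - σ * en η (n - 1)) -
        al η (n + 1) * (z - zt σ k (n + 1) - σ * en η (n + 1)) =
      2 * al η (n - 1) * (z - (zt σ k n + σ * en η (n + 1))) := by
  rw [al_neg, en_same]
  have e1 : zt σ k (n - 1) = zt σ k n - σ := by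
    apply Complex.ext <;> simp [zt]; ring
  have e2 : zt σ k (n + 1) = zt σ k n + σ := by
    apply Complex.ext <;> simp [zt]; ring
  rw [e1, e2]
  ring

end MP1707.H.ModelM

namespace MP1707.H

open ModelM

theorem specModel : SpecModel := by
  refine ⟨fun η η' h h' n => ⟨(al_norm h n).1, al_lip h h' n, (en_bd (η' := η') h n).1,
    (en_bd h n).2, (P_bd h n).1, (P_bd h n).2, (P_lip h h' n).1, (P_lip h h' n).2,
    (al_step h n).1, (al_step h n).2, (al_norm h n).2.1, (al_norm h n).2.2⟩, ?_⟩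
  intro η σ k n z h
  exact ⟨fun _ => id1 h k n z, fun _ => id2 h k n z, id3 k n z⟩

end MP1707.H
end

section
/-!
# MP_1707ab_an, n = 2, PART H: reference facts for the leaf chains (helper40)
-/
set_option autoImplicit false

open scoped Topology BigOperators Classical

namespace MP1707
namespace H
namespace LeafM

open CnM

noncomputable def Y0 (η : ℝ) (n : ℤ) : ℝ := if n % 2 = 0 then η - 1 / 4 else -(1 / 4)
noncomputable def Y3 (η : ℝ) (n : ℤ) : ℝ := if n % 2 = 0 then -(1 / 4) else η - 1 / 4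

structure Fact (η : ℝ) (n : ℤ) : Prop where
  x1 : 1 / 3 ≤ (P1 η n).re
  x2 : (P2 η n).re ≤ 2 / 3
  x12 : 9 / 40 ≤ η * ((P2 η n).re - (P1 η n).re)
  d1 : |(P1 η n).im - Y0 η n| ≤ 6 * η * (P1 η n).re
  d2 : |(P2 η n).im - (P1 η n).im| ≤ 6 * η * ((P2 η n).re - (P1 η n).re)
  d3 : |Y3 η n - (P2 η n).im| ≤ 6 * η * (1 - (P2 η n).re)
  sum : |(P1 η n).im - Y0 η n| + |(P2 η n).im - (P1 η n).im| + |Y3 η n - (P2 η n).im| ≤
    4 * η - 3 / 2
  y0 : |Y0 η n| ≤ η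
  y3 : |Y3 η n| ≤ η
  n1 : ‖P1 η n‖ ≤ η
  n2 : ‖P2 η n‖ ≤ η

theorem fact {η : ℝ} (hη : 3 ≤ η) (n : ℤ) : Fact η n := by
  obtain ⟨-, -, -, -, n1, n2, -⟩ := specModel.1 η η hη hη n
  have hηp : 0 < η := by linarith
  by_cases h : n % 2 = 0
  · obtain ⟨w, hw⟩ : ∃ w : ℝ, w = 1 / η := ⟨_, rfl⟩
    have hw1 : η * w = 1 := by rw [hw]; field_simp
    have hw0 : 0 < w := by rw [hw]; positivity
    have hw3 : w ≤ 1 / 3 := by nlinarith
    have e1 : P1 η n = ⟨1 / 2 - w / 2, -(η / 2) - w + 1 / 4⟩ := by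
      unfold P1; rw [if_pos h, hw]; apply Complex.ext
      · show 1 / 2 - 1 / (2 * η) = 1 / 2 - 1 / η / 2
        field_simp
      · rfl
    have e2 : P2 η n = ⟨1 / 2 + w / 2, -(η / 2) - w - 3 / 4⟩ := by
      unfold P2; rw [if_pos h, hw]; apply Complex.ext
      · show 1 / 2 + 1 / (2 * η) = 1 / 2 + 1 / η / 2
        field_simp
      · rfl
    have e3 : Y0 η n = η - 1 / 4 := by unfold Y0; rw [if_pos h]
    have e4 : Y3 η n = -(1 / 4) := by unfold Y3; rw [if_pos h]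
    have a1 : |(-(η / 2) - w + 1 / 4) - (η - 1 / 4)| = 3 / 2 * η + w - 1 / 2 := by
      rw [abs_of_nonpos (by linarith)]; ring
    have a2 : |(-(η / 2) - w - 3 / 4) - (-(η / 2) - w + 1 / 4)| = 1 := by
      rw [abs_of_nonpos (by linarith)]; ring
    have a3 : |-(1 / 4) - (-(η / 2) - w - 3 / 4)| = η / 2 + w + 1 / 2 := by
      rw [abs_of_nonneg (by linarith)]; ring
    refine ⟨?_, ?_, ?_, ?_, ?_, ?_, ?_, ?_, ?_, n1, n2⟩
    · rw [e1]; show 1 / 3 ≤ 1 / 2 - w / 2; linarith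
    · rw [e2]; show 1 / 2 + w / 2 ≤ 2 / 3; linarith
    · rw [e1, e2]; show 9 / 40 ≤ η * (1 / 2 + w / 2 - (1 / 2 - w / 2)); nlinarith
    · rw [e1, e3]; show |(-(η / 2) - w + 1 / 4) - (η - 1 / 4)| ≤ 6 * η * (1 / 2 - w / 2)
      rw [a1]; nlinarith
    · rw [e1, e2]
      show |(-(η / 2) - w - 3 / 4) - (-(η / 2) - w + 1 / 4)| ≤
        6 * η * (1 / 2 + w / 2 - (1 / 2 - w / 2))
      rw [a2]; nlinarith
    · rw [e2, e4]
      show |-(1 / 4) - (-(η / 2) - w - 3 / 4)| ≤ 6 * η * (1 - (1 / 2 + w / 2))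
      rw [a3]; nlinarith
    · rw [e1, e2, e3, e4]
      show |(-(η / 2) - w + 1 / 4) - (η - 1 / 4)| +
        |(-(η / 2) - w - 3 / 4) - (-(η / 2) - w + 1 / 4)| +
        |-(1 / 4) - (-(η / 2) - w - 3 / 4)| ≤ 4 * η - 3 / 2
      rw [a1, a2, a3]; linarith
    · rw [e3, abs_le]; constructor <;> linarith
    · rw [e4, abs_le]; constructor <;> linarith
  · obtain ⟨w, hw⟩ : ∃ w : ℝ, w = 1 / (η ^ 2 + 1) := ⟨_, rfl⟩
    have hq : 0 < η ^ 2 + 1 := by positivity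
    have hw1 : (η ^ 2 + 1) * w = 1 := by rw [hw]; field_simp
    have hw0 : 0 < w := by rw [hw]; positivity
    have hw3 : w ≤ 1 / 10 := by nlinarith
    have hηw : η * w ≤ 3 / 10 := by nlinarith
    have hηw0 : 0 < η * w := by positivity
    have e1 : P1 η n = ⟨1 / 2 - η * w / 8, η / 4 - (3 - w) / 8⟩ := by
      unfold P1; rw [if_neg h, hw]; apply Complex.ext
      · show 1 / 2 - η / (8 * (η ^ 2 + 1)) = 1 / 2 - η * (1 / (η ^ 2 + 1)) / 8
        field_simp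
      · show η / 4 - (3 * η ^ 2 + 2) / (8 * (η ^ 2 + 1)) = η / 4 - (3 - 1 / (η ^ 2 + 1)) / 8
        field_simp
        ring
    have e2 : P2 η n = ⟨1 / 2 + η * w / 8, η / 4 - (1 + w) / 8⟩ := by
      unfold P2; rw [if_neg h, hw]; apply Complex.ext
      · show 1 / 2 + η / (8 * (η ^ 2 + 1)) = 1 / 2 + η * (1 / (η ^ 2 + 1)) / 8
        field_simp
      · show η / 4 - (η ^ 2 + 2) / (8 * (η ^ 2 + 1)) = η / 4 - (1 + 1 / (η ^ 2 + 1)) / 8
        field_simp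
        ring
    have e3 : Y0 η n = -(1 / 4) := by unfold Y0; rw [if_neg h]
    have e4 : Y3 η n = η - 1 / 4 := by unfold Y3; rw [if_neg h]
    have a1 : |(η / 4 - (3 - w) / 8) - (-(1 / 4))| = η / 4 - 1 / 8 + w / 8 := by
      rw [abs_of_nonneg (by linarith)]; ring
    have a2 : |(η / 4 - (1 + w) / 8) - (η / 4 - (3 - w) / 8)| = (1 - w) / 4 := by
      rw [abs_of_nonneg (by linarith)]; ring
    have a3 : |(η - 1 / 4) - (η / 4 - (1 + w) / 8)| = 3 / 4 * η - 1 / 8 + w / 8 := by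
      rw [abs_of_nonneg (by linarith)]; ring
    refine ⟨?_, ?_, ?_, ?_, ?_, ?_, ?_, ?_, ?_, n1, n2⟩
    · rw [e1]; show 1 / 3 ≤ 1 / 2 - η * w / 8; linarith
    · rw [e2]; show 1 / 2 + η * w / 8 ≤ 2 / 3; linarith
    · rw [e1, e2]; show 9 / 40 ≤ η * (1 / 2 + η * w / 8 - (1 / 2 - η * w / 8)); nlinarith
    · rw [e1, e3]; show |(η / 4 - (3 - w) / 8) - (-(1 / 4))| ≤ 6 * η * (1 / 2 - η * w / 8)
      rw [a1]; nlinarith
    · rw [e1, e2]
      show |(η / 4 - (1 + w) / 8) - (η / 4 - (3 - w) / 8)| ≤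
        6 * η * (1 / 2 + η * w / 8 - (1 / 2 - η * w / 8))
      rw [a2]; nlinarith
    · rw [e2, e4]
      show |(η - 1 / 4) - (η / 4 - (1 + w) / 8)| ≤ 6 * η * (1 - (1 / 2 + η * w / 8))
      rw [a3]; nlinarith
    · rw [e1, e2, e3, e4]
      show |(η / 4 - (3 - w) / 8) - (-(1 / 4))| +
        |(η / 4 - (1 + w) / 8) - (η / 4 - (3 - w) / 8)| +
        |(η - 1 / 4) - (η / 4 - (1 + w) / 8)| ≤ 4 * η - 3 / 2
      rw [a1, a2, a3]; linarith
    · rw [e3, abs_le]; constructor <;> linarith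
    · rw [e4, abs_le]; constructor <;> linarith

theorem Y0_lip (η η' : ℝ) (n : ℤ) : |Y0 η' n - Y0 η n| ≤ |η' - η| := by
  unfold Y0
  split_ifs
  · rw [show η' - 1 / 4 - (η - 1 / 4) = η' - η by ring]
  · rw [sub_self, abs_zero]; exact abs_nonneg _

theorem Y3_lip (η η' : ℝ) (n : ℤ) : |Y3 η' n - Y3 η n| ≤ |η' - η| := by
  unfold Y3
  split_ifs
  · rw [sub_self, abs_zero]; exact abs_nonneg _
  · rw [show η' - 1 / 4 - (η - 1 / 4) = η' - η by ring]

/-- the piecewise linear function through four nodes -/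
theorem exists_lam {x1 x2 y0 y1 y2 y3 L : ℝ} (h1 : 0 < x1) (h2 : x1 < x2) (h3 : x2 < 1)
    (d1 : |y1 - y0| ≤ L * x1) (d2 : |y2 - y1| ≤ L * (x2 - x1)) (d3 : |y3 - y2| ≤ L * (1 - x2)) :
    ∃ lam : ℝ → ℝ, (∀ s s', |lam s - lam s'| ≤ L * |s - s'|) ∧ lam 0 = y0 ∧
      (∀ w ∈ segment ℝ (⟨0, y0⟩ : ℂ) ⟨x1, y1⟩, 0 ≤ w.re ∧ w.re ≤ 1 ∧ w.im = lam w.re) ∧
      (∀ w ∈ segment ℝ (⟨x1, y1⟩ : ℂ) ⟨x2, y2⟩, 0 ≤ w.re ∧ w.re ≤ 1 ∧ w.im = lam w.re) ∧
      (∀ w ∈ segment ℝ (⟨x2, y2⟩ : ℂ) ⟨1, y3⟩, 0 ≤ w.re ∧ w.re ≤ 1 ∧ w.im = lam w.re) := by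
  have h21 : 0 < x2 - x1 := by linarith
  have h32 : 0 < 1 - x2 := by linarith
  obtain ⟨m0, hm0⟩ : ∃ m : ℝ, m * x1 = y1 - y0 := ⟨(y1 - y0) / x1, by field_simp⟩
  obtain ⟨m1, hm1⟩ : ∃ m : ℝ, m * (x2 - x1) = y2 - y1 := ⟨(y2 - y1) / (x2 - x1), by field_simp⟩
  obtain ⟨m2, hm2⟩ : ∃ m : ℝ, m * (1 - x2) = y3 - y2 := ⟨(y3 - y2) / (1 - x2), by field_simp⟩
  have k0 : |m0| ≤ L := by
    rw [← hm0, abs_mul, abs_of_pos h1] at d1
    exact le_of_mul_le_mul_right d1 h1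
  have k1 : |m1| ≤ L := by
    rw [← hm1, abs_mul, abs_of_pos h21] at d2
    exact le_of_mul_le_mul_right d2 h21
  have k2 : |m2| ≤ L := by
    rw [← hm2, abs_mul, abs_of_pos h32] at d3
    exact le_of_mul_le_mul_right d3 h32
  have hL : 0 ≤ L := (abs_nonneg _).trans k0
  let lam : ℝ → ℝ := fun s => y0 + m0 * min s x1 + m1 * (max x1 (min s x2) - x1) +
    m2 * (max s x2 - x2)
  have hA : ∀ s, s ≤ x1 → lam s = y0 + m0 * s := by
    intro s hs
    simp only [lam]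
    rw [min_eq_left hs, min_eq_left (hs.trans h2.le), max_eq_left hs, max_eq_right (hs.trans h2.le)]
    ring
  have hB : ∀ s, x1 ≤ s → s ≤ x2 → lam s = y1 + m1 * (s - x1) := by
    intro s hs hs'
    simp only [lam]
    rw [min_eq_right hs, min_eq_left hs', max_eq_right hs, max_eq_right hs', hm0]
    ring
  have hC : ∀ s, x2 ≤ s → lam s = y2 + m2 * (s - x2) := by
    intro s hs
    simp only [lam]
    rw [min_eq_right (h2.le.trans hs), min_eq_right hs, max_eq_right h2.le, max_eq_left hs, hm0, hm1]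
    ring
  refine ⟨lam, ?_, ?_, ?_, ?_, ?_⟩
  · have key : ∀ s s', s ≤ s' → |lam s - lam s'| ≤ L * (s' - s) := by
      intro s s' hss
      have A0 : 0 ≤ min s' x1 - min s x1 := sub_nonneg.2 (min_le_min_right _ hss)
      have B0 : 0 ≤ max x1 (min s' x2) - max x1 (min s x2) :=
        sub_nonneg.2 (max_le_max le_rfl (min_le_min_right _ hss))
      have C0 : 0 ≤ max s' x2 - max s x2 := sub_nonneg.2 (max_le_max_right _ hss)
      have tot : ∀ s, min s x1 + max x1 (min s x2) + max s x2 = s + x1 + x2 := by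
        intro s
        rcases le_total s x1 with hs | hs
        · rw [min_eq_left hs, min_eq_left (hs.trans h2.le), max_eq_left hs,
            max_eq_right (hs.trans h2.le)]
        · rcases le_total s x2 with hs' | hs'
          · rw [min_eq_right hs, min_eq_left hs', max_eq_right hs, max_eq_right hs']
            ring
          · rw [min_eq_right hs, min_eq_right hs', max_eq_right h2.le, max_eq_left hs']
            ring
      have e : lam s - lam s' = -(m0 * (min s' x1 - min s x1) +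
          m1 * (max x1 (min s' x2) - max x1 (min s x2)) + m2 * (max s' x2 - max s x2)) := by
        simp only [lam]; ring
      rw [e, abs_neg]
      have t0 : |m0 * (min s' x1 - min s x1)| ≤ L * (min s' x1 - min s x1) := by
        rw [abs_mul, abs_of_nonneg A0]; exact mul_le_mul_of_nonneg_right k0 A0
      have t1 : |m1 * (max x1 (min s' x2) - max x1 (min s x2))| ≤
          L * (max x1 (min s' x2) - max x1 (min s x2)) := by
        rw [abs_mul, abs_of_nonneg B0]; exact mul_le_mul_of_nonneg_right k1 B0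
      have t2 : |m2 * (max s' x2 - max s x2)| ≤ L * (max s' x2 - max s x2) := by
        rw [abs_mul, abs_of_nonneg C0]; exact mul_le_mul_of_nonneg_right k2 C0
      have hs := tot s
      have hs' := tot s'
      calc |m0 * (min s' x1 - min s x1) + m1 * (max x1 (min s' x2) - max x1 (min s x2)) +
            m2 * (max s' x2 - max s x2)|
          ≤ |m0 * (min s' x1 - min s x1)| + |m1 * (max x1 (min s' x2) - max x1 (min s x2))| +
            |m2 * (max s' x2 - max s x2)| := abs_add_three _ _ _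
        _ ≤ L * (min s' x1 - min s x1) + L * (max x1 (min s' x2) - max x1 (min s x2)) +
            L * (max s' x2 - max s x2) := by linarith
        _ = L * (s' - s) := by
            rw [← mul_add, ← mul_add]
            congr 1
            linarith
    intro s s'
    rcases le_total s s' with h | h
    · rw [abs_sub_comm s s', abs_of_nonneg (sub_nonneg.2 h)]; exact key s s' h
    · rw [abs_sub_comm (lam s), abs_of_nonneg (sub_nonneg.2 h)]; exact key s' s h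
  · rw [hA 0 h1.le]; ring
  · rintro w ⟨s, t, hs, ht, hst, rfl⟩
    have e1 : (s • (⟨0, y0⟩ : ℂ) + t • (⟨x1, y1⟩ : ℂ)).re = t * x1 := by simp
    have e2 : (s • (⟨0, y0⟩ : ℂ) + t • (⟨x1, y1⟩ : ℂ)).im = s * y0 + t * y1 := by simp
    have t1 : t ≤ 1 := by linarith
    have g1 : t * x1 ≤ x1 := by nlinarith
    rw [e1, e2, hA _ g1]
    refine ⟨by positivity, by linarith, ?_⟩
    have : m0 * (t * x1) = t * (y1 - y0) := by rw [← hm0]; ring
    rw [this, show s = 1 - t by linarith]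
    ring
  · rintro w ⟨s, t, hs, ht, hst, rfl⟩
    have e1 : (s • (⟨x1, y1⟩ : ℂ) + t • (⟨x2, y2⟩ : ℂ)).re = s * x1 + t * x2 := by simp
    have e2 : (s • (⟨x1, y1⟩ : ℂ) + t • (⟨x2, y2⟩ : ℂ)).im = s * y1 + t * y2 := by simp
    have hs1 : s = 1 - t := by linarith
    have g1 : s * x1 + t * x2 - x1 = t * (x2 - x1) := by rw [hs1]; ring
    have g2 : x2 - (s * x1 + t * x2) = s * (x2 - x1) := by rw [show t = 1 - s by linarith]; ring
    have g3 : 0 ≤ t * (x2 - x1) := by positivity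
    have g4 : 0 ≤ s * (x2 - x1) := by positivity
    rw [e1, e2, hB _ (by linarith) (by linarith), g1]
    refine ⟨by linarith, by linarith, ?_⟩
    have : m1 * (t * (x2 - x1)) = t * (y2 - y1) := by rw [← hm1]; ring
    rw [this, hs1]
    ring
  · rintro w ⟨s, t, hs, ht, hst, rfl⟩
    have e1 : (s • (⟨x2, y2⟩ : ℂ) + t • (⟨1, y3⟩ : ℂ)).re = s * x2 + t := by simp
    have e2 : (s • (⟨x2, y2⟩ : ℂ) + t • (⟨1, y3⟩ : ℂ)).im = s * y2 + t * y3 := by simp
    have hs1 : s = 1 - t := by linarith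
    have g1 : s * x2 + t - x2 = t * (1 - x2) := by rw [hs1]; ring
    have g2 : 1 - (s * x2 + t) = s * (1 - x2) := by rw [show t = 1 - s by linarith]; ring
    have g3 : 0 ≤ t * (1 - x2) := by positivity
    have g4 : 0 ≤ s * (1 - x2) := by positivity
    rw [e1, e2, hC _ (by linarith), g1]
    refine ⟨by linarith, by linarith, ?_⟩
    have : m2 * (t * (1 - x2)) = t * (y3 - y2) := by rw [← hm2]; ring
    rw [this, hs1]
    ring

end LeafM
end H
end MP1707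
end

section
/-!
# MP_1707ab_an, n = 2, PART H: relative coordinates of the leaf chains (helper40)
-/
set_option autoImplicit false

open scoped Topology BigOperators Classical

namespace MP1707
namespace H
namespace LeafM

open CnM

/-- numerical facts of one leaf chain in relative coordinates -/
structure Core (η Em τ yv yw hx hy ax ay bx by' : ℝ) : Prop where
  c1 : 1 / 7 ≤ ax
  c2 : ax + τ < hx
  c3 : hx + τ < bx
  c4 : bx ≤ 6 / 7
  len : |ay - yv| + |hy - ay| + |by' - hy| + |yw - by'| + 1 ≤ 4 * η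
  bv : |yv| ≤ 3 / 2 * η
  ba : |ay| ≤ 3 / 2 * η
  bh : |hy| ≤ 3 / 2 * η
  bb : |by'| ≤ 3 / 2 * η
  bw : |yw| ≤ 3 / 2 * η
  sl : |ay - yv| ≤ 7 * Em * ax
  sr : |yw - by'| ≤ 7 * Em * (1 - bx)

theorem Core.refl {η Em τ yv yw hx hy ax ay bx by' : ℝ}
    (h : Core η Em τ yw yv (1 - hx) hy (1 - bx) by' (1 - ax) ay) :
    Core η Em τ yv yw hx hy ax ay bx by' where
  c1 := by linarith [h.c4]
  c2 := by linarith [h.c3]
  c3 := by linarith [h.c2]
  c4 := by linarith [h.c1]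
  len := by
    have := h.len
    rw [abs_sub_comm by' yw, abs_sub_comm hy by', abs_sub_comm ay hy, abs_sub_comm yv ay] at this
    linarith
  bv := h.bw
  ba := h.bb
  bh := h.bh
  bb := h.ba
  bw := h.bv
  sl := by
    have := h.sr
    rw [abs_sub_comm yv ay, show 1 - (1 - ax) = ax by ring] at this
    exact this
  sr := by
    have := h.sl
    rw [abs_sub_comm by' yw] at this
    exact this

theorem core_even {η Em τ yv yw hx hy p s p' s' y0 y3 : ℝ} (hη : 3 ≤ η) (hEm : η ≤ Em)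
    (hτ : 0 < τ) (hτE : τ * Em ≤ 1 / 10000) (x1 : 1 / 3 ≤ p) (x2 : p' ≤ 2 / 3)
    (gap : 2 * τ < p' - p) (d1 : |s - y0| ≤ 6 * η * p) (d3 : |y3 - s'| ≤ 6 * η * (1 - p'))
    (sum : |s - y0| + |s' - s| + |y3 - s'| ≤ 4 * η - 3 / 2) (b0 : |y0| ≤ η) (b3 : |y3| ≤ η)
    (b1 : |s| ≤ η) (b2 : |s'| ≤ η) (hv : |yv - y0| ≤ τ) (hw : |yw - y3| ≤ τ)
    (hhx : |hx - p| ≤ τ) (hhy : |hy - s| ≤ τ) :
    Core η Em τ yv yw hx hy (hx / 2) ((yv + hy) / 2) p' s' := by
  have hτ1 : τ ≤ 1 / 30000 := by nlinarith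
  have hEm3 : 3 ≤ Em := hη.trans hEm
  have g1 : |hy - yv| ≤ |s - y0| + 2 * τ := by
    have : hy - yv = (hy - s) + (s - y0) - (yv - y0) := by ring
    rw [this]
    calc |(hy - s) + (s - y0) - (yv - y0)| ≤ |(hy - s) + (s - y0)| + |yv - y0| := abs_sub _ _
      _ ≤ |hy - s| + |s - y0| + |yv - y0| := by linarith [abs_add_le (hy - s) (s - y0)]
      _ ≤ |s - y0| + 2 * τ := by linarith
  have g2 : |s' - hy| ≤ |s' - s| + τ := by
    have : s' - hy = (s' - s) - (hy - s) := by ring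
    rw [this]
    linarith [abs_sub (s' - s) (hy - s)]
  have g3 : |yw - s'| ≤ |y3 - s'| + τ := by
    have : yw - s' = (yw - y3) + (y3 - s') := by ring
    rw [this]
    linarith [abs_add_le (yw - y3) (y3 - s')]
  have g4 : |(yv + hy) / 2 - yv| = |hy - yv| / 2 := by
    rw [show (yv + hy) / 2 - yv = (hy - yv) / 2 by ring, abs_div, abs_of_pos (by norm_num : (0:ℝ) < 2)]
  have g5 : |hy - (yv + hy) / 2| = |hy - yv| / 2 := by
    rw [show hy - (yv + hy) / 2 = (hy - yv) / 2 by ring, abs_div, abs_of_pos (by norm_num : (0:ℝ) < 2)]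
  have hhx' := abs_le.1 hhx
  have hhy' := abs_le.1 hhy
  have hv' := abs_le.1 hv
  have hw' := abs_le.1 hw
  have b0' := abs_le.1 b0
  have b1' := abs_le.1 b1
  have b2' := abs_le.1 b2
  have b3' := abs_le.1 b3
  refine ⟨?_, ?_, ?_, ?_, ?_, ?_, ?_, ?_, ?_, ?_, ?_, ?_⟩
  · linarith
  · linarith
  · linarith
  · linarith
  · rw [g4, g5]; linarith
  · rw [abs_le]; constructor <;> linarith
  · rw [abs_le]; constructor <;> linarith
  · rw [abs_le]; constructor <;> linarith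
  · rw [abs_le]; constructor <;> linarith
  · rw [abs_le]; constructor <;> linarith
  · rw [g4]
    have h1 : 6 * η * p ≤ 6 * Em * p := by nlinarith
    have h2 : 7 * Em * (p - τ) ≤ 7 * Em * hx := by
      apply mul_le_mul_of_nonneg_left <;> linarith
    have h3 : 1 ≤ Em * p := by nlinarith
    nlinarith
  · have h1 : 6 * η * (1 - p') ≤ 6 * Em * (1 - p') := by nlinarith
    have h3 : 1 ≤ Em * (1 - p') := by nlinarith
    nlinarith

theorem core_odd {η Em τ yv yw hx hy p s p' s' y0 y3 : ℝ} (hη : 3 ≤ η) (hEm : η ≤ Em)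
    (hτ : 0 < τ) (hτE : τ * Em ≤ 1 / 10000) (x1 : 1 / 3 ≤ p) (x2 : p' ≤ 2 / 3)
    (gap : 2 * τ < p' - p) (d1 : |s - y0| ≤ 6 * η * p) (d3 : |y3 - s'| ≤ 6 * η * (1 - p'))
    (sum : |s - y0| + |s' - s| + |y3 - s'| ≤ 4 * η - 3 / 2) (b0 : |y0| ≤ η) (b3 : |y3| ≤ η)
    (b1 : |s| ≤ η) (b2 : |s'| ≤ η) (hv : |yv - y0| ≤ τ) (hw : |yw - y3| ≤ τ)
    (hhx : |hx - p'| ≤ τ) (hhy : |hy - s'| ≤ τ) :
    Core η Em τ yv yw hx hy p s ((hx + 1) / 2) ((hy + yw) / 2) := by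
  apply Core.refl
  have := core_even (yv := yw) (yw := yv) (hx := 1 - hx) (hy := hy) (p := 1 - p') (s := s')
    (p' := 1 - p) (s' := s) (y0 := y3) (y3 := y0) hη hEm hτ hτE (by linarith) (by linarith)
    (by linarith) (by rw [abs_sub_comm]; exact d3) (by rw [abs_sub_comm]; simpa using d1)
    (by rw [abs_sub_comm s' y3, abs_sub_comm s s', abs_sub_comm y0 s]; linarith) b3 b0 b2 b1 hw hv
    (by rw [show 1 - hx - (1 - p') = -(hx - p') by ring, abs_neg]; exact hhx) hhy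
  have e1 : (1 - hx) / 2 = 1 - (hx + 1) / 2 := by ring
  have e2 : (yw + hy) / 2 = (hy + yw) / 2 := by ring
  rw [e1, e2] at this
  exact this

variable {Em σ τ δ : ℝ} {K N : ℤ}

theorem vtx_left (hEm : 3 ≤ Em) (D : Disc Em σ τ δ K N) {k n : ℤ} (hk : 0 ≤ k) (hkK : k ≤ K)
    (hn : -N ≤ n) (hn' : n < N) :
    ∃ y : ℝ, vtx σ D.eta k n = ⟨σ * n, σ * k / 2 + 1 / 32 + σ * y⟩ ∧
      |y - Y0 (D.eta k n) n| ≤ τ := by
  have hc : ∀ k' : ℤ, k' = k - 1 ∨ k' = k → |D.eta k' n - D.eta k n| ≤ τ := by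
    intro k' hk'
    apply D.eta_close k n k' n (by omega) (by omega) (by omega) (by omega) (by omega) (by omega)
      (by omega) (by omega)
    · rcases hk' with rfl | rfl
      · push_cast
        rw [show (k : ℝ) - 1 - k = -1 by ring, abs_neg, abs_one]; linarith
      · rw [sub_self, abs_zero]; linarith
    · rw [sub_self, abs_zero]; linarith
  have hτ0 : 0 ≤ τ := (abs_nonneg _).trans (hc k (Or.inr rfl))
  refine ⟨-(1 / 4) + (if n % 2 = 0 then D.eta (if (k + n) % 2 = 0 then k - 1 else k) n else 0),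
    ?_, ?_⟩
  · unfold vtx
    apply Complex.ext
    · rfl
    · show σ * k / 2 + 1 / 32 - σ / 4 +
        (if n % 2 = 0 then σ * D.eta (if (k + n) % 2 = 0 then k - 1 else k) n else 0) =
        σ * k / 2 + 1 / 32 + σ * (-(1 / 4) + (if n % 2 = 0 then
          D.eta (if (k + n) % 2 = 0 then k - 1 else k) n else 0))
      by_cases h : n % 2 = 0
      · rw [if_pos h, if_pos h]; ring
      · rw [if_neg h, if_neg h]; ring
  · unfold Y0
    by_cases h : n % 2 = 0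
    · rw [if_pos h, if_pos h]
      have := hc (if (k + n) % 2 = 0 then k - 1 else k) (by split_ifs <;> simp)
      rw [show -(1 / 4) + D.eta (if (k + n) % 2 = 0 then k - 1 else k) n - (D.eta k n - 1 / 4) =
        D.eta (if (k + n) % 2 = 0 then k - 1 else k) n - D.eta k n by ring]
      exact this
    · rw [if_neg h, if_neg h]
      rw [show -(1 / 4) + 0 - (-(1 / 4) : ℝ) = 0 by ring, abs_zero]; exact hτ0

theorem vtx_right (hEm : 3 ≤ Em) (D : Disc Em σ τ δ K N) {k n : ℤ} (hk : 0 ≤ k) (hkK : k ≤ K)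
    (hn : -N ≤ n) (hn' : n < N) :
    ∃ y : ℝ, vtx σ D.eta k (n + 1) = ⟨σ * n + σ, σ * k / 2 + 1 / 32 + σ * y⟩ ∧
      |y - Y3 (D.eta k n) n| ≤ τ := by
  have hc : ∀ k' : ℤ, k' = k - 1 ∨ k' = k → |D.eta k' (n + 1) - D.eta k n| ≤ τ := by
    intro k' hk'
    apply D.eta_close k n k' (n + 1) (by omega) (by omega) (by omega) (by omega) (by omega)
      (by omega) (by omega) (by omega)
    · rcases hk' with rfl | rfl
      · push_cast
        rw [show (k : ℝ) - 1 - k = -1 by ring, abs_neg, abs_one]; linarith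
      · rw [sub_self, abs_zero]; linarith
    · push_cast
      rw [show (n : ℝ) + 1 - n = 1 by ring, abs_one]
  have hτ0 : 0 ≤ τ := (abs_nonneg _).trans (hc k (Or.inr rfl))
  refine ⟨-(1 / 4) + (if (n + 1) % 2 = 0 then
    D.eta (if (k + (n + 1)) % 2 = 0 then k - 1 else k) (n + 1) else 0), ?_, ?_⟩
  · unfold vtx
    apply Complex.ext
    · show σ * ((n + 1 : ℤ) : ℝ) = σ * n + σ
      push_cast; ring
    · show σ * k / 2 + 1 / 32 - σ / 4 + (if (n + 1) % 2 = 0 then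
          σ * D.eta (if (k + (n + 1)) % 2 = 0 then k - 1 else k) (n + 1) else 0) =
        σ * k / 2 + 1 / 32 + σ * (-(1 / 4) + (if (n + 1) % 2 = 0 then
          D.eta (if (k + (n + 1)) % 2 = 0 then k - 1 else k) (n + 1) else 0))
      by_cases h : (n + 1) % 2 = 0
      · rw [if_pos h, if_pos h]; ring
      · rw [if_neg h, if_neg h]; ring
  · unfold Y3
    by_cases h : n % 2 = 0
    · rw [if_neg (show ¬ (n + 1) % 2 = 0 by omega), if_pos h]
      rw [show -(1 / 4) + 0 - (-(1 / 4) : ℝ) = 0 by ring, abs_zero]; exact hτ0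
    · rw [if_pos (show (n + 1) % 2 = 0 by omega), if_neg h]
      have := hc (if (k + (n + 1)) % 2 = 0 then k - 1 else k) (by split_ifs <;> simp)
      rw [show -(1 / 4) + D.eta (if (k + (n + 1)) % 2 = 0 then k - 1 else k) (n + 1) -
        (D.eta k n - 1 / 4) =
        D.eta (if (k + (n + 1)) % 2 = 0 then k - 1 else k) (n + 1) - D.eta k n by ring]
      exact this

theorem hL_rel (hσ : 0 < σ) (D : Disc Em σ τ δ K N) {k n : ℤ} (hk : 0 ≤ k) (hkK : k ≤ K)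
    (hn : -N ≤ n) (hn' : n < N) :
    ∃ hx hy : ℝ, D.hL k n = ⟨σ * n + σ * hx, σ * k / 2 + 1 / 32 + σ * hy⟩ ∧
      |hx - (if (k + n) % 2 = 0 then P1 (D.eta k n) n else P2 (D.eta k n) n).re| ≤ τ ∧
      |hy - (if (k + n) % 2 = 0 then P1 (D.eta k n) n else P2 (D.eta k n) n).im| ≤ τ := by
  have h := D.hL_near k n hk hkK hn hn'
  unfold hrL at h
  set Q := (if (k + n) % 2 = 0 then P1 (D.eta k n) n else P2 (D.eta k n) n) with hQ
  have h1 := (re_le_norm _).trans h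
  have h2 := (im_le_norm _).trans h
  have e1 : (D.hL k n - (zt σ k n + σ * Q)).re = (D.hL k n).re - (σ * n + σ * Q.re) := by
    simp [zt]
  have e2 : (D.hL k n - (zt σ k n + σ * Q)).im =
      (D.hL k n).im - (σ * k / 2 + 1 / 32 + σ * Q.im) := by
    simp [zt]
  rw [e1] at h1
  rw [e2] at h2
  refine ⟨((D.hL k n).re - σ * n) / σ, ((D.hL k n).im - (σ * k / 2 + 1 / 32)) / σ, ?_, ?_, ?_⟩
  · apply Complex.ext
    · show (D.hL k n).re = σ * n + σ * (((D.hL k n).re - σ * n) / σ)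
      field_simp; ring
    · show (D.hL k n).im = σ * k / 2 + 1 / 32 + σ * (((D.hL k n).im - (σ * k / 2 + 1 / 32)) / σ)
      rw [mul_div_cancel₀ _ hσ.ne']; ring
  · have e : ((D.hL k n).re - σ * n) / σ - Q.re = ((D.hL k n).re - (σ * n + σ * Q.re)) / σ := by
      field_simp; ring
    rw [e, abs_div, abs_of_pos hσ, div_le_iff₀ hσ]; exact h1
  · have e : ((D.hL k n).im - (σ * k / 2 + 1 / 32)) / σ - Q.im =
        ((D.hL k n).im - (σ * k / 2 + 1 / 32 + σ * Q.im)) / σ := by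
      rw [eq_div_iff hσ.ne', sub_mul, div_mul_cancel₀ _ hσ.ne']; ring
    rw [e, abs_div, abs_of_pos hσ, div_le_iff₀ hσ]; exact h2

/-- relative coordinates of one leaf chain -/
structure Rel (D : Disc Em σ τ δ K N) (k n : ℤ) (yv yw hx hy ax ay bx by' : ℝ) : Prop where
  v : vtx σ D.eta k n = ⟨σ * n, σ * k / 2 + 1 / 32 + σ * yv⟩
  w : vtx σ D.eta k (n + 1) = ⟨σ * n + σ, σ * k / 2 + 1 / 32 + σ * yw⟩
  h : D.hL k n = ⟨σ * n + σ * hx, σ * k / 2 + 1 / 32 + σ * hy⟩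
  a : aL D k n = ⟨σ * n + σ * ax, σ * k / 2 + 1 / 32 + σ * ay⟩
  b : bL D k n = ⟨σ * n + σ * bx, σ * k / 2 + 1 / 32 + σ * by'⟩
  core : Core (D.eta k n) Em τ yv yw hx hy ax ay bx by'

theorem exists_rel {r : ℝ} {M : ℕ} (H : Num Em σ τ δ K N r M) (D : Disc Em σ τ δ K N) {k n : ℤ}
    (hk : 0 ≤ k) (hkK : k ≤ K) (hn : -N ≤ n) (hn' : n < N) :
    ∃ yv yw hx hy ax ay bx by' : ℝ, Rel D k n yv yw hx hy ax ay bx by' := by
  obtain ⟨yv, ev, hv⟩ := vtx_left H.hEm D hk hkK hn hn'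
  obtain ⟨yw, ew, hw⟩ := vtx_right H.hEm D hk hkK hn hn'
  obtain ⟨hx, hy, eh, hhx, hhy⟩ := hL_rel H.hσ D hk hkK hn hn'
  have hη := D.eta_ge k n (by omega) (by omega) (by omega) (by omega)
  have hηE := D.eta_le k n (by omega) (by omega) (by omega) (by omega)
  have F := fact hη n
  have hτ := H.hτ
  have hτE := H.hτE
  have gap : 2 * τ < (P2 (D.eta k n) n).re - (P1 (D.eta k n) n).re := by
    have h1 := F.x12
    by_contra hc
    push Not at hc
    have h2 : D.eta k n * ((P2 (D.eta k n) n).re - (P1 (D.eta k n) n).re) ≤ Em * (2 * τ) := by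
      calc D.eta k n * ((P2 (D.eta k n) n).re - (P1 (D.eta k n) n).re)
          ≤ D.eta k n * (2 * τ) := mul_le_mul_of_nonneg_left hc (by linarith)
        _ ≤ Em * (2 * τ) := mul_le_mul_of_nonneg_right hηE (by linarith)
    nlinarith
  have b1 : |(P1 (D.eta k n) n).im| ≤ D.eta k n := (im_le_norm _).trans F.n1
  have b2 : |(P2 (D.eta k n) n).im| ≤ D.eta k n := (im_le_norm _).trans F.n2
  by_cases hp : (k + n) % 2 = 0
  · rw [if_pos hp] at hhx hhy
    refine ⟨yv, yw, hx, hy, hx / 2, (yv + hy) / 2, (P2 (D.eta k n) n).re, (P2 (D.eta k n) n).im,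
      ev, ew, eh, ?_, ?_, ?_⟩
    · unfold aL
      rw [if_pos hp, ev, eh]
      apply Complex.ext
      · simp; ring
      · simp; ring
    · unfold bL
      rw [if_pos hp]
      apply Complex.ext <;> simp [zt]
    · exact core_even hη hηE hτ hτE F.x1 F.x2 gap F.d1 F.d3 F.sum F.y0 F.y3 b1 b2 hv hw hhx hhy
  · rw [if_neg hp] at hhx hhy
    refine ⟨yv, yw, hx, hy, (P1 (D.eta k n) n).re, (P1 (D.eta k n) n).im, (hx + 1) / 2,
      (hy + yw) / 2, ev, ew, eh, ?_, ?_, ?_⟩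
    · unfold aL
      rw [if_neg hp]
      apply Complex.ext <;> simp [zt]
    · unfold bL
      rw [if_neg hp, ew, eh]
      apply Complex.ext
      · simp; ring
      · simp; ring
    · exact core_odd hη hηE hτ hτE F.x1 F.x2 gap F.d1 F.d3 F.sum F.y0 F.y3 b1 b2 hv hw hhx hhy

end LeafM
end H
end MP1707
end

section
/-!
# MP_1707ab_an, n = 2, PART H: geometry of the leaf chains (helper40)
-/
set_option autoImplicit false

open scoped Topology BigOperators Classical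

namespace MP1707
namespace H
namespace LeafM

open CnM

theorem nd {X Y σ x y x' y' : ℝ} (hσ : 0 < σ) :
    ‖(⟨X + σ * x, Y + σ * y⟩ : ℂ) - ⟨X + σ * x', Y + σ * y'⟩‖ ≤ σ * (|x - x'| + |y - y'|) := by
  refine (norm_le_re_im _).trans ?_
  have e1 : ((⟨X + σ * x, Y + σ * y⟩ : ℂ) - ⟨X + σ * x', Y + σ * y'⟩).re = σ * (x - x') := by
    show X + σ * x - (X + σ * x') = _; ring
  have e2 : ((⟨X + σ * x, Y + σ * y⟩ : ℂ) - ⟨X + σ * x', Y + σ * y'⟩).im = σ * (y - y') := by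
    show Y + σ * y - (Y + σ * y') = _; ring
  rw [e1, e2, abs_mul, abs_mul, abs_of_pos hσ, mul_add]

/-- `|Im x - A| ≤ c (Re x - B)` passes to segments -/
theorem seg_abs2 {p q x : ℂ} (hx : x ∈ segment ℝ p q) (A B c : ℝ)
    (hp : |p.im - A| ≤ c * (p.re - B)) (hq : |q.im - A| ≤ c * (q.re - B)) :
    |x.im - A| ≤ c * (x.re - B) := by
  rw [abs_le] at hp hq ⊢
  constructor
  · have := seg_le hx (-c) (-1) (-A - c * B) (by linarith [hp.1]) (by linarith [hq.1])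
    linarith
  · have := seg_le hx (-c) 1 (A - c * B) (by linarith [hp.2]) (by linarith [hq.2])
    linarith

theorem G_one {h z : ℂ} {r : ℝ} (hz : z ∈ G 1 h r) : |z.re - h.re| ≤ r ∧ |z.im - h.im| ≤ r := by
  obtain ⟨t, e, ht, he, rfl⟩ := hz
  simp
  exact ⟨ht, he⟩

theorem part1 {Em σ τ δ : ℝ} {K N : ℤ} {r : ℝ} {M : ℕ} (H : Num Em σ τ δ K N r M)
    (D : Disc Em σ τ δ K N) (k n : ℤ) (hk : 0 ≤ k) (hkK : k ≤ K) (hn : -N ≤ n) (hn' : n < N) :
    ChainOK 1 (vtx σ D.eta k n) (aL D k n) (D.hL k n) (bL D k n) (vtx σ D.eta k (n + 1))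
      (D.fL k n) (D.j1 k n) (D.j1 k (n + 1)) M r (if D.gL k n then r else 0) ∧
    ‖aL D k n - vtx σ D.eta k n‖ + ‖D.hL k n - aL D k n‖ + ‖bL D k n - D.hL k n‖ +
      ‖vtx σ D.eta k (n + 1) - bL D k n‖ ≤ 4 * D.eta k n * σ ∧
    (∀ i, i ≤ 2 * M + 4 → ‖nL D r M k n i - zt σ k n‖ ≤ 3 * D.eta k n * σ ∧
      0 < (nL D r M k n i).im ∧ (nL D r M k n i).im < 1) ∧
    (∀ i, i < 2 * M + 4 → ∀ x ∈ segment ℝ (nL D r M k n i) (nL D r M k n (i + 1)),
      (x.re ≤ σ * n + σ / 8 → |x.im - (vtx σ D.eta k n).im| ≤ 7 * Em * (x.re - σ * n)) ∧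
      (σ * (n + 1) - σ / 8 ≤ x.re →
        |x.im - (vtx σ D.eta k (n + 1)).im| ≤ 7 * Em * (σ * (n + 1) - x.re))) := by
  obtain ⟨yv, yw, hx, hy, ax, ay, bx, by', R⟩ := exists_rel H D hk hkK hn hn'
  have C := R.core
  have hη := D.eta_ge k n (by omega) (by omega) (by omega) (by omega)
  have hηE := D.eta_le k n (by omega) (by omega) (by omega) (by omega)
  have hσ := H.hσ
  have hτ := H.hτ
  have hr := H.hr
  have hrτ := H.hrτ
  have hτE := H.hτE
  have hσE := H.hσE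
  have hM := H.hM
  have hτ1 : τ ≤ 1 / 30000 := by nlinarith
  have hσ1 : σ ≤ 1 / 3000 := by nlinarith
  have hrel := D.relL k n hk hkK hn hn'
  have hj0 := D.j0b k n hk hkK hn (by omega)
  have hj1 := D.j1b k n hk hkK hn (by omega)
  have hj1' := D.j1b k (n + 1) hk hkK (by omega) (by omega)
  have hbad := D.badL k n hk hkK hn hn'
  set η := D.eta k n with hηdef
  have hση : σ * η ≤ 1 / 1000 := (mul_le_mul_of_nonneg_left hηE hσ.le).trans hσE
  have hσp : 0 < σ * η := by positivity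
  have c1 := C.c1
  have c2 := C.c2
  have c3 := C.c3
  have c4 := C.c4
  have ax0 : 0 < ax := by linarith
  have hr2 : r ≤ τ * σ := hrτ
  have m1 : σ * (1 / 7) ≤ σ * ax := mul_le_mul_of_nonneg_left c1 hσ.le
  have m2 : σ * ax + τ * σ < σ * hx := by
    have := mul_lt_mul_of_pos_left c2 hσ
    linarith
  have m3 : σ * hx + τ * σ < σ * bx := by
    have := mul_lt_mul_of_pos_left c3 hσ
    linarith
  have m4 : σ * bx ≤ σ * (6 / 7) := mul_le_mul_of_nonneg_left c4 hσ.le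
  have ev : vtx σ D.eta k n = ⟨σ * n + σ * 0, σ * k / 2 + 1 / 32 + σ * yv⟩ := by
    rw [R.v, mul_zero, add_zero]
  have ew : vtx σ D.eta k (n + 1) = ⟨σ * n + σ * 1, σ * k / 2 + 1 / 32 + σ * yw⟩ := by
    rw [R.w, mul_one]
  have eh := R.h
  have ea := R.a
  have eb := R.b
  set v := vtx σ D.eta k n with hv
  set w := vtx σ D.eta k (n + 1) with hw
  set h := D.hL k n with hh
  set a := aL D k n with ha
  set b := bL D k n with hb
  have vre : v.re = σ * n := by rw [ev]; show σ * n + σ * 0 = _; ring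
  have vim : v.im = σ * k / 2 + 1 / 32 + σ * yv := by rw [ev]
  have are : a.re = σ * n + σ * ax := by rw [ea]
  have aim : a.im = σ * k / 2 + 1 / 32 + σ * ay := by rw [ea]
  have hre : h.re = σ * n + σ * hx := by rw [eh]
  have him : h.im = σ * k / 2 + 1 / 32 + σ * hy := by rw [eh]
  have bre : b.re = σ * n + σ * bx := by rw [eb]
  have bim : b.im = σ * k / 2 + 1 / 32 + σ * by' := by rw [eb]
  have wre : w.re = σ * n + σ := by rw [ew]; show σ * n + σ * 1 = _; ring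
  have wim : w.im = σ * k / 2 + 1 / 32 + σ * yw := by rw [ew]
  have navh : ‖v - h‖ ≤ σ * (1 + 3 * η) := by
    rw [ev, eh]
    refine (nd hσ).trans (mul_le_mul_of_nonneg_left ?_ hσ.le)
    rw [zero_sub, abs_neg, abs_of_pos (by linarith : 0 < hx)]
    linarith [abs_sub yv hy, C.bv, C.bh]
  have nah : ‖a - h‖ ≤ σ * (1 + 3 * η) := by
    rw [ea, eh]
    refine (nd hσ).trans (mul_le_mul_of_nonneg_left ?_ hσ.le)
    rw [abs_of_nonpos (by linarith : ax - hx ≤ 0)]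
    linarith [abs_sub ay hy, C.ba, C.bh]
  have nbh : ‖b - h‖ ≤ σ * (1 + 3 * η) := by
    rw [eb, eh]
    refine (nd hσ).trans (mul_le_mul_of_nonneg_left ?_ hσ.le)
    rw [abs_of_nonneg (by linarith : 0 ≤ bx - hx)]
    linarith [abs_sub by' hy, C.bb, C.bh]
  have nwh : ‖w - h‖ ≤ σ * (1 + 3 * η) := by
    rw [ew, eh]
    refine (nd hσ).trans (mul_le_mul_of_nonneg_left ?_ hσ.le)
    rw [abs_of_nonneg (by linarith : 0 ≤ 1 - hx)]
    linarith [abs_sub yw hy, C.bw, C.bh]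
  have hbig : σ * (1 + 3 * η) ≤ 1 / 100 := by nlinarith
  have hρ : (if D.gL k n then r else 0) = r ∨ (if D.gL k n then r else 0) = 0 := by
    by_cases hg : D.gL k n
    · rw [if_pos hg]; exact Or.inl rfl
    · rw [if_neg hg]; exact Or.inr rfl
  refine ⟨⟨?_, hr, ?_, hM, H.hMr, H.hMr', ?_, ?_, ?_, ?_, ?_, ?_, ?_, ?_, ?_, ?_, hj1, hj1'⟩,
    ?_, ?_, ?_⟩
  · exact norm_one
  · nlinarith
  · by_cases hg : D.gL k n
    · rw [if_pos hg]; exact Or.inl rfl
    · rw [if_neg hg]; exact Or.inr ⟨rfl, hbad hg⟩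
  · rw [co_one, co_one, vre, are]; linarith
  · rw [co_one, co_one, are, hre]; linarith
  · rw [co_one, co_one, hre, bre]; linarith
  · rw [co_one, co_one, bre, wre]; linarith
  · linarith
  · linarith
  · linarith
  · linarith
  · have e1 : D.fL k n = D.j0 k n - D.j1 k n * (v - h) := by rw [hrel]; ring
    rw [e1]
    calc ‖D.j0 k n - D.j1 k n * (v - h)‖ ≤ ‖D.j0 k n‖ + ‖D.j1 k n * (v - h)‖ := norm_sub_le _ _
      _ = ‖D.j0 k n‖ + ‖D.j1 k n‖ * ‖v - h‖ := by rw [norm_mul]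
      _ ≤ 3 / 8 + 3 / 8 * (1 / 10) := by
          gcongr
          linarith
      _ ≤ 7 / 16 := by norm_num
  · have t1 : ‖a - v‖ ≤ σ * (ax + |ay - yv|) := by
      rw [ea, ev]
      refine (nd hσ).trans (le_of_eq ?_)
      rw [sub_zero, abs_of_pos ax0]
    have t2 : ‖h - a‖ ≤ σ * ((hx - ax) + |hy - ay|) := by
      rw [ea, eh]
      refine (nd hσ).trans (le_of_eq ?_)
      rw [abs_of_nonneg (by linarith : 0 ≤ hx - ax)]
    have t3 : ‖b - h‖ ≤ σ * ((bx - hx) + |by' - hy|) := by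
      rw [eb, eh]
      refine (nd hσ).trans (le_of_eq ?_)
      rw [abs_of_nonneg (by linarith : 0 ≤ bx - hx)]
    have t4 : ‖w - b‖ ≤ σ * ((1 - bx) + |yw - by'|) := by
      rw [eb, ew]
      refine (nd hσ).trans (le_of_eq ?_)
      rw [abs_of_nonneg (by linarith : 0 ≤ 1 - bx)]
    have t5 : σ * (|ay - yv| + |hy - ay| + |by' - hy| + |yw - by'| + 1) ≤ σ * (4 * η) :=
      mul_le_mul_of_nonneg_left C.len hσ.le
    linarith
  · intro i hi
    have hkσ : σ * k ≤ 15 / 8 := by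
      have h1 : (k : ℝ) ≤ K := by exact_mod_cast hkK
      exact (mul_le_mul_of_nonneg_left h1 hσ.le).trans H.hσK
    have hkσ0 : 0 ≤ σ * k := by
      have h1 : (0 : ℝ) ≤ k := by exact_mod_cast hk
      positivity
    have key : ∀ z : ℂ, |z.re - σ * n| ≤ σ → |z.im - (σ * k / 2 + 1 / 32)| ≤ 2 * (σ * η) →
        ‖z - zt σ k n‖ ≤ 3 * η * σ ∧ 0 < z.im ∧ z.im < 1 := by
      intro z hz1 hz2
      refine ⟨?_, ?_, ?_⟩
      · refine (norm_le_re_im _).trans ?_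
        rw [Complex.sub_re, Complex.sub_im]
        have e1 : (zt σ k n).re = σ * n := rfl
        have e2 : (zt σ k n).im = σ * k / 2 + 1 / 32 := rfl
        rw [e1, e2]
        nlinarith
      · rw [abs_le] at hz2; linarith [hz2.1]
      · rw [abs_le] at hz2; linarith [hz2.2]
    have im1 : ∀ y : ℝ, |y| ≤ 3 / 2 * η →
        |σ * k / 2 + 1 / 32 + σ * y - (σ * k / 2 + 1 / 32)| ≤ 3 / 2 * (σ * η) := by
      intro y hy'
      rw [show σ * k / 2 + 1 / 32 + σ * y - (σ * k / 2 + 1 / 32) = σ * y by ring, abs_mul,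
        abs_of_pos hσ]
      have := mul_le_mul_of_nonneg_left hy' hσ.le
      linarith
    have ητ : τ * σ ≤ 1 / 2 * (σ * η) := by nlinarith
    refine cn_all (u := 1) (v := v) (a := a) (h := h) (b := b)
      (v' := w) hr hM hρ (fun z => ‖z - zt σ k n‖ ≤ 3 * η * σ ∧ 0 < z.im ∧ z.im < 1)
      (key _ ?_ ?_) (key _ ?_ ?_) (fun z hz => key _ ?_ ?_) (key _ ?_ ?_) (key _ ?_ ?_) i
    · rw [vre, sub_self, abs_zero]; exact hσ.le
    · rw [vim]; linarith [im1 yv C.bv]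
    · rw [are]; exact abs_le.2 ⟨by linarith, by linarith⟩
    · rw [aim]; linarith [im1 ay C.ba]
    · have h1 := abs_le.1 (G_one hz).1
      exact abs_le.2 ⟨by linarith [h1.1], by linarith [h1.2]⟩
    · have h1 := abs_le.1 (G_one hz).2
      have h2 := abs_le.1 (im1 hy C.bh)
      rw [← him] at h2
      exact abs_le.2 ⟨by linarith [h1.1, h2.1], by linarith [h1.2, h2.2]⟩
    · rw [bre]; exact abs_le.2 ⟨by linarith, by linarith⟩
    · rw [bim]; linarith [im1 by' C.bb]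
    · rw [wre]; exact abs_le.2 ⟨by linarith, by linarith⟩
    · rw [wim]; linarith [im1 yw C.bw]
  · intro i hi
    have far : ∀ p q : ℂ, σ * n + σ * (1 / 7) ≤ p.re → σ * n + σ * (1 / 7) ≤ q.re →
        p.re ≤ σ * n + σ * (6 / 7) → q.re ≤ σ * n + σ * (6 / 7) → ∀ x ∈ segment ℝ p q,
        (x.re ≤ σ * n + σ / 8 → |x.im - v.im| ≤ 7 * Em * (x.re - σ * n)) ∧
        (σ * (n + 1) - σ / 8 ≤ x.re → |x.im - w.im| ≤ 7 * Em * (σ * (n + 1) - x.re)) := by
      intro p q h1 h2 h3 h4 x hx'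
      have h5 := re_lt_seg hx' h1 h2
      have h6 := re_gt_seg hx' h3 h4
      exact ⟨fun h7 => absurd h7 (by linarith), fun h7 => absurd h7 (by linarith)⟩
    refine cn_pairs (u := 1) (v := v) (a := a) (h := h) (b := b) (v' := w) hr hM hρ
      (fun p q => ∀ x ∈ segment ℝ p q,
        (x.re ≤ σ * n + σ / 8 → |x.im - v.im| ≤ 7 * Em * (x.re - σ * n)) ∧
        (σ * (n + 1) - σ / 8 ≤ x.re → |x.im - w.im| ≤ 7 * Em * (σ * (n + 1) - x.re)))
      ?_ ?_ ?_ ?_ ?_ i hi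
    · intro x hx'
      have h6 := re_gt_seg hx' (A := σ * n + σ * (6 / 7)) (by linarith) (by linarith)
      refine ⟨fun _ => ?_, fun h7 => absurd h7 (by linarith)⟩
      refine seg_abs2 hx' v.im (σ * n) (7 * Em) ?_ ?_
      · rw [sub_self, abs_zero, vre, sub_self, mul_zero]
      · rw [aim, vim, are, show σ * k / 2 + 1 / 32 + σ * ay - (σ * k / 2 + 1 / 32 + σ * yv) =
          σ * (ay - yv) by ring, abs_mul, abs_of_pos hσ]
        have := mul_le_mul_of_nonneg_left C.sl hσ.le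
        linarith
    · intro g hg
      have h1 := abs_le.1 (G_one hg).1
      exact far a g (by linarith) (by linarith [h1.1]) (by linarith) (by linarith [h1.2])
    · intro g hg g' hg'
      have h1 := abs_le.1 (G_one hg).1
      have h2 := abs_le.1 (G_one hg').1
      exact far g g' (by linarith [h1.1]) (by linarith [h2.1]) (by linarith [h1.2])
        (by linarith [h2.2])
    · intro g hg
      have h1 := abs_le.1 (G_one hg).1
      exact far g b (by linarith [h1.1]) (by linarith) (by linarith [h1.2]) (by linarith)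
    · intro x hx'
      have h6 := re_lt_seg hx' (A := σ * n + σ * (1 / 7)) (by linarith) (by linarith)
      refine ⟨fun h7 => absurd h7 (by linarith), fun _ => ?_⟩
      have := seg_abs2 hx' w.im (σ * (n + 1)) (-(7 * Em)) ?_ ?_
      · linarith
      · rw [bim, wim, bre, show σ * k / 2 + 1 / 32 + σ * by' - (σ * k / 2 + 1 / 32 + σ * yw) =
          -(σ * (yw - by')) by ring, abs_neg, abs_mul, abs_of_pos hσ]
        have := mul_le_mul_of_nonneg_left C.sr hσ.le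
        linarith
      · rw [sub_self, abs_zero, wre, show σ * n + σ - σ * (n + 1) = 0 by ring, mul_zero]

theorem part2 {Em σ τ δ : ℝ} {K N : ℤ} {r : ℝ} {M : ℕ} (H : Num Em σ τ δ K N r M)
    (D : Disc Em σ τ δ K N) (n : ℤ) (η : ℝ) (hη : 3 ≤ η) :
    ∃ lam : ℝ → ℝ, (∀ s s', |lam s - lam s'| ≤ 6 * η * |s - s'|) ∧
    |lam 0| ≤ η ∧ ∀ k, 0 ≤ k → k ≤ K → -N ≤ n → n < N → |D.eta k n - η| ≤ τ →
      ∀ i, i < 2 * M + 4 → ∀ x ∈ segment ℝ (nL D r M k n i) (nL D r M k n (i + 1)),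
        ∃ s, 0 ≤ s ∧ s ≤ 1 ∧ ‖x - (zt σ k n + σ * (⟨s, lam s⟩ : ℂ))‖ ≤ 10 * τ * σ := by
  have F := fact hη n
  have x12 : (P1 η n).re < (P2 η n).re := by
    have h1 := F.x12
    by_contra hc
    push Not at hc
    have : η * ((P2 η n).re - (P1 η n).re) ≤ 0 :=
      mul_nonpos_of_nonneg_of_nonpos (by linarith) (by linarith)
    linarith
  obtain ⟨lam, hlip, h0, s0, s1, s2⟩ := exists_lam (x1 := (P1 η n).re) (x2 := (P2 η n).re)
    (y0 := Y0 η n) (y1 := (P1 η n).im) (y2 := (P2 η n).im) (y3 := Y3 η n) (L := 6 * η)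
    (by linarith [F.x1]) x12 (by linarith [F.x2]) F.d1 F.d2 F.d3
  refine ⟨lam, hlip, by rw [h0]; exact F.y0, ?_⟩
  intro k hk hkK hn hn' hclose i hi
  have hσ := H.hσ
  have hτ := H.hτ
  have hr := H.hr
  have hrτ := H.hrτ
  have hM := H.hM
  have hη' := D.eta_ge k n (by omega) (by omega) (by omega) (by omega)
  obtain ⟨yv, ev, hv⟩ := vtx_left H.hEm D hk hkK hn hn'
  obtain ⟨yw, ew, hw⟩ := vtx_right H.hEm D hk hkK hn hn'
  have hnear := D.hL_near k n hk hkK hn hn'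
  obtain ⟨-, -, -, -, -, -, l1, l2, -⟩ := specModel.1 η (D.eta k n) hη hη' n
  replace l1 := l1.trans hclose
  replace l2 := l2.trans hclose
  have l0 := (Y0_lip η (D.eta k n) n).trans hclose
  have l3 := (Y3_lip η (D.eta k n) n).trans hclose
  have hτσ : 0 < τ * σ := by positivity
  have hρ : (if D.gL k n then r else 0) = r ∨ (if D.gL k n then r else 0) = 0 := by
    by_cases hg : D.gL k n
    · rw [if_pos hg]; exact Or.inl rfl
    · rw [if_neg hg]; exact Or.inr rfl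
  set Q0 : ℂ := ⟨0, Y0 η n⟩ with hQ0
  set Q3 : ℂ := ⟨1, Y3 η n⟩ with hQ3
  set Q1 : ℂ := P1 η n with hQ1
  set Q2 : ℂ := P2 η n with hQ2
  change ∀ w ∈ segment ℝ Q0 Q1, _ at s0
  change ∀ w ∈ segment ℝ Q1 Q2, _ at s1
  change ∀ w ∈ segment ℝ Q2 Q3, _ at s2
  have nv : ‖vtx σ D.eta k n - (zt σ k n + σ * Q0)‖ ≤ 2 * (τ * σ) := by
    refine (norm_le_re_im _).trans ?_
    have e1 : (vtx σ D.eta k n - (zt σ k n + σ * Q0)).re = 0 := by
      rw [ev]; simp [zt, hQ0]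
    have e2 : (vtx σ D.eta k n - (zt σ k n + σ * Q0)).im = σ * (yv - Y0 η n) := by
      rw [ev]; simp [zt, hQ0]; ring
    rw [e1, e2, abs_zero, abs_mul, abs_of_pos hσ]
    have : |yv - Y0 η n| ≤ 2 * τ := by
      rw [show yv - Y0 η n = (yv - Y0 (D.eta k n) n) + (Y0 (D.eta k n) n - Y0 η n) by ring]
      linarith [abs_add_le (yv - Y0 (D.eta k n) n) (Y0 (D.eta k n) n - Y0 η n)]
    nlinarith
  have nw : ‖vtx σ D.eta k (n + 1) - (zt σ k n + σ * Q3)‖ ≤ 2 * (τ * σ) := by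
    refine (norm_le_re_im _).trans ?_
    have e1 : (vtx σ D.eta k (n + 1) - (zt σ k n + σ * Q3)).re = 0 := by
      rw [ew]; simp [zt, hQ3]
    have e2 : (vtx σ D.eta k (n + 1) - (zt σ k n + σ * Q3)).im = σ * (yw - Y3 η n) := by
      rw [ew]; simp [zt, hQ3]; ring
    rw [e1, e2, abs_zero, abs_mul, abs_of_pos hσ]
    have : |yw - Y3 η n| ≤ 2 * τ := by
      rw [show yw - Y3 η n = (yw - Y3 (D.eta k n) n) + (Y3 (D.eta k n) n - Y3 η n) by ring]
      linarith [abs_add_le (yw - Y3 (D.eta k n) n) (Y3 (D.eta k n) n - Y3 η n)]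
    nlinarith
  have n1 : ‖(zt σ k n + σ * P1 (D.eta k n) n) - (zt σ k n + σ * Q1)‖ ≤ 2 * (τ * σ) := by
    rw [show (zt σ k n + σ * P1 (D.eta k n) n) - (zt σ k n + σ * Q1) =
      σ * (P1 (D.eta k n) n - Q1) by ring, norm_mul, Complex.norm_real, Real.norm_eq_abs,
      abs_of_pos hσ]
    nlinarith
  have n2 : ‖(zt σ k n + σ * P2 (D.eta k n) n) - (zt σ k n + σ * Q2)‖ ≤ 2 * (τ * σ) := by
    rw [show (zt σ k n + σ * P2 (D.eta k n) n) - (zt σ k n + σ * Q2) =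
      σ * (P2 (D.eta k n) n - Q2) by ring, norm_mul, Complex.norm_real, Real.norm_eq_abs,
      abs_of_pos hσ]
    nlinarith
  have mid : ∀ p q P Q : ℂ, ‖p - (zt σ k n + σ * P)‖ ≤ 2 * (τ * σ) →
      ‖q - (zt σ k n + σ * Q)‖ ≤ 2 * (τ * σ) →
      ‖(p + q) / 2 - (zt σ k n + σ * ((P + Q) / 2))‖ ≤ 2 * (τ * σ) := by
    intro p q P Q hp hq
    rw [show (p + q) / 2 - (zt σ k n + σ * ((P + Q) / 2)) =
      ((p - (zt σ k n + σ * P)) + (q - (zt σ k n + σ * Q))) / 2 by ring, norm_div]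
    rw [show ‖(2 : ℂ)‖ = 2 by simp, div_le_iff₀ (by norm_num)]
    exact (norm_add_le _ _).trans (by linarith)
  have midmem : ∀ P Q : ℂ, (P + Q) / 2 ∈ segment ℝ P Q := by
    intro P Q
    refine ⟨1 / 2, 1 / 2, by norm_num, by norm_num, by norm_num, ?_⟩
    rw [Complex.real_smul, Complex.real_smul]
    push_cast
    ring
  have gnear : ∀ Q : ℂ, ‖D.hL k n - (zt σ k n + σ * Q)‖ ≤ 2 * (τ * σ) →
      ∀ g ∈ G 1 (D.hL k n) r, ‖g - (zt σ k n + σ * Q)‖ ≤ 4 * (τ * σ) := by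
    intro Q hQ g hg
    have h1 := norm_G norm_one hg
    calc ‖g - (zt σ k n + σ * Q)‖ = ‖(g - D.hL k n) + (D.hL k n - (zt σ k n + σ * Q))‖ := by
          congr 1; ring
      _ ≤ ‖g - D.hL k n‖ + ‖D.hL k n - (zt σ k n + σ * Q)‖ := norm_add_le _ _
      _ ≤ 4 * (τ * σ) := by linarith
  have pair : ∀ (A B : ℂ), (∀ w ∈ segment ℝ A B, 0 ≤ w.re ∧ w.re ≤ 1 ∧ w.im = lam w.re) →
      ∀ p q P Q : ℂ, P ∈ segment ℝ A B → Q ∈ segment ℝ A B →
      ‖p - (zt σ k n + σ * P)‖ ≤ 4 * (τ * σ) → ‖q - (zt σ k n + σ * Q)‖ ≤ 4 * (τ * σ) →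
      ∀ x ∈ segment ℝ p q,
        ∃ s, 0 ≤ s ∧ s ≤ 1 ∧ ‖x - (zt σ k n + σ * (⟨s, lam s⟩ : ℂ))‖ ≤ 10 * τ * σ := by
    intro A B hAB p q P Q hP hQ hp hq x hx
    obtain ⟨α, β, hα, hβ, hαβ, rfl⟩ := hx
    have hw' := (convex_segment A B) hP hQ hα hβ hαβ
    obtain ⟨w0, w1, w2⟩ := hAB _ hw'
    refine ⟨(α • P + β • Q).re, w0, w1, ?_⟩
    rw [← w2, Complex.eta]
    have e : α • p + β • q - (zt σ k n + σ * (α • P + β • Q)) =
        α • (p - (zt σ k n + σ * P)) + β • (q - (zt σ k n + σ * Q)) := by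
      have hαβ' : (α : ℂ) + (β : ℂ) = 1 := by exact_mod_cast hαβ
      simp only [Complex.real_smul]
      linear_combination (zt σ k n) * hαβ'
    rw [e]
    calc ‖α • (p - (zt σ k n + σ * P)) + β • (q - (zt σ k n + σ * Q))‖
        ≤ ‖α • (p - (zt σ k n + σ * P))‖ + ‖β • (q - (zt σ k n + σ * Q))‖ := norm_add_le _ _
      _ = α * ‖p - (zt σ k n + σ * P)‖ + β * ‖q - (zt σ k n + σ * Q)‖ := by
          rw [norm_smul, norm_smul, Real.norm_eq_abs, Real.norm_eq_abs, abs_of_nonneg hα,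
            abs_of_nonneg hβ]
      _ ≤ α * (4 * (τ * σ)) + β * (4 * (τ * σ)) := by gcongr
      _ = 4 * (τ * σ) := by rw [← add_mul, hαβ, one_mul]
      _ ≤ 10 * τ * σ := by nlinarith
  have L0 := left_mem_segment ℝ Q0 Q1
  have R0 := right_mem_segment ℝ Q0 Q1
  have L1 := left_mem_segment ℝ Q1 Q2
  have R1 := right_mem_segment ℝ Q1 Q2
  have L2 := left_mem_segment ℝ Q2 Q3
  have R2 := right_mem_segment ℝ Q2 Q3
  by_cases hp : (k + n) % 2 = 0
  · have nh : ‖D.hL k n - (zt σ k n + σ * Q1)‖ ≤ 2 * (τ * σ) := by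
      unfold hrL at hnear
      rw [if_pos hp] at hnear
      have e3 : ‖(zt σ k n + σ * P1 (D.eta k n) n) - (zt σ k n + σ * Q1)‖ ≤ τ * σ := by
        rw [show (zt σ k n + σ * P1 (D.eta k n) n) - (zt σ k n + σ * Q1) =
          σ * (P1 (D.eta k n) n - Q1) by ring, norm_mul, Complex.norm_real, Real.norm_eq_abs,
          abs_of_pos hσ]
        nlinarith
      calc ‖D.hL k n - (zt σ k n + σ * Q1)‖ = ‖(D.hL k n - (zt σ k n + σ * P1 (D.eta k n) n)) +
            ((zt σ k n + σ * P1 (D.eta k n) n) - (zt σ k n + σ * Q1))‖ := by congr 1; ring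
        _ ≤ ‖D.hL k n - (zt σ k n + σ * P1 (D.eta k n) n)‖ +
            ‖(zt σ k n + σ * P1 (D.eta k n) n) - (zt σ k n + σ * Q1)‖ := norm_add_le _ _
        _ ≤ 2 * (τ * σ) := by linarith
    have ea : aL D k n = (vtx σ D.eta k n + D.hL k n) / 2 := by unfold aL; rw [if_pos hp]
    have eb : bL D k n = zt σ k n + σ * P2 (D.eta k n) n := by unfold bL; rw [if_pos hp]
    have na : ‖aL D k n - (zt σ k n + σ * ((Q0 + Q1) / 2))‖ ≤ 2 * (τ * σ) := by
      rw [ea]; exact mid _ _ _ _ nv nh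
    have nb : ‖bL D k n - (zt σ k n + σ * Q2)‖ ≤ 2 * (τ * σ) := by rw [eb]; exact n2
    refine cn_pairs (u := 1) (v := vtx σ D.eta k n) (a := aL D k n) (h := D.hL k n)
      (b := bL D k n) (v' := vtx σ D.eta k (n + 1)) hr hM hρ
      (fun p q => ∀ x ∈ segment ℝ p q,
        ∃ s, 0 ≤ s ∧ s ≤ 1 ∧ ‖x - (zt σ k n + σ * (⟨s, lam s⟩ : ℂ))‖ ≤ 10 * τ * σ)
      ?_ ?_ ?_ ?_ ?_ i hi
    · exact pair _ _ s0 _ _ _ _ L0 (midmem _ _) (by linarith) (by linarith)
    · intro g hg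
      exact pair _ _ s0 _ _ _ _ (midmem _ _) R0 (by linarith) (gnear _ nh g hg)
    · intro g hg g' hg'
      exact pair _ _ s0 _ _ _ _ R0 R0 (gnear _ nh g hg) (gnear _ nh g' hg')
    · intro g hg
      exact pair _ _ s1 _ _ _ _ L1 R1 (gnear _ nh g hg) (by linarith)
    · exact pair _ _ s2 _ _ _ _ L2 R2 (by linarith) (by linarith)
  · have nh : ‖D.hL k n - (zt σ k n + σ * Q2)‖ ≤ 2 * (τ * σ) := by
      unfold hrL at hnear
      rw [if_neg hp] at hnear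
      have e3 : ‖(zt σ k n + σ * P2 (D.eta k n) n) - (zt σ k n + σ * Q2)‖ ≤ τ * σ := by
        rw [show (zt σ k n + σ * P2 (D.eta k n) n) - (zt σ k n + σ * Q2) =
          σ * (P2 (D.eta k n) n - Q2) by ring, norm_mul, Complex.norm_real, Real.norm_eq_abs,
          abs_of_pos hσ]
        nlinarith
      calc ‖D.hL k n - (zt σ k n + σ * Q2)‖ = ‖(D.hL k n - (zt σ k n + σ * P2 (D.eta k n) n)) +
            ((zt σ k n + σ * P2 (D.eta k n) n) - (zt σ k n + σ * Q2))‖ := by congr 1; ring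
        _ ≤ ‖D.hL k n - (zt σ k n + σ * P2 (D.eta k n) n)‖ +
            ‖(zt σ k n + σ * P2 (D.eta k n) n) - (zt σ k n + σ * Q2)‖ := norm_add_le _ _
        _ ≤ 2 * (τ * σ) := by linarith
    have ea : aL D k n = zt σ k n + σ * P1 (D.eta k n) n := by unfold aL; rw [if_neg hp]
    have eb : bL D k n = (D.hL k n + vtx σ D.eta k (n + 1)) / 2 := by unfold bL; rw [if_neg hp]
    have na : ‖aL D k n - (zt σ k n + σ * Q1)‖ ≤ 2 * (τ * σ) := by rw [ea]; exact n1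
    have nb : ‖bL D k n - (zt σ k n + σ * ((Q2 + Q3) / 2))‖ ≤ 2 * (τ * σ) := by
      rw [eb]; exact mid _ _ _ _ nh nw
    refine cn_pairs (u := 1) (v := vtx σ D.eta k n) (a := aL D k n) (h := D.hL k n)
      (b := bL D k n) (v' := vtx σ D.eta k (n + 1)) hr hM hρ
      (fun p q => ∀ x ∈ segment ℝ p q,
        ∃ s, 0 ≤ s ∧ s ≤ 1 ∧ ‖x - (zt σ k n + σ * (⟨s, lam s⟩ : ℂ))‖ ≤ 10 * τ * σ)
      ?_ ?_ ?_ ?_ ?_ i hi
    · exact pair _ _ s0 _ _ _ _ L0 R0 (by linarith) (by linarith)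
    · intro g hg
      exact pair _ _ s1 _ _ _ _ L1 R1 (by linarith) (gnear _ nh g hg)
    · intro g hg g' hg'
      exact pair _ _ s2 _ _ _ _ L2 L2 (gnear _ nh g hg) (gnear _ nh g' hg')
    · intro g hg
      exact pair _ _ s2 _ _ _ _ L2 (midmem _ _) (gnear _ nh g hg) (by linarith)
    · exact pair _ _ s2 _ _ _ _ (midmem _ _) R2 (by linarith) (by linarith)

end LeafM

theorem specLeaf : SpecLeaf := fun _ _ _ _ _ _ _ _ H D =>
  ⟨fun k n hk hkK hn hn' => LeafM.part1 H D k n hk hkK hn hn',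
    fun n η hη => LeafM.part2 H D n η hη⟩

end H
end MP1707
end

section
/-!
# MP_1707ab_an, n = 2, PART H, module LOC (local estimates)
-/
set_option autoImplicit false

open scoped Topology BigOperators Classical
open MeasureTheory

namespace MP1707
namespace H
namespace LocM

/-- the box is convex -/
theorem convex_K (L : ℝ) : Convex ℝ (K L) := by
  have h1 : Convex ℝ {z : ℂ | |z.re| ≤ L + 2} := by
    have : {z : ℂ | |z.re| ≤ L + 2} = Complex.reCLM ⁻¹' (Set.Icc (-(L + 2)) (L + 2)) := by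
      ext z
      simp only [Set.mem_ofPred_eq, Set.mem_preimage, Set.mem_Icc, Complex.reCLM_apply, abs_le]
    rw [this]
    exact (convex_Icc _ _).linear_preimage Complex.reCLM.toLinearMap
  have h2 : Convex ℝ {z : ℂ | 0 ≤ z.im ∧ z.im ≤ 1} := by
    have : {z : ℂ | 0 ≤ z.im ∧ z.im ≤ 1} = Complex.imCLM ⁻¹' (Set.Icc 0 1) := by
      ext z
      simp only [Set.mem_ofPred_eq, Set.mem_preimage, Set.mem_Icc, Complex.imCLM_apply]
    rw [this]
    exact (convex_Icc _ _).linear_preimage Complex.imCLM.toLinearMap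
  exact h1.inter h2

/-- the box is compact -/
theorem isCompact_K (L : ℝ) : IsCompact (K L) := by
  have hc : IsClosed (K L) := by
    have h1 : IsClosed {z : ℂ | |z.re| ≤ L + 2} :=
      isClosed_le (continuous_abs.comp Complex.continuous_re) continuous_const
    have h2 : IsClosed {z : ℂ | 0 ≤ z.im} := isClosed_le continuous_const Complex.continuous_im
    have h3 : IsClosed {z : ℂ | z.im ≤ 1} := isClosed_le Complex.continuous_im continuous_const
    exact h1.inter (h2.inter h3)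
  refine Metric.isCompact_of_isClosed_isBounded hc ?_
  refine (Metric.isBounded_closedBall (x := (0 : ℂ)) (r := |L + 2| + 1)).subset ?_
  intro z hz
  rw [mem_closedBall_zero_iff]
  have h1 : |z.re| ≤ |L + 2| := hz.1.trans (le_abs_self _)
  have h2 : |z.im| ≤ 1 := abs_le.2 ⟨by linarith [hz.2.1], hz.2.2⟩
  exact (Complex.norm_le_abs_re_add_abs_im z).trans (by linarith)

/-- uniform continuity on a compact set -/
theorem unif {E : Type*} [NormedAddCommGroup E] {S : Set ℂ} (hS : IsCompact S) {g : ℂ → E}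
    (hg : Continuous g) {e : ℝ} (he : 0 < e) :
    ∃ ρ > 0, ∀ z ∈ S, ∀ z' ∈ S, ‖z' - z‖ ≤ ρ → ‖g z' - g z‖ ≤ e := by
  have h := hS.uniformContinuousOn_of_continuous hg.continuousOn
  rw [Metric.uniformContinuousOn_iff_le] at h
  obtain ⟨ρ, hρ, h⟩ := h e he
  refine ⟨ρ, hρ, fun z hz z' hz' hd => ?_⟩
  have := h z' hz' z hz (by rwa [dist_eq_norm])
  rwa [dist_eq_norm] at this

/-- uniform first order Taylor estimate on a compact convex set -/
theorem taylor {S : Set ℂ} (hS : IsCompact S) (hc : Convex ℝ S) {g : ℂ → ℂ}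
    (hg : ContDiff ℝ 1 g) {e : ℝ} (he : 0 < e) :
    ∃ ρ > 0, ∀ z ∈ S, ∀ z' ∈ S, ‖z' - z‖ ≤ ρ →
      ‖g z' - g z - fderiv ℝ g z (z' - z)‖ ≤ e * ‖z' - z‖ := by
  have hg1 : Continuous (fderiv ℝ g) := hg.continuous_fderiv one_ne_zero
  obtain ⟨ρ, hρ, h⟩ := unif hS hg1 he
  refine ⟨ρ, hρ, fun z hz z' hz' hd => ?_⟩
  have hseg : segment ℝ z z' ⊆ S := hc.segment_subset hz hz'
  refine Convex.norm_image_sub_le_of_norm_fderiv_le' (𝕜 := ℝ) (s := segment ℝ z z')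
    (fun x _ => (hg.differentiable one_ne_zero) x) (fun x hx => ?_) (convex_segment z z')
    (left_mem_segment ℝ z z') (right_mem_segment ℝ z z')
  refine h z hz x (hseg hx) ?_
  have h1 : x ∈ Metric.closedBall z ‖z' - z‖ := by
    refine (convex_closedBall z _).segment_subset (Metric.mem_closedBall_self (norm_nonneg _)) ?_ hx
    rw [Metric.mem_closedBall, dist_eq_norm]
  rw [Metric.mem_closedBall, dist_eq_norm] at h1
  exact h1.trans hd

/-- the real derivative in terms of the Wirtinger derivatives -/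
theorem fderiv_eq (f : ℂ → ℂ) (z h : ℂ) :
    fderiv ℝ f z h = dz f z * h + dzb f z * (starRingEnd ℂ) h := by
  set T := fderiv ℝ f z
  have h1 : h = (h.re : ℝ) • (1 : ℂ) + (h.im : ℝ) • Complex.I := by
    rw [Complex.real_smul, Complex.real_smul, mul_one]
    exact (Complex.re_add_im h).symm
  have h2 : T h = (h.re : ℂ) * T 1 + (h.im : ℂ) * T Complex.I := by
    conv_lhs => rw [h1]
    rw [map_add, map_smul, map_smul, Complex.real_smul, Complex.real_smul]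
  have h3 : (starRingEnd ℂ) h = (h.re : ℂ) - (h.im : ℂ) * Complex.I := by
    apply Complex.ext <;> simp
  have h4 : h = (h.re : ℂ) + (h.im : ℂ) * Complex.I := (Complex.re_add_im h).symm
  rw [h2, h3]
  unfold dz dzb
  change _ = (T 1 - Complex.I * T Complex.I) / 2 * h +
    (T 1 + Complex.I * T Complex.I) / 2 * ((h.re : ℂ) - (h.im : ℂ) * Complex.I)
  conv_rhs => rw [h4]
  simp only [Complex.add_re, Complex.ofReal_re, Complex.mul_re, Complex.I_re, mul_zero,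
    Complex.ofReal_im, Complex.I_im, mul_one, sub_self, add_zero, Complex.add_im, Complex.mul_im,
    zero_add]
  linear_combination ((h.im : ℂ) * T Complex.I) * Complex.I_mul_I

theorem contDiff_dz {f : ℂ → ℂ} (hf : ContDiff ℝ 2 f) : ContDiff ℝ 1 (dz f) := by
  have h1 : ContDiff ℝ 1 (fderiv ℝ f) := hf.fderiv_right (by norm_num)
  have h2 : ∀ v : ℂ, ContDiff ℝ 1 (fun z => fderiv ℝ f z v) := fun v => h1.clm_apply contDiff_const
  exact ((h2 1).sub (contDiff_const.mul (h2 Complex.I))).div_const 2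

theorem continuous_dzb {f : ℂ → ℂ} (hf : ContDiff ℝ 2 f) : Continuous (dzb f) := by
  have h1 : ContDiff ℝ 1 (fderiv ℝ f) := hf.fderiv_right (by norm_num)
  have h2 : ∀ v : ℂ, ContDiff ℝ 1 (fun z => fderiv ℝ f z v) := fun v => h1.clm_apply contDiff_const
  exact (((h2 1).add (contDiff_const.mul (h2 Complex.I))).div_const 2).continuous

section

variable {L δ : ℝ} (Φ : Fields L δ)

theorem continuous_om : Continuous (om Φ.V Φ.c Φ.F) := by
  have h1 : Continuous (fderiv ℝ Φ.c) := Φ.hc.continuous_fderiv one_ne_zero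
  have h2 : Continuous (fderiv ℝ (dz Φ.V)) := (contDiff_dz Φ.hV).continuous_fderiv one_ne_zero
  exact h1.sub (Φ.hF.continuous.smul h2)

theorem continuous_etaF : Continuous (etaF Φ) := by
  have h1 : Continuous (fderiv ℝ Φ.F) := Φ.hF.continuous_fderiv one_ne_zero
  exact continuous_const.add (continuous_const.mul h1.norm)

theorem etaF_ge (z : ℂ) : 3 ≤ etaF Φ z := by
  unfold etaF
  have := norm_nonneg (fderiv ℝ Φ.F z)
  linarith

theorem continuous_ppF (p0 : ℝ) : Continuous (ppF Φ p0) := by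
  have h1 : Continuous (fun z => 200 * ‖om Φ.V Φ.c Φ.F z‖ / etaF Φ z) :=
    (continuous_const.mul (continuous_om Φ).norm).div (continuous_etaF Φ)
      (fun z => by have := etaF_ge Φ z; positivity)
  exact continuous_const.add h1

theorem exists_loc (p0 ε : ℝ) (hp0 : 0 < p0) (hε : 0 < ε) : ∃ ρ > 0, Loc Φ p0 ρ ε := by
  have hK := isCompact_K L
  have hKc := convex_K L
  have he : 0 < ε * p0 := by positivity
  obtain ⟨r1, hr1, H1⟩ := unif hK (continuous_etaF Φ) hε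
  obtain ⟨r2, hr2, H2⟩ := unif hK (continuous_ppF Φ p0) he
  obtain ⟨r3, hr3, H3⟩ := unif hK (contDiff_dz Φ.hV).continuous he
  obtain ⟨r4, hr4, H4⟩ := unif hK (continuous_dzb Φ.hV) he
  obtain ⟨r5, hr5, H5⟩ := taylor hK hKc Φ.hF hε
  obtain ⟨r6, hr6, H6⟩ := taylor hK hKc Φ.hc (half_pos he)
  obtain ⟨r7, hr7, H7⟩ := taylor hK hKc (contDiff_dz Φ.hV) (half_pos he)
  obtain ⟨r8, hr8, H8⟩ := taylor hK hKc (Φ.hV.of_le (by norm_num : (1 : WithTop ℕ∞) ≤ 2)) he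
  refine ⟨min (min (min r1 r2) (min r3 r4)) (min (min r5 r6) (min r7 r8)), by positivity, ?_⟩
  have hle : ∀ x : ℝ, x ≤ min (min (min r1 r2) (min r3 r4)) (min (min r5 r6) (min r7 r8)) →
      x ≤ r1 ∧ x ≤ r2 ∧ x ≤ r3 ∧ x ≤ r4 ∧ x ≤ r5 ∧ x ≤ r6 ∧ x ≤ r7 ∧ x ≤ r8 := by
    intro x hx
    simp only [le_min_iff] at hx
    tauto
  have hom : ∀ z, 0 ≤ z → z ≤ z := fun z _ => le_rfl
  refine ⟨?_, ?_, ?_, ?_, ?_, ?_, ?_⟩
  · intro z hz z' hz' hd
    have := H1 z hz z' hz' (hle _ hd).1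
    rwa [Real.norm_eq_abs] at this
  · intro z hz z' hz' hd
    have := H2 z hz z' hz' (hle _ hd).2.1
    rwa [Real.norm_eq_abs] at this
  · intro z hz z' hz' hd
    exact H3 z hz z' hz' (hle _ hd).2.2.1
  · intro z hz z' hz' hd
    have h := H4 z hz z' hz' (hle _ hd).2.2.2.1
    have h2 := norm_add_le (dzb Φ.V z) (dzb Φ.V z' - dzb Φ.V z)
    rw [add_sub_cancel] at h2
    linarith
  · intro z hz z' hz' hd
    have h := H5 z hz z' hz' (hle _ hd).2.2.2.2.1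
    have h2 := norm_add_le (fderiv ℝ Φ.F z (z' - z)) (Φ.F z' - Φ.F z - fderiv ℝ Φ.F z (z' - z))
    rw [add_sub_cancel] at h2
    have h3 := (fderiv ℝ Φ.F z).le_opNorm (z' - z)
    have h4 : ‖fderiv ℝ Φ.F z‖ ≤ etaF Φ z / 200 := by
      unfold etaF
      linarith
    have h5 := mul_le_mul_of_nonneg_right h4 (norm_nonneg (z' - z))
    rw [add_mul]
    linarith
  · intro z hz z' hz' hd
    have h6 := H6 z hz z' hz' (hle _ hd).2.2.2.2.2.1
    have h7 := H7 z hz z' hz' (hle _ hd).2.2.2.2.2.2.1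
    have hF := Φ.bF z hz
    set h := z' - z with hh
    have hnn := norm_nonneg h
    have e1 : Φ.c z' - Φ.c z - Φ.F z * (dz Φ.V z' - dz Φ.V z) =
        (Φ.c z' - Φ.c z - fderiv ℝ Φ.c z h) -
        Φ.F z * (dz Φ.V z' - dz Φ.V z - fderiv ℝ (dz Φ.V) z h) + om Φ.V Φ.c Φ.F z h := by
      unfold om
      rw [_root_.sub_apply, _root_.smul_apply, smul_eq_mul]
      ring
    rw [e1]
    have h8 : ‖om Φ.V Φ.c Φ.F z h‖ ≤ ppF Φ p0 z * etaF Φ z / 200 * ‖h‖ := by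
      refine ((om Φ.V Φ.c Φ.F z).le_opNorm h).trans (mul_le_mul_of_nonneg_right ?_ hnn)
      have h3 := etaF_ge Φ z
      have h3' : 0 < etaF Φ z := by linarith
      unfold ppF
      rw [add_mul, div_mul_cancel₀ _ h3'.ne']
      have : 0 ≤ p0 * etaF Φ z := by positivity
      linarith
    have h9 : ‖Φ.F z * (dz Φ.V z' - dz Φ.V z - fderiv ℝ (dz Φ.V) z h)‖ ≤
        1 / 4 * (ε * p0 / 2 * ‖h‖) := by
      rw [norm_mul]
      exact mul_le_mul hF h7 (norm_nonneg _) (by norm_num)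
    refine (norm_add_le _ _).trans ?_
    have h10 := norm_sub_le (Φ.c z' - Φ.c z - fderiv ℝ Φ.c z h)
      (Φ.F z * (dz Φ.V z' - dz Φ.V z - fderiv ℝ (dz Φ.V) z h))
    have h11 : 0 ≤ ε * p0 * ‖h‖ := by positivity
    rw [add_mul]
    linarith
  · intro z hz z' hz' hd
    have h := H8 z hz z' hz' (hle _ hd).2.2.2.2.2.2.2
    have e1 : Φ.V z' - Φ.V z - dz Φ.V z * (z' - z) =
        (Φ.V z' - Φ.V z - fderiv ℝ Φ.V z (z' - z)) + dzb Φ.V z * (starRingEnd ℂ) (z' - z) := by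
      rw [fderiv_eq]
      ring
    rw [e1]
    refine (norm_add_le _ _).trans ?_
    rw [norm_mul, RCLike.norm_conj, add_mul]
    linarith

theorem exists_leb : ∃ ρ > 0, ∀ z ∈ K L, DifferentiableOn ℂ Φ.V (Metric.ball z ρ) ∨
    ∃ f0 k0 : ℂ, ∀ ζ ∈ Metric.ball z ρ, Φ.F ζ = f0 ∧ Φ.c ζ = f0 * dz Φ.V ζ + k0 := by
  have h1 : ∀ z ∈ K L, ∃ r > 0, DifferentiableOn ℂ Φ.V (Metric.ball z r) ∨
      ∃ f0 k0 : ℂ, ∀ ζ ∈ Metric.ball z r, Φ.F ζ = f0 ∧ Φ.c ζ = f0 * dz Φ.V ζ + k0 := by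
    intro z hz
    rcases Φ.loc z hz with ⟨r, hr, h⟩ | ⟨r, hr, f0, k0, h⟩
    · exact ⟨r, hr, Or.inl h⟩
    · exact ⟨r, hr, Or.inr ⟨f0, k0, h⟩⟩
  choose! r hr H using h1
  obtain ⟨ρ, hρ, hleb⟩ := lebesgue_number_lemma_of_metric (s := K L)
    (c := fun z : K L => Metric.ball (z : ℂ) (r z)) (isCompact_K L)
    (fun z => Metric.isOpen_ball)
    (fun z hz => Set.mem_iUnion.2 ⟨⟨z, hz⟩, Metric.mem_ball_self (hr z hz)⟩)
  refine ⟨ρ, hρ, fun z hz => ?_⟩
  obtain ⟨⟨w, hw⟩, hsub⟩ := hleb z hz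
  rcases H w hw with h | ⟨f0, k0, h⟩
  · exact Or.inl (h.mono hsub)
  · exact Or.inr ⟨f0, k0, fun ζ hζ => h ζ (hsub hζ)⟩

end

end LocM

/-- H-LOC -/
theorem specLoc : SpecLoc := fun _ _ Φ =>
  ⟨fun p0 ε hp0 hε => LocM.exists_loc Φ p0 ε hp0 hε,
    ⟨LocM.continuous_etaF Φ, (LocM.contDiff_dz Φ.hV).continuous, LocM.continuous_dzb Φ.hV,
      LocM.continuous_om Φ⟩, LocM.exists_leb Φ⟩

end H
end MP1707
end

section
/-!
# MP_1707ab_an, n = 2, PART H, assembly NET: discrete data give a network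
-/
set_option autoImplicit false

open scoped Topology BigOperators Classical

namespace MP1707
namespace H
namespace NetM

/-! ### monotone chains -/

theorem co_add (u z w : ℂ) : co u (z + w) = co u z + co u w := by
  simp [co, mul_add]

theorem co_smul (u : ℂ) (t : ℝ) (z : ℂ) : co u (t • z) = t * co u z := by
  simp only [co, Complex.real_smul, Complex.mul_re, Complex.mul_im, Complex.ofReal_re,
    Complex.ofReal_im, Complex.conj_re, Complex.conj_im]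
  ring

theorem seg_co {u p q x : ℂ} (h : co u p < co u q) (hx : x ∈ segment ℝ p q) :
    co u p ≤ co u x ∧ co u x ≤ co u q ∧ (co u x ≤ co u p → x = p) ∧ (co u q ≤ co u x → x = q) := by
  obtain ⟨s, t, hs, ht, hst, rfl⟩ := hx
  rw [co_add, co_smul, co_smul]
  have hs' : s = 1 - t := by linarith
  subst hs'
  refine ⟨by nlinarith, by nlinarith, fun h' => ?_, fun h' => ?_⟩
  · have : t = 0 := by nlinarith
    subst this; simp
  · have : t = 1 := by nlinarith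
    subst this; simp

theorem mono_co {u : ℂ} {z : ℕ → ℂ} {m : ℕ} (h : ∀ i, i < m → co u (z i) < co u (z (i + 1)))
    {i j : ℕ} (hij : i < j) (hj : j ≤ m) : co u (z i) < co u (z j) := by
  induction j with
  | zero => omega
  | succ j ih =>
    rcases Nat.lt_or_ge i j with h' | h'
    · exact (ih h' (by omega)).trans (h j (by omega))
    · have : i = j := by omega
      subst this; exact h i (by omega)

theorem mono_le {u : ℂ} {z : ℕ → ℂ} {m : ℕ} (h : ∀ i, i < m → co u (z i) < co u (z (i + 1)))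
    {i j : ℕ} (hij : i ≤ j) (hj : j ≤ m) : co u (z i) ≤ co u (z j) := by
  rcases Nat.lt_or_ge i j with h' | h'
  · exact (mono_co h h' hj).le
  · have : i = j := by omega
    rw [this]

/-- a node on a segment of its chain is an end point of the segment -/
theorem node_seg {u : ℂ} {z : ℕ → ℂ} {m : ℕ} (h : ∀ i, i < m → co u (z i) < co u (z (i + 1)))
    {i j : ℕ} (hi : i < m) (hj : j ≤ m) (hx : z j ∈ segment ℝ (z i) (z (i + 1))) :
    j = i ∨ j = i + 1 := by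
  obtain ⟨h1, h2, h3, h4⟩ := seg_co (h i hi) hx
  rcases Nat.lt_trichotomy j i with h' | h' | h'
  · exact absurd (mono_co h h' (by omega)) (not_lt.mpr h1)
  · exact Or.inl h'
  · rcases Nat.lt_or_ge (i + 1) j with h'' | h''
    · exact absurd (mono_co h h'' hj) (not_lt.mpr h2)
    · right; omega

theorem seg_seg {u : ℂ} {z : ℕ → ℂ} {m : ℕ} (h : ∀ i, i < m → co u (z i) < co u (z (i + 1)))
    {i j : ℕ} (hij : i < j) (hj : j < m) {x : ℂ} (hx : x ∈ segment ℝ (z i) (z (i + 1)))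
    (hx' : x ∈ segment ℝ (z j) (z (j + 1))) : x = z (i + 1) ∧ x = z j := by
  obtain ⟨h1, h2, h3, h4⟩ := seg_co (h i (by omega)) hx
  obtain ⟨h1', h2', h3', h4'⟩ := seg_co (h j hj) hx'
  have h5 : co u (z (i + 1)) ≤ co u (z j) := mono_le h (by omega) (by omega)
  exact ⟨h4 (h5.trans h1'), h3' (h2.trans h5)⟩

theorem inj_chain {u : ℂ} {z : ℕ → ℂ} {m : ℕ} (h : ∀ i, i < m → co u (z i) < co u (z (i + 1)))
    {i j : ℕ} (hi : i ≤ m) (hj : j ≤ m) (hx : z i = z j) : i = j := by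
  rcases Nat.lt_trichotomy i j with h' | h' | h'
  · exact absurd (mono_co h h' hj) (by rw [hx]; exact lt_irrefl _)
  · exact h'
  · exact absurd (mono_co h h' hi) (by rw [hx]; exact lt_irrefl _)

theorem node_mem {z : ℕ → ℂ} {m : ℕ} (hm : 1 ≤ m) {i : ℕ} (hi : i ≤ m) :
    ∃ s, s < m ∧ z i ∈ segment ℝ (z s) (z (s + 1)) := by
  rcases Nat.lt_or_ge i m with h' | h'
  · exact ⟨i, h', left_mem_segment ℝ _ _⟩
  · refine ⟨m - 1, by omega, ?_⟩
    have h1 : m - 1 + 1 = m := by omega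
    have h2 : i = m := by omega
    rw [h1, h2]; exact right_mem_segment ℝ _ _

/-! ### edge data -/

section data

variable {Em σ τ δ : ℝ} {K N : ℤ} (D : Disc Em σ τ δ K N) (r : ℝ) (M : ℕ)

/-- direction -/
noncomputable def uE : EL K N ⊕ EC K N → ℂ := Sum.elim (fun _ => 1) (fun _ => Complex.I)
noncomputable def pE : EL K N ⊕ EC K N → ℂ := Sum.elim (fun p => aL D p.1.1 p.1.2)
  (fun p => (vtx σ D.eta p.1.1 p.1.2 + D.hC p.1.1 p.1.2) / 2)
noncomputable def hE : EL K N ⊕ EC K N → ℂ := Sum.elim (fun p => D.hL p.1.1 p.1.2)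
  (fun p => D.hC p.1.1 p.1.2)
noncomputable def qE : EL K N ⊕ EC K N → ℂ := Sum.elim (fun p => bL D p.1.1 p.1.2)
  (fun p => (D.hC p.1.1 p.1.2 + vtx σ D.eta (p.1.1 + 1) p.1.2) / 2)
noncomputable def fE : EL K N ⊕ EC K N → ℂ := Sum.elim (fun p => D.fL p.1.1 p.1.2)
  (fun p => D.fC p.1.1 p.1.2)
noncomputable def rE : EL K N ⊕ EC K N → ℝ := Sum.elim (fun p => if D.gL p.1.1 p.1.2 then r else 0)
  (fun p => if D.gC p.1.1 p.1.2 then r else 0)
/-- flow slope -/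
noncomputable def AE : EL K N ⊕ EC K N → ℂ :=
  Sum.elim (fun p => D.a p.1.1 p.1.2 - D.a (p.1.1 - 1) p.1.2)
  (fun p => D.a p.1.1 (p.1.2 - 1) - D.a p.1.1 p.1.2)
noncomputable def BE : EL K N ⊕ EC K N → ℂ :=
  Sum.elim (fun p => D.b p.1.1 p.1.2 - D.b (p.1.1 - 1) p.1.2)
  (fun p => D.b p.1.1 (p.1.2 - 1) - D.b p.1.1 p.1.2)
/-- bound -/
noncomputable def SE : EL K N ⊕ EC K N → ℝ := Sum.elim (fun p => D.S p.1.1 p.1.2)
  (fun p => D.S p.1.1 p.1.2)
/-- length bound -/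
noncomputable def lE : EL K N ⊕ EC K N → ℝ := Sum.elim (fun p => 4 * D.eta p.1.1 p.1.2 * σ)
  (fun _ => σ)
noncomputable def vE (q : ℤ × ℤ) : ℂ := vtx σ D.eta q.1 q.2
noncomputable def sl (e : EL K N ⊕ EC K N) : ℕ → ℂ :=
  cb (D.j1 (sE e).1 (sE e).2) (D.j1 (tE e).1 (tE e).2) M
noncomputable def vl (e : EL K N ⊕ EC K N) (i : ℕ) : ℂ :=
  fE D e + sl D M e i * (nE D r M e i - hE D e)

theorem nE_eq (e : EL K N ⊕ EC K N) : nE D r M e =
    cn (uE e) (vE D (sE e)) (pE D e) (hE D e) (qE D e) (vE D (tE e)) M (r / M) (rE D r e) := by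
  rcases e with e | e <;> rfl

end data

theorem memL {K N : ℤ} (p : EL K N) : 0 ≤ p.1.1 ∧ p.1.1 ≤ K ∧ -N ≤ p.1.2 ∧ p.1.2 < N := by
  have := p.2
  rw [Finset.mem_product, Finset.mem_Icc, Finset.mem_Ico] at this
  exact ⟨this.1.1, this.1.2, this.2.1, this.2.2⟩

theorem memC {K N : ℤ} (p : EC K N) :
    0 ≤ p.1.1 ∧ p.1.1 < K ∧ -N < p.1.2 ∧ p.1.2 < N ∧ (p.1.1 + p.1.2) % 2 = 1 := by
  have := p.2
  rw [Finset.mem_filter, Finset.mem_product, Finset.mem_Ico, Finset.mem_Ioo] at this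
  exact ⟨this.1.1.1, this.1.1.2, this.1.2.1, this.1.2.2, this.2⟩

/-- sum over leaf edges -/
theorem sumL {M' : Type*} [AddCommMonoid M'] {K N : ℤ} (f : ℤ → ℤ → M') :
    ∑ p : EL K N, f p.1.1 p.1.2 = ∑ k ∈ Finset.Icc 0 K, ∑ n ∈ Finset.Ico (-N) N, f k n := by
  rw [← Finset.sum_product']
  exact Finset.sum_coe_sort _ (fun p : ℤ × ℤ => f p.1 p.2)

/-- sum over cut edges of a nonnegative function -/
theorem sumC {K N : ℤ} (f : ℤ → ℤ → ℝ) (hf : ∀ k n, 0 ≤ k → k ≤ K → -N ≤ n → n ≤ N → 0 ≤ f k n) :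
    ∑ p : EC K N, f p.1.1 p.1.2 ≤ ∑ k ∈ Finset.Icc 0 K, ∑ n ∈ Finset.Icc (-N) N, f k n := by
  rw [← Finset.sum_product']
  have h1 : ∑ p : EC K N, f p.1.1 p.1.2 =
    ∑ p ∈ (Finset.Ico (0 : ℤ) K ×ˢ Finset.Ioo (-N) N).filter (fun p => (p.1 + p.2) % 2 = 1),
      f p.1 p.2 := Finset.sum_coe_sort _ (fun p : ℤ × ℤ => f p.1 p.2)
  rw [h1]
  refine Finset.sum_le_sum_of_subset_of_nonneg ?_ ?_
  · intro p hp
    rw [Finset.mem_filter, Finset.mem_product, Finset.mem_Ico, Finset.mem_Ioo] at hp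
    rw [Finset.mem_product, Finset.mem_Icc, Finset.mem_Icc]
    omega
  · intro p hp _
    rw [Finset.mem_product, Finset.mem_Icc, Finset.mem_Icc] at hp
    exact hf _ _ hp.1.1 hp.1.2 hp.2.1 hp.2.2

theorem sumL_le {K N : ℤ} (f : ℤ → ℤ → ℝ) (hf : ∀ k n, 0 ≤ k → k ≤ K → -N ≤ n → n ≤ N → 0 ≤ f k n) :
    ∑ p : EL K N, f p.1.1 p.1.2 ≤ ∑ k ∈ Finset.Icc 0 K, ∑ n ∈ Finset.Icc (-N) N, f k n := by
  rw [sumL, ← Finset.sum_product', ← Finset.sum_product']
  refine Finset.sum_le_sum_of_subset_of_nonneg ?_ ?_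
  · intro p hp
    rw [Finset.mem_product, Finset.mem_Icc, Finset.mem_Ico] at hp
    rw [Finset.mem_product, Finset.mem_Icc, Finset.mem_Icc]
    omega
  · intro p hp _
    rw [Finset.mem_product, Finset.mem_Icc, Finset.mem_Icc] at hp
    exact hf _ _ hp.1.1 hp.1.2 hp.2.1 hp.2.2

/-- sum over leaf edges restricted to one column -/
theorem sumL_col {K N : ℤ} (n0 : ℤ) (hn : -N ≤ n0) (hn' : n0 < N) (P : ℤ → Prop)
    (f : ℤ → ℤ → ℂ) :
    ∑ p : EL K N, (if p.1.2 = n0 ∧ P p.1.1 then f p.1.1 p.1.2 else 0) =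
      ∑ k ∈ Finset.Icc 0 K, (if P k then f k n0 else 0) := by
  rw [sumL (fun k n => if n = n0 ∧ P k then f k n else 0)]
  refine Finset.sum_congr rfl fun k _ => ?_
  rw [Finset.sum_eq_single n0]
  · simp
  · intro n _ hne; rw [if_neg]; exact fun h => hne h.1
  · intro h; exact absurd (Finset.mem_Ico.mpr ⟨hn, hn'⟩) h

/-! ### standing package -/

section pack

variable {Em σ τ δ : ℝ} {K N : ℤ}

/-- everything that is known about one chain -/
structure Pk (D : Disc Em σ τ δ K N) (r : ℝ) (M : ℕ) : Prop where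
  z0 : ∀ e, nE D r M e 0 = vE D (sE e)
  zm : ∀ e, nE D r M e (2 * M + 4) = vE D (tE e)
  s0 : ∀ e, sl D M e 0 = D.j1 (sE e).1 (sE e).2
  sm : ∀ e, sl D M e (2 * M + 4) = D.j1 (tE e).1 (tE e).2
  mono : ∀ e i, i < 2 * M + 4 → co (uE e) (nE D r M e i) < co (uE e) (nE D r M e (i + 1))
  len : ∀ e i, i < 2 * M + 4 → ‖nE D r M e (i + 1) - nE D r M e i‖ ≤ 1
  jb : ∀ e i, i ≤ 2 * M + 4 → ‖vl D r M e i‖ ≤ 1 / 2 ∧ ‖sl D M e i‖ ≤ 1 / 2
  herm : ∀ e i, i < 2 * M + 4 →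
    ‖vl D r M e (i + 1) - vl D r M e i - sl D M e i * (nE D r M e (i + 1) - nE D r M e i)‖ ≤
      1 / 100 * ‖nE D r M e (i + 1) - nE D r M e i‖ ^ 2 ∧
    ‖vl D r M e i - vl D r M e (i + 1) -
      sl D M e (i + 1) * (nE D r M e i - nE D r M e (i + 1))‖ ≤
      1 / 100 * ‖nE D r M e (i + 1) - nE D r M e i‖ ^ 2
  cost : ∀ e, ∑ i ∈ Finset.range (2 * M + 4), ‖nE D r M e (i + 1) - nE D r M e i‖ *
    max ‖AE D e * nE D r M e i + BE D e‖ ‖AE D e * nE D r M e (i + 1) + BE D e‖ ≤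
      (lE D e + 6 * r) * SE D e + 252 * r * ‖AE D e‖
  im : ∀ e i, i ≤ 2 * M + 4 → 0 < (nE D r M e i).im ∧ (nE D r M e i).im < 1
  re : ∀ e i, i ≤ 2 * M + 4 → |(nE D r M e i).re| ≤ σ * N

theorem vtx_re (σ : ℝ) (eta : ℤ → ℤ → ℝ) (k n : ℤ) : (vtx σ eta k n).re = σ * n := rfl

theorem co_one (z : ℂ) : co 1 z = z.re := by simp [co]

theorem vtx_cut (σ : ℝ) (eta : ℤ → ℤ → ℝ) (k n : ℤ) (h : (k + n) % 2 = 1) :
    (vtx σ eta (k + 1) n).im - (vtx σ eta k n).im = σ / 2 := by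
  have h1 : ¬ (k + n) % 2 = 0 := by omega
  have h2 : (k + 1 + n) % 2 = 0 := by omega
  simp only [vtx, h1, h2, if_true, if_false, add_sub_cancel_right]
  push_cast; ring

theorem pk_of (h1 : SpecChain) (h2 : SpecLeaf) (h3 : SpecCut) (D : Disc Em σ τ δ K N) (r : ℝ)
    (M : ℕ) (hn : Num Em σ τ δ K N r M) : Pk D r M := by
  obtain ⟨hL, -⟩ := h2 Em σ τ δ K N r M hn D
  have hC := h3 Em σ τ δ K N r M hn D
  have ok : ∀ e : EL K N ⊕ EC K N, ChainOK (uE e) (vE D (sE e)) (pE D e) (hE D e) (qE D e)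
      (vE D (tE e)) (fE D e) (D.j1 (sE e).1 (sE e).2) (D.j1 (tE e).1 (tE e).2) M r (rE D r e) := by
    rintro (p | p)
    · obtain ⟨a1, a2, a3, a4⟩ := memL p
      exact (hL _ _ a1 a2 a3 a4).1
    · obtain ⟨a1, a2, a3, a4, a5⟩ := memC p
      exact (hC _ _ a1 a2 a3 a4 a5).1
  have hz : ∀ e, nE D r M e = cn (uE e) (vE D (sE e)) (pE D e) (hE D e) (qE D e) (vE D (tE e)) M
      (r / M) (rE D r e) := nE_eq D r M
  have nd : ∀ e : EL K N ⊕ EC K N, (∀ i, i ≤ 2 * M + 4 → ‖AE D e * nE D r M e i + BE D e‖ ≤ SE D e) := by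
    rintro (p | p) i hi
    · obtain ⟨a1, a2, a3, a4⟩ := memL p
      exact D.SL _ _ a1 a2 a3 a4 _ ((hL _ _ a1 a2 a3 a4).2.2.1 i hi).1
    · obtain ⟨a1, a2, a3, a4, a5⟩ := memC p
      exact D.SC _ _ a1 a2 a3 a4 a5 _ ((hC _ _ a1 a2 a3 a4 a5).2.2.1 i hi).1
  have gd : ∀ e : EL K N ⊕ EC K N, rE D r e = r → AE D e * hE D e + BE D e = 0 := by
    rintro (p | p) h
    · obtain ⟨a1, a2, a3, a4⟩ := memL p
      refine D.goodL _ _ a1 a2 a3 a4 ?_
      by_contra hg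
      have : rE D r (Sum.inl p) = 0 := if_neg hg
      linarith [hn.hr]
    · obtain ⟨a1, a2, a3, a4, a5⟩ := memC p
      refine D.goodC _ _ a1 a2 a3 a4 a5 ?_
      by_contra hg
      have : rE D r (Sum.inr p) = 0 := if_neg hg
      linarith [hn.hr]
  have ln : ∀ e : EL K N ⊕ EC K N, ‖pE D e - vE D (sE e)‖ + ‖hE D e - pE D e‖ +
      ‖qE D e - hE D e‖ + ‖vE D (tE e) - qE D e‖ ≤ lE D e := by
    rintro (p | p)
    · obtain ⟨a1, a2, a3, a4⟩ := memL p
      exact (hL _ _ a1 a2 a3 a4).2.1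
    · obtain ⟨a1, a2, a3, a4, a5⟩ := memC p
      exact (hC _ _ a1 a2 a3 a4 a5).2.1
  have S0 : ∀ e, 0 ≤ SE D e := by
    rintro (p | p)
    · exact D.S_nonneg _ _
    · exact D.S_nonneg _ _
  have mono : ∀ e i, i < 2 * M + 4 →
      co (uE e) (nE D r M e i) < co (uE e) (nE D r M e (i + 1)) := by
    intro e
    obtain ⟨-, -, -, -, b5, -⟩ := h1 _ _ _ _ _ _ _ _ _ M r _ (ok e)
    rw [hz e]; exact b5
  have z0 : ∀ e, nE D r M e 0 = vE D (sE e) := by
    intro e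
    obtain ⟨b1, -⟩ := h1 _ _ _ _ _ _ _ _ _ M r _ (ok e)
    rw [hz e]; exact b1
  have zm : ∀ e, nE D r M e (2 * M + 4) = vE D (tE e) := by
    intro e
    obtain ⟨-, b1, -⟩ := h1 _ _ _ _ _ _ _ _ _ M r _ (ok e)
    rw [hz e]; exact b1
  have hrest : ∀ e, (∀ i, i < 2 * M + 4 → ‖nE D r M e (i + 1) - nE D r M e i‖ ≤ 1) ∧
      (∀ i, i ≤ 2 * M + 4 → ‖vl D r M e i‖ ≤ 1 / 2 ∧ ‖sl D M e i‖ ≤ 1 / 2) ∧
      (∀ i, i < 2 * M + 4 →
        ‖vl D r M e (i + 1) - vl D r M e i - sl D M e i * (nE D r M e (i + 1) - nE D r M e i)‖ ≤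
          1 / 100 * ‖nE D r M e (i + 1) - nE D r M e i‖ ^ 2 ∧
        ‖vl D r M e i - vl D r M e (i + 1) -
          sl D M e (i + 1) * (nE D r M e i - nE D r M e (i + 1))‖ ≤
          1 / 100 * ‖nE D r M e (i + 1) - nE D r M e i‖ ^ 2) ∧
      sl D M e 0 = D.j1 (sE e).1 (sE e).2 ∧ sl D M e (2 * M + 4) = D.j1 (tE e).1 (tE e).2 ∧
      ∑ i ∈ Finset.range (2 * M + 4), ‖nE D r M e (i + 1) - nE D r M e i‖ *
        max ‖AE D e * nE D r M e i + BE D e‖ ‖AE D e * nE D r M e (i + 1) + BE D e‖ ≤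
      (lE D e + 6 * r) * SE D e + 252 * r * ‖AE D e‖ := by
    intro e
    have nd' := nd e
    have key : ∀ e' : ℕ → ℂ, e' = nE D r M e →
        vl D r M e = fun i => fE D e + sl D M e i * (e' i - hE D e) := by
      rintro _ rfl; rfl
    obtain ⟨-, -, b3, b4, -, b6, b7, b8, b9⟩ := h1 _ _ _ _ _ _ _ _ _ M r _ (ok e)
    rw [key _ (hz e).symm]
    rw [hz e] at nd' ⊢
    refine ⟨b6, b7, b8, b3, b4, ?_⟩
    refine (b9 (AE D e) (BE D e) (SE D e) nd' (gd e)).trans ?_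
    have := ln e
    have h0 := S0 e
    have : (‖pE D e - vE D (sE e)‖ + ‖hE D e - pE D e‖ + ‖qE D e - hE D e‖ +
      ‖vE D (tE e) - qE D e‖ + 6 * r) * SE D e ≤ (lE D e + 6 * r) * SE D e := by
      gcongr
    linarith
  refine ⟨z0, zm, fun e => (hrest e).2.2.2.1, fun e => (hrest e).2.2.2.2.1, mono,
    fun e => (hrest e).1, fun e => (hrest e).2.1, fun e => (hrest e).2.2.1,
    fun e => (hrest e).2.2.2.2.2, ?_, ?_⟩
  · rintro (p | p) i hi
    · obtain ⟨a1, a2, a3, a4⟩ := memL p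
      exact ((hL _ _ a1 a2 a3 a4).2.2.1 i hi).2
    · obtain ⟨a1, a2, a3, a4, a5⟩ := memC p
      exact ((hC _ _ a1 a2 a3 a4 a5).2.2.1 i hi).2
  · rintro (p | p) i hi
    · obtain ⟨a1, a2, a3, a4⟩ := memL p
      have c1 := mono_le (mono (Sum.inl p)) (Nat.zero_le i) hi
      have c2 := mono_le (mono (Sum.inl p)) hi le_rfl
      rw [z0] at c1
      rw [zm] at c2
      have c1' : σ * (p.1.2 : ℝ) ≤ (nE D r M (Sum.inl p) i).re := by
        have : co 1 (vE D (sE (Sum.inl p))) = σ * (p.1.2 : ℝ) := by rw [co_one]; rfl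
        rw [← this, ← co_one]; exact c1
      have c2' : (nE D r M (Sum.inl p) i).re ≤ σ * ((p.1.2 + 1 : ℤ) : ℝ) := by
        have : co 1 (vE D (tE (Sum.inl p : EL K N ⊕ EC K N))) = σ * ((p.1.2 + 1 : ℤ) : ℝ) := by
          rw [co_one]; rfl
        rw [← this, ← co_one (nE D r M (Sum.inl p) i)]; exact c2
      have d1 : (-N : ℝ) ≤ (p.1.2 : ℝ) := by exact_mod_cast a3
      have d2 : ((p.1.2 + 1 : ℤ) : ℝ) ≤ (N : ℝ) := by exact_mod_cast a4
      have e1 := mul_le_mul_of_nonneg_left d1 hn.hσ.le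
      have e2 := mul_le_mul_of_nonneg_left d2 hn.hσ.le
      rw [abs_le]; constructor <;> linarith
    · obtain ⟨a1, a2, a3, a4, a5⟩ := memC p
      obtain ⟨s, hs, hs'⟩ := node_mem (z := nE D r M (Sum.inr p)) (m := 2 * M + 4) (by omega) hi
      obtain ⟨b1, b2⟩ := (hC _ _ a1 a2 a3 a4 a5).2.2.2 s hs _ hs'
      have b3 := vtx_cut σ D.eta _ _ a5
      have hτ : τ ≤ 1 / 30000 := by
        have := hn.hτE; have := hn.hEm; have := hn.hτ
        nlinarith
      have b4 : |(nE D r M (Sum.inr p) i).re - σ * p.1.2| ≤ σ := by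
        have hp := hn.hσ
        have := hn.hτ
        nlinarith
      rw [abs_le] at b4
      have d1 : (-N : ℝ) + 1 ≤ (p.1.2 : ℝ) := by exact_mod_cast a3
      have d2 : (p.1.2 : ℝ) + 1 ≤ (N : ℝ) := by exact_mod_cast a4
      have e1 := mul_le_mul_of_nonneg_left d1 hn.hσ.le
      have e2 := mul_le_mul_of_nonneg_left d2 hn.hσ.le
      rw [abs_le]; constructor <;> nlinarith

theorem j_start {D : Disc Em σ τ δ K N} {r : ℝ} {M : ℕ} (P : Pk D r M) (e : EL K N ⊕ EC K N) :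
    vl D r M e 0 = D.j0 (sE e).1 (sE e).2 := by
  have h1 := P.z0 e
  have h2 := P.s0 e
  unfold vl
  rw [h1, h2]
  rcases e with p | p
  · obtain ⟨a1, a2, a3, a4⟩ := memL p
    exact (D.relL _ _ a1 a2 a3 a4).symm
  · obtain ⟨a1, a2, a3, a4, a5⟩ := memC p
    exact (D.relC _ _ a1 a2 a3 a4 a5).symm

theorem j_end {D : Disc Em σ τ δ K N} {r : ℝ} {M : ℕ} (P : Pk D r M) (e : EL K N ⊕ EC K N) :
    vl D r M e (2 * M + 4) = D.j0 (tE e).1 (tE e).2 := by
  have h1 := P.zm e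
  have h2 := P.sm e
  unfold vl
  rw [h1, h2]
  rcases e with p | p
  · obtain ⟨a1, a2, a3, a4⟩ := memL p
    exact (D.relL' _ _ a1 a2 a3 a4).symm
  · obtain ⟨a1, a2, a3, a4, a5⟩ := memC p
    exact (D.relC' _ _ a1 a2 a3 a4 a5).symm

/-- jets at a node that is a vertex -/
theorem jet_node {D : Disc Em σ τ δ K N} {r : ℝ} {M : ℕ} (P : Pk D r M) (e : EL K N ⊕ EC K N)
    {i : ℕ} (hi : i ≤ 2 * M + 4) {q : ℤ × ℤ} (hq : q = sE e ∨ q = tE e)
    (hx : nE D r M e i = vE D q) : vl D r M e i = D.j0 q.1 q.2 ∧ sl D M e i = D.j1 q.1 q.2 := by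
  rcases hq with rfl | rfl
  · rw [← P.z0 e] at hx
    have : i = 0 := inj_chain (P.mono e) hi (Nat.zero_le _) hx
    subst this
    exact ⟨j_start P e, P.s0 e⟩
  · rw [← P.zm e] at hx
    have : i = 2 * M + 4 := inj_chain (P.mono e) hi le_rfl hx
    subst this
    exact ⟨j_end P e, P.sm e⟩

theorem colL {σ : ℝ} (hσ : 0 < σ) {N : ℤ} (n : ℤ) : (σ * (n : ℝ) = -(σ * N)) ↔ n = -N := by
  constructor
  · intro h
    have : σ * (n : ℝ) = σ * (-N : ℝ) := by rw [h]; ring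
    have := mul_left_cancel₀ hσ.ne' this
    exact_mod_cast this
  · rintro rfl; push_cast; ring

theorem colR {σ : ℝ} (hσ : 0 < σ) {N : ℤ} (n : ℤ) : (σ * (n : ℝ) = σ * N) ↔ n = N := by
  constructor
  · intro h
    have := mul_left_cancel₀ hσ.ne' h
    exact_mod_cast this
  · rintro rfl; rfl

theorem left_sum {D : Disc Em σ τ δ K N} {r : ℝ} {M : ℕ} (P : Pk D r M) (hσ : 0 < σ) (hN : 1 ≤ N)
    (G : EL K N ⊕ EC K N → ℂ) (g : ℤ → ℤ → ℂ) (Q : ℝ → Prop)
    (hG : ∀ p : EL K N, G (Sum.inl p) = g p.1.1 p.1.2) :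
    ∑ e, (if (nE D r M e 0).re = -(σ * N) ∧ Q (nE D r M e 0).im then G e else 0) =
      ∑ k ∈ Finset.Icc 0 K, (if Q (vtx σ D.eta k (-N)).im then g k (-N) else 0) := by
  rw [Fintype.sum_sum_type]
  have e2 : ∑ p : EC K N, (if (nE D r M (Sum.inr p) 0).re = -(σ * N) ∧
      Q (nE D r M (Sum.inr p) 0).im then G (Sum.inr p) else 0) = 0 := by
    refine Finset.sum_eq_zero fun p _ => ?_
    rw [if_neg]
    rintro ⟨h, -⟩
    obtain ⟨a1, a2, a3, a4, a5⟩ := memC p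
    rw [P.z0] at h
    have := (colL hσ p.1.2).mp h
    omega
  rw [e2, add_zero, ← sumL_col (-N) le_rfl (by omega)
    (fun k => Q (vtx σ D.eta k (-N)).im) g]
  refine Finset.sum_congr rfl fun p _ => ?_
  rw [P.z0, hG p]
  by_cases h : p.1.2 = -N
  · have h1 : (vE D (sE (Sum.inl p : EL K N ⊕ EC K N))).re = -(σ * N) := (colL hσ p.1.2).mpr h
    have h2 : (vE D (sE (Sum.inl p : EL K N ⊕ EC K N))).im = (vtx σ D.eta p.1.1 (-N)).im := by
      have : (vE D (sE (Sum.inl p : EL K N ⊕ EC K N))).im = (vtx σ D.eta p.1.1 p.1.2).im := rfl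
      rw [this, h]
    simp only [h1, h2, h, true_and]
  · rw [if_neg (fun h' => h ((colL hσ p.1.2).mp h'.1)), if_neg (fun h' => h h'.1)]

theorem right_sum {D : Disc Em σ τ δ K N} {r : ℝ} {M : ℕ} (P : Pk D r M) (hσ : 0 < σ) (hN : 1 ≤ N)
    (G : EL K N ⊕ EC K N → ℂ) (g : ℤ → ℤ → ℂ) (Q : ℝ → Prop)
    (hG : ∀ p : EL K N, G (Sum.inl p) = g p.1.1 p.1.2) :
    ∑ e, (if (nE D r M e (2 * M + 4)).re = σ * N ∧ Q (nE D r M e (2 * M + 4)).im
      then G e else 0) =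
      ∑ k ∈ Finset.Icc 0 K, (if Q (vtx σ D.eta k N).im then g k (N - 1) else 0) := by
  rw [Fintype.sum_sum_type]
  have e2 : ∑ p : EC K N, (if (nE D r M (Sum.inr p) (2 * M + 4)).re = σ * N ∧
      Q (nE D r M (Sum.inr p) (2 * M + 4)).im then G (Sum.inr p) else 0) = 0 := by
    refine Finset.sum_eq_zero fun p _ => ?_
    rw [if_neg]
    rintro ⟨h, -⟩
    obtain ⟨a1, a2, a3, a4, a5⟩ := memC p
    rw [P.zm] at h
    have := (colR hσ p.1.2).mp h
    omega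
  rw [e2, add_zero, ← sumL_col (K := K) (N := N) (N - 1) (by omega) (by omega)
    (fun k => Q (vtx σ D.eta k N).im) g]
  refine Finset.sum_congr rfl fun p _ => ?_
  rw [P.zm, hG p]
  by_cases h : p.1.2 = N - 1
  · have h0 : p.1.2 + 1 = N := by omega
    have h1 : (vE D (tE (Sum.inl p : EL K N ⊕ EC K N))).re = σ * N :=
      (colR hσ (p.1.2 + 1)).mpr h0
    have h2 : (vE D (tE (Sum.inl p : EL K N ⊕ EC K N))).im = (vtx σ D.eta p.1.1 N).im := by
      have : (vE D (tE (Sum.inl p : EL K N ⊕ EC K N))).im =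
        (vtx σ D.eta p.1.1 (p.1.2 + 1)).im := rfl
      rw [this, h0]
    simp only [h1, h2, h, true_and]
  · rw [if_neg (fun h' => h (by have := (colR hσ (p.1.2 + 1)).mp h'.1; omega)),
      if_neg (fun h' => h h'.1)]

/-- left vertical line -/
theorem left_line (h6 : SpecTele) {D : Disc Em σ τ δ K N} {r : ℝ} {M : ℕ} (P : Pk D r M)
    (hσ : 0 < σ) (hδ : 0 < δ) (hK : 1 ≤ K) (hN : 1 ≤ N)
    (imv : ∀ k k' n, 0 ≤ k → k < k' → k' ≤ K → -N ≤ n → n ≤ N →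
      (vtx σ D.eta k n).im < (vtx σ D.eta k' n).im) (t : ℝ) :
    ‖∑ e, (if (nE D r M e 0).re = -(σ * N) ∧ (nE D r M e 0).im ≤ t then
      AE D e * (⟨-(σ * N), t⟩ : ℂ) + BE D e else 0)‖ ≤ 2 * δ := by
  rw [left_sum P hσ hN (fun e => AE D e * (⟨-(σ * N), t⟩ : ℂ) + BE D e)
    (fun k n => (D.a k n * (⟨-(σ * N), t⟩ : ℂ) + D.b k n) -
      (D.a (k - 1) n * (⟨-(σ * N), t⟩ : ℂ) + D.b (k - 1) n)) (fun y => y ≤ t) (by
      intro p
      show (D.a p.1.1 p.1.2 - D.a (p.1.1 - 1) p.1.2) * _ +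
        (D.b p.1.1 p.1.2 - D.b (p.1.1 - 1) p.1.2) = _
      ring)]
  have t1 := (h6 K (fun k => D.a k (-N) * (⟨-(σ * N), t⟩ : ℂ) + D.b k (-N))
    (fun k => (vtx σ D.eta k (-N)).im) t (by omega)
    (fun k k' h h' h'' => imv k k' (-N) h h' h'' le_rfl (by omega))).2
  have gm : D.a (-1) (-N) * (⟨-(σ * N), t⟩ : ℂ) + D.b (-1) (-N) = 0 := by
    rw [D.nega _ _ (by norm_num), D.negb _ _ (by norm_num)]; simp
  have gp : D.a K (-N) * (⟨-(σ * N), t⟩ : ℂ) + D.b K (-N) = 0 := by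
    rw [D.topa _ _ le_rfl, D.topb _ _ le_rfl]; simp
  rcases t1 with h | h | ⟨k, hk, hk', h, h', h''⟩
  · rw [h, norm_zero]; positivity
  · rw [h]
    simp only [gm, gp, sub_zero, norm_zero]; positivity
  · rw [h'']
    simp only [gm, sub_zero]
    exact (D.bdl k hk hk' t h h').trans (by linarith)

/-- right vertical line -/
theorem right_line (h6 : SpecTele) {D : Disc Em σ τ δ K N} {r : ℝ} {M : ℕ} (P : Pk D r M)
    (hσ : 0 < σ) (hδ : 0 < δ) (hK : 1 ≤ K) (hN : 1 ≤ N)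
    (imv : ∀ k k' n, 0 ≤ k → k < k' → k' ≤ K → -N ≤ n → n ≤ N →
      (vtx σ D.eta k n).im < (vtx σ D.eta k' n).im) (t : ℝ) :
    ‖∑ e, (if (nE D r M e (2 * M + 4)).re = σ * N ∧ (nE D r M e (2 * M + 4)).im ≤ t then
      AE D e * (⟨σ * N, t⟩ : ℂ) + BE D e else 0)‖ ≤ 2 * δ := by
  rw [right_sum P hσ hN (fun e => AE D e * (⟨σ * N, t⟩ : ℂ) + BE D e)
    (fun k n => (D.a k n * (⟨σ * N, t⟩ : ℂ) + D.b k n) -
      (D.a (k - 1) n * (⟨σ * N, t⟩ : ℂ) + D.b (k - 1) n)) (fun y => y ≤ t) (by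
      intro p
      show (D.a p.1.1 p.1.2 - D.a (p.1.1 - 1) p.1.2) * _ +
        (D.b p.1.1 p.1.2 - D.b (p.1.1 - 1) p.1.2) = _
      ring)]
  have t1 := (h6 K (fun k => D.a k (N - 1) * (⟨σ * N, t⟩ : ℂ) + D.b k (N - 1))
    (fun k => (vtx σ D.eta k N).im) t (by omega)
    (fun k k' h h' h'' => imv k k' N h h' h'' (by omega) le_rfl)).2
  have gm : D.a (-1) (N - 1) * (⟨σ * N, t⟩ : ℂ) + D.b (-1) (N - 1) = 0 := by
    rw [D.nega _ _ (by norm_num), D.negb _ _ (by norm_num)]; simp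
  have gp : D.a K (N - 1) * (⟨σ * N, t⟩ : ℂ) + D.b K (N - 1) = 0 := by
    rw [D.topa _ _ le_rfl, D.topb _ _ le_rfl]; simp
  rcases t1 with h | h | ⟨k, hk, hk', h, h', h''⟩
  · rw [h, norm_zero]; positivity
  · rw [h]
    simp only [gm, gp, sub_zero, norm_zero]; positivity
  · rw [h'']
    simp only [gm, sub_zero]
    exact (D.bdr k hk hk' t h h').trans (by linarith)

/-- transported quantity -/
theorem big_aux (h6 : SpecTele) {D : Disc Em σ τ δ K N} {r : ℝ} {M : ℕ} (P : Pk D r M)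
    (hσ : 0 < σ) (hK : 1 ≤ K) (hN : 1 ≤ N) :
    ∑ e, (if (nE D r M e 0).re = -(σ * N) then
      sl D M e 0 * (AE D e * nE D r M e 0 + BE D e) - vl D r M e 0 * AE D e else 0) = -1 := by
  have e1 := left_sum P hσ hN (fun e => sl D M e 0 * (AE D e * nE D r M e 0 + BE D e) -
    vl D r M e 0 * AE D e) (fun k n => D.j1 k n * ((D.a k n - D.a (k - 1) n) *
      vtx σ D.eta k n + (D.b k n - D.b (k - 1) n)) - D.j0 k n * (D.a k n - D.a (k - 1) n))
    (fun _ => True) (by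
      intro p
      show sl D M (Sum.inl p) 0 * (AE D (Sum.inl p) * nE D r M (Sum.inl p) 0 + BE D (Sum.inl p)) -
        vl D r M (Sum.inl p) 0 * AE D (Sum.inl p) = _
      rw [P.s0, P.z0, j_start P]
      rfl)
  simp only [and_true, if_true] at e1
  rw [e1]
  have e2 : ∑ k ∈ Finset.Icc 0 K, (D.j1 k (-N) * ((D.a k (-N) - D.a (k - 1) (-N)) *
      vtx σ D.eta k (-N) + (D.b k (-N) - D.b (k - 1) (-N))) -
        D.j0 k (-N) * (D.a k (-N) - D.a (k - 1) (-N))) =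
      - ∑ k ∈ Finset.Icc 0 K, (D.c k (-N) - D.c (k - 1) (-N)) := by
    rw [← Finset.sum_neg_distrib]
    refine Finset.sum_congr rfl fun k hk => ?_
    rw [Finset.mem_Icc] at hk
    exact D.left k hk.1 hk.2
  rw [e2, (h6 K (fun k => D.c k (-N)) (fun k => k) 0 (by omega)
    (fun k k' _ h _ => by exact_mod_cast h)).1, D.topc K (-N) le_rfl,
    D.negc (-1) (-N) (by norm_num)]
  simp

/-- total cost -/
theorem cost_aux {D : Disc Em σ τ δ K N} {r : ℝ} {M : ℕ} (P : Pk D r M) (hσ : 0 < σ) :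
    ∑ e, ∑ i ∈ Finset.range (2 * M + 4), ‖nE D r M e (i + 1) - nE D r M e i‖ *
      max ‖AE D e * nE D r M e i + BE D e‖ ‖AE D e * nE D r M e (i + 1) + BE D e‖ ≤
    δ + r * ∑ e : EL K N ⊕ EC K N, (6 * SE D e + 252 * ‖AE D e‖) := by
  have c1 : ∀ e, ∑ i ∈ Finset.range (2 * M + 4), ‖nE D r M e (i + 1) - nE D r M e i‖ *
      max ‖AE D e * nE D r M e i + BE D e‖ ‖AE D e * nE D r M e (i + 1) + BE D e‖ ≤
      lE D e * SE D e + r * (6 * SE D e + 252 * ‖AE D e‖) := by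
    intro e
    refine (P.cost e).trans (le_of_eq (by ring))
  refine (Finset.sum_le_sum fun e _ => c1 e).trans ?_
  rw [Finset.sum_add_distrib, ← Finset.mul_sum]
  have c2 : ∑ e : EL K N ⊕ EC K N, lE D e * SE D e ≤ δ := by
    rw [Fintype.sum_sum_type]
    have eta3 : ∀ k n, 0 ≤ k → k ≤ K → -N ≤ n → n ≤ N → 3 ≤ D.eta k n := fun k n b1 b2 b3 b4 =>
      D.eta_ge k n (by omega) (by omega) (by omega) (by omega)
    have d1 := sumL_le (K := K) (N := N) (fun k n => 4 * D.eta k n * σ * D.S k n)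
      (fun k n b1 b2 b3 b4 => by
        have := eta3 k n b1 b2 b3 b4
        have := D.S_nonneg k n
        positivity)
    have d2 := sumC (K := K) (N := N) (fun k n => σ * D.S k n)
      (fun k n _ _ _ _ => by
        have := D.S_nonneg k n
        positivity)
    have d3 : ∑ k ∈ Finset.Icc 0 K, ∑ n ∈ Finset.Icc (-N) N, 4 * D.eta k n * σ * D.S k n +
        ∑ k ∈ Finset.Icc 0 K, ∑ n ∈ Finset.Icc (-N) N, σ * D.S k n ≤ δ := by
      refine le_trans ?_ D.cost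
      rw [← Finset.sum_add_distrib]
      refine Finset.sum_le_sum fun k hk => ?_
      rw [← Finset.sum_add_distrib]
      refine Finset.sum_le_sum fun n hn' => ?_
      rw [Finset.mem_Icc] at hk hn'
      have := eta3 k n hk.1 hk.2 hn'.1 hn'.2
      have h0 := D.S_nonneg k n
      have : 4 * D.eta k n * σ * D.S k n + σ * D.S k n = (4 * D.eta k n + 1) * (σ * D.S k n) := by
        ring
      rw [this]
      have : 10 * D.eta k n * σ * D.S k n = (10 * D.eta k n) * (σ * D.S k n) := by ring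
      rw [this]
      refine mul_le_mul_of_nonneg_right (by linarith) (by positivity)
    exact (add_le_add d1 d2).trans d3
  linarith

end pack

end NetM

open NetM in
theorem specNet (h1 : SpecChain) (h2 : SpecLeaf) (h3 : SpecCut) (h4 : SpecPlan) (h5 : SpecKir)
    (h6 : SpecTele) : SpecNet := by
  intro Em σ τ δ K N hEm hσ hτ hδ hτE hσE hK hσK hN ⟨D⟩
  -- choice of r
  set W : ℝ := ∑ e : EL K N ⊕ EC K N, (6 * SE D e + 252 * ‖AE D e‖) with hW
  have hS0 : ∀ e, 0 ≤ SE D e := by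
    rintro (p | p)
    · exact D.S_nonneg _ _
    · exact D.S_nonneg _ _
  have hW0 : 0 ≤ W := Finset.sum_nonneg fun e _ => by have := hS0 e; positivity
  obtain ⟨r, hr, hr1, hr2⟩ : ∃ r : ℝ, 0 < r ∧ r ≤ τ * σ ∧ r * W ≤ δ := by
    refine ⟨min (τ * σ) (δ / (W + 1)), by positivity, min_le_left _ _, ?_⟩
    calc min (τ * σ) (δ / (W + 1)) * W ≤ δ / (W + 1) * (W + 1) := by
          gcongr
          · exact min_le_right _ _
          · linarith
      _ = δ := by field_simp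
  have hτ1 : τ ≤ 1 / 30000 := by nlinarith
  have hσ1 : σ ≤ 1 / 3000 := by nlinarith
  have hr3 : r ≤ 1 := by nlinarith
  obtain ⟨M, hM1, hM2, hM3⟩ : ∃ M : ℕ, 1 ≤ M ∧ 20 ≤ M * r ∧ M * r ≤ 21 := by
    refine ⟨⌈20 / r⌉₊, ?_, ?_, ?_⟩
    · rw [Nat.one_le_ceil_iff]; positivity
    · have := Nat.le_ceil (20 / r)
      rwa [div_le_iff₀ hr] at this
    · have := Nat.ceil_lt_add_one (a := 20 / r) (by positivity)
      have h' : (⌈20 / r⌉₊ : ℝ) * r ≤ (20 / r + 1) * r := by gcongr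
      have h'' : (20 / r + 1) * r = 20 + r := by field_simp
      linarith
  have hn : Num Em σ τ δ K N r M :=
    ⟨hEm, hσ, hτ, hδ, hτE, hσE, hK, hσK, hN, hr, hr1, hM1, hM2, hM3⟩
  have P := pk_of h1 h2 h3 D r M hn
  obtain ⟨imv, plan⟩ := h4 Em σ τ δ K N r M hn D
  have hinj : ∀ k n k' n', 0 ≤ k → k ≤ K → -N ≤ n → n ≤ N → 0 ≤ k' → k' ≤ K → -N ≤ n' → n' ≤ N →
      vtx σ D.eta k n = vtx σ D.eta k' n' → k = k' ∧ n = n' := by
    intro k n k' n' a1 a2 a3 a4 b1 b2 b3 b4 h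
    have hn' : n = n' := by
      have := congrArg Complex.re h
      rw [vtx_re, vtx_re] at this
      have := mul_left_cancel₀ hσ.ne' this
      exact_mod_cast this
    subst hn'
    refine ⟨?_, rfl⟩
    rcases lt_trichotomy k k' with h' | h' | h'
    · have := imv k k' n a1 h' b2 a3 a4
      rw [h] at this; exact absurd this (lt_irrefl _)
    · exact h'
    · have := imv k' k n b1 h' a2 a3 a4
      rw [h] at this; exact absurd this (lt_irrefl _)
  have hin : ∀ k n, 0 ≤ k → k ≤ K → -N ≤ n → n ≤ N → |(vtx σ D.eta k n).re| < σ * N →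
      -N < n ∧ n < N := by
    intro k n _ _ _ _ h
    rw [vtx_re, abs_mul, abs_of_pos hσ] at h
    have := lt_of_mul_lt_mul_left h hσ.le
    rw [abs_lt] at this
    exact ⟨by exact_mod_cast this.1, by exact_mod_cast this.2⟩
  have hNN : (1 : ℝ) ≤ N := by exact_mod_cast hN
  refine ⟨{ E := EL K N ⊕ EC K N
            m := fun _ => 2 * M + 4
            z := nE D r M
            j0 := vl D r M
            j1 := sl D M
            a := AE D
            b := BE D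
            hm := fun _ => by omega
            ne := ?_
            len := P.len
            planar := ?_
            jet := ?_
            j0b := fun e i hi => (P.jb e i hi).1
            j1b := fun e i hi => (P.jb e i hi).2
            herm := fun e i hi => (P.herm e i hi).1
            herm' := fun e i hi => (P.herm e i hi).2
            re_le := P.re
            im_pos := fun e i hi => (P.im e i hi).1
            im_lt := fun e i hi => (P.im e i hi).2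
            start_lt := ?_
            end_gt := ?_
            kirA := ?_
            kirB := ?_
            big := ?_
            cost := ?_
            leftA := ?_
            leftB := ?_
            left := ?_
            rightA := ?_
            rightB := ?_
            right := ?_ }⟩
  · -- ne
    intro e i hi h
    have := P.mono e i hi
    rw [h] at this
    exact lt_irrefl _ this
  · -- planar
    intro e i e' i' hi hi' hne x hx hx'
    by_cases hee : e = e'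
    · subst hee
      have hii : i ≠ i' := fun h => hne (by rw [h])
      rcases Nat.lt_or_gt_of_ne hii with h | h
      · obtain ⟨c1, c2⟩ := seg_seg (P.mono e) h hi' hx hx'
        exact ⟨Or.inr c1, Or.inl c2⟩
      · obtain ⟨c1, c2⟩ := seg_seg (P.mono e) h hi hx' hx
        exact ⟨Or.inl c2, Or.inr c1⟩
    · obtain ⟨q, hq, hq1, hq2⟩ := plan e e' hee i i' hi hi' x hx hx'
      have aux : ∀ (e : EL K N ⊕ EC K N) (i : ℕ), i < 2 * M + 4 →
          x ∈ segment ℝ (nE D r M e i) (nE D r M e (i + 1)) → (q = sE e ∨ q = tE e) →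
          x = nE D r M e i ∨ x = nE D r M e (i + 1) := by
        intro e i hi hx hq'
        rcases hq' with h | h
        · have hx0 : x = nE D r M e 0 := by rw [P.z0, ← h]; exact hq
          rw [hx0] at hx ⊢
          rcases node_seg (P.mono e) hi (Nat.zero_le _) hx with h' | h'
          · left; rw [← h']
          · right; rw [← h']
        · have hx0 : x = nE D r M e (2 * M + 4) := by rw [P.zm, ← h]; exact hq
          rw [hx0] at hx ⊢
          rcases node_seg (P.mono e) hi le_rfl hx with h' | h'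
          · left; rw [← h']
          · right; rw [← h']
      exact ⟨aux e i hi hx hq1, aux e' i' hi' hx' hq2⟩
  · -- jet
    intro e i e' i' hi hi' hz
    by_cases hee : e = e'
    · subst hee
      have : i = i' := inj_chain (P.mono e) hi hi' hz
      subst this; exact ⟨rfl, rfl⟩
    · obtain ⟨s, hs, hs1⟩ := node_mem (z := nE D r M e) (m := 2 * M + 4) (by omega) hi
      obtain ⟨s', hs', hs1'⟩ := node_mem (z := nE D r M e') (m := 2 * M + 4) (by omega) hi'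
      rw [← hz] at hs1'
      obtain ⟨q, hq, hq1, hq2⟩ := plan e e' hee s s' hs hs' _ hs1 hs1'
      obtain ⟨c1, c2⟩ := jet_node P e hi hq1 hq
      obtain ⟨d1, d2⟩ := jet_node P e' hi' hq2 (hz ▸ hq)
      rw [c1, c2, d1, d2]
      exact ⟨rfl, rfl⟩
  · -- start_lt
    intro e
    rw [P.z0]
    rcases e with p | p
    · obtain ⟨a1, a2, a3, a4⟩ := memL p
      exact mul_lt_mul_of_pos_left (by exact_mod_cast a4) hσ
    · obtain ⟨a1, a2, a3, a4, a5⟩ := memC p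
      exact mul_lt_mul_of_pos_left (by exact_mod_cast a4) hσ
  · -- end_gt
    intro e
    rw [P.zm, ← mul_neg]
    rcases e with p | p
    · obtain ⟨a1, a2, a3, a4⟩ := memL p
      refine mul_lt_mul_of_pos_left ?_ hσ
      have : -N < p.1.2 + 1 := by omega
      exact_mod_cast this
    · obtain ⟨a1, a2, a3, a4, a5⟩ := memC p
      refine mul_lt_mul_of_pos_left ?_ hσ
      exact_mod_cast a3
  · -- kirA
    intro Q hQ
    simp only [P.z0, P.zm]
    rw [Fintype.sum_sum_type, Fintype.sum_sum_type]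
    exact h5 K N (σ * N) (vtx σ D.eta) D.a 0 hK hN D.para D.nega D.topa hinj hin Q hQ
  · intro Q hQ
    simp only [P.z0, P.zm]
    rw [Fintype.sum_sum_type, Fintype.sum_sum_type]
    exact h5 K N (σ * N) (vtx σ D.eta) D.b 0 hK hN D.parb D.negb D.topb hinj hin Q hQ
  · -- big
    show 1 ≤ ‖∑ e, (if (nE D r M e 0).re = -(σ * N) then
      sl D M e 0 * (AE D e * nE D r M e 0 + BE D e) - vl D r M e 0 * AE D e else 0)‖
    rw [big_aux h6 P hσ hK hN]; simp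
  · -- cost
    refine (cost_aux P hσ).trans ?_
    linarith
  · -- leftA
    have e1 := left_sum P hσ hN (AE D) (fun k n => D.a k n - D.a (k - 1) n) (fun _ => True)
      (fun _ => rfl)
    simp only [and_true, if_true] at e1
    rw [e1, (h6 K (fun k => D.a k (-N)) (fun k => k) 0 (by omega)
      (fun k k' _ h _ => by exact_mod_cast h)).1, D.topa K (-N) le_rfl,
      D.nega (-1) (-N) (by norm_num), sub_zero]
  · have e1 := left_sum P hσ hN (BE D) (fun k n => D.b k n - D.b (k - 1) n) (fun _ => True)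
      (fun _ => rfl)
    simp only [and_true, if_true] at e1
    rw [e1, (h6 K (fun k => D.b k (-N)) (fun k => k) 0 (by omega)
      (fun k k' _ h _ => by exact_mod_cast h)).1, D.topb K (-N) le_rfl,
      D.negb (-1) (-N) (by norm_num), sub_zero]
  · -- left
    intro t _ _
    exact left_line h6 P hσ hδ hK hN imv t
  · -- rightA
    have e1 := right_sum P hσ hN (AE D) (fun k n => D.a k n - D.a (k - 1) n) (fun _ => True)
      (fun _ => rfl)
    simp only [and_true, if_true] at e1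
    rw [e1, (h6 K (fun k => D.a k (N - 1)) (fun k => k) 0 (by omega)
      (fun k k' _ h _ => by exact_mod_cast h)).1, D.topa K (N - 1) le_rfl,
      D.nega (-1) (N - 1) (by norm_num), sub_zero]
  · have e1 := right_sum P hσ hN (BE D) (fun k n => D.b k n - D.b (k - 1) n) (fun _ => True)
      (fun _ => rfl)
    simp only [and_true, if_true] at e1
    rw [e1, (h6 K (fun k => D.b k (N - 1)) (fun k => k) 0 (by omega)
      (fun k k' _ h _ => by exact_mod_cast h)).1, D.topb K (N - 1) le_rfl,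
      D.negb (-1) (N - 1) (by norm_num), sub_zero]
  · -- right
    intro t _ _
    exact right_line h6 P hσ hδ hK hN imv t

end H
end MP1707
end
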