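import Pool.Agent.Lib.MP_1707ab_an.N2.SpecH

section
/-!
# H-PLAN: planarity
-/
set_option autoImplicit false

open scoped Topology BigOperators Classical

namespace MP1707
namespace H
namespace PlanM

lemma vtx_re (σ : ℝ) (eta : ℤ → ℤ → ℝ) (k n : ℤ) : (vtx σ eta k n).re = σ * n := rfl

lemma vtx_im (σ : ℝ) (eta : ℤ → ℤ → ℝ) (k n : ℤ) : (vtx σ eta k n).im = σ * k / 2 + 1 / 32 - σ / 4 +
    (if n % 2 = 0 then σ * eta (if (k + n) % 2 = 0 then k - 1 else k) n else 0) := rfl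

lemma zt_re (σ : ℝ) (k n : ℤ) : (zt σ k n).re = σ * n := rfl
lemma zt_im (σ : ℝ) (k n : ℤ) : (zt σ k n).im = σ * k / 2 + 1 / 32 := rfl

variable {Em σ τ δ : ℝ} {K N : ℤ} {r : ℝ} {M : ℕ}

lemma tau_le (H : Num Em σ τ δ K N r M) : τ ≤ 1 / 30000 := by
  have h1 := H.hEm
  have h2 := H.hτE
  have h3 := H.hτ
  nlinarith

lemma vtx_lt (H : Num Em σ τ δ K N r M) (D : Disc Em σ τ δ K N) (k k' n : ℤ) (h0 : 0 ≤ k)
    (h1 : k < k') (h2 : k' ≤ K) (h3 : -N ≤ n) (h4 : n ≤ N) :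
    (vtx σ D.eta k n).im < (vtx σ D.eta k' n).im := by
  have hσ := H.hσ
  have hEm := H.hEm
  have ht := tau_le H
  rw [vtx_im, vtx_im]
  have hkk : (k : ℝ) + 1 ≤ k' := by exact_mod_cast h1
  by_cases hn : n % 2 = 0
  · rw [if_pos hn, if_pos hn]
    set s : ℤ := if (k + n) % 2 = 0 then k - 1 else k with hs
    set s' : ℤ := if (k' + n) % 2 = 0 then k' - 1 else k' with hs'
    have s1 : k - 1 ≤ s ∧ s ≤ k := by rw [hs]; split_ifs <;> omega
    have s1' : k' - 1 ≤ s' ∧ s' ≤ k' := by rw [hs']; split_ifs <;> omega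
    have e1 := D.eta_le s n (by omega) (by omega) (by omega) (by omega)
    have e2 := D.eta_ge s' n (by omega) (by omega) (by omega) (by omega)
    have e3 : (s' : ℝ) ≤ k' := by exact_mod_cast s1'.2
    have e3' : (k' : ℝ) - 1 ≤ s' := by exact_mod_cast s1'.1
    have e4 : (s : ℝ) ≤ k := by exact_mod_cast s1.2
    have e4' : (k : ℝ) - 1 ≤ s := by exact_mod_cast s1.1
    rcases le_or_gt (|(s' : ℝ) - s|) (40 * Em) with hc | hc
    · have hcl := D.eta_close s n s' n (by omega) (by omega) (by omega) (by omega) (by omega)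
        (by omega) (by omega) (by omega) hc (by simp)
      have := (abs_le.1 hcl).1
      nlinarith
    · have h5 : 40 * Em < k' - k + 1 := by
        rcases lt_abs.1 hc with h | h
        · linarith
        · linarith
      nlinarith
  · rw [if_neg hn, if_neg hn]
    nlinarith

lemma vtx_inj (H : Num Em σ τ δ K N r M) (D : Disc Em σ τ δ K N) (k k' n : ℤ) (h0 : 0 ≤ k)
    (h0' : 0 ≤ k') (h2 : k ≤ K) (h2' : k' ≤ K) (h3 : -N ≤ n) (h4 : n ≤ N)
    (h : (vtx σ D.eta k n).im = (vtx σ D.eta k' n).im) : k = k' := by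
  rcases lt_trichotomy k k' with hk | hk | hk
  · exact absurd h (vtx_lt H D k k' n h0 hk h2' h3 h4).ne
  · exact hk
  · exact absurd h.symm (vtx_lt H D k' k n h0' hk h2 h3 h4).ne

lemma vtx_le (H : Num Em σ τ δ K N r M) (D : Disc Em σ τ δ K N) (k k' n : ℤ) (h0 : 0 ≤ k)
    (h1 : k ≤ k') (h2 : k' ≤ K) (h3 : -N ≤ n) (h4 : n ≤ N) :
    (vtx σ D.eta k n).im ≤ (vtx σ D.eta k' n).im := by
  rcases h1.eq_or_lt with h | h
  · rw [h]
  · exact (vtx_lt H D k k' n h0 h h2 h3 h4).le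

lemma cut_len (σ : ℝ) (eta : ℤ → ℤ → ℝ) (k n : ℤ) (h : (k + n) % 2 = 1) :
    (vtx σ eta (k + 1) n).im = (vtx σ eta k n).im + σ / 2 := by
  rw [vtx_im, vtx_im, if_neg (show ¬ (k + n) % 2 = 0 by omega),
    if_pos (show (k + 1 + n) % 2 = 0 by omega)]
  push_cast
  rw [add_sub_cancel_right]
  ring

lemma seg_re {x y z : ℂ} (h : x ∈ segment ℝ y z) (hyz : y.re ≤ z.re) : y.re ≤ x.re ∧ x.re ≤ z.re := by
  obtain ⟨a, b, ha, hb, hab, rfl⟩ := h
  simp only [Complex.add_re, Complex.real_smul, Complex.mul_re, Complex.ofReal_re,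
    Complex.ofReal_im, zero_mul, sub_zero]
  have hb' : b = 1 - a := by linarith
  subst hb'
  constructor <;> nlinarith

lemma leaf_re (hC : SpecChain) (D : Disc Em σ τ δ K N) (k n : ℤ)
    (hOK : ChainOK 1 (vtx σ D.eta k n) (aL D k n) (D.hL k n) (bL D k n) (vtx σ D.eta k (n + 1))
      (D.fL k n) (D.j1 k n) (D.j1 k (n + 1)) M r (if D.gL k n then r else 0))
    (i : ℕ) (hi : i < 2 * M + 4) (x : ℂ)
    (hx : x ∈ segment ℝ (nL D r M k n i) (nL D r M k n (i + 1))) :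
    σ * n ≤ x.re ∧ x.re ≤ σ * (n + 1) := by
  obtain ⟨z0, z4, -, -, mono, -⟩ := hC _ _ _ _ _ _ _ _ _ _ _ _ hOK
  have hmono : ∀ i, i < 2 * M + 4 → (nL D r M k n i).re < (nL D r M k n (i + 1)).re := by
    intro i hi
    have := mono i hi
    simpa [co, nL] using this
  have hz0 : nL D r M k n 0 = vtx σ D.eta k n := z0
  have hz4 : nL D r M k n (2 * M + 4) = vtx σ D.eta k (n + 1) := z4
  have hlow : ∀ j, j ≤ 2 * M + 4 → σ * n ≤ (nL D r M k n j).re := by
    intro j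
    induction j with
    | zero => intro _; rw [hz0, vtx_re]
    | succ j ih =>
      intro hj
      exact (ih (by omega)).trans (hmono j (by omega)).le
  have hup : ∀ j, j ≤ 2 * M + 4 → (nL D r M k n (2 * M + 4 - j)).re ≤ σ * (n + 1) := by
    intro j
    induction j with
    | zero => intro _; rw [Nat.sub_zero, hz4, vtx_re]; push_cast; exact le_rfl
    | succ j ih =>
      intro hj
      refine le_trans (hmono (2 * M + 4 - (j + 1)) (by omega)).le ?_
      rw [show 2 * M + 4 - (j + 1) + 1 = 2 * M + 4 - j by omega]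
      exact ih (by omega)
  obtain ⟨a1, a2⟩ := seg_re hx (hmono i hi).le
  refine ⟨(hlow i hi.le).trans a1, a2.trans ?_⟩
  have := hup (2 * M + 4 - (i + 1)) (by omega)
  rwa [show 2 * M + 4 - (2 * M + 4 - (i + 1)) = i + 1 by omega] at this

/-- the data of one point on a leaf -/
structure LeafPt (D : Disc Em σ τ δ K N) (r : ℝ) (M : ℕ) (k n : ℤ) (x : ℂ) : Prop where
  re1 : σ * n ≤ x.re
  re2 : x.re ≤ σ * (n + 1)
  s1 : x.re ≤ σ * n + σ / 8 → |x.im - (vtx σ D.eta k n).im| ≤ 7 * Em * (x.re - σ * n)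
  s2 : σ * (n + 1) - σ / 8 ≤ x.re →
    |x.im - (vtx σ D.eta k (n + 1)).im| ≤ 7 * Em * (σ * (n + 1) - x.re)

/-- the data of one point on a cut -/
structure CutPt (D : Disc Em σ τ δ K N) (k n : ℤ) (x : ℂ) : Prop where
  c1 : |x.re - σ * n| ≤ 30 * τ * (x.im - (vtx σ D.eta k n).im)
  c2 : |x.re - σ * n| ≤ 30 * τ * ((vtx σ D.eta (k + 1) n).im - x.im)

lemma cut_facts (H : Num Em σ τ δ K N r M) {D : Disc Em σ τ δ K N} {k n : ℤ} {x : ℂ}
    (hp : (k + n) % 2 = 1) (hx : CutPt D k n x) :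
    (vtx σ D.eta k n).im ≤ x.im ∧ x.im ≤ (vtx σ D.eta (k + 1) n).im ∧
      |x.re - σ * n| ≤ σ / 100 := by
  have ht := tau_le H
  have hτ := H.hτ
  have hσ := H.hσ
  have h1 := hx.c1
  have h2 := hx.c2
  have h3 := cut_len σ D.eta k n hp
  have h0 := abs_nonneg (x.re - σ * n)
  have h4 : 0 ≤ x.im - (vtx σ D.eta k n).im := by
    by_contra hc
    push Not at hc
    nlinarith
  have h5 : 0 ≤ (vtx σ D.eta (k + 1) n).im - x.im := by
    by_contra hc
    push Not at hc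
    nlinarith
  refine ⟨by linarith, by linarith, ?_⟩
  have h6 : x.im - (vtx σ D.eta k n).im ≤ σ / 2 := by linarith
  calc |x.re - σ * n| ≤ 30 * τ * (x.im - (vtx σ D.eta k n).im) := h1
    _ ≤ 30 * (1 / 30000) * (σ / 2) := by gcongr
    _ ≤ σ / 100 := by linarith

lemma leaf_left {D : Disc Em σ τ δ K N} {k n : ℤ} {x : ℂ} (hσ : 0 < σ) (hx : LeafPt D r M k n x)
    (h : x.re ≤ σ * n) : x = vtx σ D.eta k n := by
  have h1 : x.re = σ * n := le_antisymm h hx.re1
  have h2 := hx.s1 (by linarith)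
  rw [h1, sub_self, mul_zero] at h2
  have h3 : x.im = (vtx σ D.eta k n).im := by
    have := abs_eq_zero.1 (le_antisymm h2 (abs_nonneg _))
    linarith
  exact Complex.ext h1 h3

lemma leaf_right {D : Disc Em σ τ δ K N} {k n : ℤ} {x : ℂ} (hσ : 0 < σ) (hx : LeafPt D r M k n x)
    (h : σ * (n + 1) ≤ x.re) : x = vtx σ D.eta k (n + 1) := by
  have h1 : x.re = σ * (n + 1) := le_antisymm hx.re2 h
  have h2 := hx.s2 (by linarith)
  rw [h1, sub_self, mul_zero] at h2
  have h3 : x.im = (vtx σ D.eta k (n + 1)).im := by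
    have := abs_eq_zero.1 (le_antisymm h2 (abs_nonneg _))
    linarith
  refine Complex.ext ?_ h3
  rw [h1, vtx_re]
  push_cast
  ring

/-- two leaf chains in columns `n < n'` -/
lemma leaf_leaf_lt (H : Num Em σ τ δ K N r M) {D : Disc Em σ τ δ K N} {k n k' n' : ℤ} {x : ℂ}
    (hk : 0 ≤ k ∧ k ≤ K) (hk' : 0 ≤ k' ∧ k' ≤ K) (hn : -N ≤ n) (hn' : n' < N)
    (hx : LeafPt D r M k n x) (hx' : LeafPt D r M k' n' x) (h : n < n') :
    x = vtx σ D.eta k (n + 1) ∧ k' = k ∧ n' = n + 1 := by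
  have hσ := H.hσ
  have h1 : (n : ℝ) + 1 ≤ n' := by exact_mod_cast h
  have h2 : σ * (n + 1) ≤ σ * n' := by gcongr
  have h3 : σ * (n' : ℝ) ≤ σ * (n + 1) := hx'.re1.trans hx.re2
  have h4 : (n' : ℝ) = n + 1 := by
    have : (n' : ℝ) ≤ n + 1 := le_of_mul_le_mul_left h3 hσ
    linarith
  have h5 : n' = n + 1 := by exact_mod_cast h4
  have e1 := leaf_right hσ hx (h2.trans hx'.re1)
  have e2 := leaf_left hσ hx' (hx.re2.trans h2)
  refine ⟨e1, ?_, h5⟩
  rw [e1, ← h5] at e2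
  exact (vtx_inj H D k k' n' hk.1 hk'.1 hk.2 hk'.2 (by omega) (by omega)
    (congrArg Complex.im e2)).symm

lemma abs_lam {lam : ℝ → ℝ} {η s : ℝ} (h : ∀ s s', |lam s - lam s'| ≤ 6 * η * |s - s'|)
    (h0 : |lam 0| ≤ η) (hη : 0 ≤ η) (s0 : 0 ≤ s) (s1 : s ≤ 1) : |lam s| ≤ 7 * η := by
  have h1 := h s 0
  rw [sub_zero, abs_of_nonneg s0] at h1
  have h2 : |lam s| ≤ |lam s - lam 0| + |lam 0| := by
    have := abs_add_le (lam s - lam 0) (lam 0)
    rwa [sub_add_cancel] at this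
  nlinarith

lemma abs_re_im_le {x y : ℂ} {c : ℝ} (h : ‖x - y‖ ≤ c) : |x.re - y.re| ≤ c ∧ |x.im - y.im| ≤ c := by
  have h1 := Complex.abs_re_le_norm (x - y)
  have h2 := Complex.abs_im_le_norm (x - y)
  rw [Complex.sub_re] at h1
  rw [Complex.sub_im] at h2
  exact ⟨h1.trans h, h2.trans h⟩

/-- same column, different leaves never meet -/
lemma leaf_same (H : Num Em σ τ δ K N r M) (D : Disc Em σ τ δ K N)
    (hlam : ∀ (n : ℤ) (η : ℝ), 3 ≤ η → ∃ lam : ℝ → ℝ, (∀ s s', |lam s - lam s'| ≤ 6 * η * |s - s'|) ∧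
      |lam 0| ≤ η ∧ ∀ k, 0 ≤ k → k ≤ K → -N ≤ n → n < N → |D.eta k n - η| ≤ τ →
        ∀ i, i < 2 * M + 4 → ∀ x ∈ segment ℝ (nL D r M k n i) (nL D r M k n (i + 1)),
          ∃ s, 0 ≤ s ∧ s ≤ 1 ∧ ‖x - (zt σ k n + σ * (⟨s, lam s⟩ : ℂ))‖ ≤ 10 * τ * σ)
    (k k' n : ℤ) (h0 : 0 ≤ k) (h1 : k < k') (h2 : k' ≤ K) (h3 : -N ≤ n) (h4 : n < N)
    (i i' : ℕ) (hi : i < 2 * M + 4) (hi' : i' < 2 * M + 4) (x : ℂ)
    (hx : x ∈ segment ℝ (nL D r M k n i) (nL D r M k n (i + 1)))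
    (hx' : x ∈ segment ℝ (nL D r M k' n i') (nL D r M k' n (i' + 1))) : False := by
  have hσ := H.hσ
  have hEm := H.hEm
  have ht := tau_le H
  have hτ := H.hτ
  have hτE := H.hτE
  have hkk : (k : ℝ) + 1 ≤ k' := by exact_mod_cast h1
  have ge := D.eta_ge k n (by omega) (by omega) (by omega) (by omega)
  have le := D.eta_le k n (by omega) (by omega) (by omega) (by omega)
  have ge' := D.eta_ge k' n (by omega) (by omega) (by omega) (by omega)
  have le' := D.eta_le k' n (by omega) (by omega) (by omega) (by omega)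
  obtain ⟨lam, l1, l2, l3⟩ := hlam n (D.eta k n) ge
  obtain ⟨s, s0, s1, hs⟩ := l3 k h0 (by omega) h3 h4 (by rw [sub_self, abs_zero]; exact hτ.le) i hi x hx
  obtain ⟨p1, p2⟩ := abs_re_im_le hs
  have q1 : (zt σ k n + σ * (⟨s, lam s⟩ : ℂ)).re = σ * n + σ * s := by
    rw [Complex.add_re, zt_re, Complex.re_ofReal_mul]
  have q2 : (zt σ k n + σ * (⟨s, lam s⟩ : ℂ)).im = σ * k / 2 + 1 / 32 + σ * lam s := by
    rw [Complex.add_im, zt_im, Complex.im_ofReal_mul]
  rw [q1] at p1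
  rw [q2] at p2
  have hls := abs_lam l1 l2 (by linarith) s0 s1
  rcases le_or_gt (|(k' : ℝ) - k|) (40 * Em) with hc | hc
  · have hcl := D.eta_close k n k' n (by omega) (by omega) (by omega) (by omega) (by omega)
        (by omega) (by omega) (by omega) hc (by simp)
    obtain ⟨s', s0', s1', hs'⟩ := l3 k' (by omega) h2 h3 h4 hcl i' hi' x hx'
    obtain ⟨p1', p2'⟩ := abs_re_im_le hs'
    have q1' : (zt σ k' n + σ * (⟨s', lam s'⟩ : ℂ)).re = σ * n + σ * s' := by
      rw [Complex.add_re, zt_re, Complex.re_ofReal_mul]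
    have q2' : (zt σ k' n + σ * (⟨s', lam s'⟩ : ℂ)).im = σ * k' / 2 + 1 / 32 + σ * lam s' := by
      rw [Complex.add_im, zt_im, Complex.im_ofReal_mul]
    rw [q1'] at p1'
    rw [q2'] at p2'
    rw [abs_le] at p1 p2 p1' p2'
    have hss : |s - s'| ≤ 20 * τ := by
      rw [abs_le]
      constructor
      · by_contra hcon
        push Not at hcon
        nlinarith
      · by_contra hcon
        push Not at hcon
        nlinarith
    have hll : |lam s - lam s'| ≤ 1 / 50 := by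
      refine (l1 s s').trans ?_
      calc 6 * D.eta k n * |s - s'| ≤ 6 * Em * (20 * τ) := by gcongr
        _ ≤ 1 / 50 := by nlinarith
    have hll' := (abs_le.1 hll).1
    have hll'' := (abs_le.1 hll).2
    have a1 : σ * (lam s - lam s') ≤ σ * (1 / 50) := mul_le_mul_of_nonneg_left hll'' hσ.le
    have a3 : σ * τ ≤ σ * (1 / 30000) := mul_le_mul_of_nonneg_left ht hσ.le
    have h6 : σ * ((k' - k) / 2) ≤ σ * (1 / 10) := by
      linarith [p2.1, p2.2, p2'.1, p2'.2]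
    have := le_of_mul_le_mul_left h6 hσ
    linarith
  · obtain ⟨lam', l1', l2', l3'⟩ := hlam n (D.eta k' n) ge'
    obtain ⟨s', s0', s1', hs'⟩ := l3' k' (by omega) h2 h3 h4 (by rw [sub_self, abs_zero]; exact hτ.le)
      i' hi' x hx'
    obtain ⟨p1', p2'⟩ := abs_re_im_le hs'
    have q2' : (zt σ k' n + σ * (⟨s', lam' s'⟩ : ℂ)).im = σ * k' / 2 + 1 / 32 + σ * lam' s' := by
      rw [Complex.add_im, zt_im, Complex.im_ofReal_mul]
    rw [q2'] at p2'
    have hls' := abs_lam l1' l2' (by linarith) s0' s1'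
    rw [abs_le] at p2 p2' hls hls'
    have h5 : 40 * Em < k' - k := by
      rcases lt_abs.1 hc with h | h
      · exact h
      · linarith
    have a1 : σ * lam s ≤ σ * (7 * Em) := mul_le_mul_of_nonneg_left (by linarith [hls.2]) hσ.le
    have a2 : σ * (-(7 * Em)) ≤ σ * lam' s' := mul_le_mul_of_nonneg_left (by linarith [hls'.1]) hσ.le
    have a3 : σ * τ ≤ σ * (1 / 30000) := mul_le_mul_of_nonneg_left ht hσ.le
    have a4 : σ * 3 ≤ σ * Em := mul_le_mul_of_nonneg_left hEm hσ.le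
    have h6 : σ * ((k' - k) / 2) ≤ σ * (15 * Em) := by
      linarith [p2.1, p2.2, p2'.1, p2'.2]
    have := le_of_mul_le_mul_left h6 hσ
    linarith

/-- a leaf chain and a cut chain -/
lemma leaf_cut (H : Num Em σ τ δ K N r M) {D : Disc Em σ τ δ K N} {k n k' n' : ℤ} {x : ℂ}
    (hk : 0 ≤ k ∧ k < K) (hn : -N < n ∧ n < N) (hp : (k + n) % 2 = 1)
    (hk' : 0 ≤ k' ∧ k' ≤ K) (hx : CutPt D k n x) (hx' : LeafPt D r M k' n' x) :
    (n' = n ∨ n' + 1 = n) ∧
      ((x = vtx σ D.eta k n ∧ k' = k) ∨ (x = vtx σ D.eta (k + 1) n ∧ k' = k + 1)) := by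
  have hσ := H.hσ
  have hEm := H.hEm
  have ht := tau_le H
  have hτ := H.hτ
  have hτE := H.hτE
  obtain ⟨f1, f2, f3⟩ := cut_facts H hp hx
  have f3' := abs_le.1 f3
  have hn' : n' = n ∨ n' + 1 = n := by
    by_contra hc
    push Not at hc
    rcases lt_or_ge n n' with h | h
    · have h1 : (n : ℝ) + 1 ≤ n' := by exact_mod_cast h
      have := hx'.re1
      nlinarith [f3'.2]
    · have h2 : n' + 1 ≤ n - 1 := by omega
      have h1 : (n' : ℝ) + 1 ≤ n - 1 := by exact_mod_cast h2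
      have := hx'.re2
      nlinarith [f3'.1]
  refine ⟨hn', ?_⟩
  have key : |x.im - (vtx σ D.eta k' n).im| ≤ 7 * Em * |x.re - σ * n| := by
    rcases hn' with h | h
    · subst h
      have h1 := hx'.s1 (by linarith [f3'.2])
      refine h1.trans ?_
      have : x.re - σ * n' ≤ |x.re - σ * n'| := le_abs_self _
      gcongr
    · have e : (n : ℝ) = n' + 1 := by exact_mod_cast h.symm
      have h1 := hx'.s2 (by rw [← e]; linarith [f3'.1])
      rw [h, ← e] at h1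
      refine h1.trans ?_
      have : σ * n - x.re ≤ |x.re - σ * n| := by
        rw [abs_sub_comm]
        exact le_abs_self _
      gcongr
  have hsmall : 7 * Em * (30 * τ) ≤ 1 / 2 := by nlinarith
  rcases le_or_gt k' k with hkk | hkk
  · left
    have h1 := vtx_le H D k' k n hk'.1 hkk hk.2.le hn.1.le hn.2.le
    have h2 : x.im - (vtx σ D.eta k' n).im ≤ 1 / 2 * (x.im - (vtx σ D.eta k n).im) := by
      refine (le_abs_self _).trans (key.trans ?_)
      calc 7 * Em * |x.re - σ * n| ≤ 7 * Em * (30 * τ * (x.im - (vtx σ D.eta k n).im)) := by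
            gcongr; exact hx.c1
        _ = 7 * Em * (30 * τ) * (x.im - (vtx σ D.eta k n).im) := by ring
        _ ≤ 1 / 2 * (x.im - (vtx σ D.eta k n).im) :=
            mul_le_mul_of_nonneg_right hsmall (by linarith)
    have h3 : x.im = (vtx σ D.eta k n).im := by linarith
    have h4 : (vtx σ D.eta k' n).im = (vtx σ D.eta k n).im := by linarith
    have h5 : x.re = σ * n := by
      have := hx.c1
      rw [h3, sub_self, mul_zero] at this
      have := abs_eq_zero.1 (le_antisymm this (abs_nonneg _))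
      linarith
    exact ⟨Complex.ext h5 h3, vtx_inj H D k' k n hk'.1 hk.1 hk'.2 hk.2.le hn.1.le hn.2.le h4⟩
  · right
    have h1 := vtx_le H D (k + 1) k' n (by omega) (by omega) hk'.2 hn.1.le hn.2.le
    have h2 : (vtx σ D.eta k' n).im - x.im ≤ 1 / 2 * ((vtx σ D.eta (k + 1) n).im - x.im) := by
      have : (vtx σ D.eta k' n).im - x.im ≤ |x.im - (vtx σ D.eta k' n).im| := by
        rw [abs_sub_comm]
        exact le_abs_self _
      refine this.trans (key.trans ?_)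
      calc 7 * Em * |x.re - σ * n| ≤ 7 * Em * (30 * τ * ((vtx σ D.eta (k + 1) n).im - x.im)) := by
            gcongr; exact hx.c2
        _ = 7 * Em * (30 * τ) * ((vtx σ D.eta (k + 1) n).im - x.im) := by ring
        _ ≤ 1 / 2 * ((vtx σ D.eta (k + 1) n).im - x.im) :=
            mul_le_mul_of_nonneg_right hsmall (by linarith)
    have h3 : x.im = (vtx σ D.eta (k + 1) n).im := by linarith
    have h4 : (vtx σ D.eta k' n).im = (vtx σ D.eta (k + 1) n).im := by linarith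
    have h5 : x.re = σ * n := by
      have := hx.c2
      rw [h3, sub_self, mul_zero] at this
      have := abs_eq_zero.1 (le_antisymm this (abs_nonneg _))
      linarith
    exact ⟨Complex.ext h5 h3,
      vtx_inj H D k' (k + 1) n hk'.1 (by omega) hk'.2 (by omega) hn.1.le hn.2.le h4⟩

/-- two different cut chains never meet -/
lemma cut_cut (H : Num Em σ τ δ K N r M) {D : Disc Em σ τ δ K N} {k n k' n' : ℤ} {x : ℂ}
    (hk : 0 ≤ k ∧ k < K) (hn : -N < n ∧ n < N) (hp : (k + n) % 2 = 1)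
    (hk' : 0 ≤ k' ∧ k' < K) (hp' : (k' + n') % 2 = 1)
    (hx : CutPt D k n x) (hx' : CutPt D k' n' x) (h : (k, n) ≠ (k', n')) : False := by
  have hσ := H.hσ
  obtain ⟨f1, f2, f3⟩ := cut_facts H hp hx
  obtain ⟨f1', f2', f3'⟩ := cut_facts H hp' hx'
  rw [abs_le] at f3 f3'
  have hnn : n = n' := by
    rcases lt_trichotomy n n' with h1 | h1 | h1
    · have : (n : ℝ) + 1 ≤ n' := by exact_mod_cast h1
      nlinarith
    · exact h1
    · have : (n' : ℝ) + 1 ≤ n := by exact_mod_cast h1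
      nlinarith
  subst hnn
  have hkk : k ≠ k' := fun h' => h (by rw [h'])
  rcases lt_or_gt_of_ne hkk with h1 | h1
  · have := vtx_lt H D (k + 1) k' n (by omega) (by omega) hk'.2.le hn.1.le hn.2.le
    linarith
  · have := vtx_lt H D (k' + 1) k n (by omega) (by omega) hk.2.le hn.1.le hn.2.le
    linarith

end PlanM

open PlanM

theorem specPlan (hC : SpecChain) (hL : SpecLeaf) (hCu : SpecCut) : SpecPlan := by
  intro Em σ τ δ K N r M H D
  obtain ⟨hL1, hlam⟩ := hL Em σ τ δ K N r M H D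
  have hCu1 := hCu Em σ τ δ K N r M H D
  have hσ := H.hσ
  refine ⟨fun k k' n h0 h1 h2 h3 h4 => vtx_lt H D k k' n h0 h1 h2 h3 h4, ?_⟩
  have leafPt : ∀ k n, 0 ≤ k → k ≤ K → -N ≤ n → n < N → ∀ i, i < 2 * M + 4 → ∀ x : ℂ,
      x ∈ segment ℝ (nL D r M k n i) (nL D r M k n (i + 1)) → LeafPt D r M k n x := by
    intro k n h1 h2 h3 h4 i hi x hx
    obtain ⟨c, -, -, s⟩ := hL1 k n h1 h2 h3 h4
    obtain ⟨a1, a2⟩ := leaf_re hC D k n c i hi x hx
    exact ⟨a1, a2, (s i hi x hx).1, (s i hi x hx).2⟩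
  have cutPt : ∀ k n, 0 ≤ k → k < K → -N < n → n < N → (k + n) % 2 = 1 → ∀ i, i < 2 * M + 4 →
      ∀ x : ℂ, x ∈ segment ℝ (nC D r M k n i) (nC D r M k n (i + 1)) → CutPt D k n x := by
    intro k n h1 h2 h3 h4 h5 i hi x hx
    obtain ⟨-, -, -, s⟩ := hCu1 k n h1 h2 h3 h4 h5
    exact ⟨(s i hi x hx).1, (s i hi x hx).2⟩
  have memL : ∀ p : EL K N, (0 ≤ p.1.1 ∧ p.1.1 ≤ K) ∧ (-N ≤ p.1.2 ∧ p.1.2 < N) := by
    intro p
    have := p.2
    rw [Finset.mem_product, Finset.mem_Icc, Finset.mem_Ico] at this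
    exact this
  have memC : ∀ p : EC K N, (0 ≤ p.1.1 ∧ p.1.1 < K) ∧ (-N < p.1.2 ∧ p.1.2 < N) ∧
      (p.1.1 + p.1.2) % 2 = 1 := by
    intro p
    have := p.2
    rw [Finset.mem_filter, Finset.mem_product, Finset.mem_Ico, Finset.mem_Ioo] at this
    exact ⟨this.1.1, this.1.2, this.2⟩
  -- leaf / leaf
  have LL : ∀ p p' : EL K N, p ≠ p' → ∀ i i', i < 2 * M + 4 → i' < 2 * M + 4 →
      ∀ x ∈ segment ℝ (nL D r M p.1.1 p.1.2 i) (nL D r M p.1.1 p.1.2 (i + 1)),
        x ∈ segment ℝ (nL D r M p'.1.1 p'.1.2 i') (nL D r M p'.1.1 p'.1.2 (i' + 1)) →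
        ∃ q : ℤ × ℤ, x = vtx σ D.eta q.1 q.2 ∧ (q = p.1 ∨ q = (p.1.1, p.1.2 + 1)) ∧
          (q = p'.1 ∨ q = (p'.1.1, p'.1.2 + 1)) := by
    intro p p' hpp i i' hi hi' x hx hx'
    obtain ⟨⟨k, n⟩, hp⟩ := p
    obtain ⟨⟨k', n'⟩, hp'⟩ := p'
    obtain ⟨hk, hn⟩ := memL ⟨(k, n), hp⟩
    obtain ⟨hk', hn'⟩ := memL ⟨(k', n'), hp'⟩
    simp only at hk hn hk' hn' hx hx' ⊢
    have P := leafPt k n hk.1 hk.2 hn.1 hn.2 i hi x hx
    have P' := leafPt k' n' hk'.1 hk'.2 hn'.1 hn'.2 i' hi' x hx'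
    rcases lt_trichotomy n n' with h | h | h
    · obtain ⟨e1, e2, e3⟩ := leaf_leaf_lt H hk hk' hn.1 hn'.2 P P' h
      exact ⟨(k, n + 1), e1, Or.inr rfl, Or.inl (by rw [e2, e3])⟩
    · subst h
      have hkk : k ≠ k' := by
        rintro rfl
        exact hpp rfl
      rcases lt_or_gt_of_ne hkk with h1 | h1
      · exact (leaf_same H D hlam k k' n hk.1 h1 hk'.2 hn.1 hn.2 i i' hi hi' x hx hx').elim
      · exact (leaf_same H D hlam k' k n hk'.1 h1 hk.2 hn.1 hn.2 i' i hi' hi x hx' hx).elim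
    · obtain ⟨e1, e2, e3⟩ := leaf_leaf_lt H hk' hk hn'.1 hn.2 P' P h
      exact ⟨(k', n' + 1), e1, Or.inl (by rw [e2, e3]), Or.inr rfl⟩
  -- leaf / cut
  have LC : ∀ (p : EL K N) (p' : EC K N), ∀ i i', i < 2 * M + 4 → i' < 2 * M + 4 →
      ∀ x ∈ segment ℝ (nL D r M p.1.1 p.1.2 i) (nL D r M p.1.1 p.1.2 (i + 1)),
        x ∈ segment ℝ (nC D r M p'.1.1 p'.1.2 i') (nC D r M p'.1.1 p'.1.2 (i' + 1)) →
        ∃ q : ℤ × ℤ, x = vtx σ D.eta q.1 q.2 ∧ (q = p.1 ∨ q = (p.1.1, p.1.2 + 1)) ∧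
          (q = p'.1 ∨ q = (p'.1.1 + 1, p'.1.2)) := by
    intro p p' i i' hi hi' x hx hx'
    obtain ⟨⟨k', n'⟩, hp⟩ := p
    obtain ⟨⟨k, n⟩, hp'⟩ := p'
    obtain ⟨hk', hn'⟩ := memL ⟨(k', n'), hp⟩
    obtain ⟨hk, hn, hpar⟩ := memC ⟨(k, n), hp'⟩
    simp only at hk hn hk' hn' hpar hx hx' ⊢
    have P := leafPt k' n' hk'.1 hk'.2 hn'.1 hn'.2 i hi x hx
    have P' := cutPt k n hk.1 hk.2 hn.1 hn.2 hpar i' hi' x hx'
    obtain ⟨hnn, hh⟩ := leaf_cut H hk hn hpar hk' P' P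
    rcases hh with ⟨e1, e2⟩ | ⟨e1, e2⟩
    · refine ⟨(k, n), e1, ?_, Or.inl rfl⟩
      rcases hnn with h | h
      · left; rw [e2, h]
      · right; rw [e2, h]
    · refine ⟨(k + 1, n), e1, ?_, Or.inr rfl⟩
      rcases hnn with h | h
      · left; rw [e2, h]
      · right; rw [e2, h]
  rintro (p | p) (p' | p') hne i i' hi hi' x hx hx'
  · exact LL p p' (fun h => hne (by rw [h])) i i' hi hi' x hx hx'
  · exact LC p p' i i' hi hi' x hx hx'
  · obtain ⟨q, e1, e2, e3⟩ := LC p' p i' i hi' hi x hx' hx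
    exact ⟨q, e1, e3, e2⟩
  · obtain ⟨hk, hn, hpar⟩ := memC p
    obtain ⟨hk', hn', hpar'⟩ := memC p'
    have P := cutPt _ _ hk.1 hk.2 hn.1 hn.2 hpar i hi x hx
    have P' := cutPt _ _ hk'.1 hk'.2 hn'.1 hn'.2 hpar' i' hi' x hx'
    refine (cut_cut H hk hn hpar hk' hpar' P P' ?_).elim
    intro h
    apply hne
    congr 1
    exact Subtype.ext h

end H
end MP1707
end

section
/-!
# MP_1707ab_an, n = 2, PART H, module RIEM (Riemann sums)
-/
set_option autoImplicit false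

open scoped Topology BigOperators Classical
open MeasureTheory

namespace MP1707
namespace H
namespace RiemM

/-- the box is compact -/
theorem isCompact_K (L : ℝ) : IsCompact (K L) := by
  have hc : IsClosed (K L) := by
    have h1 : IsClosed {z : ℂ | |z.re| ≤ L + 2} :=
      isClosed_le (continuous_abs.comp Complex.continuous_re) continuous_const
    have h2 : IsClosed {z : ℂ | 0 ≤ z.im} := isClosed_le continuous_const Complex.continuous_im
    have h3 : IsClosed {z : ℂ | z.im ≤ 1} := isClosed_le Complex.continuous_im continuous_const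
    exact h1.inter (h2.inter h3)
  refine Metric.isCompact_of_isClosed_isBounded hc ?_
  refine (Metric.isBounded_closedBall (x := (0 : ℂ)) (r := |L + 2| + 1)).subset ?_
  intro z hz
  rw [mem_closedBall_zero_iff]
  have h1 : |z.re| ≤ |L + 2| := hz.1.trans (le_abs_self _)
  have h2 : |z.im| ≤ 1 := abs_le.2 ⟨by linarith [hz.2.1], hz.2.2⟩
  exact (Complex.norm_le_abs_re_add_abs_im z).trans (by linarith)

/-- the cell with lower left corner `ζ(k,n)` -/
def cell (σ : ℝ) (p : ℤ × ℤ) : Set ℂ :=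
  {z | (σ * p.2 ≤ z.re ∧ z.re < σ * (p.2 + 1)) ∧
    (σ * p.1 / 2 + 1 / 32 ≤ z.im ∧ z.im < σ * (p.1 + 1) / 2 + 1 / 32)}

theorem cell_eq (σ : ℝ) (p : ℤ × ℤ) : cell σ p = Complex.measurableEquivRealProd ⁻¹'
    (Set.Ico (σ * p.2) (σ * (p.2 + 1)) ×ˢ
      Set.Ico (σ * p.1 / 2 + 1 / 32) (σ * (p.1 + 1) / 2 + 1 / 32)) := by
  ext z
  simp only [cell, Set.mem_ofPred_eq, Set.mem_preimage, Set.mem_prod, Set.mem_Ico,
    Complex.measurableEquivRealProd_apply]

theorem measurableSet_cell (σ : ℝ) (p : ℤ × ℤ) : MeasurableSet (cell σ p) := by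
  rw [cell_eq]
  exact Complex.measurableEquivRealProd.measurable (measurableSet_Ico.prod measurableSet_Ico)

theorem volume_cell {σ : ℝ} (hσ : 0 < σ) (p : ℤ × ℤ) :
    volume.real (cell σ p) = σ ^ 2 / 2 := by
  rw [Measure.real, cell_eq, Complex.volume_preserving_equiv_real_prod.measure_preimage
    (measurableSet_Ico.prod measurableSet_Ico).nullMeasurableSet, Measure.volume_eq_prod,
    Measure.prod_prod, Real.volume_Ico, Real.volume_Ico, ENNReal.toReal_mul,
    ENNReal.toReal_ofReal (by nlinarith), ENNReal.toReal_ofReal (by nlinarith)]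
  ring

theorem disjoint_cell {σ : ℝ} (hσ : 0 < σ) {p q : ℤ × ℤ} (hpq : p ≠ q) :
    Disjoint (cell σ p) (cell σ q) := by
  rw [Set.disjoint_left]
  rintro z ⟨⟨h1, h2⟩, h3, h4⟩ ⟨⟨h5, h6⟩, h7, h8⟩
  have key : ∀ a b : ℤ, σ * a < σ * (b + 1) → a ≤ b := by
    intro a b h
    have h' : (a : ℝ) < b + 1 := lt_of_mul_lt_mul_left h hσ.le
    have : (a : ℝ) < ((b + 1 : ℤ) : ℝ) := by push_cast; exact h'
    exact Int.lt_add_one_iff.1 (by exact_mod_cast this)
  apply hpq
  ext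
  · exact le_antisymm (key _ _ (by linarith)) (key _ _ (by linarith))
  · exact le_antisymm (key _ _ (by linarith)) (key _ _ (by linarith))

theorem dist_cell {σ : ℝ} (hσ : 0 < σ) (p : ℤ × ℤ) {z : ℂ} (hz : z ∈ cell σ p) :
    ‖zt σ p.1 p.2 - z‖ ≤ 2 * σ := by
  obtain ⟨⟨h1, h2⟩, h3, h4⟩ := hz
  refine (Complex.norm_le_abs_re_add_abs_im _).trans ?_
  have e1 : (zt σ p.1 p.2 - z).re = σ * p.2 - z.re := by simp [zt]
  have e2 : (zt σ p.1 p.2 - z).im = σ * p.1 / 2 + 1 / 32 - z.im := by simp [zt]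
  have h5 : |(zt σ p.1 p.2 - z).re| ≤ σ := by
    rw [e1, abs_le]
    constructor <;> linarith
  have h6 : |(zt σ p.1 p.2 - z).im| ≤ σ := by
    rw [e2, abs_le]
    constructor <;> linarith
  linarith

theorem cell_subset {L σ : ℝ} {K' N : ℤ} (hσ : 0 < σ) (hσ1 : σ ≤ 1 / 16)
    (hK : σ * K' ≤ 15 / 8) (hN : σ * N ≤ L + 1) {p : ℤ × ℤ} (h1 : 0 ≤ p.1) (h2 : p.1 ≤ K')
    (h3 : -N ≤ p.2) (h4 : p.2 ≤ N) : cell σ p ⊆ K L := by
  rintro z ⟨⟨g1, g2⟩, g3, g4⟩
  have e1 : (0 : ℝ) ≤ p.1 := by exact_mod_cast h1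
  have e2 : (p.1 : ℝ) ≤ K' := by exact_mod_cast h2
  have e3 : -(N : ℝ) ≤ p.2 := by exact_mod_cast h3
  have e4 : (p.2 : ℝ) ≤ N := by exact_mod_cast h4
  have f1 : 0 ≤ σ * (p.1 : ℝ) := mul_nonneg hσ.le e1
  have f2 : σ * (p.1 : ℝ) ≤ σ * K' := mul_le_mul_of_nonneg_left e2 hσ.le
  have f3 : σ * (-(N : ℝ)) ≤ σ * p.2 := mul_le_mul_of_nonneg_left e3 hσ.le
  have f4 : σ * (p.2 : ℝ) ≤ σ * N := mul_le_mul_of_nonneg_left e4 hσ.le
  refine ⟨abs_le.2 ⟨by linarith, by linarith⟩, by linarith, by linarith⟩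

end RiemM

open RiemM

/-- H-RIEM -/
theorem specRiem : SpecRiem := by
  intro L g hL hg hg0 ε hε
  have hKc := RiemM.isCompact_K L
  set m := volume.real (K L) with hm
  have hm0 : 0 ≤ m := measureReal_nonneg
  set e := ε / (m + 1) with he
  have he0 : 0 < e := by positivity
  have huc := (RiemM.isCompact_K L).uniformContinuousOn_of_continuous hg.continuousOn
  rw [Metric.uniformContinuousOn_iff_le] at huc
  obtain ⟨ρ, hρ, huc⟩ := huc e he0
  refine ⟨min (1 / 16) (ρ / 2), by positivity, ?_⟩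
  intro σ K' N hσ hσ0 hK0 hK hN0 hN
  have hσ1 : σ ≤ 1 / 16 := hσ0.trans (min_le_left _ _)
  have hσ2 : 2 * σ ≤ ρ := by
    have := hσ0.trans (min_le_right _ _)
    linarith
  have hsub : ∀ p ∈ Finset.Icc 0 K' ×ˢ Finset.Icc (-N) N, cell σ p ⊆ K L := by
    intro p hp
    rw [Finset.mem_product, Finset.mem_Icc, Finset.mem_Icc] at hp
    exact cell_subset hσ hσ1 hK hN hp.1.1 hp.1.2 hp.2.1 hp.2.2
  have hcont : Continuous (fun z => g z + e) := hg.add continuous_const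
  have hint : IntegrableOn (fun z => g z + e) (K L) := hcont.continuousOn.integrableOn_compact hKc
  have hztK : ∀ p ∈ Finset.Icc 0 K' ×ˢ Finset.Icc (-N) N, zt σ p.1 p.2 ∈ K L := by
    intro p hp
    refine hsub p hp ?_
    refine ⟨⟨le_rfl, ?_⟩, le_rfl, ?_⟩
    · change σ * (p.2 : ℝ) < σ * (p.2 + 1)
      nlinarith
    · change σ * (p.1 : ℝ) / 2 + 1 / 32 < σ * (p.1 + 1) / 2 + 1 / 32
      nlinarith
  have hcell : ∀ p ∈ Finset.Icc 0 K' ×ˢ Finset.Icc (-N) N,
      σ ^ 2 / 2 * g (zt σ p.1 p.2) ≤ ∫ z in cell σ p, (g z + e) := by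
    intro p hp
    have h1 : ∫ _z in cell σ p, g (zt σ p.1 p.2) = σ ^ 2 / 2 * g (zt σ p.1 p.2) := by
      rw [setIntegral_const, volume_cell hσ, smul_eq_mul]
    rw [← h1]
    refine setIntegral_mono_on ?_ (hint.mono_set (hsub p hp)) (measurableSet_cell σ p) ?_
    · refine integrableOn_const ?_
      have : volume (cell σ p) ≤ volume (K L) := measure_mono (hsub p hp)
      exact (this.trans_lt hKc.measure_lt_top).ne
    · intro z hz
      have h2 := huc (zt σ p.1 p.2) (hztK p hp) z (hsub p hp hz)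
        (by rw [dist_eq_norm]; exact (dist_cell hσ p hz).trans hσ2)
      rw [Real.dist_eq] at h2
      have := (abs_le.1 h2).2
      linarith
  calc ∑ k ∈ Finset.Icc 0 K', ∑ n ∈ Finset.Icc (-N) N, σ ^ 2 / 2 * g (zt σ k n)
      = ∑ p ∈ Finset.Icc 0 K' ×ˢ Finset.Icc (-N) N, σ ^ 2 / 2 * g (zt σ p.1 p.2) := by
        rw [Finset.sum_product]
    _ ≤ ∑ p ∈ Finset.Icc 0 K' ×ˢ Finset.Icc (-N) N, ∫ z in cell σ p, (g z + e) :=
        Finset.sum_le_sum hcell
    _ = ∫ z in ⋃ p ∈ Finset.Icc 0 K' ×ˢ Finset.Icc (-N) N, cell σ p, (g z + e) := by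
        rw [integral_biUnion_finset]
        · exact fun p _ => measurableSet_cell σ p
        · exact fun p _ q _ hpq => disjoint_cell hσ hpq
        · exact fun p hp => hint.mono_set (hsub p hp)
    _ ≤ ∫ z in K L, (g z + e) := by
        refine setIntegral_mono_set hint ?_ ?_
        · exact Filter.Eventually.of_forall fun z => by
            change 0 ≤ g z + e
            have := hg0 z
            linarith
        · exact (Set.iUnion₂_subset hsub).eventuallyLE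
    _ = (∫ z in K L, g z) + e * m := by
        rw [integral_add (hg.continuousOn.integrableOn_compact hKc)
          (integrableOn_const hKc.measure_lt_top.ne), setIntegral_const, smul_eq_mul, mul_comm]
    _ ≤ (∫ z in K L, g z) + ε := by
        have : e * m ≤ ε := by
          rw [he, div_mul_eq_mul_div, div_le_iff₀ (by positivity)]
          nlinarith
        linarith

end H
end MP1707
end

section
/-! # MP_1707ab_an, n = 2, modules H-TELE and H-KIR -/
set_option autoImplicit false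

open scoped Topology BigOperators Classical

namespace MP1707
namespace H

namespace TeleM

theorem tele (g : ℤ → ℂ) (n : ℤ) (hn : 0 ≤ n) :
    ∑ k ∈ Finset.Icc 0 n, (g k - g (k - 1)) = g n - g (-1) := by
  induction n, hn using Int.leInduction with
  | base => simp
  | succ m hm ih =>
    have h1 : Finset.Icc (0 : ℤ) (m + 1) = insert (m + 1) (Finset.Icc 0 m) := by
      ext x
      simp only [Finset.mem_Icc, Finset.mem_insert]
      omega
    rw [h1, Finset.sum_insert (by simp), ih]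
    ring_nf

end TeleM

theorem specTele : SpecTele := by
  intro K g y t hK hy
  refine ⟨TeleM.tele g K hK, ?_⟩
  set s := (Finset.Icc (0 : ℤ) K).filter (fun k => y k ≤ t) with hs
  rcases s.eq_empty_or_nonempty with he | hne
  · left
    refine Finset.sum_eq_zero fun k hk => if_neg fun hkt => ?_
    have : k ∈ s := by
      rw [hs, Finset.mem_filter]
      exact ⟨hk, hkt⟩
    rw [he] at this
    exact absurd this (Finset.notMem_empty k)
  · right
    set m := s.max' hne with hm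
    have hms : m ∈ s := s.max'_mem hne
    rw [hs, Finset.mem_filter, Finset.mem_Icc] at hms
    obtain ⟨⟨hm0, hmK⟩, hmt⟩ := hms
    have hiff : ∀ k, 0 ≤ k → k ≤ K → (y k ≤ t ↔ k ≤ m) := by
      intro k hk hkK
      constructor
      · intro hkt
        refine s.le_max' k ?_
        rw [hs, Finset.mem_filter, Finset.mem_Icc]
        exact ⟨⟨hk, hkK⟩, hkt⟩
      · intro hkm
        rcases hkm.lt_or_eq with h | h
        · exact (hy k m hk h hmK).le.trans hmt
        · rw [h]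
          exact hmt
    have hsum : ∑ k ∈ Finset.Icc 0 K, (if y k ≤ t then g k - g (k - 1) else 0) =
        g m - g (-1) := by
      rw [← TeleM.tele g m hm0, ← Finset.sum_filter]
      refine Finset.sum_congr ?_ fun _ _ => rfl
      ext k
      simp only [Finset.mem_filter, Finset.mem_Icc]
      constructor
      · rintro ⟨⟨h1, h2⟩, h3⟩
        exact ⟨h1, (hiff k h1 h2).1 h3⟩
      · rintro ⟨h1, h2⟩
        exact ⟨⟨h1, h2.trans hmK⟩, (hiff k h1 (h2.trans hmK)).2 h2⟩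
    rcases hmK.lt_or_eq with h | h
    · right
      refine ⟨m, hm0, h, hmt, ?_, hsum⟩
      by_contra hcon
      have := (hiff (m + 1) (by omega) (by omega)).1 (not_le.1 hcon).le
      omega
    · left
      rw [hsum, h]

namespace KirM

theorem one {s : Finset (ℤ × ℤ)} {f : ℤ × ℤ → ℂ} {c : ℤ × ℤ → Prop} {q : ℤ × ℤ}
    (hq : ∀ p ∈ s, c p → p = q) (hc : c q) :
    ∑ p ∈ s, (if c p then f p else 0) = if q ∈ s then f q else 0 := by
  by_cases h : q ∈ s
  · rw [if_pos h, Finset.sum_eq_single q, if_pos hc]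
    · intro p hp hpq
      exact if_neg fun h1 => hpq (hq p hp h1)
    · intro h1
      exact absurd h h1
  · rw [if_neg h]
    refine Finset.sum_eq_zero fun p hp => if_neg fun h1 => h ?_
    rw [← hq p hp h1]
    exact hp

theorem sumEL {K N : ℤ} (F : ℤ × ℤ → ℂ) :
    ∑ p : EL K N, F p.1 = ∑ p ∈ (Finset.Icc (0 : ℤ) K ×ˢ Finset.Ico (-N) N), F p :=
  Finset.sum_coe_sort _ F

theorem sumEC {K N : ℤ} (F : ℤ × ℤ → ℂ) :
    ∑ p : EC K N, F p.1 =
      ∑ p ∈ ((Finset.Ico (0 : ℤ) K ×ˢ Finset.Ioo (-N) N).filter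
        (fun p => (p.1 + p.2) % 2 = 1)), F p :=
  Finset.sum_coe_sort _ F

end KirM

open KirM in
theorem specKir : SpecKir := by
  intro K N X v a w hK hN par neg top inj hX P hP
  rw [sumEL (fun p => if v p.1 p.2 = P then a p.1 p.2 - a (p.1 - 1) p.2 else 0),
    sumEC (fun p => if v p.1 p.2 = P then a p.1 (p.2 - 1) - a p.1 p.2 else 0),
    sumEL (fun p => if v p.1 (p.2 + 1) = P then a p.1 p.2 - a (p.1 - 1) p.2 else 0),
    sumEC (fun p => if v (p.1 + 1) p.2 = P then a p.1 (p.2 - 1) - a p.1 p.2 else 0)]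
  by_cases hex : ∃ k n, 0 ≤ k ∧ k ≤ K ∧ -N ≤ n ∧ n ≤ N ∧ v k n = P
  · obtain ⟨k₀, n₀, h1, h2, h3, h4, h5⟩ := hex
    have h6 := hX k₀ n₀ h1 h2 h3 h4 (by rw [h5]; exact hP)
    have huniq : ∀ k n, 0 ≤ k → k ≤ K → -N ≤ n → n ≤ N → v k n = P → k = k₀ ∧ n = n₀ :=
      fun k n g1 g2 g3 g4 g5 => inj k n k₀ n₀ g1 g2 g3 g4 h1 h2 h3 h4 (g5.trans h5.symm)
    rw [one (q := (k₀, n₀)) (f := fun p => a p.1 p.2 - a (p.1 - 1) p.2)
        (c := fun p => v p.1 p.2 = P) (fun p hp hc => by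
          simp only [Finset.mem_product, Finset.mem_Icc, Finset.mem_Ico] at hp
          obtain ⟨g1, g2⟩ := huniq p.1 p.2 (by omega) (by omega) (by omega) (by omega) hc
          exact Prod.ext g1 g2) h5,
      one (q := (k₀, n₀)) (f := fun p => a p.1 (p.2 - 1) - a p.1 p.2)
        (c := fun p => v p.1 p.2 = P) (fun p hp hc => by
          simp only [Finset.mem_filter, Finset.mem_product, Finset.mem_Ioo, Finset.mem_Ico] at hp
          obtain ⟨g1, g2⟩ := huniq p.1 p.2 (by omega) (by omega) (by omega) (by omega) hc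
          exact Prod.ext g1 g2) h5,
      one (q := (k₀, n₀ - 1)) (f := fun p => a p.1 p.2 - a (p.1 - 1) p.2)
        (c := fun p => v p.1 (p.2 + 1) = P) (fun p hp hc => by
          simp only [Finset.mem_product, Finset.mem_Icc, Finset.mem_Ico] at hp
          obtain ⟨g1, g2⟩ := huniq p.1 (p.2 + 1) (by omega) (by omega) (by omega) (by omega) hc
          exact Prod.ext g1 (by simp only; omega)) (by simpa using h5),
      one (q := (k₀ - 1, n₀)) (f := fun p => a p.1 (p.2 - 1) - a p.1 p.2)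
        (c := fun p => v (p.1 + 1) p.2 = P) (fun p hp hc => by
          simp only [Finset.mem_filter, Finset.mem_product, Finset.mem_Ioo, Finset.mem_Ico] at hp
          obtain ⟨g1, g2⟩ := huniq (p.1 + 1) p.2 (by omega) (by omega) (by omega) (by omega) hc
          exact Prod.ext (by simp only; omega) g2) (by simpa using h5)]
    simp only [Finset.mem_filter, Finset.mem_product, Finset.mem_Ioo, Finset.mem_Ico,
      Finset.mem_Icc]
    have c1 : (0 ≤ k₀ ∧ k₀ ≤ K) ∧ -N ≤ n₀ ∧ n₀ < N := by omega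
    have c3 : (0 ≤ k₀ ∧ k₀ ≤ K) ∧ -N ≤ n₀ - 1 ∧ n₀ - 1 < N := by omega
    rw [if_pos c1, if_pos c3]
    rcases Int.emod_two_eq_zero_or_one (k₀ + n₀) with hpar | hpar
    · have c2 : ¬ (((0 ≤ k₀ ∧ k₀ < K) ∧ -N < n₀ ∧ n₀ < N) ∧ (k₀ + n₀) % 2 = 1) := by omega
      rw [if_neg c2, par k₀ n₀ hpar]
      by_cases hk : 1 ≤ k₀
      · have c4 : ((0 ≤ k₀ - 1 ∧ k₀ - 1 < K) ∧ -N < n₀ ∧ n₀ < N) ∧ (k₀ - 1 + n₀) % 2 = 1 := by
          omega
        rw [if_pos c4]
        ring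
      · have c4 : ¬ (((0 ≤ k₀ - 1 ∧ k₀ - 1 < K) ∧ -N < n₀ ∧ n₀ < N) ∧
            (k₀ - 1 + n₀) % 2 = 1) := by omega
        rw [if_neg c4, neg (k₀ - 1) n₀ (by omega), neg (k₀ - 1) (n₀ - 1) (by omega)]
    · have c4 : ¬ (((0 ≤ k₀ - 1 ∧ k₀ - 1 < K) ∧ -N < n₀ ∧ n₀ < N) ∧
          (k₀ - 1 + n₀) % 2 = 1) := by omega
      rw [if_neg c4, par (k₀ - 1) n₀ (by omega)]
      by_cases hk : k₀ < K
      · have c2 : ((0 ≤ k₀ ∧ k₀ < K) ∧ -N < n₀ ∧ n₀ < N) ∧ (k₀ + n₀) % 2 = 1 := by omega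
        rw [if_pos c2]
        ring
      · have c2 : ¬ (((0 ≤ k₀ ∧ k₀ < K) ∧ -N < n₀ ∧ n₀ < N) ∧ (k₀ + n₀) % 2 = 1) := by omega
        rw [if_neg c2, top k₀ n₀ (by omega), top k₀ (n₀ - 1) (by omega)]
  · have hz : ∀ k n, 0 ≤ k → k ≤ K → -N ≤ n → n ≤ N → v k n ≠ P :=
      fun k n g1 g2 g3 g4 g5 => hex ⟨k, n, g1, g2, g3, g4, g5⟩
    rw [Finset.sum_eq_zero (fun p hp => if_neg (by
        simp only [Finset.mem_product, Finset.mem_Icc, Finset.mem_Ico] at hp
        exact hz _ _ (by omega) (by omega) (by omega) (by omega))),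
      Finset.sum_eq_zero (fun p hp => if_neg (by
        simp only [Finset.mem_filter, Finset.mem_product, Finset.mem_Ioo, Finset.mem_Ico] at hp
        exact hz _ _ (by omega) (by omega) (by omega) (by omega))),
      Finset.sum_eq_zero (fun p hp => if_neg (by
        simp only [Finset.mem_product, Finset.mem_Icc, Finset.mem_Ico] at hp
        exact hz _ _ (by omega) (by omega) (by omega) (by omega))),
      Finset.sum_eq_zero (fun p hp => if_neg (by
        simp only [Finset.mem_filter, Finset.mem_product, Finset.mem_Ioo, Finset.mem_Ico] at hp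
        exact hz _ _ (by omega) (by omega) (by omega) (by omega)))]

end H
end MP1707
end
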