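import Pool.Agent.Lib.MP_1707ab_an.N2.SpecH

/-!
# MP_1707ab_an, n = 2, Part H: DISC (macroscopic fields give discrete data)
-/

set_option autoImplicit false
set_option linter.unusedSectionVars false

open scoped Topology BigOperators Classical
open MeasureTheory

namespace MP1707
namespace H
namespace DiscM

variable {L δ : ℝ}

/-- all the choices of the construction -/
structure Ctx (Φ : Fields L δ) (Em p0 ρ ε σ τ : ℝ) (Q N : ℤ) : Prop where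
  hL1 : 1 ≤ L
  hδ : 0 < δ
  hδ1 : δ ≤ 1
  hEm : 3 ≤ Em
  hE : ∀ z ∈ K L, etaF Φ z ≤ Em
  hp0 : 0 < p0
  hε : 0 < ε
  hε1 : ε ≤ 1 / 4000
  hετ : 40 * ε * Em ≤ τ
  hσ : 0 < σ
  hσE : σ * Em ≤ 1 / 1000
  hσρ : 50 * Em * σ < ρ
  hρ : ρ ≤ 1 / 100
  loc : Loc Φ p0 ρ ε
  ty : ∀ z ∈ K L, DifferentiableOn ℂ Φ.V (Metric.ball z ρ) ∨
    ∃ f0 k0 : ℂ, ∀ ζ ∈ Metric.ball z ρ, Φ.F ζ = f0 ∧ Φ.c ζ = f0 * dz Φ.V ζ + k0
  hQ : 1 ≤ Q
  hσQ : σ * Q ≤ 15 / 8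
  hσQ' : 15 / 8 - σ ≤ σ * Q
  hN : 1 ≤ N
  hLN : L ≤ σ * N
  hNL : σ * N ≤ L + 1
  hbd : ∀ z ∈ K L, (‖dz Φ.V z‖ + ppF Φ p0 z) * (4 * Em * σ) ≤ δ

/-! ### the data -/

/-- index of the tile of ribbon `k` in column `n` -/
def mm (k n : ℤ) : ℤ := if (k + n) % 2 = 0 then n else n + 1

section defs

variable (Φ : Fields L δ) (p0 ρ σ : ℝ) (Q : ℤ)

noncomputable def aa (k n : ℤ) : ℂ :=
  if k < 0 then 0 else if Q ≤ k then 0 else ta Φ p0 (zt σ k (mm k n)) (mm k n)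

noncomputable def bb (k n : ℤ) : ℂ :=
  if k < 0 then 0 else if Q ≤ k then 0 else tb Φ p0 σ (zt σ k (mm k n)) (mm k n)

noncomputable def cc (k n : ℤ) : ℂ :=
  if k < 0 then 0 else if Q ≤ k then 1 else tc Φ p0 (zt σ k (mm k n)) (mm k n)

noncomputable def et (k n : ℤ) : ℝ := etaF Φ (zt σ k n)

noncomputable def vv (k n : ℤ) : ℂ := vtx σ (et Φ σ) k n

/-- type N -/
def TN (z : ℂ) : Prop := ∃ f0 k0 : ℂ, ∀ ζ ∈ Metric.ball z ρ, Φ.F ζ = f0 ∧ Φ.c ζ = f0 * dz Φ.V ζ + k0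

def gL (k n : ℤ) : Prop := ¬ (TN Φ ρ (vv Φ σ k n) ∧ TN Φ ρ (vv Φ σ k (n + 1)))

def gC (k n : ℤ) : Prop := ¬ (TN Φ ρ (vv Φ σ k n) ∧ TN Φ ρ (vv Φ σ (k + 1) n))

noncomputable def dLa (k n : ℤ) : ℂ := aa Φ p0 σ Q k n - aa Φ p0 σ Q (k - 1) n
noncomputable def dLb (k n : ℤ) : ℂ := bb Φ p0 σ Q k n - bb Φ p0 σ Q (k - 1) n
noncomputable def dLc (k n : ℤ) : ℂ := cc Φ p0 σ Q k n - cc Φ p0 σ Q (k - 1) n
noncomputable def dCa (k n : ℤ) : ℂ := aa Φ p0 σ Q k (n - 1) - aa Φ p0 σ Q k n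
noncomputable def dCb (k n : ℤ) : ℂ := bb Φ p0 σ Q k (n - 1) - bb Φ p0 σ Q k n
noncomputable def dCc (k n : ℤ) : ℂ := cc Φ p0 σ Q k (n - 1) - cc Φ p0 σ Q k n

noncomputable def hL (k n : ℤ) : ℂ :=
  if gL Φ ρ σ k n then -(dLb Φ p0 σ Q k n) / dLa Φ p0 σ Q k n else hrL σ (et Φ σ) k n

noncomputable def fL (k n : ℤ) : ℂ :=
  if gL Φ ρ σ k n then dLc Φ p0 σ Q k n / dLa Φ p0 σ Q k n else Φ.F (vv Φ σ k n)

noncomputable def hC (k n : ℤ) : ℂ :=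
  if gC Φ ρ σ k n then -(dCb Φ p0 σ Q k n) / dCa Φ p0 σ Q k n else hrC σ (et Φ σ) k n

noncomputable def fC (k n : ℤ) : ℂ :=
  if gC Φ ρ σ k n then dCc Φ p0 σ Q k n / dCa Φ p0 σ Q k n else Φ.F (vv Φ σ k n)

noncomputable def j1 (k n : ℤ) : ℂ :=
  if TN Φ ρ (vv Φ σ k n) then 0 else
    (fL Φ p0 ρ σ Q k n - fL Φ p0 ρ σ Q k (n - 1)) / (hL Φ p0 ρ σ Q k n - hL Φ p0 ρ σ Q k (n - 1))

noncomputable def j0 (k n : ℤ) : ℂ :=
  if TN Φ ρ (vv Φ σ k n) then Φ.F (vv Φ σ k n) else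
    fL Φ p0 ρ σ Q k n + j1 Φ p0 ρ σ Q k n * (vv Φ σ k n - hL Φ p0 ρ σ Q k n)

end defs

/-- what EDGE gives for leaf edges -/
structure EdgeL (Φ : Fields L δ) (p0 ε σ : ℝ) (Q k n : ℤ) : Prop where
  bd : ∀ x : ℂ, ‖x - zt σ k n‖ ≤ 3 * et Φ σ k n * σ → ‖dLa Φ p0 σ Q k n * x + dLb Φ p0 σ Q k n‖ ≤
    σ * (2 * ‖dzb Φ.V (zt σ k n)‖ + 10 * ppF Φ p0 (zt σ k n) * et Φ σ k n)
  ne : dzb Φ.V (zt σ k n) = 0 → dLa Φ p0 σ Q k n ≠ 0
  hh : dzb Φ.V (zt σ k n) = 0 → ∀ h : ℂ, dLa Φ p0 σ Q k n * h + dLb Φ p0 σ Q k n = 0 →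
    ‖h - hrL σ (et Φ σ) k n‖ ≤ 40 * ε * et Φ σ k n * σ
  ff : dzb Φ.V (zt σ k n) = 0 → ∀ f : ℂ, f * dLa Φ p0 σ Q k n = dLc Φ p0 σ Q k n →
    ‖f - Φ.F (zt σ k (mm k n))‖ ≤ et Φ σ k n / 40 * (6 / 5 * σ) ∧
    ‖f - Φ.F (zt σ (k - 1) (mm (k - 1) n))‖ ≤ et Φ σ k n / 40 * (6 / 5 * σ)

/-- what EDGE gives for cut edges -/
structure EdgeC (Φ : Fields L δ) (p0 ε σ : ℝ) (Q k n : ℤ) : Prop where
  bd : ∀ x : ℂ, ‖x - zt σ k n‖ ≤ 3 * et Φ σ k n * σ → ‖dCa Φ p0 σ Q k n * x + dCb Φ p0 σ Q k n‖ ≤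
    σ * (2 * ‖dzb Φ.V (zt σ k n)‖ + 10 * ppF Φ p0 (zt σ k n) * et Φ σ k n)
  ne : dzb Φ.V (zt σ k n) = 0 → dCa Φ p0 σ Q k n ≠ 0
  hh : dzb Φ.V (zt σ k n) = 0 → ∀ h : ℂ, dCa Φ p0 σ Q k n * h + dCb Φ p0 σ Q k n = 0 →
    ‖h - hrC σ (et Φ σ) k n‖ ≤ 40 * ε * et Φ σ k n * σ

/-! ### elementary facts -/

theorem norm_le_re_im (z : ℂ) {a b : ℝ} (ha : |z.re| ≤ a) (hb : |z.im| ≤ b) : ‖z‖ ≤ a + b :=
  (Complex.norm_le_abs_re_add_abs_im z).trans (add_le_add ha hb)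

theorem eta_ge (Φ : Fields L δ) (z : ℂ) : 3 ≤ etaF Φ z := by
  unfold etaF; have := norm_nonneg (fderiv ℝ Φ.F z); linarith

theorem pp_ge (Φ : Fields L δ) (p0 : ℝ) (z : ℂ) : p0 ≤ ppF Φ p0 z := by
  unfold ppF
  have h1 := eta_ge Φ z
  have h2 := norm_nonneg (om Φ.V Φ.c Φ.F z)
  have : 0 ≤ 200 * ‖om Φ.V Φ.c Φ.F z‖ / etaF Φ z := by positivity
  linarith

theorem mm_even {k n : ℤ} (h : (k + n) % 2 = 0) : mm k n = n := by simp [mm, h]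

theorem mm_odd {k n : ℤ} (h : (k + n) % 2 = 1) : mm k n = n + 1 := by simp [mm, h]

theorem mm_bd (k n : ℤ) : n ≤ mm k n ∧ mm k n ≤ n + 1 := by
  unfold mm; split_ifs <;> constructor <;> omega

variable {Φ : Fields L δ} {Em p0 ρ ε σ τ : ℝ} {Q N : ℤ}

namespace Ctx

variable (X : Ctx Φ Em p0 ρ ε σ τ Q N)

include X

theorem ρpos : 0 < ρ := lt_trans (by have := X.hEm; have := X.hσ; positivity) X.hσρ

theorem σ_le : σ ≤ 1 / 3000 := by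
  have h1 := X.hσE; have h2 := X.hEm; have h3 := X.hσ
  nlinarith

theorem zt_re (k n : ℤ) : (zt σ k n).re = σ * n := rfl
theorem zt_im (k n : ℤ) : (zt σ k n).im = σ * k / 2 + 1 / 32 := rfl

theorem zt_mem {k n : ℤ} (hk : -1 ≤ k) (hk' : k ≤ Q + 1) (hn : -N - 1 ≤ n) (hn' : n ≤ N + 1) :
    zt σ k n ∈ K L := by
  have hσ := X.hσ
  have hσ1 := X.σ_le
  have h1 : (-1 : ℝ) ≤ k := by exact_mod_cast hk
  have h2 : (k : ℝ) ≤ Q + 1 := by exact_mod_cast hk'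
  have h3 : -(N : ℝ) - 1 ≤ n := by exact_mod_cast hn
  have h4 : (n : ℝ) ≤ N + 1 := by exact_mod_cast hn'
  have h5 := X.hσQ
  have h6 := X.hNL
  refine ⟨?_, ?_, ?_⟩
  · show |σ * n| ≤ L + 2
    rw [abs_le]; constructor <;> nlinarith
  · show 0 ≤ σ * k / 2 + 1 / 32
    nlinarith
  · show σ * k / 2 + 1 / 32 ≤ 1
    nlinarith

theorem et_ge (k n : ℤ) : 3 ≤ et Φ σ k n := eta_ge Φ _

theorem et_le {k n : ℤ} (hk : -1 ≤ k) (hk' : k ≤ Q + 1) (hn : -N - 1 ≤ n) (hn' : n ≤ N + 1) :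
    et Φ σ k n ≤ Em := X.hE _ (X.zt_mem hk hk' hn hn')

theorem vv_re (k n : ℤ) : (vv Φ σ k n).re = σ * n := rfl

theorem vv_im (k n : ℤ) : (vv Φ σ k n).im = σ * k / 2 + 1 / 32 - σ / 4 +
    (if n % 2 = 0 then σ * et Φ σ (if (k + n) % 2 = 0 then k - 1 else k) n else 0) := rfl

theorem vv_im_bd {k n : ℤ} (hk : 0 ≤ k) (hk' : k ≤ Q) (hn : -N - 1 ≤ n) (hn' : n ≤ N + 1) :
    σ * k / 2 + 1 / 32 - σ / 4 ≤ (vv Φ σ k n).im ∧
      (vv Φ σ k n).im ≤ σ * k / 2 + 1 / 32 - σ / 4 + σ * Em := by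
  rw [X.vv_im]
  have hσ := X.hσ
  have hEm := X.hEm
  split_ifs with h1 h2
  · have h3 := X.et_ge (k - 1) n
    have h4 := X.et_le (k := k - 1) (n := n) (by omega) (by omega) hn hn'
    constructor
    · have : 0 ≤ σ * et Φ σ (k - 1) n := by positivity
      linarith
    · have : σ * et Φ σ (k - 1) n ≤ σ * Em := by gcongr
      linarith
  · have h3 := X.et_ge k n
    have h4 := X.et_le (k := k) (n := n) (by omega) (by omega) hn hn'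
    constructor
    · have : 0 ≤ σ * et Φ σ k n := by positivity
      linarith
    · have : σ * et Φ σ k n ≤ σ * Em := by gcongr
      linarith
  · constructor
    · linarith
    · have : 0 ≤ σ * Em := by positivity
      linarith

theorem zt_dist (k n k' n' : ℤ) :
    ‖zt σ k' n' - zt σ k n‖ ≤ σ * |(n' : ℝ) - n| + σ * |(k' : ℝ) - k| / 2 := by
  have hσ := X.hσ
  apply norm_le_re_im
  · show |σ * n' - σ * n| ≤ _
    rw [← mul_sub, abs_mul, abs_of_pos hσ]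
  · show |(σ * k' / 2 + 1 / 32) - (σ * k / 2 + 1 / 32)| ≤ _
    have : (σ * k' / 2 + 1 / 32) - (σ * k / 2 + 1 / 32) = σ * ((k' : ℝ) - k) / 2 := by ring
    rw [this, abs_div, abs_mul, abs_of_pos hσ, abs_of_pos (two_pos : (0:ℝ) < 2)]

theorem vv_zt {k n : ℤ} (hk : 0 ≤ k) (hk' : k ≤ Q) (hn : -N - 1 ≤ n) (hn' : n ≤ N + 1) :
    ‖vv Φ σ k n - zt σ k n‖ ≤ Em * σ := by
  have h1 := X.vv_im_bd hk hk' hn hn'
  have hσ := X.hσ
  have hEm := X.hEm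
  have h2 : |(vv Φ σ k n - zt σ k n).re| ≤ 0 := by
    simp [X.vv_re, X.zt_re]
  have h3 : |(vv Φ σ k n - zt σ k n).im| ≤ Em * σ := by
    rw [Complex.sub_im, X.zt_im, abs_le]
    constructor <;> nlinarith [h1.1, h1.2]
  have := norm_le_re_im _ h2 h3
  linarith

theorem vv_mem {k n : ℤ} (hk : 0 ≤ k) (hk' : k ≤ Q) (hn : -N - 1 ≤ n) (hn' : n ≤ N + 1) :
    vv Φ σ k n ∈ K L := by
  have h1 := X.vv_im_bd hk hk' hn hn'
  have hσ := X.hσ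
  have hσ1 := X.σ_le
  have hσE := X.hσE
  have g2 : (k : ℝ) ≤ Q := by exact_mod_cast hk'
  have g1 : (0 : ℝ) ≤ k := by exact_mod_cast hk
  have g5 := X.hσQ
  have g6 : σ * k ≤ σ * Q := by gcongr
  have g7 : 0 ≤ σ * k := by positivity
  have h3 := (X.zt_mem (k := k) (n := n) (by omega) (by omega) hn hn').1
  exact ⟨h3, by linarith [h1.1], by linarith [h1.2]⟩

/-! ### type N -/

theorem ball_bd {v z : ℂ} (hz : z ∈ Metric.ball v ρ) : |z.re - v.re| < 1 / 100 ∧ |z.im - v.im| < 1 / 100 := by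
  have h1 : ‖z - v‖ < ρ := by rwa [← dist_eq_norm]
  have h2 := X.hρ
  have h3 : |(z - v).re| ≤ ‖z - v‖ := Complex.abs_re_le_norm _
  have h4 : |(z - v).im| ≤ ‖z - v‖ := Complex.abs_im_le_norm _
  rw [Complex.sub_re] at h3
  rw [Complex.sub_im] at h4
  constructor <;> linarith

theorem bot_ball {n : ℤ} (hn : -N - 1 ≤ n) (hn' : n ≤ N + 1) {z : ℂ}
    (hz : z ∈ Metric.ball (vv Φ σ 0 n) ρ) : z ∈ K L ∧ z.im < 1 / 16 := by
  obtain ⟨h1, h2⟩ := X.ball_bd hz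
  have h3 := X.vv_im_bd (k := 0) (n := n) le_rfl (by have := X.hQ; omega) hn hn'
  have hσ := X.hσ
  have hσ1 := X.σ_le
  have hσE := X.hσE
  have g3 : -(N : ℝ) - 1 ≤ n := by exact_mod_cast hn
  have g4 : (n : ℝ) ≤ N + 1 := by exact_mod_cast hn'
  have h6 := X.hNL
  rw [X.vv_re] at h1
  rw [abs_lt] at h1 h2
  simp only [Int.cast_zero, mul_zero, zero_div, zero_add] at h3
  have e1 : |z.re| ≤ L + 2 := by
    rw [abs_le]; constructor <;> nlinarith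
  exact ⟨⟨e1, by linarith [h2.1, h3.1], by linarith [h2.2, h3.2]⟩, by linarith [h2.2, h3.2]⟩

theorem top_ball {n : ℤ} (hn : -N - 1 ≤ n) (hn' : n ≤ N + 1) {z : ℂ}
    (hz : z ∈ Metric.ball (vv Φ σ Q n) ρ) : z ∈ K L ∧ 15 / 16 < z.im := by
  obtain ⟨h1, h2⟩ := X.ball_bd hz
  have h3 := X.vv_im_bd (k := Q) (n := n) (by have := X.hQ; omega) le_rfl hn hn'
  have hσ := X.hσ
  have hσ1 := X.σ_le
  have hσE := X.hσE
  have hq := X.hσQ
  have hq' := X.hσQ'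
  have g3 : -(N : ℝ) - 1 ≤ n := by exact_mod_cast hn
  have g4 : (n : ℝ) ≤ N + 1 := by exact_mod_cast hn'
  have h6 := X.hNL
  rw [X.vv_re] at h1
  rw [abs_lt] at h1 h2
  have e1 : |z.re| ≤ L + 2 := by
    rw [abs_le]; constructor <;> nlinarith
  exact ⟨⟨e1, by linarith [h2.1, h3.1], by linarith [h2.2, h3.2]⟩, by linarith [h2.1, h3.1]⟩

theorem open_zero {f : ℂ → ℂ} {s : Set ℂ} (hs : IsOpen s) (h : ∀ z ∈ s, f z = 0) {z : ℂ} (hz : z ∈ s) :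
    dz f z = 0 := by
  have h1 : f =ᶠ[𝓝 z] fun _ => 0 := by
    filter_upwards [hs.mem_nhds hz] with w hw using h w hw
  simp [dz, h1.fderiv_eq]

theorem bot_c {n : ℤ} (hn : -N - 1 ≤ n) (hn' : n ≤ N + 1) {z : ℂ}
    (hz : z ∈ Metric.ball (vv Φ σ 0 n) ρ) : Φ.V z = 0 ∧ Φ.F z = 0 ∧ Φ.c z = 0 :=
  Φ.bot z (X.bot_ball hn hn' hz).1 (X.bot_ball hn hn' hz).2

theorem top_c {n : ℤ} (hn : -N - 1 ≤ n) (hn' : n ≤ N + 1) {z : ℂ}
    (hz : z ∈ Metric.ball (vv Φ σ Q n) ρ) : Φ.V z = 0 ∧ Φ.F z = 0 ∧ Φ.c z = 1 :=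
  Φ.top z (X.top_ball hn hn' hz).1 (X.top_ball hn hn' hz).2

theorem bot_TN {n : ℤ} (hn : -N - 1 ≤ n) (hn' : n ≤ N + 1) : TN Φ ρ (vv Φ σ 0 n) :=
  ⟨0, 0, fun ζ hζ => ⟨(X.bot_c hn hn' hζ).2.1, by rw [(X.bot_c hn hn' hζ).2.2]; ring⟩⟩

theorem top_TN {n : ℤ} (hn : -N - 1 ≤ n) (hn' : n ≤ N + 1) : TN Φ ρ (vv Φ σ Q n) :=
  ⟨0, 1, fun ζ hζ => ⟨(X.top_c hn hn' hζ).2.1, by rw [(X.top_c hn hn' hζ).2.2]; ring⟩⟩

/-- distance of a nearby lattice point to a vertex -/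
theorem zt_vv {k n k' n' : ℤ} (hk : 0 ≤ k) (hk' : k ≤ Q) (hn : -N - 1 ≤ n) (hn' : n ≤ N + 1)
    (h1 : k' ≤ k + 1) (h2 : k - 1 ≤ k') (h3 : n' ≤ n + 1) (h4 : n - 1 ≤ n') :
    zt σ k' n' ∈ Metric.ball (vv Φ σ k n) ρ := by
  rw [Metric.mem_ball, dist_eq_norm]
  have e1 := X.vv_zt hk hk' hn hn'
  have e2 := X.zt_dist k n k' n'
  have hσ := X.hσ
  have hE := X.hEm
  have hρ := X.hσρ
  have a1 : |(n' : ℝ) - n| ≤ 1 := by
    have b1 : (n' : ℝ) ≤ n + 1 := by exact_mod_cast h3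
    have b2 : (n : ℝ) - 1 ≤ n' := by exact_mod_cast h4
    rw [abs_le]; constructor <;> linarith
  have a2 : |(k' : ℝ) - k| ≤ 1 := by
    have b1 : (k' : ℝ) ≤ k + 1 := by exact_mod_cast h1
    have b2 : (k : ℝ) - 1 ≤ k' := by exact_mod_cast h2
    rw [abs_le]; constructor <;> linarith
  have e3 : ‖zt σ k' n' - vv Φ σ k n‖ ≤ ‖zt σ k' n' - zt σ k n‖ + ‖vv Φ σ k n - zt σ k n‖ := by
    have : zt σ k' n' - vv Φ σ k n = (zt σ k' n' - zt σ k n) - (vv Φ σ k n - zt σ k n) := by ring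
    rw [this]; exact norm_sub_le _ _
  nlinarith

theorem self_mem (v : ℂ) : v ∈ Metric.ball v ρ := Metric.mem_ball_self X.ρpos

theorem vv_vv {k n k' n' : ℤ} (hk : 0 ≤ k) (hk' : k ≤ Q) (hn : -N - 1 ≤ n) (hn' : n ≤ N + 1)
    (hk1 : 0 ≤ k') (hk1' : k' ≤ Q) (hn1 : -N - 1 ≤ n') (hn1' : n' ≤ N + 1)
    (h1 : k' ≤ k + 1) (h2 : k - 1 ≤ k') (h3 : n' ≤ n + 1) (h4 : n - 1 ≤ n') :
    vv Φ σ k' n' ∈ Metric.ball (vv Φ σ k n) ρ := by
  rw [Metric.mem_ball, dist_eq_norm]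
  have e1 := X.vv_zt hk hk' hn hn'
  have e1' := X.vv_zt hk1 hk1' hn1 hn1'
  have e2 := X.zt_dist k n k' n'
  have hσ := X.hσ
  have hE := X.hEm
  have hρ := X.hσρ
  have a1 : |(n' : ℝ) - n| ≤ 1 := by
    have b1 : (n' : ℝ) ≤ n + 1 := by exact_mod_cast h3
    have b2 : (n : ℝ) - 1 ≤ n' := by exact_mod_cast h4
    rw [abs_le]; constructor <;> linarith
  have a2 : |(k' : ℝ) - k| ≤ 1 := by
    have b1 : (k' : ℝ) ≤ k + 1 := by exact_mod_cast h1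
    have b2 : (k : ℝ) - 1 ≤ k' := by exact_mod_cast h2
    rw [abs_le]; constructor <;> linarith
  have e3 : ‖vv Φ σ k' n' - vv Φ σ k n‖ ≤ ‖vv Φ σ k' n' - zt σ k' n'‖ + ‖zt σ k' n' - zt σ k n‖ +
      ‖vv Φ σ k n - zt σ k n‖ := by
    have : vv Φ σ k' n' - vv Φ σ k n = (vv Φ σ k' n' - zt σ k' n') + (zt σ k' n' - zt σ k n) -
      (vv Φ σ k n - zt σ k n) := by ring
    rw [this]; exact (norm_sub_le _ _).trans (by gcongr; exact norm_add_le _ _)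
  nlinarith

/-- face relation at a vertex of type N -/
theorem tnc {k n : ℤ} (hk : 0 ≤ k) (hk' : k ≤ Q) (hn : -N ≤ n) (hn' : n ≤ N)
    (h : TN Φ ρ (vv Φ σ k n)) :
    ∃ k0 : ℂ, ∀ k' n' : ℤ, (k' = k ∨ k' = k - 1) → (n' = n ∨ n' = n - 1) →
      cc Φ p0 σ Q k' n' = Φ.F (vv Φ σ k n) * aa Φ p0 σ Q k' n' + k0 := by
  obtain ⟨f0, k0, hf⟩ := h
  have hv := hf _ (X.self_mem _)
  refine ⟨k0, fun k' n' hk1 hn1 => ?_⟩
  unfold cc aa
  split_ifs with c1 c2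
  · have : k = 0 := by omega
    subst this
    obtain ⟨_, e2, e3⟩ := X.bot_c (n := n) (by omega) (by omega) (X.self_mem _)
    rw [e2] at hv
    rw [e3] at hv
    obtain ⟨e4, e5⟩ := hv
    rw [← e4] at e5
    rw [e2]
    simpa using e5
  · have hkQ : k = Q := by omega
    subst hkQ
    obtain ⟨_, e2, e3⟩ := X.top_c (n := n) (by omega) (by omega) (X.self_mem _)
    rw [e2] at hv
    rw [e3] at hv
    obtain ⟨e4, e5⟩ := hv
    rw [← e4] at e5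
    rw [e2]
    simpa using e5
  · have hm := mm_bd k' n'
    have hz := X.zt_vv (k := k) (n := n) (k' := k') (n' := mm k' n') hk hk' (by omega) (by omega)
      (by omega) (by omega) (by omega) (by omega)
    obtain ⟨e1, e2⟩ := hf _ hz
    unfold tc ta
    rw [e1, e2, hv.1]
    ring

theorem TN_const {k n k' n' : ℤ} (hk : 0 ≤ k) (hk' : k ≤ Q) (hn : -N - 1 ≤ n) (hn' : n ≤ N + 1)
    (hk1 : 0 ≤ k') (hk1' : k' ≤ Q) (hn1 : -N - 1 ≤ n') (hn1' : n' ≤ N + 1)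
    (h1 : k' ≤ k + 1) (h2 : k - 1 ≤ k') (h3 : n' ≤ n + 1) (h4 : n - 1 ≤ n')
    (h : TN Φ ρ (vv Φ σ k n)) : Φ.F (vv Φ σ k' n') = Φ.F (vv Φ σ k n) := by
  obtain ⟨f0, k0, hf⟩ := h
  rw [(hf _ (X.self_mem _)).1, (hf _ (X.vv_vv hk hk' hn hn' hk1 hk1' hn1 hn1' h1 h2 h3 h4)).1]

/-! ### type R -/

theorem dzb_zero {f : ℂ → ℂ} {v z : ℂ} (h : DifferentiableOn ℂ f (Metric.ball v ρ))
    (hz : z ∈ Metric.ball v ρ) : dzb f z = 0 := by
  have h1 : DifferentiableAt ℂ f z := (h z hz).differentiableAt (Metric.isOpen_ball.mem_nhds hz)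
  have h2 : HasFDerivAt f ((fderiv ℂ f z).restrictScalars ℝ) z := h1.hasFDerivAt.restrictScalars ℝ
  rw [dzb, h2.fderiv]
  have h3 : fderiv ℂ f z Complex.I = Complex.I * fderiv ℂ f z 1 := by
    simp
  show (fderiv ℂ f z 1 + Complex.I * fderiv ℂ f z Complex.I) / 2 = 0
  rw [h3, ← mul_assoc, Complex.I_mul_I]
  ring

theorem dzb_R {k n k' n' : ℤ} (hk : 0 ≤ k) (hk' : k ≤ Q) (hn : -N - 1 ≤ n) (hn' : n ≤ N + 1)
    (h1 : k' ≤ k + 1) (h2 : k - 1 ≤ k') (h3 : n' ≤ n + 1) (h4 : n - 1 ≤ n')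
    (h : ¬ TN Φ ρ (vv Φ σ k n)) : dzb Φ.V (zt σ k' n') = 0 := by
  rcases X.ty _ (X.vv_mem hk hk' hn hn') with h5 | h5
  · exact X.dzb_zero h5 (X.zt_vv hk hk' hn hn' h1 h2 h3 h4)
  · exact absurd h5 h

theorem R_range {k n : ℤ} (hk : 0 ≤ k) (hk' : k ≤ Q) (hn : -N - 1 ≤ n) (hn' : n ≤ N + 1)
    (h : ¬ TN Φ ρ (vv Φ σ k n)) : 1 ≤ k ∧ k ≤ Q - 1 := by
  constructor
  · by_contra hc
    have : k = 0 := by omega
    subst this
    exact h (X.bot_TN hn hn')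
  · by_contra hc
    have : k = Q := by omega
    subst this
    exact h (X.top_TN hn hn')

/-! ### edges -/

theorem norm_step (k n k' n' : ℤ) (h1 : |(n' : ℝ) - n| = 1) (h2 : |(k' : ℝ) - k| = 1) :
    ‖zt σ k' n' - zt σ k n‖ ≤ 6 / 5 * σ := by
  have hσ := X.hσ
  have e : ‖zt σ k' n' - zt σ k n‖ ^ 2 ≤ (6 / 5 * σ) ^ 2 := by
    rw [← Complex.normSq_eq_norm_sq, Complex.normSq_apply]
    have r1 : (zt σ k' n' - zt σ k n).re = σ * ((n' : ℝ) - n) := by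
      show σ * n' - σ * n = _; ring
    have r2 : (zt σ k' n' - zt σ k n).im = σ * ((k' : ℝ) - k) / 2 := by
      show (σ * k' / 2 + 1 / 32) - (σ * k / 2 + 1 / 32) = _; ring
    rw [r1, r2]
    have s1 : ((n' : ℝ) - n) ^ 2 = 1 := by rw [← sq_abs, h1]; norm_num
    have s2 : ((k' : ℝ) - k) ^ 2 = 1 := by rw [← sq_abs, h2]; norm_num
    have : σ * ((n' : ℝ) - n) * (σ * ((n' : ℝ) - n)) + σ * ((k' : ℝ) - k) / 2 * (σ * ((k' : ℝ) - k) / 2) =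
      σ ^ 2 * (((n' : ℝ) - n) ^ 2 + ((k' : ℝ) - k) ^ 2 / 4) := by ring
    rw [this, s1, s2]
    nlinarith [sq_nonneg σ]
  exact le_of_sq_le_sq e (by positivity)

theorem edgeL (hModel : SpecModel) (hEdge : SpecEdge) {k n : ℤ} (hk : 1 ≤ k) (hk' : k ≤ Q - 1)
    (hn : -N - 1 ≤ n) (hn' : n ≤ N) : EdgeL Φ p0 ε σ Q k n := by
  have hσ := X.hσ
  have hE := X.hEm
  have hρ := X.hσρ
  have hz0 : zt σ k n ∈ K L := X.zt_mem (by omega) (by omega) (by omega) (by omega)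
  have hη : 3 ≤ etaF Φ (zt σ k n) := eta_ge Φ _
  obtain ⟨M1, M2⟩ := hModel
  have m1 := M1 _ _ hη hη n
  obtain ⟨a1, a2, a3, a4, a5, a6, a7, a8, a9, a10, a11, a12⟩ := m1
  have nk : ¬ k < 0 := by omega
  have nk' : ¬ k - 1 < 0 := by omega
  have nq : ¬ Q ≤ k := by omega
  have nq' : ¬ Q ≤ k - 1 := by omega
  rcases Int.emod_two_eq_zero_or_one (k + n) with hp | hp
  · have hp' : (k - 1 + n) % 2 = 1 := by omega
    have e1 : mm k n = n := mm_even hp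
    have e2 : mm (k - 1) n = n + 1 := mm_odd hp'
    have hz2 : zt σ (k - 1) (n + 1) ∈ K L := X.zt_mem (by omega) (by omega) (by omega) (by omega)
    have st : ‖zt σ k n - zt σ (k - 1) (n + 1)‖ ≤ 6 / 5 * σ := by
      apply X.norm_step
      · push_cast; rw [show (n : ℝ) - (n + 1) = -1 by ring]; simp
      · push_cast; rw [show (k : ℝ) - (k - 1) = 1 by ring]; simp
    have st' : ‖zt σ (k - 1) (n + 1) - zt σ k n‖ ≤ 6 / 5 * σ := by rwa [norm_sub_rev]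
    have hid := (M2 (etaF Φ (zt σ k n)) σ k n)
    have hE' := hEdge L δ Φ p0 ρ ε σ X.hp0 X.hε (by have := X.hε1; linarith) hσ (by nlinarith) X.loc
      (zt σ k n) (zt σ k n) (zt σ (k - 1) (n + 1)) (zt σ k n + σ * P1 (etaF Φ (zt σ k n)) n)
      (al (etaF Φ (zt σ k n)) n - al (etaF Φ (zt σ k n)) (n + 1)) n (n + 1) hz0 hz0 hz2
      (by rw [sub_self, norm_zero]; positivity) (by linarith) (by linarith)
      (fun z => (hid z hη).1 hp) a9 a10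
      (by rw [add_sub_cancel_left, norm_mul, Complex.norm_real, Real.norm_of_nonneg hσ.le, mul_comm]
          gcongr)
    have f1 : dLa Φ p0 σ Q k n = ta Φ p0 (zt σ k n) n - ta Φ p0 (zt σ (k - 1) (n + 1)) (n + 1) := by
      simp only [dLa, aa, nk, nk', nq, nq', if_false, e1, e2]
    have f2 : dLb Φ p0 σ Q k n = tb Φ p0 σ (zt σ k n) n - tb Φ p0 σ (zt σ (k - 1) (n + 1)) (n + 1) := by
      simp only [dLb, bb, nk, nk', nq, nq', if_false, e1, e2]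
    have f3 : dLc Φ p0 σ Q k n = tc Φ p0 (zt σ k n) n - tc Φ p0 (zt σ (k - 1) (n + 1)) (n + 1) := by
      simp only [dLc, cc, nk, nk', nq, nq', if_false, e1, e2]
    have f4 : hrL σ (et Φ σ) k n = zt σ k n + σ * P1 (etaF Φ (zt σ k n)) n := by
      simp only [hrL, hp, if_true, et]
    rw [← f1, ← f2, ← f3, ← f4] at hE'
    refine ⟨hE'.1, fun h => (hE'.2 h).1, fun h => (hE'.2 h).2.1, fun h f hf => ?_⟩
    have := (hE'.2 h).2.2 f hf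
    rw [e1, e2]
    have hη0 : 0 ≤ etaF Φ (zt σ k n) / 40 := by linarith
    exact ⟨this.1.trans (by unfold et; gcongr), this.2.trans (by unfold et; gcongr)⟩
  · have hp' : (k - 1 + n) % 2 = 0 := by omega
    have e1 : mm k n = n + 1 := mm_odd hp
    have e2 : mm (k - 1) n = n := mm_even hp'
    have hz1 : zt σ k (n + 1) ∈ K L := X.zt_mem (by omega) (by omega) (by omega) (by omega)
    have hz2 : zt σ (k - 1) n ∈ K L := X.zt_mem (by omega) (by omega) (by omega) (by omega)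
    have st : ‖zt σ k (n + 1) - zt σ (k - 1) n‖ ≤ 6 / 5 * σ := by
      apply X.norm_step
      · push_cast; rw [show (n : ℝ) + 1 - n = 1 by ring]; simp
      · push_cast; rw [show (k : ℝ) - (k - 1) = 1 by ring]; simp
    have st1 : ‖zt σ k (n + 1) - zt σ k n‖ ≤ 2 * σ := by
      have := X.zt_dist k n k (n + 1)
      push_cast at this
      rw [show (n : ℝ) + 1 - n = 1 by ring] at this
      simp at this
      linarith
    have st2 : ‖zt σ (k - 1) n - zt σ k n‖ ≤ 2 * σ := by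
      have := X.zt_dist k n (k - 1) n
      push_cast at this
      rw [show (k : ℝ) - 1 - k = -1 by ring] at this
      simp at this
      linarith
    have hid := (M2 (etaF Φ (zt σ k n)) σ k n)
    have hE' := hEdge L δ Φ p0 ρ ε σ X.hp0 X.hε (by have := X.hε1; linarith) hσ (by nlinarith) X.loc
      (zt σ k n) (zt σ k (n + 1)) (zt σ (k - 1) n) (zt σ k n + σ * P2 (etaF Φ (zt σ k n)) n)
      (al (etaF Φ (zt σ k n)) (n + 1) - al (etaF Φ (zt σ k n)) n) (n + 1) n hz0 hz1 hz2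
      st1 st2 (by linarith)
      (fun z => (hid z hη).2.1 hp) (by rwa [norm_sub_rev]) (by rwa [norm_sub_rev])
      (by rw [add_sub_cancel_left, norm_mul, Complex.norm_real, Real.norm_of_nonneg hσ.le, mul_comm]
          gcongr)
    have f1 : dLa Φ p0 σ Q k n = ta Φ p0 (zt σ k (n + 1)) (n + 1) - ta Φ p0 (zt σ (k - 1) n) n := by
      simp only [dLa, aa, nk, nk', nq, nq', if_false, e1, e2]
    have f2 : dLb Φ p0 σ Q k n = tb Φ p0 σ (zt σ k (n + 1)) (n + 1) - tb Φ p0 σ (zt σ (k - 1) n) n := by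
      simp only [dLb, bb, nk, nk', nq, nq', if_false, e1, e2]
    have f3 : dLc Φ p0 σ Q k n = tc Φ p0 (zt σ k (n + 1)) (n + 1) - tc Φ p0 (zt σ (k - 1) n) n := by
      simp only [dLc, cc, nk, nk', nq, nq', if_false, e1, e2]
    have f4 : hrL σ (et Φ σ) k n = zt σ k n + σ * P2 (etaF Φ (zt σ k n)) n := by
      have : ¬ (k + n) % 2 = 0 := by omega
      simp only [hrL, this, if_false, et]
    rw [← f1, ← f2, ← f3, ← f4] at hE'
    refine ⟨hE'.1, fun h => (hE'.2 h).1, fun h => (hE'.2 h).2.1, fun h f hf => ?_⟩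
    have := (hE'.2 h).2.2 f hf
    rw [e1, e2]
    have hη0 : 0 ≤ etaF Φ (zt σ k n) / 40 := by linarith
    exact ⟨this.1.trans (by unfold et; gcongr), this.2.trans (by unfold et; gcongr)⟩

theorem edgeC (hModel : SpecModel) (hEdge : SpecEdge) {k n : ℤ} (hk : 0 ≤ k) (hk' : k < Q)
    (hn : -N ≤ n) (hn' : n ≤ N) (hp : (k + n) % 2 = 1) : EdgeC Φ p0 ε σ Q k n := by
  have hσ := X.hσ
  have hE := X.hEm
  have hρ := X.hσρ
  have hz0 : zt σ k n ∈ K L := X.zt_mem (by omega) (by omega) (by omega) (by omega)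
  have hη : 3 ≤ etaF Φ (zt σ k n) := eta_ge Φ _
  obtain ⟨M1, M2⟩ := hModel
  have m1 := M1 _ _ hη hη (n - 1)
  obtain ⟨a1, a2, a3, a4, a5, a6, a7, a8, a9, a10, a11, a12⟩ := m1
  obtain ⟨b1, b2, b3, b4, b5, b6, b7, b8, b9, b10, b11, b12⟩ := M1 _ _ hη hη (n + 1)
  have nk : ¬ k < 0 := by omega
  have nq : ¬ Q ≤ k := by omega
  have e1 : mm k (n - 1) = n - 1 := mm_even (by omega)
  have e2 : mm k n = n + 1 := mm_odd hp
  have hz1 : zt σ k (n - 1) ∈ K L := X.zt_mem (by omega) (by omega) (by omega) (by omega)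
  have hz2 : zt σ k (n + 1) ∈ K L := X.zt_mem (by omega) (by omega) (by omega) (by omega)
  have st1 : ‖zt σ k (n - 1) - zt σ k n‖ ≤ 2 * σ := by
    have := X.zt_dist k n k (n - 1)
    push_cast at this
    rw [show (n : ℝ) - 1 - n = -1 by ring] at this
    simp at this
    linarith
  have st2 : ‖zt σ k (n + 1) - zt σ k n‖ ≤ 2 * σ := by
    have := X.zt_dist k n k (n + 1)
    push_cast at this
    rw [show (n : ℝ) + 1 - n = 1 by ring] at this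
    simp at this
    linarith
  have st : ‖zt σ k (n - 1) - zt σ k (n + 1)‖ ≤ 2 * σ := by
    have := X.zt_dist k (n + 1) k (n - 1)
    push_cast at this
    rw [show (n : ℝ) - 1 - (n + 1) = -2 by ring] at this
    simp at this
    linarith
  have hid := (M2 (etaF Φ (zt σ k n)) σ k n)
  have hE' := hEdge L δ Φ p0 ρ ε σ X.hp0 X.hε (by have := X.hε1; linarith) hσ (by nlinarith) X.loc
    (zt σ k n) (zt σ k (n - 1)) (zt σ k (n + 1)) (zt σ k n + σ * en (etaF Φ (zt σ k n)) (n + 1))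
    (2 * al (etaF Φ (zt σ k n)) (n - 1)) (n - 1) (n + 1) hz0 hz1 hz2
    st1 st2 st (fun z => (hid z hη).2.2) a11 a12
    (by rw [add_sub_cancel_left, norm_mul, Complex.norm_real, Real.norm_of_nonneg hσ.le, mul_comm]
        gcongr)
  have f1 : dCa Φ p0 σ Q k n = ta Φ p0 (zt σ k (n - 1)) (n - 1) - ta Φ p0 (zt σ k (n + 1)) (n + 1) := by
    simp only [dCa, aa, nk, nq, if_false, e1, e2]
  have f2 : dCb Φ p0 σ Q k n = tb Φ p0 σ (zt σ k (n - 1)) (n - 1) - tb Φ p0 σ (zt σ k (n + 1)) (n + 1) := by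
    simp only [dCb, bb, nk, nq, if_false, e1, e2]
  have f4 : hrC σ (et Φ σ) k n = zt σ k n + σ * en (etaF Φ (zt σ k n)) (n + 1) := by
    simp only [hrC, et]
  rw [← f1, ← f2, ← f4] at hE'
  exact ⟨hE'.1, fun h => (hE'.2 h).1, fun h => (hE'.2 h).2.1⟩

/-! ### good edges -/

theorem goodL_range {k n : ℤ} (hk : 0 ≤ k) (hk' : k ≤ Q) (hn : -N - 1 ≤ n) (hn' : n ≤ N)
    (h : gL Φ ρ σ k n) : 1 ≤ k ∧ k ≤ Q - 1 ∧ dzb Φ.V (zt σ k n) = 0 := by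
  by_cases h1 : TN Φ ρ (vv Φ σ k n)
  · have h2 : ¬ TN Φ ρ (vv Φ σ k (n + 1)) := fun h2 => h ⟨h1, h2⟩
    obtain ⟨a, b⟩ := X.R_range hk hk' (by omega) (by omega) h2
    exact ⟨a, b, X.dzb_R hk hk' (n := n + 1) (by omega) (by omega) (by omega) (by omega) (by omega)
      (by omega) h2⟩
  · obtain ⟨a, b⟩ := X.R_range hk hk' (by omega) (by omega) h1
    exact ⟨a, b, X.dzb_R hk hk' (n := n) (by omega) (by omega) (by omega) (by omega) (by omega)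
      (by omega) h1⟩

theorem goodC_dzb {k n : ℤ} (hk : 0 ≤ k) (hk' : k < Q) (hn : -N ≤ n) (hn' : n ≤ N)
    (h : gC Φ ρ σ k n) : dzb Φ.V (zt σ k n) = 0 := by
  by_cases h1 : TN Φ ρ (vv Φ σ k n)
  · have h2 : ¬ TN Φ ρ (vv Φ σ (k + 1) n) := fun h2 => h ⟨h1, h2⟩
    exact X.dzb_R (k := k + 1) (by omega) (by omega) (n := n) (by omega) (by omega) (by omega)
      (by omega) (by omega) (by omega) h2
  · exact X.dzb_R hk hk'.le (n := n) (by omega) (by omega) (by omega) (by omega) (by omega)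
      (by omega) h1

theorem goodL {hModel : SpecModel} {hEdge : SpecEdge} {k n : ℤ} (hk : 0 ≤ k) (hk' : k ≤ Q)
    (hn : -N - 1 ≤ n) (hn' : n ≤ N) (h : gL Φ ρ σ k n) :
    dLa Φ p0 σ Q k n ≠ 0 ∧
    dLa Φ p0 σ Q k n * hL Φ p0 ρ σ Q k n + dLb Φ p0 σ Q k n = 0 ∧
    fL Φ p0 ρ σ Q k n * dLa Φ p0 σ Q k n = dLc Φ p0 σ Q k n ∧
    ‖hL Φ p0 ρ σ Q k n - hrL σ (et Φ σ) k n‖ ≤ 40 * ε * et Φ σ k n * σ ∧
    ‖fL Φ p0 ρ σ Q k n - Φ.F (zt σ k (mm k n))‖ ≤ et Φ σ k n / 40 * (6 / 5 * σ) ∧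
    ‖fL Φ p0 ρ σ Q k n - Φ.F (zt σ (k - 1) (mm (k - 1) n))‖ ≤ et Φ σ k n / 40 * (6 / 5 * σ) := by
  obtain ⟨h1, h2, h3⟩ := X.goodL_range hk hk' hn hn' h
  have hE := X.edgeL hModel hEdge h1 h2 hn hn'
  have e1 := hE.ne h3
  have e2 : dLa Φ p0 σ Q k n * hL Φ p0 ρ σ Q k n + dLb Φ p0 σ Q k n = 0 := by
    rw [hL, if_pos h]; field_simp; ring
  have e3 : fL Φ p0 ρ σ Q k n * dLa Φ p0 σ Q k n = dLc Φ p0 σ Q k n := by
    rw [fL, if_pos h]; field_simp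
  have e4 := hE.ff h3 _ e3
  exact ⟨e1, e2, e3, hE.hh h3 _ e2, e4.1, e4.2⟩

theorem goodC {hModel : SpecModel} {hEdge : SpecEdge} {k n : ℤ} (hk : 0 ≤ k) (hk' : k < Q)
    (hn : -N ≤ n) (hn' : n ≤ N) (hp : (k + n) % 2 = 1) (h : gC Φ ρ σ k n) :
    dCa Φ p0 σ Q k n ≠ 0 ∧
    dCa Φ p0 σ Q k n * hC Φ p0 ρ σ Q k n + dCb Φ p0 σ Q k n = 0 ∧
    fC Φ p0 ρ σ Q k n * dCa Φ p0 σ Q k n = dCc Φ p0 σ Q k n ∧
    ‖hC Φ p0 ρ σ Q k n - hrC σ (et Φ σ) k n‖ ≤ 40 * ε * et Φ σ k n * σ := by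
  have h3 := X.goodC_dzb hk hk' hn hn' h
  have hE := X.edgeC hModel hEdge hk hk' hn hn' hp
  have e1 := hE.ne h3
  have e2 : dCa Φ p0 σ Q k n * hC Φ p0 ρ σ Q k n + dCb Φ p0 σ Q k n = 0 := by
    rw [hC, if_pos h]; field_simp; ring
  have e3 : fC Φ p0 ρ σ Q k n * dCa Φ p0 σ Q k n = dCc Φ p0 σ Q k n := by
    rw [fC, if_pos h]; field_simp
  exact ⟨e1, e2, e3, hE.hh h3 _ e2⟩

/-! ### reference hinges -/

theorem P_even {η : ℝ} {n : ℤ} (hη : 3 ≤ η) (hn : n % 2 = 0) :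
    (P1 η n).im ≤ -(η / 2) + 1 / 4 ∧ (P2 η n).im ≤ -(η / 2) + 1 / 4 := by
  have h1 : 0 < 1 / η := by positivity
  rw [P1, P2, if_pos hn, if_pos hn]
  constructor
  · show -(η / 2) - 1 / η + 1 / 4 ≤ _
    linarith
  · show -(η / 2) - 1 / η - 3 / 4 ≤ _
    linarith

theorem P_odd {η : ℝ} {n : ℤ} (hη : 3 ≤ η) (hn : n % 2 = 1) :
    η / 4 - 3 / 8 ≤ (P1 η n).im ∧ η / 4 - 3 / 8 ≤ (P2 η n).im := by
  have h0 : ¬ n % 2 = 0 := by omega
  rw [P1, P2, if_neg h0, if_neg h0]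
  constructor
  · show _ ≤ η / 4 - (3 * η ^ 2 + 2) / (8 * (η ^ 2 + 1))
    have : (3 * η ^ 2 + 2) / (8 * (η ^ 2 + 1)) ≤ 3 / 8 := by
      rw [div_le_iff₀ (by positivity)]; nlinarith
    linarith
  · show _ ≤ η / 4 - (η ^ 2 + 2) / (8 * (η ^ 2 + 1))
    have : (η ^ 2 + 2) / (8 * (η ^ 2 + 1)) ≤ 3 / 8 := by
      rw [div_le_iff₀ (by positivity)]; nlinarith
    linarith

theorem hr_even {k n : ℤ} (hn : n % 2 = 0) :
    (hrL σ (et Φ σ) k n).im ≤ (σ * k / 2 + 1 / 32) + σ * (-(et Φ σ k n / 2) + 1 / 4) := by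
  have h1 := X.P_even (X.et_ge k n) hn
  have hσ := X.hσ
  unfold hrL
  split_ifs
  · rw [Complex.add_im, X.zt_im]
    have : ((σ : ℂ) * P1 (et Φ σ k n) n).im = σ * (P1 (et Φ σ k n) n).im := by simp
    rw [this]
    have := mul_le_mul_of_nonneg_left h1.1 hσ.le
    linarith
  · rw [Complex.add_im, X.zt_im]
    have : ((σ : ℂ) * P2 (et Φ σ k n) n).im = σ * (P2 (et Φ σ k n) n).im := by simp
    rw [this]
    have := mul_le_mul_of_nonneg_left h1.2 hσ.le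
    linarith

theorem hr_odd {k n : ℤ} (hn : n % 2 = 1) :
    (σ * k / 2 + 1 / 32) + σ * (et Φ σ k n / 4 - 3 / 8) ≤ (hrL σ (et Φ σ) k n).im := by
  have h1 := X.P_odd (X.et_ge k n) hn
  have hσ := X.hσ
  unfold hrL
  split_ifs
  · rw [Complex.add_im, X.zt_im]
    have : ((σ : ℂ) * P1 (et Φ σ k n) n).im = σ * (P1 (et Φ σ k n) n).im := by simp
    rw [this]
    have := mul_le_mul_of_nonneg_left h1.1 hσ.le
    linarith
  · rw [Complex.add_im, X.zt_im]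
    have : ((σ : ℂ) * P2 (et Φ σ k n) n).im = σ * (P2 (et Φ σ k n) n).im := by simp
    rw [this]
    have := mul_le_mul_of_nonneg_left h1.2 hσ.le
    linarith

theorem et_close {k n k' n' : ℤ} (hk : -1 ≤ k) (hk' : k ≤ Q + 1) (hn : -N - 1 ≤ n) (hn' : n ≤ N + 1)
    (hk1 : -1 ≤ k') (hk1' : k' ≤ Q + 1) (hn1 : -N - 1 ≤ n') (hn1' : n' ≤ N + 1)
    (h1 : |(k' : ℝ) - k| ≤ 40 * Em) (h2 : |(n' : ℝ) - n| ≤ 1) :
    |et Φ σ k' n' - et Φ σ k n| ≤ ε := by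
  apply X.loc.eta _ (X.zt_mem hk hk' hn hn') _ (X.zt_mem hk1 hk1' hn1 hn1')
  have h3 := X.zt_dist k n k' n'
  have hσ := X.hσ
  have hE := X.hEm
  have hρ := X.hσρ
  nlinarith

theorem hr_diff {k n : ℤ} (hk : 0 ≤ k) (hk' : k ≤ Q) (hn : -N ≤ n) (hn' : n ≤ N) :
    σ * (et Φ σ k n / 2) ≤ ‖hrL σ (et Φ σ) k n - hrL σ (et Φ σ) k (n - 1)‖ := by
  have hσ := X.hσ
  have hE := X.hEm
  have hε := X.hε1
  have h0 := X.et_ge k n
  have hc := X.et_close (k := k) (n := n) (k' := k) (n' := n - 1) (by omega) (by omega) (by omega)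
    (by omega) (by omega) (by omega) (by omega) (by omega) (by simp; linarith) (by push_cast; simp)
  rw [abs_le] at hc
  have h1 : |(hrL σ (et Φ σ) k n - hrL σ (et Φ σ) k (n - 1)).im| ≤
    ‖hrL σ (et Φ σ) k n - hrL σ (et Φ σ) k (n - 1)‖ := Complex.abs_im_le_norm _
  refine le_trans ?_ h1
  rw [Complex.sub_im]
  rcases Int.emod_two_eq_zero_or_one n with hp | hp
  · have e1 := X.hr_even (k := k) hp
    have e2 := X.hr_odd (k := k) (n := n - 1) (by omega)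
    rw [abs_sub_comm]
    refine le_trans ?_ (le_abs_self _)
    have : σ * (et Φ σ k n / 2) ≤ σ * (et Φ σ k (n - 1) / 4 - 3 / 8) - σ * (-(et Φ σ k n / 2) + 1 / 4) := by
      rw [← mul_sub]
      apply mul_le_mul_of_nonneg_left _ hσ.le
      linarith
    linarith
  · have e1 := X.hr_odd (k := k) hp
    have e2 := X.hr_even (k := k) (n := n - 1) (by omega)
    refine le_trans ?_ (le_abs_self _)
    have : σ * (et Φ σ k n / 2) ≤ σ * (et Φ σ k n / 4 - 3 / 8) - σ * (-(et Φ σ k (n - 1) / 2) + 1 / 4) := by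
      rw [← mul_sub]
      apply mul_le_mul_of_nonneg_left _ hσ.le
      linarith
    linarith

/-! ### vertices of type R -/

theorem R_good {k n : ℤ} (h : ¬ TN Φ ρ (vv Φ σ k n)) : gL Φ ρ σ k n ∧ gL Φ ρ σ k (n - 1) := by
  constructor
  · exact fun h1 => h h1.1
  · intro h1
    have := h1.2
    rw [sub_add_cancel] at this
    exact h this

theorem R_f {hModel : SpecModel} {hEdge : SpecEdge} {k n : ℤ} (hk : 0 ≤ k) (hk' : k ≤ Q) (hn : -N ≤ n)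
    (hn' : n ≤ N) (h : ¬ TN Φ ρ (vv Φ σ k n)) :
    ‖fL Φ p0 ρ σ Q k n - fL Φ p0 ρ σ Q k (n - 1)‖ ≤
      (et Φ σ k n + et Φ σ k (n - 1)) / 40 * (6 / 5 * σ) := by
  obtain ⟨g1, g2⟩ := X.R_good h
  obtain ⟨a1, a2, a3, a4, a5, a6⟩ := X.goodL (hModel := hModel) (hEdge := hEdge) hk hk'
    (n := n) (by omega) hn' g1
  obtain ⟨b1, b2, b3, b4, b5, b6⟩ := X.goodL (hModel := hModel) (hEdge := hEdge) hk hk'
    (n := n - 1) (by omega) (by omega) g2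
  have key : ∀ w : ℂ, ‖fL Φ p0 ρ σ Q k n - w‖ ≤ et Φ σ k n / 40 * (6 / 5 * σ) →
      ‖fL Φ p0 ρ σ Q k (n - 1) - w‖ ≤ et Φ σ k (n - 1) / 40 * (6 / 5 * σ) →
      ‖fL Φ p0 ρ σ Q k n - fL Φ p0 ρ σ Q k (n - 1)‖ ≤
      (et Φ σ k n + et Φ σ k (n - 1)) / 40 * (6 / 5 * σ) := by
    intro w h1 h2
    have : fL Φ p0 ρ σ Q k n - fL Φ p0 ρ σ Q k (n - 1) =
      (fL Φ p0 ρ σ Q k n - w) - (fL Φ p0 ρ σ Q k (n - 1) - w) := by ring
    rw [this]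
    refine (norm_sub_le _ _).trans ?_
    calc _ ≤ et Φ σ k n / 40 * (6 / 5 * σ) + et Φ σ k (n - 1) / 40 * (6 / 5 * σ) := add_le_add h1 h2
      _ = _ := by ring
  rcases Int.emod_two_eq_zero_or_one (k + n) with hp | hp
  · have e1 : mm k n = n := mm_even hp
    have e2 : mm k (n - 1) = n := by rw [mm_odd (by omega)]; ring
    rw [e1] at a5
    rw [e2] at b5
    exact key _ a5 b5
  · have e1 : mm (k - 1) n = n := mm_even (by omega)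
    have e2 : mm (k - 1) (n - 1) = n := by rw [mm_odd (by omega)]; ring
    rw [e1] at a6
    rw [e2] at b6
    exact key _ a6 b6

theorem R_h {hModel : SpecModel} {hEdge : SpecEdge} {k n : ℤ} (hk : 0 ≤ k) (hk' : k ≤ Q) (hn : -N ≤ n)
    (hn' : n ≤ N) (h : ¬ TN Φ ρ (vv Φ σ k n)) :
    σ * (et Φ σ k n * (2 / 5)) ≤ ‖hL Φ p0 ρ σ Q k n - hL Φ p0 ρ σ Q k (n - 1)‖ := by
  obtain ⟨g1, g2⟩ := X.R_good h
  obtain ⟨a1, a2, a3, a4, a5, a6⟩ := X.goodL (hModel := hModel) (hEdge := hEdge) hk hk'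
    (n := n) (by omega) hn' g1
  obtain ⟨b1, b2, b3, b4, b5, b6⟩ := X.goodL (hModel := hModel) (hEdge := hEdge) hk hk'
    (n := n - 1) (by omega) (by omega) g2
  have hd := X.hr_diff hk hk' hn hn'
  have hσ := X.hσ
  have hE := X.hEm
  have hε := X.hε1
  have hε0 := X.hε
  have h0 := X.et_ge k n
  have hc := X.et_close (k := k) (n := n) (k' := k) (n' := n - 1) (by omega) (by omega) (by omega)
    (by omega) (by omega) (by omega) (by omega) (by omega) (by simp; linarith) (by push_cast; simp)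
  rw [abs_le] at hc
  have t1 : ‖hrL σ (et Φ σ) k n - hrL σ (et Φ σ) k (n - 1)‖ ≤
      ‖hL Φ p0 ρ σ Q k n - hL Φ p0 ρ σ Q k (n - 1)‖ + ‖hL Φ p0 ρ σ Q k n - hrL σ (et Φ σ) k n‖ +
      ‖hL Φ p0 ρ σ Q k (n - 1) - hrL σ (et Φ σ) k (n - 1)‖ := by
    have : hrL σ (et Φ σ) k n - hrL σ (et Φ σ) k (n - 1) =
      (hL Φ p0 ρ σ Q k n - hL Φ p0 ρ σ Q k (n - 1)) - (hL Φ p0 ρ σ Q k n - hrL σ (et Φ σ) k n) +
      (hL Φ p0 ρ σ Q k (n - 1) - hrL σ (et Φ σ) k (n - 1)) := by ring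
    rw [this]
    exact (norm_add_le _ _).trans (by gcongr; exact norm_sub_le _ _)
  have s1 : 40 * ε * et Φ σ k n * σ ≤ σ * (et Φ σ k n / 100) := by
    have : 40 * ε ≤ 1 / 100 := by linarith
    calc 40 * ε * et Φ σ k n * σ ≤ 1 / 100 * et Φ σ k n * σ := by gcongr
      _ = _ := by ring
  have s2 : 40 * ε * et Φ σ k (n - 1) * σ ≤ σ * (et Φ σ k n / 50) := by
    have h1 : 40 * ε ≤ 1 / 100 := by linarith
    have h2 : et Φ σ k (n - 1) ≤ 2 * et Φ σ k n := by linarith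
    have h3 := X.et_ge k (n - 1)
    calc 40 * ε * et Φ σ k (n - 1) * σ ≤ 1 / 100 * (2 * et Φ σ k n) * σ := by gcongr
      _ = _ := by ring
  nlinarith

theorem R_den {hModel : SpecModel} {hEdge : SpecEdge} {k n : ℤ} (hk : 0 ≤ k) (hk' : k ≤ Q)
    (hn : -N ≤ n) (hn' : n ≤ N) (h : ¬ TN Φ ρ (vv Φ σ k n)) :
    hL Φ p0 ρ σ Q k n - hL Φ p0 ρ σ Q k (n - 1) ≠ 0 := by
  have h1 := X.R_h (hModel := hModel) (hEdge := hEdge) hk hk' hn hn' h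
  have h2 := X.et_ge k n
  have h3 := X.hσ
  intro h4
  rw [h4, norm_zero] at h1
  have : 0 < σ * (et Φ σ k n * (2 / 5)) := by positivity
  linarith

theorem j1_bd {hModel : SpecModel} {hEdge : SpecEdge} {k n : ℤ} (hk : 0 ≤ k) (hk' : k ≤ Q)
    (hn : -N ≤ n) (hn' : n ≤ N) : ‖j1 Φ p0 ρ σ Q k n‖ ≤ 1 / 5 := by
  unfold j1
  split_ifs with h
  · simp
  · have h1 := X.R_h (hModel := hModel) (hEdge := hEdge) hk hk' hn hn' h
    have h2 := X.R_f (hModel := hModel) (hEdge := hEdge) hk hk' hn hn' h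
    have h3 := X.R_den (hModel := hModel) (hEdge := hEdge) hk hk' hn hn' h
    have h0 := X.et_ge k n
    have hσ := X.hσ
    have hE := X.hEm
    have hε := X.hε1
    have hc := X.et_close (k := k) (n := n) (k' := k) (n' := n - 1) (by omega) (by omega) (by omega)
      (by omega) (by omega) (by omega) (by omega) (by omega) (by simp; linarith) (by push_cast; simp)
    rw [abs_le] at hc
    rw [norm_div, div_le_iff₀ (norm_pos_iff.mpr h3)]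
    refine h2.trans ?_
    have : (et Φ σ k n + et Φ σ k (n - 1)) / 40 * (6 / 5 * σ) ≤ 1 / 5 * (σ * (et Φ σ k n * (2 / 5))) := by
      have e : (et Φ σ k n + et Φ σ k (n - 1)) / 40 * (6 / 5) ≤ 1 / 5 * (et Φ σ k n * (2 / 5)) := by
        linarith
      nlinarith
    linarith

/-- (R1), (R2) -/
theorem rel {hModel : SpecModel} {hEdge : SpecEdge} {k n : ℤ} (hk : 0 ≤ k) (hk' : k ≤ Q)
    (hn : -N ≤ n) (hn' : n ≤ N) :
    j0 Φ p0 ρ σ Q k n * dLa Φ p0 σ Q k n -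
      j1 Φ p0 ρ σ Q k n * (dLa Φ p0 σ Q k n * vv Φ σ k n + dLb Φ p0 σ Q k n) = dLc Φ p0 σ Q k n ∧
    j0 Φ p0 ρ σ Q k n * dLa Φ p0 σ Q k (n - 1) -
      j1 Φ p0 ρ σ Q k n * (dLa Φ p0 σ Q k (n - 1) * vv Φ σ k n + dLb Φ p0 σ Q k (n - 1)) =
        dLc Φ p0 σ Q k (n - 1) := by
  by_cases h : TN Φ ρ (vv Φ σ k n)
  · obtain ⟨k0, hk0⟩ := X.tnc hk hk' hn hn' h
    have e1 := hk0 k n (Or.inl rfl) (Or.inl rfl)
    have e2 := hk0 (k - 1) n (Or.inr rfl) (Or.inl rfl)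
    have e3 := hk0 k (n - 1) (Or.inl rfl) (Or.inr rfl)
    have e4 := hk0 (k - 1) (n - 1) (Or.inr rfl) (Or.inr rfl)
    have j : j0 Φ p0 ρ σ Q k n = Φ.F (vv Φ σ k n) := by rw [j0, if_pos h]
    have j' : j1 Φ p0 ρ σ Q k n = 0 := by rw [j1, if_pos h]
    rw [j, j', dLc, dLc, e1, e2, e3, e4, dLa, dLa]
    constructor <;> ring
  · obtain ⟨g1, g2⟩ := X.R_good h
    obtain ⟨a1, a2, a3, -, -, -⟩ := X.goodL (hModel := hModel) (hEdge := hEdge) hk hk'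
      (n := n) (by omega) hn' g1
    obtain ⟨b1, b2, b3, -, -, -⟩ := X.goodL (hModel := hModel) (hEdge := hEdge) hk hk'
      (n := n - 1) (by omega) (by omega) g2
    have hd := X.R_den (hModel := hModel) (hEdge := hEdge) hk hk' hn hn' h
    have j : j0 Φ p0 ρ σ Q k n =
      fL Φ p0 ρ σ Q k n + j1 Φ p0 ρ σ Q k n * (vv Φ σ k n - hL Φ p0 ρ σ Q k n) := by
      rw [j0, if_neg h]
    have j' : j1 Φ p0 ρ σ Q k n * (hL Φ p0 ρ σ Q k n - hL Φ p0 ρ σ Q k (n - 1)) =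
      fL Φ p0 ρ σ Q k n - fL Φ p0 ρ σ Q k (n - 1) := by
      rw [j1, if_neg h]; field_simp
    constructor
    · linear_combination dLa Φ p0 σ Q k n * j + a3 - j1 Φ p0 ρ σ Q k n * a2
    · linear_combination dLa Φ p0 σ Q k (n - 1) * j + b3 - j1 Φ p0 ρ σ Q k n * b2 -
        dLa Φ p0 σ Q k (n - 1) * j'

theorem par (k n : ℤ) (h : (k + n) % 2 = 0) : aa Φ p0 σ Q k n = aa Φ p0 σ Q k (n - 1) ∧
    bb Φ p0 σ Q k n = bb Φ p0 σ Q k (n - 1) ∧ cc Φ p0 σ Q k n = cc Φ p0 σ Q k (n - 1) := by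
  have e1 : mm k n = n := mm_even h
  have e2 : mm k (n - 1) = n := by rw [mm_odd (by omega)]; ring
  simp only [aa, bb, cc, e1, e2, and_self]

/-- (R3) -/
theorem relC1 {hModel : SpecModel} {hEdge : SpecEdge} {k n : ℤ} (hk : 0 ≤ k) (hk' : k ≤ Q)
    (hn : -N ≤ n) (hn' : n ≤ N) (hp : (k + n) % 2 = 1) :
    j0 Φ p0 ρ σ Q k n * dCa Φ p0 σ Q k n -
      j1 Φ p0 ρ σ Q k n * (dCa Φ p0 σ Q k n * vv Φ σ k n + dCb Φ p0 σ Q k n) = dCc Φ p0 σ Q k n := by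
  obtain ⟨r1, r2⟩ := X.rel (hModel := hModel) (hEdge := hEdge) hk hk' hn hn'
  obtain ⟨q1, q2, q3⟩ := X.par (k - 1) n (by omega)
  unfold dLa dLb dLc at r1 r2
  unfold dCa dCb dCc
  rw [q1, q2, q3] at r1
  linear_combination r2 - r1

/-- (R4) -/
theorem relC2 {hModel : SpecModel} {hEdge : SpecEdge} {k n : ℤ} (hk : 0 ≤ k) (hk' : k < Q)
    (hn : -N ≤ n) (hn' : n ≤ N) (hp : (k + n) % 2 = 1) :
    j0 Φ p0 ρ σ Q (k + 1) n * dCa Φ p0 σ Q k n -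
      j1 Φ p0 ρ σ Q (k + 1) n * (dCa Φ p0 σ Q k n * vv Φ σ (k + 1) n + dCb Φ p0 σ Q k n) =
        dCc Φ p0 σ Q k n := by
  obtain ⟨r1, r2⟩ := X.rel (hModel := hModel) (hEdge := hEdge) (k := k + 1) (by omega) (by omega) hn hn'
  obtain ⟨q1, q2, q3⟩ := X.par (k + 1) n (by omega)
  unfold dLa dLb dLc at r1 r2
  unfold dCa dCb dCc
  rw [q1, q2, q3] at r1
  rw [add_sub_cancel_right] at r1 r2
  linear_combination r1 - r2

theorem solve {a b c h f x0 x1 v : ℂ} (ha : a ≠ 0) (h1 : a * h + b = 0) (h2 : f * a = c)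
    (h3 : x0 * a - x1 * (a * v + b) = c) : x0 = f + x1 * (v - h) := by
  have : a * (x0 - (f + x1 * (v - h))) = 0 := by linear_combination h3 - h2 + x1 * h1
  rcases mul_eq_zero.mp this with h4 | h4
  · exact absurd h4 ha
  · exact sub_eq_zero.mp h4

theorem bad_j {k n : ℤ} (h : TN Φ ρ (vv Φ σ k n)) :
    j0 Φ p0 ρ σ Q k n = Φ.F (vv Φ σ k n) ∧ j1 Φ p0 ρ σ Q k n = 0 :=
  ⟨by rw [j0, if_pos h], by rw [j1, if_pos h]⟩

theorem relL1 {hModel : SpecModel} {hEdge : SpecEdge} {k n : ℤ} (hk : 0 ≤ k) (hk' : k ≤ Q)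
    (hn : -N ≤ n) (hn' : n < N) :
    j0 Φ p0 ρ σ Q k n = fL Φ p0 ρ σ Q k n + j1 Φ p0 ρ σ Q k n * (vv Φ σ k n - hL Φ p0 ρ σ Q k n) ∧
    j0 Φ p0 ρ σ Q k (n + 1) = fL Φ p0 ρ σ Q k n +
      j1 Φ p0 ρ σ Q k (n + 1) * (vv Φ σ k (n + 1) - hL Φ p0 ρ σ Q k n) := by
  by_cases h : gL Φ ρ σ k n
  · obtain ⟨a1, a2, a3, -, -, -⟩ := X.goodL (hModel := hModel) (hEdge := hEdge) hk hk'
      (n := n) (by omega) (by omega) h
    have r1 := (X.rel (hModel := hModel) (hEdge := hEdge) hk hk' hn hn'.le).1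
    have r2 := (X.rel (hModel := hModel) (hEdge := hEdge) hk hk' (n := n + 1) (by omega) (by omega)).2
    rw [add_sub_cancel_right] at r2
    exact ⟨X.solve a1 a2 a3 r1, X.solve a1 a2 a3 r2⟩
  · have h' : TN Φ ρ (vv Φ σ k n) ∧ TN Φ ρ (vv Φ σ k (n + 1)) := not_not.mp h
    have hf : fL Φ p0 ρ σ Q k n = Φ.F (vv Φ σ k n) := by rw [fL, if_neg h]
    obtain ⟨u1, u2⟩ := X.bad_j h'.1
    obtain ⟨w1, w2⟩ := X.bad_j h'.2
    have := X.TN_const (k := k) (n := n) (k' := k) (n' := n + 1) hk hk' (by omega) (by omega) hk hk'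
      (by omega) (by omega) (by omega) (by omega) (by omega) (by omega) h'.1
    rw [u1, u2, w1, w2, hf, this]
    constructor <;> ring

theorem relCC {hModel : SpecModel} {hEdge : SpecEdge} {k n : ℤ} (hk : 0 ≤ k) (hk' : k < Q)
    (hn : -N < n) (hn' : n < N) (hp : (k + n) % 2 = 1) :
    j0 Φ p0 ρ σ Q k n = fC Φ p0 ρ σ Q k n + j1 Φ p0 ρ σ Q k n * (vv Φ σ k n - hC Φ p0 ρ σ Q k n) ∧
    j0 Φ p0 ρ σ Q (k + 1) n = fC Φ p0 ρ σ Q k n +
      j1 Φ p0 ρ σ Q (k + 1) n * (vv Φ σ (k + 1) n - hC Φ p0 ρ σ Q k n) := by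
  by_cases h : gC Φ ρ σ k n
  · obtain ⟨a1, a2, a3, -⟩ := X.goodC (hModel := hModel) (hEdge := hEdge) hk hk'
      (n := n) (by omega) (by omega) hp h
    have r1 := X.relC1 (hModel := hModel) (hEdge := hEdge) hk hk'.le hn.le hn'.le hp
    have r2 := X.relC2 (hModel := hModel) (hEdge := hEdge) hk hk' hn.le hn'.le hp
    exact ⟨X.solve a1 a2 a3 r1, X.solve a1 a2 a3 r2⟩
  · have h' : TN Φ ρ (vv Φ σ k n) ∧ TN Φ ρ (vv Φ σ (k + 1) n) := not_not.mp h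
    have hf : fC Φ p0 ρ σ Q k n = Φ.F (vv Φ σ k n) := by rw [fC, if_neg h]
    obtain ⟨u1, u2⟩ := X.bad_j h'.1
    obtain ⟨w1, w2⟩ := X.bad_j h'.2
    have := X.TN_const (k := k) (n := n) (k' := k + 1) (n' := n) hk hk'.le (by omega) (by omega)
      (by omega) (by omega) (by omega) (by omega) (by omega) (by omega) (by omega) (by omega) h'.1
    rw [u1, u2, w1, w2, hf, this]
    constructor <;> ring

theorem j0_bd {hModel : SpecModel} {hEdge : SpecEdge} {k n : ℤ} (hk : 0 ≤ k) (hk' : k ≤ Q)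
    (hn : -N ≤ n) (hn' : n ≤ N) : ‖j0 Φ p0 ρ σ Q k n‖ ≤ 3 / 8 := by
  unfold j0
  split_ifs with h
  · have := Φ.bF _ (X.vv_mem hk hk' (n := n) (by omega) (by omega))
    linarith
  · obtain ⟨g1, g2⟩ := X.R_good h
    obtain ⟨k1, k2⟩ := X.R_range hk hk' (n := n) (by omega) (by omega) h
    obtain ⟨a1, a2, a3, a4, a5, -⟩ := X.goodL (hModel := hModel) (hEdge := hEdge) hk hk'
      (n := n) (by omega) hn' g1
    have hm := mm_bd k n
    have b1 := Φ.bF _ (X.zt_mem (k := k) (n := mm k n) (by omega) (by omega) (by omega) (by omega))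
    have b2 := X.j1_bd (hModel := hModel) (hEdge := hEdge) hk hk' hn hn'
    have b3 := X.vv_zt hk hk' (n := n) (by omega) (by omega)
    have hσ := X.hσ
    have hE := X.hEm
    have hε := X.hε1
    have hε0 := X.hε
    have hσE := X.hσE
    have h0 := X.et_ge k n
    have h1 := X.et_le (k := k) (n := n) (by omega) (by omega) (by omega) (by omega)
    have hp : ‖hrL σ (et Φ σ) k n - zt σ k n‖ ≤ et Φ σ k n * σ := by
      obtain ⟨M1, -⟩ := hModel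
      obtain ⟨-, -, -, -, m5, m6, -⟩ := M1 _ _ h0 h0 n
      unfold hrL
      split_ifs
      · rw [add_sub_cancel_left, norm_mul, Complex.norm_real, Real.norm_of_nonneg hσ.le, mul_comm]
        gcongr
      · rw [add_sub_cancel_left, norm_mul, Complex.norm_real, Real.norm_of_nonneg hσ.le, mul_comm]
        gcongr
    have c1 : ‖vv Φ σ k n - hL Φ p0 ρ σ Q k n‖ ≤ 3 * (Em * σ) := by
      have : vv Φ σ k n - hL Φ p0 ρ σ Q k n = (vv Φ σ k n - zt σ k n) -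
        (hrL σ (et Φ σ) k n - zt σ k n) - (hL Φ p0 ρ σ Q k n - hrL σ (et Φ σ) k n) := by ring
      rw [this]
      refine (norm_sub_le _ _).trans ?_
      have t1 : ‖(vv Φ σ k n - zt σ k n) - (hrL σ (et Φ σ) k n - zt σ k n)‖ ≤ Em * σ + Em * σ :=
        (norm_sub_le _ _).trans (add_le_add b3 (hp.trans (by gcongr)))
      have t2 : 40 * ε * et Φ σ k n * σ ≤ Em * σ := by
        have : 40 * ε ≤ 1 := by linarith
        calc 40 * ε * et Φ σ k n * σ ≤ 1 * Em * σ := by gcongr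
          _ = _ := by ring
      linarith
    have c2 : ‖fL Φ p0 ρ σ Q k n‖ ≤ 1 / 4 + et Φ σ k n / 40 * (6 / 5 * σ) := by
      have : fL Φ p0 ρ σ Q k n = Φ.F (zt σ k (mm k n)) + (fL Φ p0 ρ σ Q k n - Φ.F (zt σ k (mm k n))) := by
        ring
      rw [this]
      exact (norm_add_le _ _).trans (add_le_add b1 a5)
    have c3 : et Φ σ k n / 40 * (6 / 5 * σ) ≤ Em * σ := by
      have : et Φ σ k n / 40 * (6 / 5 * σ) = (et Φ σ k n * (6 / 200)) * σ := by ring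
      rw [this]
      gcongr
      linarith
    refine (norm_add_le _ _).trans ?_
    rw [norm_mul]
    have c4 : ‖j1 Φ p0 ρ σ Q k n‖ * ‖vv Φ σ k n - hL Φ p0 ρ σ Q k n‖ ≤ 1 / 5 * (3 * (Em * σ)) := by
      gcongr
    nlinarith

/-! ### bounds on the faces -/

theorem tile (z : ℂ) (m : ℤ) (x : ℂ) : ta Φ p0 z m * x + tb Φ p0 σ z m =
    Φ.V z + dz Φ.V z * (x - z) + ppF Φ p0 z * al (etaF Φ z) m * (x - z - σ * en (etaF Φ z) m) := by
  unfold ta tb; ring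

theorem tile_bd {hModel : SpecModel} (z : ℂ) (m : ℤ) (x : ℂ) :
    ‖ta Φ p0 z m * x + tb Φ p0 σ z m‖ ≤ ‖Φ.V z‖ + ‖dz Φ.V z‖ * ‖x - z‖ +
      ppF Φ p0 z * (‖x - z‖ + σ * etaF Φ z) := by
  rw [X.tile]
  have hσ := X.hσ
  have hp := X.hp0
  have h0 := eta_ge Φ z
  have hpp : 0 ≤ ppF Φ p0 z := hp.le.trans (pp_ge Φ p0 z)
  obtain ⟨M1, -⟩ := hModel
  obtain ⟨m1, -, m3, -⟩ := M1 _ _ h0 h0 m
  refine (norm_add_le _ _).trans (add_le_add ((norm_add_le _ _).trans ?_) ?_)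
  · rw [norm_mul]
  · rw [norm_mul, norm_mul, Complex.norm_real, Real.norm_of_nonneg hpp, mul_assoc]
    apply mul_le_mul_of_nonneg_left _ hpp
    have : ‖x - z - σ * en (etaF Φ z) m‖ ≤ ‖x - z‖ + σ * etaF Φ z := by
      refine (norm_sub_le _ _).trans ?_
      rw [norm_mul, Complex.norm_real, Real.norm_of_nonneg hσ.le]
      gcongr
    calc ‖al (etaF Φ z) m‖ * ‖x - z - σ * en (etaF Φ z) m‖ ≤ 1 * ‖x - z - σ * en (etaF Φ z) m‖ := by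
          gcongr
      _ ≤ _ := by rw [one_mul]; exact this

theorem face_bd {hModel : SpecModel} {k n : ℤ} (hk : 0 ≤ k) (hk' : k < Q) (hn : -N - 1 ≤ n)
    (hn' : n ≤ N) (x : ℂ) (hx : ‖x - zt σ k (mm k n)‖ ≤ 3 * Em * σ) :
    ‖aa Φ p0 σ Q k n * x + bb Φ p0 σ Q k n‖ ≤ 2 * δ := by
  have nk : ¬ k < 0 := by omega
  have nq : ¬ Q ≤ k := by omega
  have hσ := X.hσ
  have hE := X.hEm
  have hm := mm_bd k n
  have hz := X.zt_mem (k := k) (n := mm k n) (by omega) (by omega) (by omega) (by omega)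
  rw [aa, bb, if_neg nk, if_neg nq, if_neg nk, if_neg nq]
  refine (X.tile_bd (hModel := hModel) _ _ _).trans ?_
  have h1 := Φ.bV _ hz
  have h2 := X.hbd _ hz
  have h3 := X.hE _ hz
  have hpp : 0 ≤ ppF Φ p0 (zt σ k (mm k n)) := X.hp0.le.trans (pp_ge Φ p0 _)
  have t1 : ‖dz Φ.V (zt σ k (mm k n))‖ * ‖x - zt σ k (mm k n)‖ ≤
      ‖dz Φ.V (zt σ k (mm k n))‖ * (4 * Em * σ) := by
    gcongr
    nlinarith
  have t2 : ppF Φ p0 (zt σ k (mm k n)) * (‖x - zt σ k (mm k n)‖ + σ * etaF Φ (zt σ k (mm k n))) ≤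
      ppF Φ p0 (zt σ k (mm k n)) * (4 * Em * σ) := by
    gcongr
    have : σ * etaF Φ (zt σ k (mm k n)) ≤ σ * Em := by gcongr
    linarith
  linarith

end Ctx

/-- CHOICE: the parameters can be chosen -/
def SpecChoice : Prop := ∀ (L δ : ℝ) (Φ : Fields L δ), 1 ≤ L → 0 < δ → δ ≤ 1 →
  ∃ Em p0 : ℝ, ∀ τ : ℝ, 0 < τ → ∃ (ρ ε σ : ℝ) (Q N : ℤ), Ctx Φ Em p0 ρ ε σ τ Q N ∧
    ∑ k ∈ Finset.Icc 0 Q, ∑ n ∈ Finset.Icc (-N) N, 10 * et Φ σ k n * σ *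
      (σ * (2 * ‖dzb Φ.V (zt σ k n)‖ + 10 * ppF Φ p0 (zt σ k n) * et Φ σ k n)) ≤ 10 ^ 7 * δ

end DiscM
end H
end MP1707
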